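import Mathlib

/-! Switching systems on a circuit: some state is unbalanced. -/

set_option autoImplicit false

namespace Pool.Agent.Lib.MP_a48b5a_co.F4

open Finset

section Seg
variable {Γ : Type} [Group Γ]

/-- product of the first `k` letters -/
def pre (g : ℕ → Γ) : ℕ → Γ
  | 0 => 1
  | k + 1 => pre g k * g k

/-- product of the letters in positions `x, …, y - 1` -/
def seg (g : ℕ → Γ) (x y : ℕ) : Γ := (pre g x)⁻¹ * pre g y

theorem seg_self (g : ℕ → Γ) (x : ℕ) : seg g x x = 1 := inv_mul_cancel _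

theorem seg_succ (g : ℕ → Γ) (x y : ℕ) : seg g x (y + 1) = seg g x y * g y := by
  simp [seg, pre, mul_assoc]

theorem seg_mul (g : ℕ → Γ) (x y z : ℕ) : seg g x y * seg g y z = seg g x z := by
  simp [seg, mul_assoc]

theorem seg_map {Δ : Type} [Group Δ] (φ : Γ →* Δ) {g : ℕ → Γ} {g' : ℕ → Δ} {x y : ℕ} (hxy : x ≤ y)
    (h : ∀ i, x ≤ i → i < y → g' i = φ (g i)) : seg g' x y = φ (seg g x y) := by
  induction y, hxy using Nat.le_induction with
  | base => simp [seg_self]
  | succ y hy ih =>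
    rw [seg_succ, seg_succ, map_mul, ih fun i h1 h2 => h i h1 (by omega), h y hy (by omega)]

theorem seg_congr {g g' : ℕ → Γ} {x y : ℕ} (hxy : x ≤ y) (h : ∀ i, x ≤ i → i < y → g' i = g i) :
    seg g' x y = seg g x y := seg_map (MonoidHom.id Γ) hxy h

theorem seg_const {g : ℕ → Γ} {a : Γ} {x y : ℕ} (hxy : x ≤ y) (h : ∀ i, x ≤ i → i < y → g i = a) :
    seg g x y = a ^ (y - x) := by
  induction y, hxy using Nat.le_induction with
  | base => simp [seg_self]
  | succ y hy ih =>
    rw [seg_succ, ih fun i h1 h2 => h i h1 (by omega), h y hy (by omega), ← pow_succ]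
    congr 1
    omega

open Classical in
/-- A non-crossing partition into classes of powers of one element with exponent sum zero. -/
theorem noncross {n : ℕ} (γ : ℕ → Γ) (ε : ℕ → ℤ) (r : ℕ → ℕ → Prop) (hr : Equivalence r)
    (nc : ∀ i k j l, i < k → k < j → j < l → r i j → r k l → r i k)
    (ty : ∀ i j, i < j → j < n → r i j → γ j = γ i)
    (su : ∀ i, ∑ j ∈ (range n).filter (r i), ε j = 0) (d : ℕ) :
    ∀ u v, v = u + d → v ≤ n → (∀ i j, u ≤ i → i < v → j < n → r i j → u ≤ j ∧ j < v) →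
      seg (fun i => γ i ^ ε i) u v = 1 := by
  induction d using Nat.strong_induction_on with
  | _ d ih =>
  intro u v hd hv hc
  rcases Nat.eq_zero_or_pos d with rfl | hd0
  · rw [hd]; exact seg_self _ _
  have key : ∀ m, u ≤ m → m ≤ v → (m = v ∨ r u m) →
      seg (fun i => γ i ^ ε i) u m = γ u ^ ∑ j ∈ (range m).filter (r u), ε j := by
    intro m
    induction m using Nat.strong_induction_on with
    | _ m ihm =>
    intro h1 h2 h3
    rcases h1.eq_or_lt with rfl | h1
    · rw [seg_self, Finset.sum_eq_zero, zpow_zero]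
      intro j hj
      have := mem_range.1 (mem_filter.1 hj).1
      have := hc u j le_rfl (by omega) (by omega) (mem_filter.1 hj).2
      omega
    obtain ⟨k, hk, hmax⟩ := exists_max_image ((range m).filter (r u)) id
      ⟨u, mem_filter.2 ⟨mem_range.2 h1, hr.refl u⟩⟩
    obtain ⟨hkm, hk⟩ := mem_filter.1 hk
    rw [mem_range] at hkm
    have hmax' : ∀ i, k < i → i < m → ¬ r u i := fun i h4 h5 h6 =>
      absurd (hmax i (mem_filter.2 ⟨mem_range.2 h5, h6⟩)) (not_le.2 h4)
    have huk := (hc u k le_rfl (by omega) (by omega) hk).1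
    have gap : seg (fun i => γ i ^ ε i) (k + 1) m = 1 := by
      refine ih (m - (k + 1)) (by omega) _ _ (by omega) (by omega) fun i j h4 h5 h6 h7 => ?_
      have h8 := hc i j (by omega) (by omega) h6 h7
      have h9 : ¬ r u j := fun h => hmax' i h4 h5 (hr.trans h (hr.symm h7))
      have hju : j ≠ u := fun e => h9 (e ▸ hr.refl u)
      have hjk : j ≠ k := fun e => h9 (e ▸ hk)
      constructor
      · by_contra hlt
        exact h9 (nc u j k i (by omega) (by omega) h4 hk (hr.symm h7))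
      · by_contra hlt
        have hm : r u m := h3.resolve_left (by omega)
        have hjm : j ≠ m := fun e => h9 (e ▸ hm)
        exact hmax' i h4 h5 (hr.trans hk
          (nc k i m j h4 h5 (by omega) (hr.trans (hr.symm hk) hm) h7))
    have hγ : γ k = γ u := by
      rcases huk.eq_or_lt with e | h
      · rw [e]
      · exact ty u k h (by omega) hk
    have hs : (range m).filter (r u) = insert k ((range k).filter (r u)) := by
      ext j
      simp only [mem_filter, mem_range, mem_insert]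
      constructor
      · rintro ⟨h4, h5⟩
        by_cases e : j = k
        · exact Or.inl e
        · refine Or.inr ⟨?_, h5⟩
          by_contra hlt
          exact hmax' j (by omega) h4 h5
      · rintro (rfl | ⟨h4, h5⟩)
        · exact ⟨hkm, hk⟩
        · exact ⟨by omega, h5⟩
    rw [← seg_mul _ u (k + 1) m, gap, mul_one, seg_succ, ihm k hkm huk (by omega) (Or.inr hk), hs,
      sum_insert (by simp), hγ, add_comm, zpow_add]
  rw [key v (by omega) le_rfl (Or.inl rfl)]
  have : (range v).filter (r u) = (range n).filter (r u) := by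
    ext j
    simp only [mem_filter, mem_range]
    exact ⟨fun h => ⟨by omega, h.2⟩, fun h => ⟨(hc u j le_rfl (by omega) h.1 h.2).2, h.2⟩⟩
  rw [this, su, zpow_zero]

end Seg

/-- the automorphism exchanging the two generators -/
def sw : FreeGroup (ZMod 2) →* FreeGroup (ZMod 2) := FreeGroup.map (· + 1)

theorem sw_fix {x : FreeGroup (ZMod 2)} (h : sw x = x) : x = 1 := by
  have h1 : FreeGroup.IsReduced (x.toWord.map fun l => (l.1 + 1, l.2)) := by
    have := FreeGroup.isReduced_toWord (x := x)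
    unfold FreeGroup.IsReduced at this ⊢
    rw [List.isChain_map]
    exact this.imp fun a b hab e => hab (add_right_cancel e)
  have h2 : x.toWord.map (fun l => (l.1 + 1, l.2)) = x.toWord := by
    rw [← h1.reduce_eq, ← FreeGroup.toWord_mk, ← FreeGroup.map.mk (f := (· + 1)),
      FreeGroup.mk_toWord]
    exact congrArg _ h
  rw [← FreeGroup.toWord_eq_nil_iff]
  cases hw : x.toWord with
  | nil => rfl
  | cons l L =>
    rw [hw] at h2
    have h3 : l.1 + 1 = l.1 := congrArg Prod.fst (List.cons.inj h2).1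
    simp at h3

/-- the sign of a residue -/
def sg (a : ZMod 2) : ℤ := if a = 0 then 1 else -1

theorem sg_add_one : ∀ a, sg (a + 1) = -sg a := by decide

theorem sg_ne : ∀ a, sg a ≠ 0 := by decide

/-- An abstract system of switches along a circuit with `n` edges. -/
structure Sys (T : Type) (n : ℕ) where
  ok : T → T → Prop
  R : T → ℕ → ℕ → Prop
  w : T → ℕ → ZMod 2
  ok_symm : ∀ x y, ok x y → ok y x
  R_symm : ∀ y u v, R y u v → R y v u
  R_zero : ∀ y, R y 0 n
  switch : ∀ x y u v, ok x y → u ≤ v → v ≤ n → R y u v →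
    ∃ x', ok x' y ∧ ∀ i < n, w x' i = if u ≤ i ∧ i < v then w x i + 1 else w x i
  cut : ∀ x y i j, ok x y → i < j → j < n →
    (∀ p q, i < p → p ≤ j → q ≤ n → R y p q → i < q ∧ q ≤ j) → w y i = w y j

namespace Sys

variable {T : Type} {n : ℕ} (S : Sys T n)

/-- the word of a state -/
def wd (x y : T) (i : ℕ) : FreeGroup (ZMod 2) := FreeGroup.of (S.w x i) ^ sg (S.w y i)

variable (bal : ∀ x y, S.ok x y → ∑ i ∈ range n, sg (S.w y i) = 0)
include bal

open Classical in
theorem cls (x : T) (i₀ : ℕ) (P : Finset (ℕ × ℕ))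
    (hP : ∀ p ∈ P, p.1 ≤ p.2 ∧ p.2 ≤ n ∧ S.R x p.1 p.2) : ∀ y, S.ok x y →
      ∑ j ∈ (range n).filter (fun j => ∀ p ∈ P, p.1 ≤ i₀ ∧ i₀ < p.2 ↔ p.1 ≤ j ∧ j < p.2),
        sg (S.w y j) = 0 := by
  induction P using Finset.induction_on with
  | empty => intro y h; simpa using bal x y h
  | insert p P _ ih =>
    intro y h
    have ih' := ih fun q hq => hP q (mem_insert_of_mem hq)
    obtain ⟨h1, h2, h3⟩ := hP p (mem_insert_self _ _)
    obtain ⟨y', h4, h5⟩ := S.switch y x _ _ (S.ok_symm _ _ h) h1 h2 h3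
    have e1 := ih' y h
    have e2 := ih' y' (S.ok_symm _ _ h4)
    set A := (range n).filter fun j => ∀ p ∈ P, p.1 ≤ i₀ ∧ i₀ < p.2 ↔ p.1 ≤ j ∧ j < p.2 with hA
    rw [← sum_filter_add_sum_filter_not A fun j => p.1 ≤ j ∧ j < p.2] at e1 e2
    have e3 : ∑ j ∈ A.filter (fun j => p.1 ≤ j ∧ j < p.2), sg (S.w y' j) =
        -∑ j ∈ A.filter (fun j => p.1 ≤ j ∧ j < p.2), sg (S.w y j) := by
      rw [← sum_neg_distrib]
      refine sum_congr rfl fun j hj => ?_
      rw [h5 j (mem_range.1 (mem_filter.1 (mem_filter.1 hj).1).1), if_pos (mem_filter.1 hj).2,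
        sg_add_one]
    have e4 : ∑ j ∈ A.filter (fun j => ¬ (p.1 ≤ j ∧ j < p.2)), sg (S.w y' j) =
        ∑ j ∈ A.filter (fun j => ¬ (p.1 ≤ j ∧ j < p.2)), sg (S.w y j) := by
      refine sum_congr rfl fun j hj => ?_
      rw [h5 j (mem_range.1 (mem_filter.1 (mem_filter.1 hj).1).1), if_neg (mem_filter.1 hj).2]
    simp only [forall_mem_insert]
    by_cases h0 : p.1 ≤ i₀ ∧ i₀ < p.2
    · have : ∑ j ∈ A.filter (fun j => p.1 ≤ j ∧ j < p.2), sg (S.w y j) = 0 := by omega
      rw [← this, hA, filter_filter]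
      exact sum_congr (filter_congr fun j _ => by tauto) fun _ _ => rfl
    · have : ∑ j ∈ A.filter (fun j => ¬ (p.1 ≤ j ∧ j < p.2)), sg (S.w y j) = 0 := by omega
      rw [← this, hA, filter_filter]
      exact sum_congr (filter_congr fun j _ => by tauto) fun _ _ => rfl

theorem whole {x y : T} (h : S.ok x y) : seg (S.wd x y) 0 n = 1 := by
  classical
  set P := (range (n + 1) ×ˢ range (n + 1)).filter fun p => p.1 ≤ p.2 ∧ S.R x p.1 p.2 with hP
  have hm : ∀ u v, u ≤ v → v ≤ n → S.R x u v → (u, v) ∈ P := fun u v h1 h2 h3 =>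
    mem_filter.2 ⟨mem_product.2 ⟨mem_range.2 (by simp; omega), mem_range.2 (by simp; omega)⟩, h1, h3⟩
  refine noncross (n := n) (fun i => FreeGroup.of (S.w x i)) (fun i => sg (S.w y i))
    (fun i j => ∀ p ∈ P, p.1 ≤ i ∧ i < p.2 ↔ p.1 ≤ j ∧ j < p.2)
    ⟨fun _ _ _ => Iff.rfl, fun h p hp => (h p hp).symm,
      fun h h' p hp => (h p hp).trans (h' p hp)⟩
    (fun i k j l h1 h2 h3 h4 h5 p hp => ?_) (fun i j h1 h2 h3 => ?_) (fun i => ?_) n 0 n
    (by omega) le_rfl fun i j _ _ hj _ => ⟨Nat.zero_le _, hj⟩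
  · have := h4 p hp
    have := h5 p hp
    omega
  · rw [S.cut y x i j (S.ok_symm _ _ h) h1 h2 fun p q h4 h5 h6 h7 => ?_]
    rcases le_total p q with hpq | hpq
    · have := h3 _ (hm p q hpq h6 h7)
      dsimp only at this
      omega
    · have := h3 _ (hm q p hpq (by omega) (S.R_symm _ _ _ h7))
      dsimp only at this
      omega
  · convert S.cls bal x i P (fun p hp => ⟨(mem_filter.1 hp).2.1,
      Nat.lt_succ_iff.1 (mem_range.1 (mem_product.1 (mem_filter.1 hp).1).2),
      (mem_filter.1 hp).2.2⟩) y h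

omit bal in
theorem switch_wd {x y : T} {u v : ℕ} (h : S.ok x y) (huv : u ≤ v) (hv : v ≤ n) (hR : S.R y u v) :
    ∃ x', S.ok x' y ∧ (∀ a b, u ≤ a → a ≤ b → b ≤ v → seg (S.wd x' y) a b = sw (seg (S.wd x y) a b)) ∧
      ∀ a b, a ≤ b → b ≤ n → b ≤ u ∨ v ≤ a → seg (S.wd x' y) a b = seg (S.wd x y) a b := by
  obtain ⟨x', h1, h2⟩ := S.switch x y u v h huv hv hR
  refine ⟨x', h1, fun a b h3 h4 h5 => seg_map sw h4 fun i h6 h7 => ?_,
    fun a b h3 h4 h5 => seg_congr h3 fun i h6 h7 => ?_⟩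
  · rw [wd, wd, h2 i (by omega), if_pos (by omega), map_zpow]
    simp [sw]
  · rw [wd, wd, h2 i (by omega), if_neg (by omega)]

theorem chord {x y : T} {u v : ℕ} (h : S.ok x y) (huv : u ≤ v) (hv : v ≤ n) (hR : S.R y u v) :
    seg (S.wd x y) u v = 1 := by
  obtain ⟨x', h1, h2, h3⟩ := S.switch_wd h huv hv hR
  have e1 := S.whole bal h
  have e2 := S.whole bal h1
  rw [← seg_mul _ 0 u n, ← seg_mul _ u v n] at e1 e2
  rw [h3 0 u (Nat.zero_le _) (by omega) (Or.inl le_rfl), h3 v n hv le_rfl (Or.inr le_rfl),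
    h2 u v le_rfl huv le_rfl, ← e1] at e2
  exact sw_fix (mul_right_cancel (mul_left_cancel e2))

theorem cross {x y : T} {u v p q : ℕ} (h : S.ok x y) (hup : u ≤ p) (hpv : p ≤ v) (hv : v ≤ n)
    (hq : q ≤ n) (hR : S.R y u v) (hR' : S.R y p q) (ho : q ≤ u ∨ v ≤ q) :
    seg (S.wd x y) u p = 1 := by
  obtain ⟨x', h1, h2, h3⟩ := S.switch_wd h (hup.trans hpv) hv hR
  rcases ho with ho | ho
  · have e1 := S.chord bal h (ho.trans hup) (hpv.trans hv) (S.R_symm _ _ _ hR')
    have e2 := S.chord bal h1 (ho.trans hup) (hpv.trans hv) (S.R_symm _ _ _ hR')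
    rw [← seg_mul _ q u p] at e1 e2
    rw [h3 q u ho (by omega) (Or.inl le_rfl), h2 u p le_rfl hup hpv, ← e1] at e2
    exact sw_fix (mul_left_cancel e2)
  · have e1 := S.chord bal h (hpv.trans ho) hq hR'
    have e2 := S.chord bal h1 (hpv.trans ho) hq hR'
    rw [← seg_mul _ p v q] at e1 e2
    rw [h3 v q ho hq (Or.inr le_rfl), h2 p v hup hpv le_rfl, ← e1] at e2
    have e3 := S.chord bal h (hup.trans hpv) hv hR
    rwa [← seg_mul _ u p v, sw_fix (mul_right_cancel e2), mul_one] at e3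

omit bal in
theorem mono (x y : T) {u p : ℕ} (hup : u < p) (h : ∀ i, u ≤ i → i < p → S.w y i = S.w y u) :
    seg (S.wd x y) u p ≠ 1 := by
  intro h1
  have h2 := seg_map (FreeGroup.lift fun _ : ZMod 2 => Multiplicative.ofAdd (1 : ℤ))
    (g := S.wd x y) (g' := fun _ => Multiplicative.ofAdd (sg (S.w y u))) hup.le fun i h3 h4 => by
      rw [wd, map_zpow, FreeGroup.lift_apply_of, h i h3 h4, ← ofAdd_zsmul]
      simp
  rw [h1, map_one, seg_const hup.le fun _ _ _ => rfl, ← ofAdd_nsmul, ofAdd_eq_one] at h2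
  rcases smul_eq_zero.1 h2 with h3 | h3
  · omega
  · exact sg_ne _ h3

theorem absurd_bal (hn : 0 < n) {x y : T} (h : S.ok x y) : False := by
  classical
  have ex : ∃ d, ∃ u v, v = u + d ∧ u < v ∧ v ≤ n ∧ S.R y u v :=
    ⟨n, 0, n, by omega, hn, le_rfl, S.R_zero y⟩
  obtain ⟨u, v, hd, huv, hv, hR⟩ := Nat.find_spec ex
  have hmin : ∀ a b, a < b → b ≤ n → S.R y a b → v - u ≤ b - a := fun a b h1 h2 h3 => by
    have := Nat.find_min' ex (m := b - a) ⟨a, b, by omega, h1, h2, h3⟩
    omega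
  have ex2 : ∃ p, u < p ∧ (p = v ∨ S.w y p ≠ S.w y u) := ⟨v, huv, Or.inl rfl⟩
  obtain ⟨hup, hp⟩ := Nat.find_spec ex2
  have hpv : Nat.find ex2 ≤ v := Nat.find_min' ex2 ⟨huv, Or.inl rfl⟩
  have hc : ∀ i, u ≤ i → i < Nat.find ex2 → S.w y i = S.w y u := fun i h1 h2 => by
    rcases h1.eq_or_lt with e | h1
    · rw [e]
    · by_contra hne
      exact Nat.find_min ex2 h2 ⟨h1, Or.inr hne⟩
  generalize Nat.find ex2 = p at hup hp hpv hc
  refine S.mono x y hup hc ?_
  rcases hpv.eq_or_lt with e | hpv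
  · rw [e]; exact S.chord bal h huv.le hv hR
  have hne := hp.resolve_left hpv.ne
  obtain ⟨q, hq, hqp, hR'⟩ : ∃ q, q ≤ n ∧ q ≠ p ∧ S.R y p q := by
    by_contra hno
    push Not at hno
    refine hne ((S.cut x y (p - 1) p h (by omega) (by omega) fun a b h1 h2 h3 h4 => ?_).symm.trans
      (hc _ (by omega) (by omega)))
    obtain rfl : a = p := by omega
    by_cases e : b = a
    · omega
    · exact absurd h4 (hno b h3 e)
  refine S.cross bal h hup.le hpv.le hv hq hR hR' ?_
  rcases lt_or_gt_of_ne hqp with h1 | h1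
  · have := hmin q p h1 (by omega) (S.R_symm _ _ _ hR')
    omega
  · have := hmin p q h1 hq hR'
    omega

omit bal in
theorem unbalanced (hn : 0 < n) {x y : T} (h : S.ok x y) :
    ∃ x y, S.ok x y ∧ ∑ i ∈ range n, sg (S.w y i) ≠ 0 := by
  by_contra hno
  push Not at hno
  exact S.absurd_bal hno hn h

end Sys

end Pool.Agent.Lib.MP_a48b5a_co.F4
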