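import Pool.Agent.Lib.MP_a48b5a_co.F4Core

/-! Pairs of even subgraphs that cover everything outside a circuit. -/

set_option autoImplicit false
set_option linter.unusedSectionVars false

namespace Pool.Agent.Lib.MP_a48b5a_co.F4

open Finset

variable {V E : Type} [Fintype V] [DecidableEq V] [Fintype E] [DecidableEq E]

/-- the incidence of an edge with a vertex, modulo two -/
def inc (s t : E → V) (e : E) (p : V) : ZMod 2 :=
  (if s e = p then 1 else 0) + (if t e = p then 1 else 0)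

/-- the boundary modulo two -/
def bdy (s t : E → V) (x : E → ZMod 2) (p : V) : ZMod 2 := ∑ e, x e * inc s t e p

theorem bdy_add (s t : E → V) (x y : E → ZMod 2) (p : V) :
    bdy s t (x + y) p = bdy s t x p + bdy s t y p := by
  simp [bdy, add_mul, sum_add_distrib]

theorem bdy_single (s t : E → V) (e : E) (p : V) : bdy s t (Pi.single e 1) p = inc s t e p := by
  simp [bdy, Pi.single_apply]

theorem two_eq : ∀ a : ZMod 2, a + a = 0 := by decide

theorem z2_cases : ∀ a : ZMod 2, a = 0 ∨ a = 1 := by decide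

theorem sum_bdy (s t : E → V) (x : E → ZMod 2) (X : Finset V) :
    ∑ p ∈ X, bdy s t x p =
      ∑ e, x e * ((if s e ∈ X then 1 else 0) + (if t e ∈ X then 1 else 0)) := by
  unfold bdy inc
  rw [sum_comm]
  refine sum_congr rfl fun e _ => ?_
  rw [← mul_sum, sum_add_distrib, sum_ite_eq, sum_ite_eq]

/-- A circuit with vertices `v 0, …, v (n - 1)` and edges `c 0, …, c (n - 1)`. -/
structure Circ (s t : E → V) (n : ℕ) (v : ℕ → V) (c : ℕ → E) : Prop where
  vi : ∀ i < n, ∀ j < n, v i = v j → i = j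
  ci : ∀ i < n, ∀ j < n, c i = c j → i = j
  cl : v n = v 0
  en : ∀ i < n, (s (c i) = v i ∧ t (c i) = v (i + 1)) ∨ (s (c i) = v (i + 1) ∧ t (c i) = v i)

variable {s t : E → V} {n : ℕ} {v : ℕ → V} {c : ℕ → E}

/-- the indicator of a segment of the circuit -/
def sgm (c : ℕ → E) (a b : ℕ) : E → ZMod 2 := ∑ i ∈ Ico a b, Pi.single (c i) 1

theorem sgm_off {a b : ℕ} (hb : b ≤ n) {e : E} (he : ∀ i < n, c i ≠ e) : sgm c a b e = 0 := by
  rw [sgm, Finset.sum_apply]
  exact sum_eq_zero fun i hi => Pi.single_eq_of_ne (he i (by have := mem_Ico.1 hi; omega)).symm _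

theorem Circ.sgm_on (h : Circ s t n v c) {a b i : ℕ} (hb : b ≤ n) (hi : i < n) :
    sgm c a b (c i) = if a ≤ i ∧ i < b then 1 else 0 := by
  simp only [← mem_Ico]
  rw [sgm, Finset.sum_apply, ← sum_ite_eq (Ico a b) i fun _ => (1 : ZMod 2)]
  refine sum_congr rfl fun j hj => ?_
  have := mem_Ico.1 hj
  by_cases e : i = j
  · simp [e]
  · rw [if_neg e, Pi.single_eq_of_ne fun e' => e (h.ci i hi j (by omega) e')]

theorem Circ.bdy_sgm (h : Circ s t n v c) {a b : ℕ} (hab : a ≤ b) (hb : b ≤ n) (p : V) :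
    bdy s t (sgm c a b) p = (if v a = p then 1 else 0) + (if v b = p then 1 else 0) := by
  induction b, hab using Nat.le_induction with
  | base => rw [two_eq]; simp [sgm, bdy]
  | succ b hab ih =>
    rw [sgm, sum_Ico_succ_top hab, bdy_add, ← sgm, ih (by omega), bdy_single, inc]
    have := two_eq (if v b = p then 1 else 0)
    rcases h.en b (by omega) with ⟨h1, h2⟩ | ⟨h1, h2⟩ <;> rw [h1, h2] <;> linear_combination this

/-- joined by an edge outside the circuit in the support of `y` -/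
def Adj (s t : E → V) (n : ℕ) (c : ℕ → E) (y : E → ZMod 2) (p q : V) : Prop :=
  ∃ e, (∀ i < n, c i ≠ e) ∧ y e = 1 ∧ ((s e = p ∧ t e = q) ∨ (s e = q ∧ t e = p))

theorem Adj.symm {y : E → ZMod 2} {p q : V} (h : Adj s t n c y p q) : Adj s t n c y q p :=
  h.imp fun _ h => ⟨h.1, h.2.1, h.2.2.symm⟩

theorem conn_symm {y : E → ZMod 2} {p q : V} (h : Relation.ReflTransGen (Adj s t n c y) p q) :
    Relation.ReflTransGen (Adj s t n c y) q p := by
  induction h with
  | refl => exact .refl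
  | tail _ h2 ih => exact .head h2.symm ih

theorem path {y : E → ZMod 2} {p q : V} (h : Relation.ReflTransGen (Adj s t n c y) p q) :
    ∃ z : E → ZMod 2, (∀ e, z e = 0 ∨ ((∀ i < n, c i ≠ e) ∧ y e = 1)) ∧
      ∀ r, bdy s t z r = (if p = r then 1 else 0) + (if q = r then 1 else 0) := by
  induction h with
  | refl => exact ⟨0, fun _ => Or.inl rfl, fun r => by rw [two_eq]; simp [bdy]⟩
  | @tail a b _ h2 ih =>
    obtain ⟨z, h3, h4⟩ := ih
    obtain ⟨e, h5, h6, h7⟩ := h2
    refine ⟨z + Pi.single e 1, fun e' => ?_, fun r => ?_⟩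
    · by_cases he : e' = e
      · exact Or.inr (he ▸ ⟨h5, h6⟩)
      · simpa [he] using h3 e'
    · rw [bdy_add, h4, bdy_single, inc]
      have := two_eq (if a = r then 1 else 0)
      rcases h7 with ⟨h1, h2⟩ | ⟨h1, h2⟩ <;> rw [h1, h2] <;> linear_combination this

theorem Circ.sum_on (h : Circ s t n v c) (F : E → ZMod 2)
    (hF : ∀ e, (∀ i < n, c i ≠ e) → F e = 0) : ∑ e, F e = ∑ i ∈ range n, F (c i) := by
  rw [← sum_image (f := F) fun i hi j hj => h.ci i (mem_range.1 hi) j (mem_range.1 hj)]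
  refine (sum_subset (subset_univ _) fun e _ he => hF e fun i hi e' => he ?_).symm
  exact mem_image.2 ⟨i, mem_range.2 hi, e'⟩

/-- two even subgraphs covering all edges outside the circuit -/
def Ok (s t : E → V) (n : ℕ) (c : ℕ → E) (x y : E → ZMod 2) : Prop :=
  (∀ p, bdy s t x p = 0) ∧ (∀ p, bdy s t y p = 0) ∧ ∀ e, (∀ i < n, c i ≠ e) → x e = 1 ∨ y e = 1

theorem Circ.cut (h : Circ s t n v c) {y : E → ZMod 2} (hy : ∀ p, bdy s t y p = 0) {i j : ℕ}
    (hij : i < j) (hj : j < n) (hc : ∀ p q, i < p → p ≤ j → q ≤ n →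
      Relation.ReflTransGen (Adj s t n c y) (v p) (v q) → i < q ∧ q ≤ j) : y (c i) = y (c j) := by
  classical
  set X : Finset V := univ.filter fun r =>
    ∃ p, i < p ∧ p ≤ j ∧ Relation.ReflTransGen (Adj s t n c y) (v p) r with hX
  have hm : ∀ q, q ≤ n → (v q ∈ X ↔ i < q ∧ q ≤ j) := fun q hq => by
    rw [hX, mem_filter]
    exact ⟨fun ⟨_, p, h1, h2, h3⟩ => hc p q h1 h2 hq h3,
      fun h1 => ⟨mem_univ _, q, h1.1, h1.2, .refl⟩⟩
  have hcl : ∀ a b, Adj s t n c y a b → a ∈ X → b ∈ X := fun a b hab ha => by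
    obtain ⟨-, p, h1, h2, h3⟩ := mem_filter.1 ha
    exact mem_filter.2 ⟨mem_univ _, p, h1, h2, h3.tail hab⟩
  have h0 := sum_bdy s t y X
  rw [sum_eq_zero fun p _ => hy p, h.sum_on] at h0
  · have h1 : ∀ k ∈ range n, y (c k) * ((if s (c k) ∈ X then 1 else 0) +
        (if t (c k) ∈ X then 1 else 0)) =
        (if i = k then y (c k) else 0) + (if j = k then y (c k) else 0) := by
      intro k hk
      have hk' := mem_range.1 hk
      have h2 := hm k hk'.le
      have h3 := hm (k + 1) hk'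
      have h4 := two_eq 1
      rcases h.en k hk' with ⟨e1, e2⟩ | ⟨e1, e2⟩ <;> rw [e1, e2] <;> simp only [h2, h3] <;>
        split_ifs <;> first | omega | simp [h4]
    rw [sum_congr rfl h1, sum_add_distrib, sum_ite_eq, sum_ite_eq, if_pos (mem_range.2 hj),
      if_pos (mem_range.2 (hij.trans hj))] at h0
    linear_combination two_eq (y (c i)) + h0
  · intro e he
    rcases z2_cases (y e) with h1 | h1
    · rw [h1, zero_mul]
    · have h2 : s e ∈ X ↔ t e ∈ X :=
        ⟨hcl _ _ ⟨e, he, h1, Or.inl ⟨rfl, rfl⟩⟩, hcl _ _ ⟨e, he, h1, Or.inr ⟨rfl, rfl⟩⟩⟩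
      simp only [h2]
      rw [two_eq, mul_zero]

/-- the switching system of a circuit -/
def Circ.sys (h : Circ s t n v c) : Sys (E → ZMod 2) n where
  ok := Ok s t n c
  R y a b := Relation.ReflTransGen (Adj s t n c y) (v a) (v b)
  w x i := x (c i)
  ok_symm _ _ h := ⟨h.2.1, h.1, fun e he => (h.2.2 e he).symm⟩
  R_symm _ _ _ h := conn_symm h
  R_zero _ := by rw [h.cl]
  cut _ _ _ _ ho := h.cut ho.2.1
  switch x y a b ho hab hb hR := by
    obtain ⟨z, h1, h2⟩ := path hR
    refine ⟨x + z + sgm c a b, ⟨fun p => ?_, ho.2.1, fun e he => ?_⟩, fun i hi => ?_⟩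
    · rw [bdy_add, bdy_add, ho.1, h2, h.bdy_sgm hab hb, zero_add, two_eq]
    · rcases h1 e with h3 | h3
      · simpa [h3, sgm_off hb he] using ho.2.2 e he
      · exact Or.inr h3.2
    · have h3 : z (c i) = 0 := (h1 _).resolve_right fun h4 => h4.1 i hi rfl
      simp only [Pi.add_apply, h3, h.sgm_on hb hi]
      split_ifs <;> simp

/-- A set that is even outside the circuit can be corrected on the circuit. -/
theorem Circ.extend (h : Circ s t n v c) (hn : 0 < n) (x : E → ZMod 2)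
    (hx : ∀ p, (∀ i < n, v i ≠ p) → bdy s t x p = 0) :
    ∃ x' : E → ZMod 2, (∀ p, bdy s t x' p = 0) ∧ ∀ e, (∀ i < n, c i ≠ e) → x' e = x e := by
  have key : ∀ k, k < n → ∃ x' : E → ZMod 2,
      (∀ p, (∀ i, k ≤ i → i < n → v i ≠ p) → bdy s t x' p = 0) ∧
        ∀ e, (∀ i < n, c i ≠ e) → x' e = x e := by
    intro k
    induction k with
    | zero => exact fun _ => ⟨x, fun p hp => hx p fun i => hp i (Nat.zero_le _), fun _ _ => rfl⟩
    | succ k ih =>
      intro hk
      obtain ⟨x', h1, h2⟩ := ih (by omega)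
      have h3 : ∀ p, (∀ i, k + 1 ≤ i → i < n → v i ≠ p) → v k ≠ p → bdy s t x' p = 0 :=
        fun p hp hkp => h1 p fun i hi hi' => by
          rcases hi.eq_or_lt with rfl | hi
          · exact hkp
          · exact hp i hi hi'
      rcases z2_cases (bdy s t x' (v k)) with h4 | h4
      · refine ⟨x', fun p hp => ?_, h2⟩
        by_cases e : v k = p
        · exact e ▸ h4
        · exact h3 p hp e
      · refine ⟨x' + sgm c k (k + 1), fun p hp => ?_, fun e he => ?_⟩
        · rw [bdy_add, h.bdy_sgm (Nat.le_succ k) hk.le, if_neg (hp _ le_rfl hk), add_zero]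
          by_cases e : v k = p
          · rw [if_pos e, ← e, h4, two_eq]
          · rw [if_neg e, h3 p hp e, add_zero]
        · rw [Pi.add_apply, sgm_off hk.le he, add_zero, h2 e he]
  obtain ⟨x', h1, h2⟩ := key (n - 1) (by omega)
  have h3 : ∀ p, p ≠ v (n - 1) → bdy s t x' p = 0 := fun p hp => h1 p fun i hi hi' => by
    obtain rfl : i = n - 1 := by omega
    exact hp.symm
  refine ⟨x', fun p => ?_, h2⟩
  by_cases e : p = v (n - 1)
  · have h4 := sum_bdy s t x' univ
    rw [sum_eq_single_of_mem _ (mem_univ (v (n - 1))) fun q _ hq => h3 q hq] at h4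
    rw [e, h4]
    simp [two_eq]
  · exact h3 p e

theorem sum_sg (w : ℕ → ZMod 2) (A : Finset ℕ) :
    ∑ i ∈ A, sg (w i) = (A.filter fun i => w i = 0).card - (A.filter fun i => w i = 1).card := by
  rw [card_filter, card_filter]
  push_cast
  rw [← sum_sub_distrib]
  refine sum_congr rfl fun i _ => ?_
  rcases z2_cases (w i) with h | h <;> simp [h, sg]

theorem card_split (w : ℕ → ZMod 2) (A : Finset ℕ) :
    (A.filter fun i => w i = 0).card + (A.filter fun i => w i = 1).card = A.card := by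
  rw [← card_filter_add_card_filter_not (s := A) fun i => w i = 0]
  congr 2
  exact filter_congr fun i _ => by rcases z2_cases (w i) with h | h <;> simp [h]

theorem Circ.flip (h : Circ s t n v c) {x y : E → ZMod 2} (ho : Ok s t n c x y) :
    ∃ x', Ok s t n c x' y ∧ ∀ A ⊆ range n,
      (A.filter fun i => x' (c i) = 0) = A.filter fun i => x (c i) = 1 := by
  obtain ⟨x', h1, h2⟩ := h.sys.switch x y 0 n ho (Nat.zero_le _) le_rfl (h.sys.R_zero y)
  refine ⟨x', h1, fun A hA => filter_congr fun i hi => ?_⟩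
  have h3 : x' (c i) = _ := h2 i (mem_range.1 (hA hi))
  rw [h3, if_pos ⟨Nat.zero_le _, mem_range.1 (hA hi)⟩]
  show x (c i) + 1 = 0 ↔ _
  rcases z2_cases (x (c i)) with h | h <;> rw [h] <;> decide

/-- The theorem modulo two. -/
theorem Circ.main (h : Circ s t n v c) (hn : 0 < n) (x y : E → ZMod 2)
    (hx : ∀ p, (∀ i < n, v i ≠ p) → bdy s t x p = 0)
    (hy : ∀ p, (∀ i < n, v i ≠ p) → bdy s t y p = 0)
    (hc : ∀ e, (∀ i < n, c i ≠ e) → x e = 1 ∨ y e = 1) :
    ∃ x y, Ok s t n c x y ∧ 2 * ((range n).filter fun i => y (c i) = 0).card < n ∧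
      4 * ((range n).filter fun i => y (c i) = 0 ∧ x (c i) = 0).card < n := by
  obtain ⟨x1, h1, h2⟩ := h.extend hn x hx
  obtain ⟨y1, h3, h4⟩ := h.extend hn y hy
  obtain ⟨x2, y2, h5, h6⟩ := h.sys.unbalanced hn (x := x1) (y := y1)
    ⟨h1, h3, fun e he => by rw [h2 e he, h4 e he]; exact hc e he⟩
  have h7 : ∑ i ∈ range n, sg (y2 (c i)) ≠ 0 := h6
  have h8 := card_split (fun i => y2 (c i)) (range n)
  rw [sum_sg fun i => y2 (c i)] at h7
  rw [card_range] at h8
  obtain ⟨y3, h9, h10⟩ : ∃ y3, Ok s t n c x2 y3 ∧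
      2 * ((range n).filter fun i => y3 (c i) = 0).card < n := by
    by_cases hlt : 2 * ((range n).filter fun i => y2 (c i) = 0).card < n
    · exact ⟨y2, h5, hlt⟩
    · obtain ⟨y3, e1, e2⟩ := h.flip (h.sys.ok_symm _ _ h5)
      exact ⟨y3, h.sys.ok_symm _ _ e1, by rw [e2 _ Subset.rfl]; omega⟩
  have h11 := card_split (fun i => x2 (c i)) ((range n).filter fun i => y3 (c i) = 0)
  by_cases hlt : 4 * ((range n).filter fun i => y3 (c i) = 0 ∧ x2 (c i) = 0).card < n
  · exact ⟨x2, y3, h9, h10, hlt⟩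
  · obtain ⟨x3, e1, e2⟩ := h.flip h9
    refine ⟨x3, y3, e1, h10, ?_⟩
    rw [← filter_filter] at hlt ⊢
    rw [e2 _ (filter_subset _ _)]
    omega

end Pool.Agent.Lib.MP_a48b5a_co.F4
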