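import Pool.Agent.Lib.MP_a48b5a_co.F4Graph

/-! Integer flows and even subgraphs. -/

set_option autoImplicit false
set_option linter.unusedSectionVars false

namespace Pool.Agent.Lib.MP_a48b5a_co.F4

open Finset

variable {V E : Type} [Fintype V] [DecidableEq V] [Fintype E] [DecidableEq E]

/-- the signed incidence of an edge with a vertex -/
def sinc (s t : E → V) (e : E) (p : V) : ℤ := (if s e = p then 1 else 0) - (if t e = p then 1 else 0)

/-- the net outflow -/
def net (s t : E → V) (g : E → ℤ) (p : V) : ℤ := ∑ e, g e * sinc s t e p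

theorem net_eq (s t : E → V) (g : E → ℤ) (p : V) :
    net s t g p = ∑ e with s e = p, g e - ∑ e with t e = p, g e := by
  simp [net, sinc, mul_sub, sum_filter]

theorem net_add (s t : E → V) (g h : E → ℤ) (p : V) :
    net s t (g + h) p = net s t g p + net s t h p := by
  simp [net, add_mul, sum_add_distrib]

theorem net_single (s t : E → V) (e : E) (a : ℤ) (p : V) :
    net s t (Pi.single e a) p = a * sinc s t e p := by
  simp [net, Pi.single_apply]

theorem bdy_cast (s t : E → V) (g : E → ℤ) (p : V) :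
    bdy s t (fun e => (g e : ZMod 2)) p = (net s t g p : ℤ) := by
  unfold bdy net
  push_cast
  refine sum_congr rfl fun e _ => ?_
  congr 1
  unfold inc sinc
  split_ifs <;> decide

theorem net_update (s t : E → V) (g : E → ℤ) (e : E) (q p : V) :
    net s (Function.update t e q) g p =
      net s t g p + g e * ((if t e = p then 1 else 0) - (if q = p then 1 else 0)) := by
  unfold net
  rw [← add_sum_erase _ _ (mem_univ e), ← add_sum_erase _ _ (mem_univ e),
    sum_congr rfl (g := fun e => g e * sinc s t e p) fun e' he' => by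
      simp [sinc, Function.update_of_ne (ne_of_mem_erase he')]]
  simp only [sinc, Function.update_self]
  ring

theorem bdy_update (s t : E → V) (z : E → ZMod 2) (e : E) (q p : V) :
    bdy s (Function.update t e q) z p =
      bdy s t z p + z e * ((if t e = p then 1 else 0) + (if q = p then 1 else 0)) := by
  unfold bdy
  rw [← add_sum_erase _ _ (mem_univ e), ← add_sum_erase _ _ (mem_univ e),
    sum_congr rfl (g := fun e => z e * inc s t e p) fun e' he' => by
      simp [inc, Function.update_of_ne (ne_of_mem_erase he')]]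
  simp only [inc, Function.update_self]
  linear_combination -z e * two_eq (if t e = p then 1 else 0)

theorem zero_of_cast {a : ℤ} (h1 : |a| ≤ 1) (h2 : (a : ZMod 2) = 0) : a = 0 := by
  rw [ZMod.intCast_zmod_eq_zero_iff_dvd] at h2
  rw [abs_le] at h1
  omega

/-- An even subgraph carries a flow with values `±1`. -/
theorem orient (s : E → V) (k : ℕ) : ∀ (t : E → V) (z : E → ZMod 2),
    (univ.filter fun e => z e = 1).card = k → (∀ p, bdy s t z p = 0) →
    ∃ g : E → ℤ, (∀ e, |g e| ≤ 1 ∧ (g e : ZMod 2) = z e) ∧ ∀ p, net s t g p = 0 := by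
  induction k with
  | zero =>
    intro t z hk _
    refine ⟨0, fun e => ⟨by simp, ?_⟩, fun p => by simp [net]⟩
    have := filter_eq_empty_iff.1 (card_eq_zero.1 hk) (mem_univ e)
    simpa using ((z2_cases (z e)).resolve_right this).symm
  | succ k ih =>
    intro t z hk hz
    have step : ∀ e, z e = 1 →
        (univ.filter fun e' => (z + Pi.single e 1 : E → ZMod 2) e' = 1).card = k := by
      intro e he
      have : (univ.filter fun e' => (z + Pi.single e 1 : E → ZMod 2) e' = 1) =
          (univ.filter fun e' => z e' = 1).erase e := by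
        ext e'
        by_cases h : e' = e
        · simp [h, he]
        · simp [h]
      rw [this, card_erase_of_mem (by simpa using he), hk]
      rfl
    have fin : ∀ (e : E) (g : E → ℤ) (a : ℤ), z e = 1 → |a| ≤ 1 → (a : ZMod 2) = 1 →
        (∀ e', |g e'| ≤ 1 ∧ (g e' : ZMod 2) = (z + Pi.single e 1 : E → ZMod 2) e') →
        ∀ e', |(g + Pi.single e a : E → ℤ) e'| ≤ 1 ∧
          ((g + Pi.single e a : E → ℤ) e' : ZMod 2) = z e' := by
      intro e g a he h1 h2 h3 e'
      by_cases h : e' = e
      · have h4 : g e = 0 := zero_of_cast (h3 e).1 (by rw [(h3 e).2]; simp [he, two_eq])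
        simp [h, h4, h1, h2, he]
      · simpa [h] using h3 e'
    obtain ⟨e, he⟩ := card_pos.1 ((Nat.succ_pos k).trans_eq hk.symm)
    have he1 := (mem_filter.1 he).2
    by_cases hl : s e = t e
    · obtain ⟨g, h1, h2⟩ := ih t _ (step e he1) fun p => by
        rw [bdy_add, hz, bdy_single, inc, hl, two_eq, add_zero]
      exact ⟨_, fin e g 1 he1 (by simp) (by simp) h1, fun p => by
        rw [net_add, h2, net_single, sinc, hl]; simp⟩
    obtain ⟨e', hne, h0⟩ : ∃ e', e' ≠ e ∧ z e' * inc s t e' (t e) ≠ 0 := by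
      by_contra hno
      push Not at hno
      have h1 := hz (t e)
      rw [bdy, sum_eq_single_of_mem e (mem_univ e) fun b _ hb => hno b hb] at h1
      simp [inc, he1, hl] at h1
    have he2 : z e' = 1 := (z2_cases _).resolve_left (left_ne_zero_of_mul h0)
    have h3 := right_ne_zero_of_mul h0
    obtain ⟨q, ε, hε, hq1, hq2⟩ : ∃ (q : V) (ε : ℤ), (ε = 1 ∨ ε = -1) ∧
        (∀ p, inc s t e' p = (if t e = p then 1 else 0) + (if q = p then 1 else 0)) ∧
        ∀ p, ε * sinc s t e' p = (if t e = p then 1 else 0) - (if q = p then 1 else 0) := by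
      by_cases h4 : s e' = t e
      · exact ⟨t e', 1, Or.inl rfl, fun p => by rw [inc, h4], fun p => by rw [sinc, h4, one_mul]⟩
      · have h5 : t e' = t e := by
          by_contra h5
          simp [inc, h4, h5] at h3
        exact ⟨s e', -1, Or.inr rfl, fun p => by rw [inc, h5, add_comm],
          fun p => by rw [sinc, h5]; ring⟩
    obtain ⟨g, h1, h2⟩ := ih (Function.update t e q) _ (step e' he2) fun p => by
      rw [bdy_update, bdy_add, hz, bdy_single, hq1, Pi.add_apply, Pi.single_eq_of_ne hne.symm, he1,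
        zero_add, add_zero, one_mul, two_eq]
    have h6 : (g e : ZMod 2) = 1 := by
      rw [(h1 e).2, Pi.add_apply, Pi.single_eq_of_ne hne.symm, he1, add_zero]
    refine ⟨_, fin e' g (g e * ε) he2 ?_ ?_ h1, fun p => ?_⟩
    · rcases hε with rfl | rfl <;> simpa using (h1 e).1
    · rcases hε with rfl | rfl <;> simp [h6]
    · rw [net_add, net_single, mul_assoc, hq2, ← net_update, h2]

variable {s t : E → V} {n : ℕ} {v : ℕ → V} {c : ℕ → E}

theorem Circ.sinc_off (h : Circ s t n v c) (hn : 0 < n) {p : V} (hp : ∀ i < n, v i ≠ p) {i : ℕ}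
    (hi : i < n) : sinc s t (c i) p = 0 := by
  have h1 := hp i hi
  have h2 : v (i + 1) ≠ p := by
    rcases (Nat.succ_le_of_lt hi).eq_or_lt with e | e
    · rw [show i + 1 = n from e, h.cl]; exact hp 0 hn
    · exact hp _ e
  rcases h.en i hi with ⟨e1, e2⟩ | ⟨e1, e2⟩ <;> simp [sinc, e1, e2, h1, h2]

theorem Circ.flow (h : Circ s t n v c) (hn : 0 < n) (g : E → ℤ)
    (hg : ∀ e, (∀ i < n, c i ≠ e) → g e ≠ 0 ∧ |g e| < 4)
    (hk : ∀ p, (∀ i < n, v i ≠ p) → net s t g p = 0) :
    ∃ f : E → ℤ, (∀ e, |f e| < 4) ∧ (∀ p, net s t f p = 0) ∧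
      (∀ e, (∀ i < n, c i ≠ e) → f e ≠ 0) ∧
      3 * n < 4 * ((range n).filter fun i => f (c i) ≠ 0).card := by
  have hx : ∀ p, (∀ i < n, v i ≠ p) → bdy s t (fun e => (g e : ZMod 2)) p = 0 := fun p hp => by
    rw [bdy_cast, hk p hp, Int.cast_zero]
  obtain ⟨x', h1, h2⟩ := h.extend hn _ hx
  obtain ⟨g1, h3, h4⟩ := orient s _ t x' rfl h1
  have h5 : ∀ e, (∀ i < n, c i ≠ e) → 2 * ((g e + g1 e) / 2) = g e + g1 e := fun e he => by
    have : ((g e + g1 e : ℤ) : ZMod 2) = 0 := by
      push_cast
      rw [(h3 e).2, h2 e he, two_eq]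
    rw [ZMod.intCast_zmod_eq_zero_iff_dvd] at this
    omega
  have hy : ∀ p, (∀ i < n, v i ≠ p) →
      bdy s t (fun e => (((g e + g1 e) / 2 : ℤ) : ZMod 2)) p = 0 := fun p hp => by
    have h6 : 2 * net s t (fun e => (g e + g1 e) / 2) p = net s t (g + g1) p := by
      rw [net, net, mul_sum]
      refine sum_congr rfl fun e _ => ?_
      by_cases he : ∀ i < n, c i ≠ e
      · rw [← mul_assoc, h5 e he, Pi.add_apply]
      · push Not at he
        obtain ⟨i, hi, rfl⟩ := he
        simp [h.sinc_off hn hp hi]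
    rw [net_add, hk p hp, h4] at h6
    rw [bdy_cast, show net s t (fun e => (g e + g1 e) / 2) p = 0 by omega, Int.cast_zero]
  obtain ⟨x, y, ⟨h6, h7, h8⟩, -, h9⟩ := h.main hn _ _ hx hy fun e he => by
    rcases z2_cases (g e : ZMod 2) with h0 | h0
    · right
      have e1 : g1 e = 0 := zero_of_cast (h3 e).1 (by rw [(h3 e).2, h2 e he, h0])
      obtain ⟨e2, e3⟩ := hg e he
      rw [ZMod.intCast_zmod_eq_zero_iff_dvd] at h0
      rw [abs_lt] at e3
      have : (g e + g1 e) / 2 = 1 ∨ (g e + g1 e) / 2 = -1 := by omega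
      rcases this with e4 | e4 <;> simp only [e4] <;> decide
    · exact Or.inl h0
  obtain ⟨a, a1, a2⟩ := orient s _ t x rfl h6
  obtain ⟨b, b1, b2⟩ := orient s _ t y rfl h7
  have hz : ∀ e, (a + (b + b) : E → ℤ) e = 0 → y e = 0 ∧ x e = 0 := fun e h0 => by
    have e1 := abs_le.1 (a1 e).1
    have e2 := abs_le.1 (b1 e).1
    simp only [Pi.add_apply] at h0
    rw [← (a1 e).2, ← (b1 e).2, show a e = 0 by omega, show b e = 0 by omega]
    simp
  refine ⟨a + (b + b), fun e => ?_, fun p => by rw [net_add, net_add, a2, b2]; rfl,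
    fun e he h0 => ?_, ?_⟩
  · have e1 := abs_le.1 (a1 e).1
    have e2 := abs_le.1 (b1 e).1
    simp only [Pi.add_apply, abs_lt]
    omega
  · obtain ⟨e1, e2⟩ := hz e h0
    rcases h8 e he with h | h
    · exact zero_ne_one (e2.symm.trans h)
    · exact zero_ne_one (e1.symm.trans h)
  · have e1 := card_filter_add_card_filter_not (s := range n)
      fun i => (a + (b + b) : E → ℤ) (c i) = 0
    have e2 := card_le_card (monotone_filter_right (range n)
      (p := fun i => (a + (b + b) : E → ℤ) (c i) = 0) (q := fun i => y (c i) = 0 ∧ x (c i) = 0)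
      fun i _ => hz (c i))
    rw [card_range] at e1
    simp only [ne_eq]
    omega

theorem bdy_ind (hl : ∀ e, s e ≠ t e) (A : Finset E) (p : V) :
    bdy s t (fun e => if e ∈ A then 1 else 0) p = 0 ↔
      Even (A.filter fun e => s e = p ∨ t e = p).card := by
  rw [← ZMod.natCast_eq_zero_iff_even, card_filter]
  push_cast
  unfold bdy
  simp only [ite_mul, one_mul, zero_mul]
  rw [sum_ite_mem, univ_inter, sum_congr rfl]
  intro e _
  have := hl e
  unfold inc
  by_cases h1 : s e = p <;> by_cases h2 : t e = p <;> simp [h1, h2]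
  exact this (h1.trans h2.symm)

theorem Circ.even (h : Circ s t n v c) (hn : 0 < n) (hl : ∀ e, s e ≠ t e) (A B : Finset E)
    (hA : ∀ p, (∀ i < n, v i ≠ p) → Even (A.filter fun e => s e = p ∨ t e = p).card ∧
      Even (B.filter fun e => s e = p ∨ t e = p).card)
    (hc : ∀ e, (∀ i < n, c i ≠ e) → e ∈ A ∪ B) :
    ∃ F G : Finset E, (∀ p, Even (F.filter fun e => s e = p ∨ t e = p).card ∧
      Even (G.filter fun e => s e = p ∨ t e = p).card) ∧
      (∀ e, (∀ i < n, c i ≠ e) → e ∈ F ∪ G) ∧
      n < 2 * ((range n).filter fun i => c i ∈ G).card ∧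
      3 * n < 4 * ((range n).filter fun i => c i ∈ F ∪ G).card := by
  obtain ⟨x, y, ⟨h6, h7, h8⟩, h9, h10⟩ := h.main hn _ _
    (fun p hp => (bdy_ind hl A p).2 (hA p hp).1) (fun p hp => (bdy_ind hl B p).2 (hA p hp).2)
    fun e he => by simpa using hc e he
  have ind : ∀ z : E → ZMod 2, (fun e => if e ∈ univ.filter (z · = 1) then 1 else 0) = z := by
    intro z
    funext e
    rcases z2_cases (z e) with h | h <;> simp [h]
  refine ⟨univ.filter (x · = 1), univ.filter (y · = 1), fun p =>
    ⟨(bdy_ind hl _ p).1 (by rw [ind]; exact h6 p), (bdy_ind hl _ p).1 (by rw [ind]; exact h7 p)⟩,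
    fun e he => by simpa using h8 e he, ?_, ?_⟩
  · have e1 := card_split (fun i => y (c i)) (range n)
    rw [card_range] at e1
    simp only [mem_filter, mem_univ, true_and]
    omega
  · have e1 := card_filter_add_card_filter_not (s := range n) fun i => y (c i) = 0 ∧ x (c i) = 0
    have e2 : ((range n).filter fun i => ¬ (y (c i) = 0 ∧ x (c i) = 0)) =
        (range n).filter fun i => c i ∈ univ.filter (x · = 1) ∪ univ.filter (y · = 1) := by
      refine filter_congr fun i _ => ?_
      rcases z2_cases (x (c i)) with h | h <;> rcases z2_cases (y (c i)) with h' | h' <;>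
        simp [h, h']
    rw [card_range, e2] at e1
    omega

end Pool.Agent.Lib.MP_a48b5a_co.F4
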