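import Pool.Agent.Lib.MP_a48b5a_co.Three

/-!
# Counting the edges in odd two-edge cuts of an Eulerian graph
-/

set_option autoImplicit false

namespace Pool.Agent.Lib.MP_a48b5a_co.H82

open Finset

variable {V E : Type*} [Fintype V] [DecidableEq V] [Fintype E] [DecidableEq E]

/-- The number of edges of `F` with exactly one end in `X`. -/
def dc (F : Finset E) (s t : E → V) (X : Finset V) : ℕ := (F.filter (cr s t X)).card

/-- The number of edges of `F` with two distinct ends in `X`. -/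
def inn (F : Finset E) (s t : E → V) (X : Finset V) : ℕ :=
  (F.filter fun e => s e ≠ t e ∧ s e ∈ X ∧ t e ∈ X).card

/-- `F` is Eulerian and contains a `T`-join. -/
structure Host (F : Finset E) (s t : E → V) (T : V → ZMod 2) : Prop where
  even : ∀ X, Even (dc F s t X)
  pos : ∀ X, ∑ v ∈ X, T v = 1 → dc F s t X ≠ 0
  tot : ∑ v, T v = 0

open Classical in
/-- The edges of `F` in odd cuts with at most two edges. -/
noncomputable def bad (F : Finset E) (s t : E → V) (T : V → ZMod 2) : Finset E :=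
  F.filter fun e => ∃ X, ∑ v ∈ X, T v = 1 ∧ cr s t X e ∧ dc F s t X ≤ 2

/-- The vertices of `T` of degree two. -/
def lv (F : Finset E) (s t : E → V) (T : V → ZMod 2) : Finset V :=
  univ.filter fun v => T v = 1 ∧ dc F s t {v} = 2

/-- The map that contracts the complement of `X` to `x`. -/
def con (X : Finset V) (x v : V) : V := if v ∈ X then v else x

/-- The preimage of a vertex set. -/
def pre (π : V → V) (Y : Finset V) : Finset V := univ.filter fun v => π v ∈ Y

/-- The push forward of `T`. -/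
def push (π : V → V) (T : V → ZMod 2) (y : V) : ZMod 2 := ∑ v ∈ pre π {y}, T v

variable {F : Finset E} {s t : E → V} {T : V → ZMod 2}

omit [Fintype E] [DecidableEq E] in
lemma cr_pre (π : V → V) (Y : Finset V) (e : E) :
    cr (π ∘ s) (π ∘ t) Y e ↔ cr s t (pre π Y) e := by simp [cr, pre]

omit [Fintype E] [DecidableEq E] in
lemma dc_pre (π : V → V) (Y : Finset V) : dc F (π ∘ s) (π ∘ t) Y = dc F s t (pre π Y) := by
  simp only [dc, cr_pre]

lemma sum_push (π : V → V) (Y : Finset V) : ∑ y ∈ Y, push π T y = ∑ v ∈ pre π Y, T v := by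
  simp only [push, pre, mem_singleton]
  exact sum_fiberwise_eq_sum_filter univ Y π T

omit [Fintype E] [DecidableEq E] in
lemma Host.map (h : Host F s t T) (π : V → V) : Host F (π ∘ s) (π ∘ t) (push π T) where
  even X := by rw [dc_pre]; exact h.even _
  pos X hX := by rw [dc_pre]; rw [sum_push] at hX; exact h.pos _ hX
  tot := by rw [sum_push, ← h.tot]; simp [pre]

lemma pre_con {X Y : Finset V} {x : V} (hx : x ∉ X) (hY : Y ⊆ X) : pre (con X x) Y = Y := by
  ext v
  rw [pre, mem_filter, con]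
  split_ifs with h
  · simp
  · exact ⟨fun h1 => absurd (hY h1.2) hx, fun h1 => absurd (hY h1) h⟩

lemma pre_con_self {X : Finset V} {x : V} (hx : x ∉ X) : pre (con X x) {x} = Xᶜ := by
  ext v
  simp only [pre, con, mem_filter, mem_univ, true_and, mem_singleton, mem_compl]
  split_ifs with h
  · exact ⟨fun h1 => absurd (h1 ▸ h) hx, fun h1 => absurd h h1⟩
  · simp [h]

lemma pre_con_other {X : Finset V} {x y : V} (hy : y ∉ X) (hxy : y ≠ x) :
    pre (con X x) {y} = ∅ := by
  ext v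
  simp only [pre, con, mem_filter, mem_univ, true_and, mem_singleton, notMem_empty, iff_false]
  split_ifs with h
  · exact fun h1 => hy (h1 ▸ h)
  · exact hxy.symm

omit [Fintype E] [DecidableEq E] in
lemma dc_compl (X : Finset V) : dc F s t Xᶜ = dc F s t X := by simp only [dc, cr_compl]

omit [Fintype V] [Fintype E] [DecidableEq E] in
lemma dc_empty : dc F s t ∅ = 0 := by simp [dc, cr]

omit [Fintype V] [Fintype E] [DecidableEq E] in
lemma dc_submod (X Y : Finset V) :
    dc F s t (X ∩ Y) + dc F s t (X ∪ Y) ≤ dc F s t X + dc F s t Y := by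
  simp only [dc, card_filter, ← sum_add_distrib]
  refine sum_le_sum fun e _ => ?_
  simp only [cr, mem_inter, mem_union]
  by_cases h1 : s e ∈ X <;> by_cases h2 : t e ∈ X <;> by_cases h3 : s e ∈ Y <;>
    by_cases h4 : t e ∈ Y <;> simp [h1, h2, h3, h4]

omit [Fintype V] [Fintype E] [DecidableEq E] in
lemma sum_dc (X : Finset V) : ∑ v ∈ X, dc F s t {v} = 2 * inn F s t X + dc F s t X := by
  simp only [dc, inn, card_filter]
  rw [sum_comm, mul_sum, ← sum_add_distrib]
  refine sum_congr rfl fun e _ => ?_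
  by_cases h0 : s e = t e
  · simp [cr, h0]
  have : ∀ v, (if cr s t {v} e then 1 else 0) =
      (if s e = v then 1 else 0) + (if t e = v then 1 else 0) := by
    intro v
    simp only [cr, mem_singleton]
    by_cases h1 : s e = v <;> by_cases h2 : t e = v
    · exact absurd (h1.trans h2.symm) h0
    all_goals simp [h1, h2]
  rw [sum_congr rfl fun v _ => this v, sum_add_distrib, sum_ite_eq, sum_ite_eq]
  by_cases h1 : s e ∈ X <;> by_cases h2 : t e ∈ X <;> simp [cr, h0, h1, h2]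

omit [Fintype E] [DecidableEq E] in
lemma Host.two_le (h : Host F s t T) {X : Finset V} (hX : ∑ v ∈ X, T v = 1) :
    2 ≤ dc F s t X := by
  have h1 := h.pos X hX
  obtain ⟨k, hk⟩ := h.even X
  omega

omit [Fintype E] [DecidableEq E] in
lemma Host.uncross (h : Host F s t T) {X Z : Finset V} (hX : ∑ v ∈ X, T v = 1)
    (hX2 : dc F s t X ≤ 2) (hZ : ∑ v ∈ Z, T v = 1) (hZ2 : dc F s t Z ≤ 2) :
    ∃ Y ⊆ X, ∑ v ∈ Y, T v = 1 ∧ dc F s t Y ≤ 2 ∧
      ∀ e, s e ∈ X → t e ∈ X → cr s t Z e → cr s t Y e := by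
  have key : ∀ Z : Finset V, ∑ v ∈ Z, T v = 1 → dc F s t Z ≤ 2 → ∑ v ∈ X ∩ Z, T v = 1 →
      dc F s t (X ∩ Z) ≤ 2 := by
    intro Z hZ hZ2 h1
    have h2 := sum_union_inter (s₁ := X) (s₂ := Z) (f := T)
    rw [hX, hZ, h1] at h2
    have h3 := h.two_le (add_right_cancel h2)
    have := dc_submod (F := F) (s := s) (t := t) X Z
    omega
  by_cases h1 : ∑ v ∈ X ∩ Z, T v = 1
  · refine ⟨X ∩ Z, inter_subset_left, h1, key Z hZ hZ2 h1, fun e a b c => ?_⟩
    simpa [cr, a, b] using c
  · have h2 : ∑ v ∈ X ∩ Zᶜ, T v = 1 := by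
      have h3 := sum_inter_add_sum_sdiff X Z T
      rw [hX, sdiff_eq_inter_compl] at h3
      have h4 : ∀ a b : ZMod 2, a + b = 1 → a ≠ 1 → b = 1 := by decide
      exact h4 _ _ h3 h1
    refine ⟨X ∩ Zᶜ, inter_subset_left, h2,
      key Zᶜ (by rw [sum_compl_eq h.tot, hZ]) (by rwa [dc_compl]) h2, fun e a b c => ?_⟩
    simp only [cr, mem_inter, a, b, true_and, mem_compl] at c ⊢
    tauto

omit [Fintype E] [DecidableEq E] in
lemma mem_bad {e : E} : e ∈ bad F s t T ↔
    e ∈ F ∧ ∃ X, ∑ v ∈ X, T v = 1 ∧ cr s t X e ∧ dc F s t X ≤ 2 := by simp [bad]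

omit [Fintype E] [DecidableEq E] in
lemma bad_con (h : Host F s t T) {X : Finset V} (hX : ∑ v ∈ X, T v = 1) (hX2 : dc F s t X ≤ 2)
    {x : V} (hx : x ∉ X) :
    (bad F s t T).filter (tch s t X) ⊆ bad F (con X x ∘ s) (con X x ∘ t) (push (con X x) T) := by
  intro e he
  obtain ⟨he1, he2⟩ := mem_filter.mp he
  obtain ⟨heF, Z, hZ, heZ, hZ2⟩ := mem_bad.mp he1
  refine mem_bad.mpr ⟨heF, ?_⟩
  by_cases hc : cr s t X e
  · exact ⟨X, by rwa [sum_push, pre_con hx subset_rfl], by rwa [cr_pre, pre_con hx subset_rfl],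
      by rwa [dc_pre, pre_con hx subset_rfl]⟩
  · obtain ⟨Y, hYX, hY, hY2, hY3⟩ := h.uncross hX hX2 hZ hZ2
    have : s e ∈ X ∧ t e ∈ X := by
      unfold cr at hc; unfold tch at he2; tauto
    exact ⟨Y, by rwa [sum_push, pre_con hx hYX],
      by rw [cr_pre, pre_con hx hYX]; exact hY3 e this.1 this.2 heZ,
      by rwa [dc_pre, pre_con hx hYX]⟩

omit [Fintype E] [DecidableEq E] in
lemma card_bad_split (h : Host F s t T) {X : Finset V} (hX : ∑ v ∈ X, T v = 1)
    (hX2 : dc F s t X ≤ 2) : (bad F s t T).card + 2 ≤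
      ((bad F s t T).filter (tch s t X)).card + ((bad F s t T).filter (tch s t Xᶜ)).card := by
  classical
  have h1 : 2 ≤ ((bad F s t T).filter (cr s t X)).card := by
    refine (h.two_le hX).trans (card_le_card fun e he => ?_)
    obtain ⟨a, b⟩ := mem_filter.mp he
    exact mem_filter.mpr ⟨mem_bad.mpr ⟨a, X, hX, b, hX2⟩, b⟩
  refine (Nat.add_le_add_left h1 _).trans ?_
  simp only [card_filter]
  rw [card_eq_sum_ones, ← sum_add_distrib, ← sum_add_distrib]
  refine sum_le_sum fun e _ => ?_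
  simp only [cr, tch, mem_compl]
  by_cases h1 : s e ∈ X <;> by_cases h2 : t e ∈ X <;> simp [h1, h2]

omit [Fintype E] [DecidableEq E] in
lemma sum_con (h : Host F s t T) {X : Finset V} (hX : ∑ v ∈ X, T v = 1) (hX2 : dc F s t X ≤ 2)
    {x : V} (hx : x ∉ X) (φ : ZMod 2 → ℕ → ℝ) (hφ : φ 0 0 = 0) :
    ∑ v, φ (push (con X x) T v) (dc F (con X x ∘ s) (con X x ∘ t) {v}) =
      ∑ v ∈ X, φ (T v) (dc F s t {v}) + φ 1 2 := by
  rw [← sum_add_sum_compl X]
  congr 1
  · refine sum_congr rfl fun v hv => ?_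
    rw [dc_pre, push, pre_con hx (singleton_subset_iff.mpr hv), sum_singleton]
  · rw [sum_eq_single x]
    · rw [dc_pre, push, pre_con_self hx, sum_compl_eq h.tot, hX, dc_compl,
        le_antisymm hX2 (h.two_le hX)]
    · intro y hy hyx
      rw [dc_pre, push, pre_con_other (mem_compl.mp hy) hyx, dc_empty, sum_empty, hφ]
    · intro h1
      exact absurd (mem_compl.mpr hx) h1

omit [Fintype E] [DecidableEq E] in
lemma inn_con_lt {X : Finset V} (x : V) (h : inn F s t Xᶜ ≠ 0) :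
    inn F (con X x ∘ s) (con X x ∘ t) univ < inn F s t univ := by
  obtain ⟨e, he⟩ := card_ne_zero.mp h
  simp only [mem_filter, mem_compl] at he
  refine card_lt_card ⟨fun f hf => ?_, fun hc => ?_⟩
  · simp only [mem_filter, mem_univ, and_true, Function.comp] at hf ⊢
    exact ⟨hf.1, fun h1 => hf.2 (by rw [h1])⟩
  · have := @hc e (by simp [he.1, he.2.1])
    simp [con, he.2.2.1, he.2.2.2] at this

omit [Fintype E] [DecidableEq E] in
lemma leaf_of_inn (h : Host F s t T) {X : Finset V} (hX : ∑ v ∈ X, T v = 1)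
    (hX2 : dc F s t X ≤ 2) (h0 : inn F s t X = 0) {e : E} (he : e ∈ F) (heX : cr s t X e) :
    s e ≠ t e ∧ tch s t (lv F s t T) e := by
  obtain ⟨v, hv, hv1⟩ : ∃ v ∈ X, T v = 1 := by
    by_contra hc
    push Not at hc
    have h4 : ∀ a : ZMod 2, a ≠ 1 → a = 0 := by decide
    rw [sum_eq_zero fun v hv => h4 _ (hc v hv)] at hX
    exact zero_ne_one hX
  have h1 : 2 ≤ dc F s t {v} := h.two_le (by simpa using hv1)
  have h2 : F.filter (cr s t {v}) ⊆ F.filter (cr s t X) := by
    intro f hf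
    obtain ⟨a, b⟩ := mem_filter.mp hf
    refine mem_filter.mpr ⟨a, ?_⟩
    have c := filter_eq_empty_iff.mp (card_eq_zero.mp h0) a
    simp only [cr, mem_singleton] at b ⊢
    by_cases h1 : s f = v <;> by_cases h2 : t f = v
    · simp [h1, h2] at b
    · rw [h1] at c ⊢
      intro d
      exact c ⟨Ne.symm h2, hv, d.mp hv⟩
    · rw [h2] at c ⊢
      intro d
      exact c ⟨h1, d.mpr hv, hv⟩
    · simp [h1, h2] at b
  have h3 := eq_of_subset_of_card_le h2 (hX2.trans h1)
  have h4 : cr s t {v} e := (mem_filter.mp (h3 ▸ mem_filter.mpr ⟨he, heX⟩ :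
    e ∈ F.filter (cr s t {v}))).2
  have h5 : v ∈ lv F s t T := mem_filter.mpr ⟨mem_univ _, hv1,
    le_antisymm ((card_le_card h2).trans hX2) h1⟩
  refine ⟨fun h6 => by simp [cr, h6] at heX, ?_⟩
  simp only [cr, mem_singleton] at h4
  by_cases h1 : s e = v
  · exact Or.inl (h1 ▸ h5)
  · exact Or.inr ((show t e = v by tauto) ▸ h5)

omit [Fintype V] [Fintype E] [DecidableEq E] in
lemma card_tch (X : Finset V) :
    (F.filter fun e => s e ≠ t e ∧ tch s t X e).card = inn F s t X + dc F s t X := by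
  simp only [dc, inn, card_filter, ← sum_add_distrib]
  refine sum_congr rfl fun e _ => ?_
  simp only [cr, tch]
  by_cases h0 : s e = t e
  · simp [h0]
  by_cases h1 : s e ∈ X <;> by_cases h2 : t e ∈ X <;> simp [h0, h1, h2]

omit [Fintype E] [DecidableEq E] in
lemma card_lv : 2 * (lv F s t T).card = 2 * inn F s t (lv F s t T) + dc F s t (lv F s t T) := by
  rw [← sum_dc, sum_congr rfl fun v hv => (mem_filter.mp hv).2.2]
  simp [mul_comm]

omit [Fintype E] [DecidableEq E] in
/-- The counting principle: induction on odd two-edge cuts. -/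
theorem bad_le_of (Φ : (E → V) → (E → V) → (V → ZMod 2) → ℝ)
    (P : (E → V) → (E → V) → (V → ZMod 2) → Prop)
    (hP : ∀ s t T X x, Host F s t T → P s t T → ∑ v ∈ X, T v = 1 → dc F s t X ≤ 2 → x ∉ X →
      P (con X x ∘ s) (con X x ∘ t) (push (con X x) T))
    (hΦ : ∀ s t T X x y, Host F s t T → P s t T → ∑ v ∈ X, T v = 1 → dc F s t X ≤ 2 → x ∉ X →
      y ∉ Xᶜ → inn F s t X ≠ 0 → inn F s t Xᶜ ≠ 0 →
      Φ (con X x ∘ s) (con X x ∘ t) (push (con X x) T) +
        Φ (con Xᶜ y ∘ s) (con Xᶜ y ∘ t) (push (con Xᶜ y) T) ≤ Φ s t T + 2)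
    (hb : ∀ s t T, Host F s t T → P s t T → (lv F s t T).Nonempty →
      2 * ((lv F s t T).card : ℝ) ≤ inn F s t (lv F s t T) + Φ s t T)
    (h : Host F s t T) (hp : P s t T) (hne : (bad F s t T).Nonempty) :
    ((bad F s t T).card : ℝ) ≤ Φ s t T := by
  induction hn : inn F s t univ using Nat.strong_induction_on generalizing s t T with
  | _ n ih =>
  by_cases hc : ∃ X, ∑ v ∈ X, T v = 1 ∧ dc F s t X ≤ 2 ∧ inn F s t X ≠ 0 ∧ inn F s t Xᶜ ≠ 0
  · obtain ⟨X, hX, hX2, i1, i2⟩ := hc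
    have key : ∀ X : Finset V, ∑ v ∈ X, T v = 1 → dc F s t X ≤ 2 → inn F s t Xᶜ ≠ 0 →
        ∃ x, x ∉ X ∧ (((bad F s t T).filter (tch s t X)).card : ℝ) ≤
          Φ (con X x ∘ s) (con X x ∘ t) (push (con X x) T) := by
      intro X hX hX2 i2
      obtain ⟨e, he⟩ := card_ne_zero.mp i2
      have hx : s e ∉ X := mem_compl.mp (mem_filter.mp he).2.2.1
      have h1 := bad_con h hX hX2 hx
      have h2 := ih _ (hn ▸ inn_con_lt (s e) i2) (h.map _) (hP s t T X _ h hp hX hX2 hx) ?_ rfl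
      · exact ⟨s e, hx, (Nat.cast_le.mpr (card_le_card h1)).trans h2⟩
      · obtain ⟨f, hf⟩ := card_ne_zero.mp (h.pos X hX)
        obtain ⟨a, b⟩ := mem_filter.mp hf
        refine ⟨f, h1 (mem_filter.mpr ⟨mem_bad.mpr ⟨a, X, hX, b, hX2⟩, ?_⟩)⟩
        unfold cr at b; unfold tch; tauto
    obtain ⟨x, hx, h1⟩ := key X hX hX2 i2
    obtain ⟨y, hy, h2⟩ := key Xᶜ (by rw [sum_compl_eq h.tot, hX]) (by rwa [dc_compl])
      (by rwa [compl_compl])
    have h3 : ((bad F s t T).card : ℝ) + 2 ≤ ((bad F s t T).filter (tch s t X)).card +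
        ((bad F s t T).filter (tch s t Xᶜ)).card := by
      exact_mod_cast card_bad_split h hX hX2
    linarith [hΦ s t T X x y h hp hX hX2 hx hy i1 i2]
  · push Not at hc
    have h1 : bad F s t T ⊆ F.filter fun e => s e ≠ t e ∧ tch s t (lv F s t T) e := by
      intro e he
      obtain ⟨heF, X, hX, heX, hX2⟩ := mem_bad.mp he
      refine mem_filter.mpr ⟨heF, ?_⟩
      by_cases i1 : inn F s t X = 0
      · exact leaf_of_inn h hX hX2 i1 heF heX
      · exact leaf_of_inn h (X := Xᶜ) (by rw [sum_compl_eq h.tot, hX]) (by rwa [dc_compl])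
          (hc X hX hX2 i1) heF (by rwa [cr_compl])
    have h2 := card_le_card h1
    rw [card_tch] at h2
    have h3 := card_lv (F := F) (s := s) (t := t) (T := T)
    have h4 : (bad F s t T).card + inn F s t (lv F s t T) ≤ 2 * (lv F s t T).card := by omega
    have h5 : ((bad F s t T).card : ℝ) + inn F s t (lv F s t T) ≤ 2 * (lv F s t T).card := by
      exact_mod_cast h4
    have h6 := hb s t T h hp (by
      obtain ⟨e, he⟩ := hne
      rcases (mem_filter.mp (h1 he)).2.2 with a | a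
      exacts [⟨_, a⟩, ⟨_, a⟩])
    linarith

omit [Fintype E] [DecidableEq E] in
/-- The counting principle for a potential that depends on degrees. -/
theorem bad_le (φ : ZMod 2 → ℕ → ℝ) (hφ : φ 0 0 = 0) (hφ1 : 1 ≤ φ 1 2) (hφ2 : ∀ a b, 0 ≤ φ a b)
    (P : (E → V) → (E → V) → (V → ZMod 2) → Prop)
    (hP : ∀ s t T X x, Host F s t T → P s t T → ∑ v ∈ X, T v = 1 → dc F s t X ≤ 2 → x ∉ X →
      P (con X x ∘ s) (con X x ∘ t) (push (con X x) T))
    (hb : ∀ s t T, Host F s t T → P s t T → (lv F s t T).Nonempty →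
      2 * ((lv F s t T).card : ℝ) + (2 * φ 1 2 - 2) ≤
        inn F s t (lv F s t T) + ∑ v, φ (T v) (dc F s t {v}))
    (h : Host F s t T) (hp : P s t T) :
    ((bad F s t T).card : ℝ) ≤ ∑ v, φ (T v) (dc F s t {v}) := by
  rcases (bad F s t T).eq_empty_or_nonempty with h0 | h0
  · rw [h0, card_empty, Nat.cast_zero]
    exact sum_nonneg fun v _ => hφ2 _ _
  have := bad_le_of (fun s t T => ∑ v, φ (T v) (dc F s t {v}) - (2 * φ 1 2 - 2)) P hP
    (fun s t T X x y h _ hX hX2 hx hy _ _ => by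
      rw [sum_con h hX hX2 hx φ hφ, sum_con h (by rw [sum_compl_eq h.tot, hX])
        (by rwa [dc_compl]) hy φ hφ, ← sum_add_sum_compl X fun v => φ (T v) (dc F s t {v})]
      linarith)
    (fun s t T h hp hl => by linarith [hb s t T h hp hl]) h hp h0
  linarith

/-- A short join in the complement of a good join. -/
lemma short_join {J K : Finset E} (hJ : ∀ v, bd s t J v = bd s t univ v)
    (hK : ∀ v, bd s t K v = bd s t univ v) (hJK : Disjoint J K) :
    Host Jᶜ s t (bd s t univ) ∧ ∃ J' : Finset E, Disjoint J' J ∧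
      (∀ v, bd s t J' v = bd s t univ v) ∧
      4 * J'.card ≤ Jᶜ.card + (bad Jᶜ s t (bd s t univ)).card := by
  classical
  have e1 : ∀ X, univ.filter (fun f => f ∉ J ∧ cr s t X f) = Jᶜ.filter (cr s t X) := by
    intro X; ext f; simp
  refine ⟨⟨fun X => ?_, fun X hX => ?_, sum_bd_univ s t univ⟩, ?_⟩
  · rw [dc, ← e1]; exact even_out hJ X
  · obtain ⟨e, he, he2⟩ := join_crosses hK hX
    exact card_ne_zero.mpr ⟨e, mem_filter.mpr
      ⟨mem_compl.mpr fun h => disjoint_left.mp hJK h he, he2⟩⟩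
  · obtain ⟨J', h1, h2, h3⟩ := light_join hJ hK hJK (fun _ => 1) (fun _ => zero_le_one)
    refine ⟨J', h1, h2, ?_⟩
    have h4 : ∀ e, Bad s t J e ↔ e ∈ bad Jᶜ s t (bd s t univ) := by
      intro e
      simp only [Bad, mem_bad, mem_compl, dc, e1]
    have h5 : ∀ e, (1 : ℝ) * (if e ∈ J then 0 else if Bad s t J e then (1 / 2 : ℝ) else 1 / 4) =
        ((if e ∈ Jᶜ then 1 else 0) + (if e ∈ bad Jᶜ s t (bd s t univ) then 1 else 0)) / 4 := by
      intro e
      have h6 : Bad s t J e → e ∉ J := fun h => h.1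
      simp only [← h4]
      by_cases a : e ∈ J <;> by_cases b : Bad s t J e
      · exact absurd a (h6 b)
      all_goals simp [a, b]
      norm_num
    rw [sum_congr rfl fun e _ => h5 e, ← sum_div, sum_add_distrib, sum_ite_mem, sum_ite_mem,
      univ_inter, univ_inter] at h3
    simp only [sum_const, nsmul_eq_mul, mul_one] at h3
    have : (4 : ℝ) * J'.card ≤ Jᶜ.card + (bad Jᶜ s t (bd s t univ)).card := by linarith
    exact_mod_cast this

/-- Two disjoint joins in a graph all of whose cuts have at least four edges. -/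
lemma two_joins (h4 : ∀ X : Finset V, X.Nonempty → X ≠ univ → 4 ≤ (univ.filter (cr s t X)).card) :
    ∃ J K : Finset E, Disjoint J K ∧ (∀ v, bd s t J v = bd s t univ v) ∧
      ∀ v, bd s t K v = bd s t univ v := by
  obtain ⟨S, h1, h2⟩ := trees_of_cut 2 h4
  obtain ⟨J, a, b⟩ := join_in (sum_bd_univ s t univ) (h1 0)
  obtain ⟨K, c, d⟩ := join_in (sum_bd_univ s t univ) (h1 1)
  exact ⟨J, K, disjoint_of_subset_left a (disjoint_of_subset_right c (h2 0 1 (by decide))), b, d⟩

end Pool.Agent.Lib.MP_a48b5a_co.H82
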