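import Pool.Agent.Lib.MP_a48b5a_co.H82Cut

/-!
# A bound in terms of the degrees
-/

set_option autoImplicit false

namespace Pool.Agent.Lib.MP_a48b5a_co.H82

open Finset

variable {V E : Type*} [Fintype V] [DecidableEq V] [Fintype E] [DecidableEq E]
variable {F : Finset E} {s t : E → V} {T : V → ZMod 2}

/-- The charge of a vertex. -/
def ch (a : ZMod 2) (h : ℕ) : ℕ := if h = 0 then 0 else if ((h / 2 : ℕ) : ZMod 2) = a then 2 else 1

omit [Fintype E] [DecidableEq E] in
lemma dc_univ : dc F s t univ = 0 := by simp [dc, cr]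

omit [Fintype E] [DecidableEq E] in
lemma Host.zero (h : Host F s t T) {v : V} (hv : dc F s t {v} = 0) : T v = 0 := by
  have h4 : ∀ a : ZMod 2, a ≠ 1 → a = 0 := by decide
  exact h4 _ fun h1 => h.pos {v} (by simpa using h1) hv

/-- The vertices of positive degree that are not leaves. -/
def rest (F : Finset E) (s t : E → V) (T : V → ZMod 2) : Finset V :=
  (lv F s t T)ᶜ.filter fun v => dc F s t {v} ≠ 0

omit [Fintype E] [DecidableEq E] in
lemma dc_rest : dc F s t (rest F s t T) = dc F s t (lv F s t T) := by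
  unfold dc
  congr 1
  refine filter_congr fun e he => ?_
  by_cases h0 : s e = t e
  · simp [cr, h0]
  have h1 : dc F s t {s e} ≠ 0 :=
    card_ne_zero.mpr ⟨e, mem_filter.mpr ⟨he, by simp [cr, Ne.symm h0]⟩⟩
  have h2 : dc F s t {t e} ≠ 0 := card_ne_zero.mpr ⟨e, mem_filter.mpr ⟨he, by simp [cr, h0]⟩⟩
  simp only [cr, rest, mem_filter, mem_compl, h1, h2, ne_eq, not_false_eq_true, and_true]
  tauto

omit [Fintype E] [DecidableEq E] in
lemma sum_lv_rest {M : Type*} [AddCommMonoid M] (f : V → M)
    (hf : ∀ v, dc F s t {v} = 0 → f v = 0) :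
    ∑ v, f v = ∑ v ∈ lv F s t T, f v + ∑ v ∈ rest F s t T, f v := by
  rw [← sum_add_sum_compl (lv F s t T), rest, sum_filter_of_ne]
  exact fun v _ h1 h2 => h1 (hf v h2)

omit [Fintype E] [DecidableEq E] in
lemma Host.parity (h : Host F s t T) :
    ((lv F s t T).card : ZMod 2) + ∑ v ∈ rest F s t T, T v = 0 := by
  rw [← h.tot, sum_lv_rest (F := F) (s := s) (t := t) (T := T) T fun v => h.zero,
    sum_congr rfl fun v (hv : v ∈ lv F s t T) => (mem_filter.mp hv).2.1]
  simp

omit [Fintype E] [DecidableEq E] in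
lemma ch_base (h : Host F s t T) (hl : (lv F s t T).Nonempty) :
    2 * (lv F s t T).card + 2 ≤ inn F s t (lv F s t T) + ∑ v, ch (T v) (dc F s t {v}) := by
  rw [sum_lv_rest (F := F) (s := s) (t := t) (T := T) _ fun v hv => by simp [ch, hv]]
  have h1 : ∑ v ∈ lv F s t T, ch (T v) (dc F s t {v}) = 2 * (lv F s t T).card := by
    rw [sum_congr rfl (g := fun _ => 2) fun v hv => by
      rw [(mem_filter.mp hv).2.1, (mem_filter.mp hv).2.2]; rfl]
    simp [mul_comm]
  have h2 : (rest F s t T).card ≤ ∑ v ∈ rest F s t T, ch (T v) (dc F s t {v}) := by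
    rw [card_eq_sum_ones]
    refine sum_le_sum fun v hv => ?_
    rw [ch, if_neg (mem_filter.mp hv).2]
    split_ifs <;> norm_num
  have h3 := card_lv (F := F) (s := s) (t := t) (T := T)
  have h4 := h.parity
  have h5 := dc_rest (F := F) (s := s) (t := t) (T := T)
  have h6 := hl.card_pos
  rw [h1]
  by_cases c0 : (rest F s t T).card = 0
  · rw [card_eq_zero.mp c0] at h4 h5
    rw [dc_empty] at h5
    rw [sum_empty, add_zero, ZMod.natCast_eq_zero_iff_even] at h4
    obtain ⟨k, hk⟩ := h4
    omega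
  by_cases c1 : (rest F s t T).card = 1
  · by_cases c2 : inn F s t (lv F s t T) = 0
    · obtain ⟨w, hw⟩ := card_eq_one.mp c1
      rw [hw] at h4 h5 ⊢
      rw [sum_singleton] at h4 ⊢
      have h7 : ∀ a b : ZMod 2, a + b = 0 → a = b := by decide
      rw [ch, if_neg (by omega), if_pos (by
        rw [← h7 _ _ h4]; congr 1; omega)]
      omega
    · omega
  · omega

omit [Fintype E] [DecidableEq E] in
/-- The number of edges in odd two-edge cuts is at most the total charge. -/
theorem bad_le_ch (h : Host F s t T) :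
    (bad F s t T).card ≤ ∑ v, ch (T v) (dc F s t {v}) := by
  have := bad_le (F := F) (fun a b => ch a b) (by simp [ch]) (by simp [ch])
    (fun _ _ => by positivity) (fun _ _ _ => True) (fun _ _ _ _ _ _ _ _ _ _ => trivial)
    (fun s t T h _ hl => by
      have h1 := ch_base h hl
      have h2 : ch 1 2 = 2 := rfl
      rw [h2]
      have h3 : ((2 * (lv F s t T).card + 2 : ℕ) : ℝ) ≤ _ := Nat.cast_le.mpr h1
      push_cast at h3 ⊢
      linarith) h trivial
  exact_mod_cast this

lemma ch_three (a b c : ℕ) (h1 : (a : ZMod 2) = (a + b + c : ℕ))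
    (h2 : (b : ZMod 2) = (a + b + c : ℕ)) (h4 : 4 ≤ a + b + c) :
    ch (a + b + c : ℕ) (b + c) + ch (a + b + c : ℕ) (a + c) + ch (a + b + c : ℕ) (a + b) +
      (if a + b + c = 5 then 1 else a + b + c - 6) ≤ a + b + c := by
  have h0 : ∀ x y, ch x y ≤ 2 := fun x y => by unfold ch; split_ifs <;> norm_num
  by_cases h : 6 ≤ a + b + c
  · have := h0 (a + b + c : ℕ) (b + c)
    have := h0 (a + b + c : ℕ) (a + c)
    have := h0 (a + b + c : ℕ) (a + b)
    split_ifs <;> omega
  · have ha : a ≤ 5 := by omega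
    have hb : b ≤ 5 := by omega
    have hc : c ≤ 5 := by omega
    revert h1 h2 h4 h
    interval_cases a <;> interval_cases b <;> interval_cases c <;> decide

omit [Fintype V] [Fintype E] in
lemma dc_union {J K : Finset E} (h : Disjoint J K) (X : Finset V) :
    dc (J ∪ K) s t X = dc J s t X + dc K s t X := by
  rw [dc, filter_union, card_union_of_disjoint (disjoint_filter_filter h)]
  rfl

omit [Fintype V] in
lemma third_join {J K : Finset E} (hJ : ∀ v, bd s t J v = bd s t univ v)
    (hK : ∀ v, bd s t K v = bd s t univ v) (hJK : Disjoint J K) (v : V) :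
    bd s t (J ∪ K)ᶜ v = bd s t univ v := by
  have h1 := bd_union s t (J := J ∪ K) (K := (J ∪ K)ᶜ) disjoint_compl_right v
  rw [union_compl, bd_union s t hJK, hJ, hK] at h1
  have h2 : ∀ a b : ZMod 2, a = a + a + b → b = a := by decide
  exact h2 _ _ h1

/-- Two disjoint joins, one of them short. -/
theorem deg_bound (hl : ∀ e, s e ≠ t e)
    (h4 : ∀ X : Finset V, X.Nonempty → X ≠ univ → 4 ≤ (univ.filter (cr s t X)).card) :
    ∃ P J : Finset E, Disjoint P J ∧ (∀ v, bd s t P v = bd s t univ v) ∧
      (∀ v, bd s t J v = bd s t univ v) ∧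
      12 * P.card + ∑ v, (if dc univ s t {v} = 5 then 1 else dc univ s t {v} - 6) ≤
        4 * Fintype.card E := by
  obtain ⟨J, K, hJK, hJ, hK⟩ := two_joins h4
  have hL := third_join hJ hK hJK
  set L := (J ∪ K)ᶜ with hLdef
  have hJL : Disjoint J L := disjoint_of_subset_left subset_union_left disjoint_compl_right
  have hKL : Disjoint K L := disjoint_of_subset_left subset_union_right disjoint_compl_right
  have eJ : Jᶜ = K ∪ L := by
    ext e
    have : e ∈ J → e ∉ K := fun h => disjoint_left.mp hJK h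
    simp only [hLdef, mem_compl, mem_union]
    tauto
  have eK : Kᶜ = J ∪ L := by
    ext e
    have : e ∈ J → e ∉ K := fun h => disjoint_left.mp hJK h
    simp only [hLdef, mem_compl, mem_union]
    tauto
  have eL : Lᶜ = J ∪ K := compl_compl _
  obtain ⟨a1, P1, b1, c1, d1⟩ := short_join hJ hK hJK
  obtain ⟨a2, P2, b2, c2, d2⟩ := short_join hK hJ hJK.symm
  obtain ⟨a3, P3, b3, c3, d3⟩ := short_join hL hJ hJL.symm
  have f1 := bad_le_ch a1
  have f2 := bad_le_ch a2
  have f3 := bad_le_ch a3
  have hv : ∀ v, ch (bd s t univ v) (dc Jᶜ s t {v}) + ch (bd s t univ v) (dc Kᶜ s t {v}) +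
      ch (bd s t univ v) (dc Lᶜ s t {v}) +
      (if dc univ s t {v} = 5 then 1 else dc univ s t {v} - 6) ≤ dc univ s t {v} := by
    intro v
    have e0 : dc univ s t {v} = dc J s t {v} + dc K s t {v} + dc L s t {v} := by
      rw [← dc_union hJK, ← dc_union disjoint_compl_right, union_compl]
    have e1 : ∀ A : Finset E, bd s t A v = dc A s t {v} := fun A => bd_eq_card s t A v
    by_cases hu : ({v} : Finset V) = univ
    · have : ∀ A : Finset E, dc A s t {v} = 0 := fun A => by
        rw [hu, dc_univ]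
      simp [this, ch]
    rw [eJ, eK, eL, dc_union hKL, dc_union hJL, dc_union hJK, e1, e0]
    refine ch_three _ _ _ ?_ ?_ ?_
    · rw [← e0, ← e1, ← e1, hJ]
    · rw [← e0, ← e1, ← e1, hK]
    · rw [← e0]; exact h4 _ (singleton_nonempty v) hu
  have g1 := sum_le_sum (s := univ) fun v _ => hv v
  have g2 : ∑ v, dc univ s t {v} = 2 * Fintype.card E := by
    rw [sum_dc, dc_univ, inn]
    simp [hl]
  simp only [sum_add_distrib] at g1
  have g3 : Jᶜ.card + Kᶜ.card + Lᶜ.card = 2 * Fintype.card E := by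
    have := card_add_card_compl J
    have := card_add_card_compl K
    have := card_add_card_compl L
    have := card_add_card_compl (J ∪ K)
    have := card_union_of_disjoint hJK
    rw [eL]
    omega
  by_cases k1 : P1.card ≤ P2.card ∧ P1.card ≤ P3.card
  · exact ⟨P1, J, b1, c1, hJ, by omega⟩
  by_cases k2 : P2.card ≤ P3.card
  · exact ⟨P2, K, b2, c2, hK, by omega⟩
  · exact ⟨P3, L, b3, c3, hL, by omega⟩

omit [Fintype V] [Fintype E] [DecidableEq E] in
lemma dc_eq_deg (hl : ∀ e, s e ≠ t e) (F : Finset E) (v : V) :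
    (F.filter fun e => s e = v ∨ t e = v).card = dc F s t {v} := by
  rw [dc]
  congr 1
  refine filter_congr fun e _ => ?_
  have := hl e
  simp only [cr, mem_singleton]
  by_cases b1 : s e = v <;> by_cases b2 : t e = v
  · exact absurd (b1.trans b2.symm) this
  all_goals simp [b1, b2]

end Pool.Agent.Lib.MP_a48b5a_co.H82
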