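import Pool.Agent.Lib.MP_a48b5a_co.H82Deg

/-!
# Five-regular graphs of large girth
-/

set_option autoImplicit false

namespace Pool.Agent.Lib.MP_a48b5a_co.H82

open Finset

variable {V E : Type*} [Fintype V] [DecidableEq V] [Fintype E] [DecidableEq E]
variable {F : Finset E} {s t : E → V} {T : V → ZMod 2}

omit [Fintype V] [Fintype E] in
lemma bd_symmDiff (C D : Finset E) (v : V) :
    bd s t (symmDiff C D) v = bd s t C v + bd s t D v := by
  unfold bd
  rw [← sum_union_inter, symmDiff_eq_sup_sdiff_inf, sup_eq_union, inf_eq_inter,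
    ← sum_sdiff (s₁ := C ∩ D) (s₂ := C ∪ D) inter_subset_union]
  have h2 : ∀ a b : ZMod 2, a = a + b + b := by decide
  exact h2 _ _

omit [Fintype E] in
/-- Small vertex sets span forests. -/
lemma inn_lt {g : ℕ} (hg : ∀ C : Finset E, C.Nonempty → (∀ v, bd s t C v = 0) → g ≤ C.card)
    {U : Finset V} (hU : U.Nonempty) (hUg : U.card < g) : inn F s t U < U.card := by
  by_contra hc
  obtain ⟨A, hA, hA2⟩ := exists_subset_card_eq (not_lt.mp hc)
  obtain ⟨u, hu⟩ := hU
  obtain ⟨C, hC, D, hD, hCD, h⟩ := exists_ne_map_eq_of_card_lt_of_maps_to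
    (s := A.powerset) (t := (U.erase u).powerset)
    (by
      rw [card_powerset, card_powerset, hA2]
      exact Nat.pow_lt_pow_right (by norm_num) (card_erase_lt_of_mem hu))
    (f := fun C => (U.erase u).filter fun v => bd s t C v = 1)
    (fun C _ => mem_coe.mpr (mem_powerset.mpr (filter_subset _ _)))
  have h1 : symmDiff C D ⊆ A := symmDiff_subset_union.trans
    (union_subset (mem_powerset.mp hC) (mem_powerset.mp hD))
  have h2 := hg (symmDiff C D) (symmDiff_nonempty.mpr hCD) (by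
    refine eq_of_sum_eq (g := fun _ => 0) (by rw [sum_bd_univ]; simp) u fun v hv => ?_
    by_cases hvU : v ∈ U
    · have h3 : bd s t C v = 1 ↔ bd s t D v = 1 := by
        simpa [hv, hvU] using Finset.ext_iff.mp h v
      have h4 : ∀ a b : ZMod 2, (a = 1 ↔ b = 1) → a + b = 0 := by decide
      rw [bd_symmDiff]
      exact h4 _ _ h3
    · refine bd_eq_zero s t fun e he => ?_
      have := (mem_filter.mp (hA (h1 he))).2.2
      exact ⟨fun h => hvU (h ▸ this.1), fun h => hvU (h ▸ this.2)⟩)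
  have := card_le_card h1
  omega

/-- All vertices are isolated or odd of degree two or four, and small sets of vertices of degree
four span forests. -/
def Sp (F : Finset E) (g : ℕ) (s t : E → V) (T : V → ZMod 2) : Prop :=
  (∀ v, dc F s t {v} = 0 ∨ (T v = 1 ∧ (dc F s t {v} = 2 ∨ dc F s t {v} = 4))) ∧
    ∀ U : Finset V, U.Nonempty → (∀ v ∈ U, dc F s t {v} = 4) → U.card < g →
      2 * U.card + 2 ≤ dc F s t U

omit [Fintype E] [DecidableEq E] in
lemma Sp.con {g : ℕ} (h : Host F s t T) (hp : Sp F g s t T) {X : Finset V}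
    (hX : ∑ v ∈ X, T v = 1) (hX2 : dc F s t X ≤ 2) {x : V} (hx : x ∉ X) :
    Sp F g (con X x ∘ s) (con X x ∘ t) (push (con X x) T) := by
  have h1 : ∀ v ∈ X, dc F (H82.con X x ∘ s) (H82.con X x ∘ t) {v} = dc F s t {v} := fun v hv => by
    rw [dc_pre, pre_con hx (singleton_subset_iff.mpr hv)]
  have h2 : dc F (H82.con X x ∘ s) (H82.con X x ∘ t) {x} = 2 := by
    rw [dc_pre, pre_con_self hx, dc_compl, le_antisymm hX2 (h.two_le hX)]
  have h3 : ∀ v, v ∉ X → v ≠ x → dc F (H82.con X x ∘ s) (H82.con X x ∘ t) {v} = 0 :=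
    fun v a b => by rw [dc_pre, pre_con_other a b, dc_empty]
  refine ⟨fun v => ?_, fun U hU hU4 hUg => ?_⟩
  · by_cases a : v ∈ X
    · rw [h1 v a, push, pre_con hx (singleton_subset_iff.mpr a), sum_singleton]
      exact hp.1 v
    by_cases b : v = x
    · rw [b, h2, push, pre_con_self hx, sum_compl_eq h.tot, hX]
      simp
    · exact Or.inl (h3 v a b)
  · have h4 : U ⊆ X := by
      intro v hv
      have := hU4 v hv
      by_contra a
      by_cases b : v = x
      · rw [b, h2] at this; omega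
      · rw [h3 v a b] at this; omega
    rw [dc_pre, pre_con hx h4]
    exact hp.2 U hU (fun v hv => by rw [← h1 v (h4 hv), hU4 v hv]) hUg

/-- The charge of a vertex, multiplied by `g + 1`. -/
def cg (g h : ℕ) : ℕ := if h = 0 then 0 else if h = 2 then 3 * g else 3

omit [Fintype E] [DecidableEq E] in
lemma Sp.sum {g : ℕ} (hp : Sp F g s t T) : (∀ v ∈ rest F s t T, T v = 1 ∧ dc F s t {v} = 4) ∧
    ∑ v, cg g (dc F s t {v}) = 3 * g * (lv F s t T).card + 3 * (rest F s t T).card := by
  have h1 : ∀ v ∈ rest F s t T, T v = 1 ∧ dc F s t {v} = 4 := by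
    intro v hv
    simp only [rest, lv, mem_filter, mem_compl, mem_univ, true_and] at hv
    have := hp.1 v
    tauto
  refine ⟨h1, ?_⟩
  rw [sum_lv_rest (F := F) (s := s) (t := t) (T := T) _ fun v hv => by simp [cg, hv],
    sum_congr rfl (g := fun _ => 3 * g) fun v hv => by rw [(mem_filter.mp hv).2.2]; rfl,
    sum_congr rfl (s₁ := rest F s t T) (g := fun _ => 3) fun v hv => by rw [(h1 v hv).2]; rfl]
  simp [mul_comm]

omit [Fintype E] [DecidableEq E] in
lemma cg_base {g : ℕ} (hg : 2 ≤ g) (h : Host F s t T) (hp : Sp F g s t T)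
    (hl : (lv F s t T).Nonempty) : 2 * (g + 1) * (lv F s t T).card + 4 * g ≤
      (g + 1) * inn F s t (lv F s t T) + ∑ v, cg g (dc F s t {v}) + 2 := by
  obtain ⟨h1, h2⟩ := hp.sum
  rw [h2]
  have h3 := card_lv (F := F) (s := s) (t := t) (T := T)
  have h4 := h.parity
  rw [sum_congr rfl fun v hv => (h1 v hv).1, sum_const, nsmul_eq_mul, mul_one, ← Nat.cast_add,
    ZMod.natCast_eq_zero_iff_even] at h4
  obtain ⟨k, hk⟩ := h4
  have h5 := dc_rest (F := F) (s := s) (t := t) (T := T)
  have h6 := hl.card_pos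
  obtain ⟨g, rfl⟩ := Nat.exists_eq_add_of_le hg
  by_cases c0 : (rest F s t T).card = 0
  · rw [card_eq_zero.mp c0, dc_empty] at h5
    have a1 : inn F s t (lv F s t T) = (lv F s t T).card := by omega
    have a2 : 2 ≤ (lv F s t T).card := by omega
    rw [a1, c0]
    nlinarith
  by_cases c1 : (rest F s t T).card < 2 + g
  · have a1 := hp.2 _ (card_pos.mp (Nat.pos_of_ne_zero c0)) (fun v hv => (h1 v hv).2) c1
    by_cases c2 : (rest F s t T).card = 1
    · obtain ⟨w, hw⟩ := card_eq_one.mp c2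
      have a2 := (h1 w (hw ▸ mem_singleton_self w)).2
      rw [← hw] at a2
      have a3 : 1 ≤ inn F s t (lv F s t T) := by omega
      have a4 : 3 ≤ (lv F s t T).card := by omega
      nlinarith
    · have a3 : 2 ≤ (rest F s t T).card := by omega
      have a4 : 4 ≤ (lv F s t T).card := by omega
      nlinarith
  · nlinarith

omit [Fintype E] [DecidableEq E] in
theorem bad_le_cg {g : ℕ} (hg : 2 ≤ g) (h : Host F s t T) (hp : Sp F g s t T) :
    (g + 1) * (bad F s t T).card ≤ 3 * g * (lv F s t T).card + 3 * (rest F s t T).card := by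
  have hg1 : (0 : ℝ) < g + 1 := by positivity
  have hg2 : (2 : ℝ) ≤ g := by exact_mod_cast hg
  have h2 : cg g 2 = 3 * g := rfl
  have := bad_le (F := F) (fun _ b => cg g b / (g + 1)) (by simp [cg])
    (by rw [h2, le_div_iff₀ hg1]; push_cast; linarith)
    (fun _ _ => by positivity) (Sp F g) (fun s t T X x a b c d e => b.con a c d e)
    (fun s t T h hp hl => by
      have h3 : ((2 * (g + 1) * (lv F s t T).card + 4 * g : ℕ) : ℝ) ≤ _ :=
        Nat.cast_le.mpr (cg_base hg h hp hl)
      rw [h2, ← sum_div, ← mul_le_mul_iff_left₀ hg1]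
      push_cast at h3 ⊢
      field_simp
      linarith) h hp
  rw [← sum_div, le_div_iff₀ hg1, ← Nat.cast_sum, hp.sum.2] at this
  rw [mul_comm]
  exact_mod_cast this

/-- Two disjoint joins in a five-regular graph, one of them almost a perfect matching. -/
theorem girth_bound (hl : ∀ e, s e ≠ t e) (h5 : ∀ v, dc univ s t {v} = 5) {g : ℕ} (hg2 : 2 ≤ g)
    (hg : ∀ C : Finset E, C.Nonempty → (∀ v, bd s t C v = 0) → g ≤ C.card)
    (hex : ∃ J K : Finset E, Disjoint J K ∧ (∀ v, bd s t J v = bd s t univ v) ∧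
      ∀ v, bd s t K v = bd s t univ v) :
    ∃ P J : Finset E, Disjoint P J ∧ (∀ v, bd s t P v = bd s t univ v) ∧
      (∀ v, bd s t J v = bd s t univ v) ∧
      5 * (g + 4) * P.card ≤ (g + 7) * Fintype.card E := by
  classical
  obtain ⟨J, hJ0, hmin⟩ := exists_min_image (univ.filter fun J : Finset E => ∃ K : Finset E,
    Disjoint J K ∧ (∀ v, bd s t J v = bd s t univ v) ∧ ∀ v, bd s t K v = bd s t univ v) card
    (by obtain ⟨J, hJ⟩ := hex; exact ⟨J, mem_filter.mpr ⟨mem_univ _, hJ⟩⟩)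
  obtain ⟨K, hJK, hJ, hK⟩ := (mem_filter.mp hJ0).2
  obtain ⟨a, P, b, c, d⟩ := short_join hJ hK hJK
  have h1 := hmin P (mem_filter.mpr ⟨mem_univ _, J, b, c, hJ⟩)
  have hT : ∀ v, bd s t univ v = 1 := fun v => by
    rw [bd_eq_card]
    exact (congrArg (Nat.cast : ℕ → ZMod 2) (h5 v)).trans (by decide)
  have h2 : ∀ v, dc Jᶜ s t {v} = 2 ∨ dc Jᶜ s t {v} = 4 := fun v => by
    have a1 := a.two_le (X := {v}) (by simp [hT])
    obtain ⟨k, hk⟩ := a.even {v}
    have a2 := dc_union (s := s) (t := t) (J := J) (K := Jᶜ) disjoint_compl_right {v}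
    rw [union_compl, h5] at a2
    omega
  have hp : Sp Jᶜ g s t (bd s t univ) := by
    refine ⟨fun v => Or.inr ⟨hT v, h2 v⟩, fun U hU hU4 hUg => ?_⟩
    have a1 := inn_lt (F := Jᶜ) hg hU hUg
    have a2 := sum_dc (F := Jᶜ) (s := s) (t := t) U
    rw [sum_congr rfl hU4, sum_const, smul_eq_mul] at a2
    omega
  have h3 := bad_le_cg hg2 a hp
  have h4 : ∀ A : Finset E, ∑ v, dc A s t {v} = 2 * A.card := fun A => by
    rw [sum_dc, dc_univ, inn]
    simp [hl]
  have h6 := h4 Jᶜ
  rw [sum_lv_rest (F := Jᶜ) (s := s) (t := t) (T := bd s t univ) _ fun v hv => hv,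
    sum_congr rfl fun v hv => (mem_filter.mp hv).2.2,
    sum_congr rfl fun v hv => (hp.sum.1 v hv).2, sum_const, sum_const, smul_eq_mul,
    smul_eq_mul] at h6
  have h7 := h4 univ
  rw [sum_lv_rest (F := Jᶜ) (s := s) (t := t) (T := bd s t univ) _
    fun v hv => by have := h2 v; omega, sum_congr rfl fun v _ => h5 v,
    sum_congr rfl (s₁ := rest _ _ _ _) fun v _ => h5 v, sum_const, sum_const, smul_eq_mul,
    smul_eq_mul, card_univ] at h7
  have h8 := card_add_card_compl J
  refine ⟨J, K, hJK, hJ, hK, ?_⟩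
  generalize (lv Jᶜ s t (bd s t univ)).card = l at *
  generalize (rest Jᶜ s t (bd s t univ)).card = r at *
  have e1 : 2 * J.card = 3 * l + r := by omega
  have e2 : 5 * l ≤ (bad Jᶜ s t (bd s t univ)).card := by omega
  have e3 : (g + 1) * (5 * l) ≤ 3 * g * l + 3 * r := (Nat.mul_le_mul_left _ e2).trans h3
  nlinarith

end Pool.Agent.Lib.MP_a48b5a_co.H82
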