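import Pool.Agent.Lib.MP_a48b5a_co.U5Cyc

/-!
# Cyclic partition into seven classes: a piece on which all windows are connected
-/

set_option autoImplicit false
set_option linter.unusedSectionVars false

namespace Pool.Agent.Lib.MP_a48b5a_co.O7

open Finset U5

variable {V E : Type} [Fintype V] [DecidableEq V] [Fintype E] [DecidableEq E]
variable {s t : E → V}

/-- The window `x` of the labelling `A`. -/
def win (A : E → ZMod 7) (x : ZMod 7) (e : E) : Prop := A e = x ∨ A e = x + 1

/-- The edge `e` joins two components of the window it would enter. -/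
def push (s t : E → V) (A : E → ZMod 7) (e : E) : Prop := ¬ cySpan s t (win A (A e + 1)) e

def step (s t : E → V) (A A' : E → ZMod 7) : Prop :=
  ∃ e, push s t A e ∧ A' = Function.update A e (A e + 1)

/-- A push creates no cycle. -/
lemma step_back {A A' : E → ZMod 7} (hs : step s t A A') {x : ZMod 7} {G : E → Prop}
    (hG : ∀ e, G e → cySpan s t (win A x) e) {c : E → ZMod 2}
    (hc : ∀ X, cs s t c X = 0) (h : ∀ e, c e ≠ 0 → win A' x e ∨ G e) :
    ∀ e, c e ≠ 0 → win A x e ∨ G e := by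
  obtain ⟨f, hf2, rfl⟩ := hs
  have hne : ∀ e, e ≠ f → win (Function.update A f (A f + 1)) x e →
      win A x e := fun e he hw => by
    unfold win at hw ⊢
    rwa [Function.update_of_ne he] at hw
  intro e he
  rcases h e he with h1 | h1
  swap
  · exact Or.inr h1
  by_cases hef : e = f
  swap
  · exact Or.inl (hne e hef h1)
  subst hef
  have h2 := h1
  unfold win at h2
  rw [Function.update_self] at h2
  rcases h2 with h2 | h2
  swap
  · exact Or.inl (Or.inl (add_right_cancel h2))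
  exfalso
  refine hf2 fun X hX => ?_
  by_contra hno
  refine he ((cy_cs_eq hX fun e' he' hX' => ?_).symm.trans (hc X))
  by_contra h3
  rcases h e' h3 with h4 | h4
  · exact hno ⟨e', hX', h2 ▸ hne e' he' h4⟩
  · obtain ⟨e'', h5, h6⟩ := hG e' h4 X hX'
    exact hno ⟨e'', h5, h2 ▸ h6⟩

section Terminal

variable {A₀ : E → ZMod 7}

/-- The edge is pushed in some state reachable from `A₀`. -/
def moved (s t : E → V) (A₀ : E → ZMod 7) (e : E) : Prop :=
  ∃ A, Relation.ReflTransGen (step s t) A₀ A ∧ push s t A e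

lemma fixed7 {b : E} (hb : ¬ moved s t A₀ b) {A : E → ZMod 7}
    (hA : Relation.ReflTransGen (step s t) A₀ A) : A b = A₀ b := by
  induction hA with
  | refl => rfl
  | tail h1 h2 ih =>
    obtain ⟨f, hf, rfl⟩ := h2
    have : b ≠ f := fun h => hb ⟨_, h1, h ▸ hf⟩
    rw [Function.update_of_ne this, ih]

lemma succ7
    (hT : ∀ A, Relation.ReflTransGen (step s t) A₀ A →
      Relation.ReflTransGen (step s t) A A₀)
    {e : E} (he : moved s t A₀ e) {A : E → ZMod 7}
    (hA : Relation.ReflTransGen (step s t) A₀ A) :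
    ∃ A', Relation.ReflTransGen (step s t) A₀ A' ∧ A' e = A e + 1 := by
  by_contra hno
  have hall : ∀ A', Relation.ReflTransGen (step s t) A A' → A' e = A e := by
    intro A' h
    induction h with
    | refl => rfl
    | tail h1 h2 ih =>
      have h3 := (hA.trans h1).tail h2
      obtain ⟨f, hf, rfl⟩ := h2
      by_cases hef : e = f
      · subst hef
        exact absurd ⟨_, h3, by rw [Function.update_self, ih]⟩ hno
      · rw [Function.update_of_ne hef, ih]
  obtain ⟨A₂, h1, h2⟩ := he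
  refine hno ⟨_, h1.tail ⟨e, h2, rfl⟩, ?_⟩
  rw [Function.update_self, hall A₂ ((hT A hA).trans h1)]

lemma leaves7
    (hT : ∀ A, Relation.ReflTransGen (step s t) A₀ A →
      Relation.ReflTransGen (step s t) A A₀)
    {e : E} (he : moved s t A₀ e) (x : ZMod 7) :
    ∃ A, Relation.ReflTransGen (step s t) A₀ A ∧ ¬ win A x e := by
  obtain ⟨A₁, h1, k1⟩ := succ7 hT he Relation.ReflTransGen.refl
  obtain ⟨A₂, h2, k2⟩ := succ7 hT he h1
  have key : ∀ a x : ZMod 7, ¬ (a = x ∨ a = x + 1) ∨ ¬ (a + 1 = x ∨ a + 1 = x + 1) ∨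
      ¬ (a + 1 + 1 = x ∨ a + 1 + 1 = x + 1) := by decide
  rcases key (A₀ e) x with h | h | h
  · exact ⟨A₀, Relation.ReflTransGen.refl, fun hw => h hw⟩
  · exact ⟨A₁, h1, fun hw => h (k1 ▸ hw)⟩
  · exact ⟨A₂, h2, fun hw => h (k1 ▸ k2 ▸ hw)⟩

/-- Cycles of a window of the terminal state avoid the moved edges. -/
lemma cycle7
    (hT : ∀ A, Relation.ReflTransGen (step s t) A₀ A →
      Relation.ReflTransGen (step s t) A A₀)
    {x : ZMod 7} {G : E → Prop}
    (hG : ∀ A, Relation.ReflTransGen (step s t) A₀ A →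
      ∀ e, G e → cySpan s t (win A x) e)
    {c : E → ZMod 2} (hc : ∀ X, cs s t c X = 0)
    (h : ∀ e, c e ≠ 0 → win A₀ x e ∨ G e) {e : E} (he : moved s t A₀ e)
    (hGe : ¬ G e) : c e = 0 := by
  obtain ⟨A, hA, hw⟩ := leaves7 hT he x
  have key : ∀ A', Relation.ReflTransGen (step s t) A A' →
      (∀ e, c e ≠ 0 → win A' x e ∨ G e) → ∀ e, c e ≠ 0 → win A x e ∨ G e := by
    intro A' h1
    induction h1 with
    | refl => exact id
    | tail h2 h3 ih => exact fun h4 => ih (step_back h3 (hG _ (hA.trans h2)) hc h4)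
  by_contra hne
  rcases key A₀ (hT A hA) h e hne with h1 | h1
  exacts [hw h1, hGe h1]

lemma span_next
    (hT : ∀ A, Relation.ReflTransGen (step s t) A₀ A →
      Relation.ReflTransGen (step s t) A A₀)
    {b : E} (hb : ¬ moved s t A₀ b) :
    cySpan s t (fun e => win A₀ (A₀ b + 1) e ∧ ¬ moved s t A₀ e) b := by
  have hsp : ∀ A, Relation.ReflTransGen (step s t) A₀ A →
      cySpan s t (win A (A₀ b + 1)) b := fun A hA => by
    by_contra hno
    exact hb ⟨A, hA, by unfold push; rwa [fixed7 hb hA]⟩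
  obtain ⟨c, hc1, hc2⟩ := exists_path (s := s) (t := t) (win A₀ (A₀ b + 1)) (s b) (t b)
    fun X h1 h2 => hsp A₀ Relation.ReflTransGen.refl X fun h => h2 (h.1 h1)
  have hcyc : ∀ X, cs s t (c + fun e => if e = b then 1 else 0) X = 0 := fun X => by
    rw [cs_add, hc2, cs_single]
    unfold cr
    by_cases h1 : s b ∈ X <;> by_cases h2 : t b ∈ X <;> simp [h1, h2, Z2_add_self]
  intro X hX
  have hne : cs s t c X ≠ 0 := by
    rw [hc2]
    unfold cr at hX
    by_cases h1 : s b ∈ X <;> by_cases h2 : t b ∈ X <;> simp_all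
  obtain ⟨e, he1, he2⟩ := cy_exists_of_cs hne
  have hw : win A₀ (A₀ b + 1) e := by
    by_contra h
    exact he2 (hc1 e h)
  refine ⟨e, he1, hw, fun hm => he2 ?_⟩
  have heb : e ≠ b := fun h => hb (h ▸ hm)
  have := cycle7 hT (x := A₀ b + 1) (G := fun e => e = b)
    (fun A hA e h => h ▸ hsp A hA) hcyc (fun e' h => by
      by_cases h1 : e' = b
      · exact Or.inr h1
      · refine Or.inl ?_
        by_contra h2
        exact h (by simp [h1, hc1 e' h2])) hm heb
  simpa [heb] using this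

lemma span_all
    (hT : ∀ A, Relation.ReflTransGen (step s t) A₀ A →
      Relation.ReflTransGen (step s t) A A₀)
    (x : ZMod 7) {b : E} (hb : ¬ moved s t A₀ b) :
    cySpan s t (fun e => win A₀ x e ∧ ¬ moved s t A₀ e) b := by
  let Sp : ZMod 7 → Prop := fun a => ∀ b, ¬ moved s t A₀ b → A₀ b = a →
    cySpan s t (fun e => win A₀ x e ∧ ¬ moved s t A₀ e) b
  have h0 : Sp x := fun b h2 h3 X hX => ⟨b, hX, Or.inl h3, h2⟩
  have h1 : Sp (x + 1) := fun b h2 h3 X hX => ⟨b, hX, Or.inr h3, h2⟩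
  have hstep : ∀ a, Sp (a + 1) → Sp (a + 1 + 1) → Sp a := fun a k1 k2 b h2 h3 X hX => by
    obtain ⟨e, he, hw2, hm⟩ := span_next hT h2 X hX
    rw [h3] at hw2
    rcases hw2 with h4 | h4
    exacts [k1 e hm h4 X he, k2 e hm h4 X he]
  have e1 : ∀ x : ZMod 7, x + 6 + 1 = x ∧ x + 5 + 1 = x + 6 ∧ x + 4 + 1 = x + 5 ∧
      x + 3 + 1 = x + 4 ∧ x + 2 + 1 = x + 3 := by decide
  obtain ⟨e6, e5, e4, e3, e2⟩ := e1 x
  have h6 : Sp (x + 6) := hstep _ (by rwa [e6]) (by rwa [e6])
  have h5 : Sp (x + 5) := hstep _ (by rwa [e5]) (by rwa [e5, e6])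
  have h4 : Sp (x + 4) := hstep _ (by rwa [e4]) (by rwa [e4, e5])
  have h3 : Sp (x + 3) := hstep _ (by rwa [e3]) (by rwa [e3, e4])
  have h2 : Sp (x + 2) := hstep _ (by rwa [e2]) (by rwa [e2, e3])
  have e7 : ∀ a x : ZMod 7, a = x ∨ a = x + 1 ∨ a = x + 2 ∨ a = x + 3 ∨ a = x + 4 ∨
      a = x + 5 ∨ a = x + 6 := by decide
  rcases e7 (A₀ b) x with h | h | h | h | h | h | h
  exacts [h0 b hb h, h1 b hb h, h2 b hb h, h3 b hb h, h4 b hb h, h5 b hb h, h6 b hb h]

end Terminal

/-- A set of edges without cycles on the live vertices `U` has fewer than `|U|` edges. -/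
lemma forest {F : Finset E} {U : Finset V} (hU : ∀ v, ∀ e ∈ F, cr s t {v} e → v ∈ U)
    {u₁ : V} (hu₁ : u₁ ∈ U)
    (hcyc : ∀ c : E → ZMod 2, (∀ X, cs s t c X = 0) → (∀ e, c e ≠ 0 → e ∈ F) →
      ∀ e ∈ F, c e = 0) : F.card + 1 ≤ U.card := by
  have hle : F.powerset.card ≤ (U.erase u₁).powerset.card := by
    refine Finset.card_le_card_of_injOn
      (fun T => (U.erase u₁).filter
        fun v => cs s t (fun e => if e ∈ T then (1 : ZMod 2) else 0) {v} = 1)
      (fun T _ => mem_coe.2 (mem_powerset.2 (filter_subset _ _))) ?_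
    intro T₁ h1 T₂ h2 heq
    have h1' : T₁ ⊆ F := mem_powerset.1 (mem_coe.1 h1)
    have h2' : T₂ ⊆ F := mem_powerset.1 (mem_coe.1 h2)
    obtain ⟨c, hc⟩ : ∃ c : E → ZMod 2, c = (fun e => if e ∈ T₁ then (1 : ZMod 2) else 0) +
      fun e => if e ∈ T₂ then (1 : ZMod 2) else 0 := ⟨_, rfl⟩
    have hcF : ∀ e, c e ≠ 0 → e ∈ F := fun e he => by
      by_contra k
      have k1 : e ∉ T₁ := fun k1 => k (h1' k1)
      have k2 : e ∉ T₂ := fun k2 => k (h2' k2)
      exact he (by simp [hc, k1, k2])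
    have h0 : ∀ v, v ≠ u₁ → cs s t c {v} = 0 := by
      intro v hv
      by_cases hvU : v ∈ U
      · have k := Finset.ext_iff.1 heq v
        simp only [mem_filter, mem_erase.2 ⟨hv, hvU⟩, true_and] at k
        have k2 : ∀ a b : ZMod 2, (a = 1 ↔ b = 1) → a + b = 0 := by decide
        rw [hc, cs_add]
        exact k2 _ _ k
      · by_contra k
        obtain ⟨e, k1, k2⟩ := cy_exists_of_cs k
        exact hvU (hU v e (hcF e k2) k1)
    have h3 : cs s t c {u₁} = 0 := by
      rw [← cs_compl, cs_eq_sum Z2_add_self]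
      exact Finset.sum_eq_zero fun v hv => h0 v (by simpa using hv)
    have hz := hcyc c (cs_zero_of_vertices Z2_add_self fun v => by
      by_cases hv : v = u₁
      exacts [hv ▸ h3, h0 v hv]) hcF
    ext e
    by_cases he : e ∈ F
    · have k := hz e he
      rw [hc] at k
      by_cases a : e ∈ T₁ <;> by_cases b : e ∈ T₂ <;> simp_all
    · exact iff_of_false (fun k => he (h1' k)) fun k => he (h2' k)
  rw [card_powerset, card_powerset, Nat.pow_le_pow_iff_right (by norm_num),
    card_erase_of_mem hu₁] at hle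
  have := card_pos.2 ⟨_, hu₁⟩
  omega

lemma degree_sum (U : Finset V) :
    ∑ v ∈ U, d s t {v} ≤ 2 * (univ.filter fun e => s e ≠ t e).card := by
  unfold d
  simp only [Finset.card_filter]
  rw [Finset.sum_comm, Finset.mul_sum]
  refine Finset.sum_le_sum fun e _ => ?_
  rw [← Finset.card_filter]
  by_cases he : s e ≠ t e
  · rw [if_pos he]
    refine le_trans (card_le_card fun v hv => ?_) (card_le_two (a := s e) (b := t e))
    rcases (cr_single.1 (mem_filter.1 hv).2).2 with k | k <;> simp [k]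
  · rw [filter_eq_empty_iff.2 fun v _ k => he (ne_of_cr k)]
    simp

/-- With all nonzero degrees at least seven there is a nontrivial set `B` of edges that is spanned
by its part in every window. -/
theorem piece (hdeg : ∀ v, d s t {v} = 0 ∨ 7 ≤ d s t {v}) (hne : ∃ e, s e ≠ t e) :
    ∃ (A : E → ZMod 7) (B : E → Prop), (∃ b, B b ∧ s b ≠ t b) ∧
      ∀ x b, B b → cySpan s t (fun e => win A x e ∧ B e) b := by
  classical
  obtain ⟨A₀, hT⟩ := cy_terminal (step s t)
  refine ⟨A₀, fun e => ¬ moved s t A₀ e, ?_, fun x b hb => span_all hT x hb⟩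
  by_contra hno
  have hm : ∀ e, s e ≠ t e → moved s t A₀ e := fun e he => by
    by_contra k
    exact hno ⟨e, k, he⟩
  set U : Finset V := univ.filter fun v => d s t {v} ≠ 0 with hU
  set F : Finset E := univ.filter fun e => s e ≠ t e with hF
  have hlive : ∀ v e, cr s t {v} e → v ∈ U := fun v e he =>
    mem_filter.2 ⟨mem_univ _, (card_pos.2 ⟨e, mem_filter.2 ⟨mem_univ _, he⟩⟩).ne'⟩
  obtain ⟨e₀, he₀⟩ := hne
  have hu : s e₀ ∈ U := hlive _ e₀ (cr_single.2 ⟨he₀, Or.inl rfl⟩)
  have hlow : ∑ _v ∈ U, 7 ≤ ∑ v ∈ U, d s t {v} :=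
    Finset.sum_le_sum fun v hv => (hdeg v).resolve_left (mem_filter.1 hv).2
  have hdeg2 := degree_sum (s := s) (t := t) U
  have hfor : ∀ x : ZMod 7, (F.filter fun e => A₀ e = x ∨ A₀ e = x + 1).card + 1 ≤ U.card :=
    fun x => forest (fun v e _ he => hlive v e he) hu fun c hc hs e he =>
      cycle7 hT (x := x) (G := fun _ => False) (fun _ _ _ k => k.elim) hc
        (fun e' he' => Or.inl (mem_filter.1 (hs e' he')).2)
        (hm e (mem_filter.1 (mem_filter.1 he).1).2) id
  have hsum : ∑ x : ZMod 7, (F.filter fun e => A₀ e = x ∨ A₀ e = x + 1).card = 2 * F.card := by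
    simp only [Finset.card_filter]
    rw [Finset.sum_comm, mul_comm, ← smul_eq_mul, ← Finset.sum_const]
    refine Finset.sum_congr rfl fun e _ => ?_
    have k : ∀ a : ZMod 7, (∑ x : ZMod 7, if a = x ∨ a = x + 1 then 1 else 0) = 2 := by decide
    exact k (A₀ e)
  have hup := Finset.sum_le_sum fun x (_ : x ∈ (univ : Finset (ZMod 7))) => hfor x
  rw [Finset.sum_add_distrib, hsum] at hup
  simp only [Finset.sum_const, card_univ, ZMod.card, smul_eq_mul] at hup hlow
  rw [← hF] at hdeg2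
  omega

end Pool.Agent.Lib.MP_a48b5a_co.O7
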