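import Pool.Agent.Lib.MP_a48b5a_co.TJoin
import Pool.Agent.Lib.MP_ae5681_co.Pack

set_option autoImplicit false

namespace Pool.Agent.Lib.MP_a48b5a_co

open Finset

variable {V E : Type*} [Fintype V] [DecidableEq V] [Fintype E] [DecidableEq E]

/-- Every nontrivial vertex set is crossed by an edge of `F`. -/
def Cn (s t : E → V) (F : Finset E) : Prop :=
  ∀ X : Finset V, X.Nonempty → X ≠ univ → ∃ e ∈ F, cr s t X e

omit [DecidableEq V] [Fintype E] [DecidableEq E] in
lemma nontrivial_of_odd {T : V → ZMod 2} (h0 : ∑ v, T v = 0) {X : Finset V}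
    (h : ∑ v ∈ X, T v = 1) : X.Nonempty ∧ X ≠ univ := by
  constructor
  · rw [Finset.nonempty_iff_ne_empty]
    rintro rfl
    rw [Finset.sum_empty] at h
    exact absurd h (by decide)
  · rintro rfl
    rw [h0] at h
    exact absurd h (by decide)

lemma join_in {s t : E → V} {T : V → ZMod 2} (h0 : ∑ v, T v = 0) {F : Finset E}
    (hF : Cn s t F) : ∃ J ⊆ F, ∀ v, bd s t J v = T v := by
  obtain ⟨J, h1, h2, _⟩ := exists_join s t T h0 (fun e => if e ∈ F then 1 else 0)
    (fun e => by split_ifs <;> norm_num)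
    (fun X hX => by
      obtain ⟨e, he, he2⟩ := hF X (nontrivial_of_odd h0 hX).1 (nontrivial_of_odd h0 hX).2
      have := Finset.single_le_sum (s := univ.filter (cr s t X))
        (f := fun e => if e ∈ F then (1 : ℝ) else 0) (fun e _ => by split_ifs <;> norm_num)
        (Finset.mem_filter.2 ⟨Finset.mem_univ e, he2⟩)
      simpa [he] using this)
    (fun _ => 0) (fun _ => le_rfl)
  refine ⟨J, fun e he => ?_, h2⟩
  have := h1 e he
  by_contra h
  simp [h] at this

omit [Fintype V] [Fintype E] [DecidableEq E] in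
lemma join_crosses {s t : E → V} {T : V → ZMod 2} {J : Finset E} (hJ : ∀ v, bd s t J v = T v)
    {X : Finset V} (hX : ∑ v ∈ X, T v = 1) : ∃ e ∈ J, cr s t X e := by
  have h1 : ((J.filter (cr s t X)).card : ZMod 2) = 1 := by
    rw [← sum_bd, ← hX]
    exact Finset.sum_congr rfl fun v _ => hJ v
  by_contra h
  push Not at h
  rw [Finset.filter_eq_empty_iff.2 h, Finset.card_empty] at h1
  exact absurd h1 (by decide)

omit [Fintype E] [DecidableEq E] in
lemma cut_unique {s t : E → V} {F : Finset E} (hF : Cn s t F) {X Y : Finset V}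
    (h : ∀ e ∈ F, cr s t X e ↔ cr s t Y e) (e : E) : cr s t X e ↔ cr s t Y e := by
  set Z : Finset V := univ.filter (fun v => ¬ (v ∈ X ↔ v ∈ Y)) with hZ
  have h1 : ∀ f, cr s t Z f ↔ ¬ (cr s t X f ↔ cr s t Y f) := by
    intro f
    unfold cr
    simp only [hZ, Finset.mem_filter, Finset.mem_univ, true_and]
    tauto
  by_contra hc
  have h2 := (h1 e).2 hc
  have h3 : Z.Nonempty := by
    rw [Finset.nonempty_iff_ne_empty]
    intro h4
    unfold cr at h2
    simp [h4] at h2
  have h4 : Z ≠ univ := by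
    intro h4
    unfold cr at h2
    simp [h4] at h2
  obtain ⟨f, hf, hf2⟩ := hF Z h3 h4
  exact (h1 f).1 hf2 (h f hf)

/-- The edge `e` lies outside `J` in an odd cut with at most two edges outside `J`. -/
def Bad (s t : E → V) (J : Finset E) (e : E) : Prop :=
  e ∉ J ∧ ∃ X : Finset V, ∑ v ∈ X, bd s t univ v = 1 ∧ cr s t X e ∧
    (univ.filter (fun f => f ∉ J ∧ cr s t X f)).card ≤ 2

omit [Fintype V] in
lemma even_out {s t : E → V} {J : Finset E} (hJ : ∀ v, bd s t J v = bd s t univ v)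
    (X : Finset V) : Even (univ.filter (fun f => f ∉ J ∧ cr s t X f)).card := by
  have h1 : (J.filter (cr s t X)).card + (univ.filter (fun f => f ∉ J ∧ cr s t X f)).card
      = (univ.filter (cr s t X)).card := by
    rw [← Finset.card_union_of_disjoint]
    · congr 1
      ext f
      simp only [Finset.mem_union, Finset.mem_filter, Finset.mem_univ, true_and]
      by_cases hf : f ∈ J <;> simp [hf]
    · rw [Finset.disjoint_left]
      intro f a b
      exact (Finset.mem_filter.1 b).2.1 (Finset.mem_filter.1 a).1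
  have h2 : ((J.filter (cr s t X)).card : ZMod 2) = ((univ.filter (cr s t X)).card : ZMod 2) := by
    rw [← sum_bd, ← sum_bd]
    exact Finset.sum_congr rfl fun v _ => hJ v
  rw [← h1, Nat.cast_add] at h2
  rw [← ZMod.natCast_eq_zero_iff_even]
  exact (left_eq_add.1 h2)

open Classical in
/-- The join found by linear programming in the complement of a good join. -/
lemma light_join {s t : E → V} {J K : Finset E} (hJ : ∀ v, bd s t J v = bd s t univ v)
    (hK : ∀ v, bd s t K v = bd s t univ v) (hJK : Disjoint J K) (w : E → ℝ) (hw : ∀ e, 0 ≤ w e) :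
    ∃ J' : Finset E, Disjoint J' J ∧ (∀ v, bd s t J' v = bd s t univ v) ∧
      ∑ e ∈ J', w e ≤
        ∑ e, w e * (if e ∈ J then 0 else if Bad s t J e then (1 / 2 : ℝ) else 1 / 4) := by
  obtain ⟨J', h1, h2, h3⟩ := exists_join s t (bd s t univ) (sum_bd_univ s t univ)
    (fun e => if e ∈ J then 0 else if Bad s t J e then (1 / 2 : ℝ) else 1 / 4)
    (fun e => by split_ifs <;> norm_num)
    (fun X hX => by
      set P := univ.filter (fun f => f ∉ J ∧ cr s t X f) with hP
      have hsub : P ⊆ univ.filter (cr s t X) := fun f hf =>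
        Finset.mem_filter.2 ⟨Finset.mem_univ _, (Finset.mem_filter.1 hf).2.2⟩
      refine le_trans ?_ (Finset.sum_le_sum_of_subset_of_nonneg hsub
        fun e _ _ => by split_ifs <;> norm_num)
      obtain ⟨e, he, he2⟩ := join_crosses hK hX
      have heP : e ∈ P := Finset.mem_filter.2 ⟨Finset.mem_univ _,
        fun h => Finset.disjoint_left.1 hJK h he, he2⟩
      have hpos := Finset.card_pos.2 ⟨e, heP⟩
      obtain ⟨k, hk⟩ := even_out hJ X
      rw [← hP] at hk
      by_cases h2 : P.card ≤ 2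
      · have a1 := Finset.card_nsmul_le_sum P
          (fun e => if e ∈ J then 0 else if Bad s t J e then (1 / 2 : ℝ) else 1 / 4) (1 / 2)
          (fun f hf => by
            obtain ⟨b1, b2⟩ := (Finset.mem_filter.1 hf).2
            rw [if_neg b1, if_pos ⟨b1, X, hX, b2, h2⟩])
        have a2 : (2 : ℝ) ≤ P.card := by exact_mod_cast (show 2 ≤ P.card by omega)
        rw [nsmul_eq_mul] at a1
        linarith
      · have a1 := Finset.card_nsmul_le_sum P
          (fun e => if e ∈ J then 0 else if Bad s t J e then (1 / 2 : ℝ) else 1 / 4) (1 / 4)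
          (fun f hf => by
            obtain ⟨b1, _⟩ := (Finset.mem_filter.1 hf).2
            rw [if_neg b1]
            split_ifs <;> norm_num)
        have a2 : (4 : ℝ) ≤ P.card := by exact_mod_cast (show 4 ≤ P.card by omega)
        rw [nsmul_eq_mul] at a1
        linarith)
    w hw
  refine ⟨J', Finset.disjoint_left.2 fun e he heJ => ?_, h2, h3⟩
  have := h1 e he
  simp [heJ] at this

omit [Fintype V] in
/-- The two edges outside `J` of a bad cut. -/
lemma bad_cut {s t : E → V} {J K L : Finset E} (hK : ∀ v, bd s t K v = bd s t univ v)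
    (hL : ∀ v, bd s t L v = bd s t univ v) (hJK : Disjoint J K) (hJL : Disjoint J L)
    (hKL : Disjoint K L) {X : Finset V} (hX : ∑ v ∈ X, bd s t univ v = 1)
    (hc : (univ.filter (fun f => f ∉ J ∧ cr s t X f)).card ≤ 2) :
    ∃ a ∈ K, ∃ b ∈ L, ∀ f, f ∉ J → cr s t X f → f = a ∨ f = b := by
  obtain ⟨a, ha, ha2⟩ := join_crosses hK hX
  obtain ⟨b, hb, hb2⟩ := join_crosses hL hX
  have hab : a ≠ b := fun h => Finset.disjoint_left.1 hKL ha (h ▸ hb)
  have h1 : ({a, b} : Finset E) ⊆ univ.filter (fun f => f ∉ J ∧ cr s t X f) := by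
    intro f hf
    simp only [Finset.mem_insert, Finset.mem_singleton] at hf
    rcases hf with rfl | rfl
    · exact Finset.mem_filter.2 ⟨Finset.mem_univ _,
        fun h => Finset.disjoint_left.1 hJK h ha, ha2⟩
    · exact Finset.mem_filter.2 ⟨Finset.mem_univ _,
        fun h => Finset.disjoint_left.1 hJL h hb, hb2⟩
  have h2 := Finset.eq_of_subset_of_card_le h1 (by rw [Finset.card_pair hab]; exact hc)
  refine ⟨a, ha, b, hb, fun f h3 h4 => ?_⟩
  have : f ∈ ({a, b} : Finset E) := by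
    rw [h2]; exact Finset.mem_filter.2 ⟨Finset.mem_univ _, h3, h4⟩
  simpa using this

lemma not_bad_twice {s t : E → V} {J K L SL : Finset E} (hJ : ∀ v, bd s t J v = bd s t univ v)
    (hK : ∀ v, bd s t K v = bd s t univ v) (hL : ∀ v, bd s t L v = bd s t univ v)
    (hLS : L ⊆ SL) (hS : Cn s t SL) (hJK : Disjoint J K) (hJL : Disjoint J SL)
    (hKL : Disjoint K SL)
    (h4 : ∀ X : Finset V, X.Nonempty → X ≠ univ → 4 ≤ (univ.filter (cr s t X)).card)
    {e : E} (b1 : Bad s t J e) (b2 : Bad s t K e) : False := by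
  obtain ⟨heJ, X, hX, heX, hcX⟩ := b1
  obtain ⟨heK, Y, hY, heY, hcY⟩ := b2
  have hJL' : Disjoint J L := Finset.disjoint_of_subset_right hLS hJL
  have hKL' : Disjoint K L := Finset.disjoint_of_subset_right hLS hKL
  obtain ⟨a, ha, b, hb, h1⟩ := bad_cut hK hL hJK hJL' hKL' hX hcX
  obtain ⟨c, hc, d, hd, h2⟩ := bad_cut hJ hL hJK.symm hKL' hJL' hY hcY
  have heb : e = b := by
    rcases h1 e heJ heX with h | h
    · exact absurd (h ▸ ha) heK
    · exact h
  have hed : e = d := by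
    rcases h2 e heK heY with h | h
    · exact absurd (h ▸ hc) heJ
    · exact h
  have h3 : ∀ f ∈ SL, cr s t X f ↔ cr s t Y f := by
    intro f hf
    have a1 : f ∉ J := fun h => Finset.disjoint_left.1 hJL h hf
    have a2 : f ∉ K := fun h => Finset.disjoint_left.1 hKL h hf
    constructor
    · intro h
      rcases h1 f a1 h with h5 | h5
      · exact absurd (h5 ▸ ha) a2
      · rw [h5, ← heb]; exact heY
    · intro h
      rcases h2 f a2 h with h5 | h5
      · exact absurd (h5 ▸ hc) a1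
      · rw [h5, ← hed]; exact heX
  have h5 := cut_unique hS h3
  have h6 : univ.filter (cr s t X) ⊆ {a, c, e} := by
    intro f hf
    have a1 := (Finset.mem_filter.1 hf).2
    simp only [Finset.mem_insert, Finset.mem_singleton]
    by_cases a2 : f ∈ J
    · rcases h2 f (fun h => Finset.disjoint_left.1 hJK a2 h) ((h5 f).1 a1) with h | h
      · exact Or.inr (Or.inl h)
      · exact Or.inr (Or.inr (h.trans hed.symm))
    · rcases h1 f a2 a1 with h | h
      · exact Or.inl h
      · exact Or.inr (Or.inr (h.trans heb.symm))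
  have h7 := (Finset.card_le_card h6).trans Finset.card_le_three
  have h8 := nontrivial_of_odd (sum_bd_univ s t univ) hX
  have := h4 X h8.1 h8.2
  omega

/-- Three disjoint connected spanning edge sets in a 4-edge-connected graph give two disjoint
joins, one of weight at most a quarter. -/
theorem three_trees {s t : E → V} {S₁ S₂ S₃ : Finset E} (c₁ : Cn s t S₁) (c₂ : Cn s t S₂)
    (c₃ : Cn s t S₃) (d₁₂ : Disjoint S₁ S₂) (d₁₃ : Disjoint S₁ S₃) (d₂₃ : Disjoint S₂ S₃)
    (h4 : ∀ X : Finset V, X.Nonempty → X ≠ univ → 4 ≤ (univ.filter (cr s t X)).card)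
    (w : E → ℝ) (hw : ∀ e, 0 ≤ w e) :
    ∃ P J : Finset E, Disjoint P J ∧ (∀ v, bd s t P v = bd s t univ v) ∧
      (∀ v, bd s t J v = bd s t univ v) ∧ 4 * ∑ e ∈ P, w e ≤ ∑ e, w e := by
  classical
  have h0 := sum_bd_univ s t univ
  obtain ⟨J₁, s₁, j₁⟩ := join_in h0 c₁
  obtain ⟨J₂, s₂, j₂⟩ := join_in h0 c₂
  obtain ⟨J₃, s₃, j₃⟩ := join_in h0 c₃
  have e₁₂ : Disjoint J₁ J₂ := Finset.disjoint_of_subset_left s₁
    (Finset.disjoint_of_subset_right s₂ d₁₂)
  have e₁₃ : Disjoint J₁ J₃ := Finset.disjoint_of_subset_left s₁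
    (Finset.disjoint_of_subset_right s₃ d₁₃)
  have e₂₃ : Disjoint J₂ J₃ := Finset.disjoint_of_subset_left s₂
    (Finset.disjoint_of_subset_right s₃ d₂₃)
  obtain ⟨P₁, p₁, q₁, r₁⟩ := light_join j₁ j₂ e₁₂ w hw
  obtain ⟨P₂, p₂, q₂, r₂⟩ := light_join j₂ j₃ e₂₃ w hw
  obtain ⟨P₃, p₃, q₃, r₃⟩ := light_join j₃ j₁ e₁₃.symm w hw
  have n₁₂ : ∀ e, Bad s t J₁ e → Bad s t J₂ e → False := fun e =>
    not_bad_twice j₁ j₂ j₃ s₃ c₃ e₁₂ (Finset.disjoint_of_subset_left s₁ d₁₃)
      (Finset.disjoint_of_subset_left s₂ d₂₃) h4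
  have n₁₃ : ∀ e, Bad s t J₁ e → Bad s t J₃ e → False := fun e =>
    not_bad_twice j₁ j₃ j₂ s₂ c₂ e₁₃ (Finset.disjoint_of_subset_left s₁ d₁₂)
      (Finset.disjoint_of_subset_left s₃ d₂₃.symm) h4
  have n₂₃ : ∀ e, Bad s t J₂ e → Bad s t J₃ e → False := fun e =>
    not_bad_twice j₂ j₃ j₁ s₁ c₁ e₂₃ (Finset.disjoint_of_subset_left s₂ d₁₂.symm)
      (Finset.disjoint_of_subset_left s₃ d₁₃.symm) h4
  have m₁ : ∀ e, Bad s t J₁ e → e ∈ J₂ ∨ e ∈ J₃ := by
    rintro e ⟨a1, X, a2, a3, a4⟩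
    obtain ⟨a, ha, b, hb, h⟩ := bad_cut j₂ j₃ e₁₂ e₁₃ e₂₃ a2 a4
    rcases h e a1 a3 with rfl | rfl
    exacts [Or.inl ha, Or.inr hb]
  have m₂ : ∀ e, Bad s t J₂ e → e ∈ J₁ ∨ e ∈ J₃ := by
    rintro e ⟨a1, X, a2, a3, a4⟩
    obtain ⟨a, ha, b, hb, h⟩ := bad_cut j₁ j₃ e₁₂.symm e₂₃ e₁₃ a2 a4
    rcases h e a1 a3 with rfl | rfl
    exacts [Or.inl ha, Or.inr hb]
  have m₃ : ∀ e, Bad s t J₃ e → e ∈ J₁ ∨ e ∈ J₂ := by
    rintro e ⟨a1, X, a2, a3, a4⟩
    obtain ⟨a, ha, b, hb, h⟩ := bad_cut j₁ j₂ e₁₃.symm e₂₃.symm e₁₂ a2 a4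
    rcases h e a1 a3 with rfl | rfl
    exacts [Or.inl ha, Or.inr hb]
  have hsum : ∑ e ∈ P₁, w e + ∑ e ∈ P₂, w e + ∑ e ∈ P₃, w e ≤ 3 / 4 * ∑ e, w e := by
    refine (add_le_add (add_le_add r₁ r₂) r₃).trans ?_
    rw [← Finset.sum_add_distrib, ← Finset.sum_add_distrib, Finset.mul_sum]
    refine Finset.sum_le_sum fun e _ => ?_
    rw [← mul_add, ← mul_add, mul_comm (3 / 4 : ℝ)]
    refine mul_le_mul_of_nonneg_left ?_ (hw e)
    have a₁ := m₁ e
    have a₂ := m₂ e
    have a₃ := m₃ e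
    have b₁ := n₁₂ e
    have b₂ := n₁₃ e
    have b₃ := n₂₃ e
    split_ifs <;> first | (norm_num; done) | tauto
  rcases le_total (∑ e ∈ P₁, w e) (∑ e ∈ P₂, w e) with h | h
  · rcases le_total (∑ e ∈ P₁, w e) (∑ e ∈ P₃, w e) with h' | h'
    · exact ⟨P₁, J₁, p₁, q₁, j₁, by linarith⟩
    · exact ⟨P₃, J₃, p₃, q₃, j₃, by linarith⟩
  · rcases le_total (∑ e ∈ P₂, w e) (∑ e ∈ P₃, w e) with h' | h'
    · exact ⟨P₂, J₂, p₂, q₂, j₂, by linarith⟩
    · exact ⟨P₃, J₃, p₃, q₃, j₃, by linarith⟩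

omit [Fintype E] [DecidableEq E] in
/-- A connected spanning edge set crosses every nontrivial cut. -/
lemma cn_of_connected {s t : E → V} {P : E → Prop}
    (h : (SimpleGraph.fromRel (fun u v : V => ∃ e : E, P e ∧
      ((s e = u ∧ t e = v) ∨ (s e = v ∧ t e = u)))).Connected)
    (X : Finset V) (h1 : X.Nonempty) (h2 : X ≠ univ) : ∃ e, P e ∧ cr s t X e := by
  obtain ⟨a, ha⟩ := h1
  obtain ⟨b, hb⟩ : ∃ b, b ∉ X := by
    by_contra hc
    push Not at hc
    exact h2 (Finset.eq_univ_of_forall hc)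
  obtain ⟨p⟩ := h.preconnected a b
  obtain ⟨d, _, hd1, hd2⟩ := p.exists_boundary_dart (X : Set V) ha hb
  have hadj := d.adj
  rw [SimpleGraph.fromRel_adj] at hadj
  have hd1' : d.toProd.1 ∈ X := hd1
  have hd2' : d.toProd.2 ∉ X := hd2
  rcases hadj.2 with ⟨e, he, h3⟩ | ⟨e, he, h3⟩ <;> refine ⟨e, he, ?_⟩ <;> unfold cr <;>
    rcases h3 with ⟨c, d⟩ | ⟨c, d⟩ <;> simp [c, d, hd1', hd2']

omit [DecidableEq E] in
lemma cut_ge_of_connected {s t : E → V} {k : ℕ}
    (h : ∀ S : Finset E, S.card < k → (SimpleGraph.fromRel (fun u v : V => ∃ e : E, e ∉ S ∧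
      ((s e = u ∧ t e = v) ∨ (s e = v ∧ t e = u)))).Connected)
    (X : Finset V) (h1 : X.Nonempty) (h2 : X ≠ univ) : k ≤ (univ.filter (cr s t X)).card := by
  by_contra hc
  obtain ⟨e, he, he2⟩ := cn_of_connected (h _ (not_le.1 hc)) X h1 h2
  exact he (Finset.mem_filter.2 ⟨Finset.mem_univ _, he2⟩)

/-- Nash-Williams and Tutte: disjoint connected spanning edge sets. -/
lemma trees_of_cut {s t : E → V} (k : ℕ)
    (h : ∀ X : Finset V, X.Nonempty → X ≠ univ → 2 * k ≤ (univ.filter (cr s t X)).card) :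
    ∃ S : Fin k → Finset E, (∀ i, Cn s t (S i)) ∧ ∀ i j, i ≠ j → Disjoint (S i) (S j) := by
  obtain ⟨R, h1, h2⟩ := Pool.Agent.Lib.MP_ae5681_co.pack (J := Fin k) (univ : Finset E) s t id 1
    one_pos
    (fun g => by
      rw [Finset.card_le_one]
      intro a ha b hb
      exact (Finset.mem_filter.1 ha).2.trans (Finset.mem_filter.1 hb).2.symm)
    (fun A a1 a2 => by
      have := h A a1 a2
      simp only [Fintype.card_fin, mul_one]
      exact this)
  refine ⟨R, fun i X a1 a2 => (h1 i).2 X a1 a2, fun i j hij => ?_⟩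
  rw [Finset.disjoint_left]
  intro e a1 a2
  exact hij (h2 i j e e a1 a2 rfl).2

omit [Fintype V] [Fintype E] [DecidableEq E] in
lemma even_of_bd {s t : E → V} (hl : ∀ e, s e ≠ t e) {F : Finset E} {v : V}
    (h : bd s t F v = 0) : Even (F.filter (fun e => s e = v ∨ t e = v)).card := by
  rw [bd_eq_card, ZMod.natCast_eq_zero_iff_even] at h
  have : F.filter (fun e => s e = v ∨ t e = v) = F.filter (cr s t {v}) := by
    refine Finset.filter_congr fun e _ => ?_
    have := hl e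
    unfold cr
    simp only [Finset.mem_singleton]
    by_cases b1 : s e = v <;> by_cases b2 : t e = v
    · exact absurd (b1.trans b2.symm) this
    all_goals simp [b1, b2]
  rwa [this]

omit [Fintype V] in
/-- Two disjoint joins give a cover by two even subgraphs. -/
lemma cover_of_joins {s t : E → V} (hl : ∀ e, s e ≠ t e) {P J : Finset E} (hd : Disjoint P J)
    (hP : ∀ v, bd s t P v = bd s t univ v) (hJ : ∀ v, bd s t J v = bd s t univ v) :
    ∃ F₁ F₂ : Finset E,
      (∀ v : V, Even (F₁.filter (fun e => s e = v ∨ t e = v)).card) ∧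
      (∀ v : V, Even (F₂.filter (fun e => s e = v ∨ t e = v)).card) ∧
      F₁ ∪ F₂ = univ ∧ F₁.card + F₂.card = Fintype.card E + P.card := by
  have h2 : ∀ a : ZMod 2, a + a = 0 := by decide
  refine ⟨Jᶜ, P ∪ J, fun v => even_of_bd hl ?_, fun v => even_of_bd hl ?_, ?_, ?_⟩
  · have h1 := bd_union s t (J := J) (K := Jᶜ) disjoint_compl_right v
    rw [Finset.union_compl, hJ v] at h1
    exact (left_eq_add.1 h1)
  · rw [bd_union s t hd, hP, hJ, h2]
  · ext e
    by_cases he : e ∈ J <;> simp [he]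
  · rw [Finset.card_union_of_disjoint hd]
    have := Finset.card_add_card_compl J
    omega

end Pool.Agent.Lib.MP_a48b5a_co
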