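import Pool.Agent.Lib.MP_a48b5a_co.O7Split
import Pool.Agent.Lib.MP_a48b5a_co.Three

/-!
# Seven joins in cyclic windows: the invariant and its two lifts
-/

set_option autoImplicit false
set_option linter.unusedSectionVars false

namespace Pool.Agent.Lib.MP_a48b5a_co.O7

open Finset U5

variable {V E : Type} [Fintype V] [DecidableEq V] [Fintype E] [DecidableEq E]
variable {s t : E → V}

/-- Seven joins, each inside its window, with few bad edges. -/
structure Inv (s t : E → V) (A : E → ZMod 7) (J : ZMod 7 → Finset E) : Prop where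
  join : ∀ i v, bd s t (J i) v = bd s t univ v
  win : ∀ i, ∀ e ∈ J i, A e = i ∨ A e = i + 1
  bad : ∀ i e, Bad s t (J i) e → e ∈ J (A e) ∧ e ∈ J (A e - 1) ∧ ∀ j, Bad s t (J j) e → j = i

/-- Indicator of the complement. -/
def co (J : Finset E) (e : E) : ZMod 2 := if e ∈ J then 0 else 1

lemma bd_cs (J : Finset E) (X : Finset V) :
    ∑ v ∈ X, bd s t J v = cs s t (fun e => if e ∈ J then 1 else 0) X := by
  rw [sum_bd, Finset.card_filter, Nat.cast_sum, cs,
    ← Finset.sum_subset (Finset.subset_univ J) (fun e _ he => by simp [he])]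
  refine Finset.sum_congr rfl fun e he => ?_
  split_ifs <;> simp

lemma par_cs (X : Finset V) : ∑ v ∈ X, bd s t univ v = cs s t (fun _ => 1) X := by
  simpa using bd_cs (s := s) (t := t) univ X

lemma join_iff (J : Finset E) :
    (∀ v, bd s t J v = bd s t univ v) ↔ ∀ X, cs s t (co J) X = 0 := by
  have k : ∀ X, cs s t (co J) X = ∑ v ∈ X, bd s t J v + ∑ v ∈ X, bd s t univ v := by
    intro X
    rw [bd_cs, par_cs, ← cs_add]
    refine cs_congr fun e _ => ?_
    by_cases he : e ∈ J <;> simp [co, he, Z2_add_self]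
  constructor
  · intro h X
    rw [k, Finset.sum_congr rfl fun v _ => h v, Z2_add_self]
  · intro h v
    have := k {v}
    rw [h, sum_singleton, sum_singleton] at this
    have k2 : ∀ a b : ZMod 2, 0 = a + b → a = b := by decide
    exact k2 _ _ this

lemma Inv.disj {A : E → ZMod 7} {J : ZMod 7 → Finset E} (h : Inv s t A J) (i : ZMod 7) :
    Disjoint (J i) (J (i + 2)) := by
  refine disjoint_left.2 fun e a b => ?_
  have k : ∀ a i : ZMod 7, (a = i ∨ a = i + 1) → ¬ (a = i + 2 ∨ a = i + 2 + 1) := by decide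
  exact k _ _ (h.win i e a) (h.win _ e b)

theorem inv_base (h : ∀ e, s e = t e) : Inv s t (fun _ => 0) (fun _ => ∅) := by
  refine ⟨fun _ => (join_iff ∅).2 fun X => Finset.sum_eq_zero fun e _ => ?_,
    fun _ e he => absurd he (notMem_empty e), fun _ e ⟨_, X, _, k, _⟩ => ?_⟩
  · rw [if_neg fun k => ne_of_cr k (h e)]
  · exact absurd (h e) (ne_of_cr k)

theorem inv_merge {s' t' : E → V} {z x x' : V} {f f' : E} (m : Merge s t s' t' z f f' x x')
    {A : E → ZMod 7} {J : ZMod 7 → Finset E} (h : Inv s' t' A J) :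
    Inv s t (fun e => A (rep f f' e)) (fun i => univ.filter fun e => rep f f' e ∈ J i) := by
  have hb : ∀ i e, Bad s t (univ.filter fun e => rep f f' e ∈ J i) e →
      Bad s' t' (J i) (rep f f' e) := by
    rintro i e ⟨h1, X, hX, he, hc⟩
    simp only [mem_filter, mem_univ, true_and] at h1 hc
    have hX' : ∑ v ∈ X, bd s' t' univ v = 1 := by
      rw [par_cs] at hX ⊢
      rw [← m.cs_rep Z2_add_self]
      exact hX
    have c1 := m.hf.cr_iff X
    have c2 := m.hf'.cr_iff X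
    have c3 := m.cr_f X
    refine ⟨h1, X, hX', ?_, le_trans (card_le_card fun g hg => ?_)
      ((card_image_le (f := rep f f')).trans hc)⟩
    · by_contra k
      have hef : e = f ∨ e = f' := by
        by_contra k2
        rw [not_or] at k2
        rw [rep_of_ne k2.2, m.cr_rest X k2.1 k2.2] at k
        exact k he
      have hr : rep f f' e = f := by
        rcases hef with rfl | rfl
        exacts [rep_of_ne m.ne, rep_self _ _]
      rw [hr] at k h1
      have a1 : cr s t X f ∧ cr s t X f' := by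
        rcases hef with rfl | rfl <;> tauto
      obtain ⟨g, g1, g2⟩ := join_crosses (h.join (i + 2)) hX'
      have gf : g ≠ f := fun a => k (a ▸ g2)
      have gf' : g ≠ f' := fun a => m.not_cr_f' X (a ▸ g2)
      have := two_lt_card.2 (show ∃ a ∈ univ.filter fun g => rep f f' g ∉ J i ∧ cr s t X g,
          ∃ b ∈ univ.filter fun g => rep f f' g ∉ J i ∧ cr s t X g,
          ∃ c ∈ univ.filter fun g => rep f f' g ∉ J i ∧ cr s t X g, a ≠ b ∧ a ≠ c ∧ b ≠ c from
        ⟨f, mem_filter.2 ⟨mem_univ _, by rwa [rep_of_ne m.ne], a1.1⟩,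
          f', mem_filter.2 ⟨mem_univ _, by rwa [rep_self], a1.2⟩,
          g, mem_filter.2 ⟨mem_univ _, by
            rw [rep_of_ne gf']
            exact fun a => disjoint_left.1 (h.disj i) a g1, (m.cr_rest X gf gf').1 g2⟩,
          m.ne, gf.symm, gf'.symm⟩)
      omega
    · obtain ⟨-, g1, g2⟩ := mem_filter.1 hg
      have gf' : g ≠ f' := fun a => m.not_cr_f' X (a ▸ g2)
      by_cases gf : g = f
      · subst gf
        by_cases a : cr s t X g
        · exact mem_image.2 ⟨g, mem_filter.2 ⟨mem_univ _, by rwa [rep_of_ne gf'], a⟩,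
            rep_of_ne gf'⟩
        · have a2 : cr s t X f' := by
            rw [c1] at a
            rw [c3] at g2
            rw [c2]
            exact fun k => g2 ((not_not.1 a).symm.trans k)
          exact mem_image.2 ⟨f', mem_filter.2 ⟨mem_univ _, by rwa [rep_self], a2⟩, rep_self _ _⟩
      · exact mem_image.2 ⟨g, mem_filter.2 ⟨mem_univ _, by rwa [rep_of_ne gf'],
          (m.cr_rest X gf gf').1 g2⟩, rep_of_ne gf'⟩
  refine ⟨fun i => (join_iff _).2 fun X => ?_, fun i e he => h.win i _ (mem_filter.1 he).2,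
    fun i e he => ?_⟩
  · rw [← (join_iff _).1 (h.join i) X, ← m.cs_rep Z2_add_self]
    exact cs_congr fun e _ => by simp [co]
  · obtain ⟨a, b, c⟩ := h.bad i _ (hb i e he)
    exact ⟨mem_filter.2 ⟨mem_univ _, a⟩, mem_filter.2 ⟨mem_univ _, b⟩, fun j hj => c j (hb j e hj)⟩

section Contract

variable {A : E → ZMod 7} {J : ZMod 7 → Finset E} {B : E → Prop}

/-- A bad cut that meets the piece: its two edges outside the join. -/
lemma two_edges (hw : ∀ i, ∀ e ∈ J i, A e = i ∨ A e = i + 1)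
    (hsp : ∀ x b, B b → cySpan s t (fun e => win A x e ∧ B e) b)
    {i : ZMod 7} {X : Finset V} {b : E} (hb : B b) (hX : cr s t X b)
    (hc : (univ.filter fun g => g ∉ J i ∧ cr s t X g).card ≤ 2) :
    ∃ p q, B p ∧ B q ∧ A p = i + 3 ∧ A q = i + 5 ∧
      ∀ g, cr s t X g → g ∈ J i ∨ g = p ∨ g = q := by
  obtain ⟨p, p1, p2, p3⟩ := hsp (i + 2) b hb X hX
  obtain ⟨p', p1', p2', -⟩ := hsp (i + 3) b hb X hX
  obtain ⟨q, q1, q2, q3⟩ := hsp (i + 4) b hb X hX
  obtain ⟨q', q1', q2', -⟩ := hsp (i + 5) b hb X hX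
  have k1 : ∀ a i : ZMod 7, ((a = i + 2 ∨ a = i + 2 + 1) ∨ (a = i + 3 ∨ a = i + 3 + 1) ∨
      (a = i + 4 ∨ a = i + 4 + 1) ∨ (a = i + 5 ∨ a = i + 5 + 1)) → ¬ (a = i ∨ a = i + 1) := by
    decide
  have k2 : ∀ a i : ZMod 7, (a = i + 2 ∨ a = i + 2 + 1) → ¬ (a = i + 4 ∨ a = i + 4 + 1) := by
    decide
  have k3 : ∀ a b i : ZMod 7, (a = i + 2 ∨ a = i + 2 + 1) → (b = i + 4 ∨ b = i + 4 + 1) →
      ((a = i + 3 ∨ a = i + 3 + 1) ∨ (b = i + 3 ∨ b = i + 3 + 1)) →
      ((a = i + 5 ∨ a = i + 5 + 1) ∨ (b = i + 5 ∨ b = i + 5 + 1)) → a = i + 3 ∧ b = i + 5 := by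
    decide
  have hpq : p ≠ q := fun e => k2 _ i p2 (e ▸ q2)
  have hall : ∀ g, cr s t X g → g ∈ J i ∨ g = p ∨ g = q := by
    intro g hg
    by_contra k
    simp only [not_or] at k
    have := two_lt_card.2 (show ∃ a ∈ univ.filter fun g => g ∉ J i ∧ cr s t X g,
        ∃ b ∈ univ.filter fun g => g ∉ J i ∧ cr s t X g,
        ∃ c ∈ univ.filter fun g => g ∉ J i ∧ cr s t X g, a ≠ b ∧ a ≠ c ∧ b ≠ c from
      ⟨g, mem_filter.2 ⟨mem_univ _, k.1, hg⟩,
        p, mem_filter.2 ⟨mem_univ _, fun a => k1 _ i (Or.inl p2) (hw i p a), p1⟩,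
        q, mem_filter.2 ⟨mem_univ _,
          fun a => k1 _ i (Or.inr (Or.inr (Or.inl q2))) (hw i q a), q1⟩, k.2.1, k.2.2, hpq⟩)
    omega
  have a1 := (hall p' p1').resolve_left fun a => k1 _ i (Or.inr (Or.inl p2')) (hw i _ a)
  have a2 := (hall q' q1').resolve_left
    fun a => k1 _ i (Or.inr (Or.inr (Or.inr q2'))) (hw i _ a)
  obtain ⟨r1, r2⟩ := k3 (A p) (A q) i p2 q2
    (by rcases a1 with rfl | rfl; exacts [Or.inl p2', Or.inr p2'])
    (by rcases a2 with rfl | rfl; exacts [Or.inl q2', Or.inr q2'])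
  exact ⟨p, q, p3, q3, r1, r2, hall⟩

/-- An edge cannot play both roles. -/
lemma one_role (hw : ∀ i, ∀ e ∈ J i, A e = i ∨ A e = i + 1)
    (hsp : ∀ x b, B b → cySpan s t (fun e => win A x e ∧ B e) b)
    {i j : ZMod 7} {X Y : Finset V} {e q p : E} (hB : B e) (he : A e = i + 3) (hq : A q = i + 5)
    (hp : A p = j + 3) (he' : A e = j + 5) (eX : cr s t X e) (eY : cr s t Y e)
    (hX : ∀ g, cr s t X g → g ∈ J i ∨ g = e ∨ g = q)
    (hY : ∀ g, cr s t Y g → g ∈ J j ∨ g = p ∨ g = e) : False := by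
  have k0 : ∀ i j : ZMod 7, i + 3 = j + 5 → j = i + 5 := by decide
  obtain rfl := k0 i j (he.symm.trans he')
  have cX : ∀ g, cr s t X g → g = e ∨ A g = i ∨ A g = i + 1 ∨ A g = i + 5 := fun g hg => by
    rcases hX g hg with a | a | a
    · rcases hw i g a with a | a <;> simp [a]
    · exact Or.inl a
    · simp [a, hq]
  have cY : ∀ g, cr s t Y g →
      g = e ∨ A g = i + 5 ∨ A g = i + 5 + 1 ∨ A g = i + 5 + 3 := fun g hg => by
    rcases hY g hg with a | a | a
    · rcases hw _ g a with a | a <;> simp [a]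
    · simp [a, hp]
    · exact Or.inl a
  have k1 : ∀ a i : ZMod 7, (a = i + 3 ∨ a = i + 3 + 1) → ¬ (a = i ∨ a = i + 1 ∨ a = i + 5) ∧
      ¬ (a = i + 5 ∨ a = i + 5 + 1 ∨ a = i + 5 + 3) := by decide
  have hZ : ∀ b, B b → (cr s t X b ↔ cr s t Y b) := by
    intro b hb
    by_contra k
    obtain ⟨g, g1, g2, -⟩ := hsp (i + 3) b hb _ ((cr_symmDiff X Y b).2 k)
    rw [cr_symmDiff] at g1
    have a1 : cr s t X g → g = e := fun a => (cX g a).resolve_right (k1 _ i g2).1
    have a2 : cr s t Y g → g = e := fun a => (cY g a).resolve_right (k1 _ i g2).2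
    exact g1 ⟨fun a => a1 a ▸ eY, fun a => a2 a ▸ eX⟩
  obtain ⟨g, g1, g2, g3⟩ := hsp (i + 6) e hB X eX
  have k2 : ∀ a i : ZMod 7, (a = i + 6 ∨ a = i + 6 + 1) → a ≠ i + 3 ∧
      ¬ ((a = i ∨ a = i + 1 ∨ a = i + 5) ∧ (a = i + 5 ∨ a = i + 5 + 1 ∨ a = i + 5 + 3)) := by
    decide
  have ge : g ≠ e := fun a => (k2 _ i g2).1 (a ▸ he)
  exact (k2 _ i g2).2 ⟨(cX g g1).resolve_left ge, (cY g ((hZ g g3).1 g1)).resolve_left ge⟩

lemma bad_inner (hj : ∀ i v, bd s t (J i) v = bd s t univ v)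
    (hw : ∀ i, ∀ e ∈ J i, A e = i ∨ A e = i + 1)
    {i : ZMod 7} {X : Finset V} (hX : ∑ v ∈ X, bd s t univ v = 1) {p q : E} (hp : A p = i + 3)
    (hq : A q = i + 5) (hall : ∀ g, cr s t X g → g ∈ J i ∨ g = p ∨ g = q) :
    (p ∈ J (A p) ∧ p ∈ J (A p - 1)) ∧ q ∈ J (A q) ∧ q ∈ J (A q - 1) := by
  have key : ∀ k, ∃ g ∈ J k, (A g = i ∨ A g = i + 1) ∨ g = p ∨ g = q := fun k => by
    obtain ⟨g, g1, g2⟩ := join_crosses (hj k) hX
    exact ⟨g, g1, (hall g g2).imp_left (hw i g)⟩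
  have k1 : ∀ a k i : ZMod 7, (a = k ∨ a = k + 1) → (k = i + 3 ∨ k = i + 3 - 1) →
      ¬ (a = i ∨ a = i + 1) ∧ a ≠ i + 5 := by decide
  have k2 : ∀ a k i : ZMod 7, (a = k ∨ a = k + 1) → (k = i + 5 ∨ k = i + 5 - 1) →
      ¬ (a = i ∨ a = i + 1) ∧ a ≠ i + 3 := by decide
  have a1 : ∀ k, (k = i + 3 ∨ k = i + 3 - 1) → p ∈ J k := fun k hk => by
    obtain ⟨g, g1, g2 | g2 | g2⟩ := key k
    · exact absurd g2 (k1 _ k i (hw k g g1) hk).1
    · exact g2 ▸ g1
    · exact absurd (g2 ▸ hq) (k1 _ k i (hw k g g1) hk).2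
  have a2 : ∀ k, (k = i + 5 ∨ k = i + 5 - 1) → q ∈ J k := fun k hk => by
    obtain ⟨g, g1, g2 | g2 | g2⟩ := key k
    · exact absurd g2 (k2 _ k i (hw k g g1) hk).1
    · exact absurd (g2 ▸ hp) (k2 _ k i (hw k g g1) hk).2
    · exact g2 ▸ g1
  rw [hp, hq]
  exact ⟨⟨a1 _ (Or.inl rfl), a1 _ (Or.inr rfl)⟩, a2 _ (Or.inl rfl), a2 _ (Or.inr rfl)⟩

theorem inv_contract {A₀ : E → ZMod 7}
    (hsp : ∀ x b, B b → cySpan s t (fun e => win A₀ x e ∧ B e) b) {π : V → V}
    (h1 : ∀ b, B b → π (s b) = π (t b))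
    (h2 : ∀ X : Finset V, (∀ e, cr s t X e → ¬ B e) → ∀ v, π v ∈ X ↔ v ∈ X)
    (h : Inv (fun e => π (s e)) (fun e => π (t e)) A J) : ∃ A' J', Inv s t A' J' := by
  classical
  have hcr : ∀ X : Finset V, (∀ e, cr s t X e → ¬ B e) →
      ∀ e, cr (fun e => π (s e)) (fun e => π (t e)) X e ↔ cr s t X e := fun X hX e => by
    unfold cr
    rw [h2 X hX, h2 X hX]
  have hout : ∀ X : Finset V, (∀ e, cr s t X e → ¬ B e) →
      ∀ e, cr s t X e → π (s e) ≠ π (t e) := fun X hX e he => ne_of_cr ((hcr X hX e).2 he)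
  have hcs : ∀ X : Finset V, (∀ e, cr s t X e → ¬ B e) → ∀ φ : E → ZMod 2,
      cs (fun e => π (s e)) (fun e => π (t e)) φ X = cs s t φ X := fun X hX φ => by
    unfold cs
    simp only [hcr X hX]
  choose c hc1 hc2 using fun i : ZMod 7 => exists_chain (s := s) (t := t)
    (fun e => win A₀ i e ∧ B e)
    (fun v => cs s t (fun e => if π (s e) = π (t e) then 1 else co (J i) e) {v}) fun X hX => by
      have hB : ∀ e, cr s t X e → ¬ B e := fun e he hb => by
        obtain ⟨g, g1, g2⟩ := hsp i e hb X he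
        exact hX g g1 g2
      rw [← cs_eq_sum Z2_add_self, ← (join_iff _).1 (h.join i) X, hcs X hB]
      exact cs_congr fun e he => if_neg (hout X hB e he)
  set A' : E → ZMod 7 := fun e => if π (s e) = π (t e) then A₀ e else A e with hA'
  set J' : ZMod 7 → Finset E :=
    fun i => univ.filter fun e => if π (s e) = π (t e) then c i e = 1 else e ∈ J i with hJ'
  have hAo : ∀ e, π (s e) ≠ π (t e) → A' e = A e := fun e he => if_neg he
  have hAi : ∀ e, B e → A' e = A₀ e := fun e he => if_pos (h1 e he)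
  have hJo : ∀ i e, π (s e) ≠ π (t e) → (e ∈ J' i ↔ e ∈ J i) := fun i e he => by
    simp [hJ', he]
  have hj : ∀ i v, bd s t (J' i) v = bd s t univ v := fun i => (join_iff _).2 fun X => by
    rw [← Z2_add_self (cs s t (c i) X)]
    nth_rewrite 1 [hc2]
    rw [← cs_eq_sum Z2_add_self, ← cs_add]
    refine cs_congr fun e _ => ?_
    by_cases he : π (s e) = π (t e)
    · have k : ∀ a : ZMod 2, (if a = 1 then 0 else 1) = 1 + a := by decide
      simpa [co, hJ', he] using k (c i e)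
    · have : c i e = 0 := hc1 i e fun a => he (h1 e a.2)
      simp [co, hJ', he, this]
  have hw : ∀ i, ∀ e ∈ J' i, A' e = i ∨ A' e = i + 1 := fun i e he => by
    by_cases hi : π (s e) = π (t e)
    · have a : c i e = 1 := by simpa [hJ', hi] using he
      have b : win A₀ i e ∧ B e := by
        by_contra k
        rw [hc1 i e k] at a
        exact absurd a (by decide)
      rw [hAi e b.2]
      exact b.1
    · rw [hAo e hi]
      exact h.win i e ((hJo i e hi).1 he)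
  have hsp' : ∀ x b, B b → cySpan s t (fun e => win A' x e ∧ B e) b := fun x b hb X hX => by
    obtain ⟨g, g1, g2, g3⟩ := hsp x b hb X hX
    exact ⟨g, g1, by unfold win; rw [hAi g g3]; exact g2, g3⟩
  have hcase : ∀ i e, Bad s t (J' i) e →
      (π (s e) ≠ π (t e) ∧ Bad (fun e => π (s e)) (fun e => π (t e)) (J i) e) ∨
      (B e ∧ ∃ X p q, ∑ v ∈ X, bd s t univ v = 1 ∧ cr s t X e ∧ (e = p ∨ e = q) ∧ A' p = i + 3 ∧
        A' q = i + 5 ∧ ∀ g, cr s t X g → g ∈ J' i ∨ g = p ∨ g = q) := by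
    rintro i e ⟨a1, X, a2, a3, a4⟩
    by_cases hB : ∀ e, cr s t X e → ¬ B e
    · refine Or.inl ⟨hout X hB e a3, fun k => a1 ((hJo i e (hout X hB e a3)).2 k), X, ?_,
        (hcr X hB e).2 a3, le_trans (card_le_card fun g hg => ?_) a4⟩
      · rw [par_cs] at a2 ⊢
        rw [hcs X hB, a2]
      · obtain ⟨-, g1, g2⟩ := mem_filter.1 hg
        have g3 := (hcr X hB g).1 g2
        exact mem_filter.2 ⟨mem_univ _, fun k => g1 ((hJo i g (hout X hB g g3)).1 k), g3⟩
    · push Not at hB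
      obtain ⟨b, b1, b2⟩ := hB
      obtain ⟨p, q, p1, q1, p2, q2, hall⟩ := two_edges hw hsp' b2 b1 a4
      have := (hall e a3).resolve_left a1
      exact Or.inr ⟨this.elim (fun k => k ▸ p1) fun k => k ▸ q1, X, p, q, a2, a3, this, p2, q2, hall⟩
  refine ⟨A', J', hj, hw, fun i e he => ?_⟩
  rcases hcase i e he with ⟨a1, a2⟩ | ⟨a1, X, p, q, x1, x2, x3, x4, x5, x6⟩
  · obtain ⟨b1, b2, b3⟩ := h.bad i e a2
    rw [hAo e a1, hJo _ e a1, hJo _ e a1]
    refine ⟨b1, b2, fun j hj' => ?_⟩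
    rcases hcase j e hj' with ⟨-, k⟩ | ⟨k, -⟩
    exacts [b3 j k, absurd (h1 e k) a1]
  · have b := bad_inner hj hw x1 x4 x5 x6
    rw [← and_assoc]
    refine ⟨x3.elim (fun k => k ▸ b.1) fun k => k ▸ b.2, fun j hj' => ?_⟩
    rcases hcase j e hj' with ⟨k, -⟩ | ⟨-, Y, p', q', -, y2, y3, y4, y5, y6⟩
    · exact absurd (h1 e a1) k
    rcases x3 with rfl | rfl <;> rcases y3 with rfl | rfl
    · exact add_right_cancel (y4.symm.trans x4)
    · exact (one_role hw hsp' a1 x4 x5 y4 y5 x2 y2 x6 y6).elim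
    · exact (one_role hw hsp' a1 y4 y5 x4 x5 y2 x2 y6 x6).elim
    · exact add_right_cancel (y5.symm.trans x5)

end Contract

end Pool.Agent.Lib.MP_a48b5a_co.O7
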