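import Pool.Agent.Lib.MP_a48b5a_co.O7Inv

/-!
# Odd cuts at least seven: a good join of weight at most two ninths
-/

set_option autoImplicit false
set_option linter.unusedSectionVars false

namespace Pool.Agent.Lib.MP_a48b5a_co.O7

open Finset U5

variable {V E : Type} [Fintype V] [DecidableEq V] [Fintype E] [DecidableEq E]
variable {s t : E → V}

lemma exists_proj (B : E → Prop) : ∃ π : V → V, (∀ b, B b → π (s b) = π (t b)) ∧
    ∀ X : Finset V, (∀ e, cr s t X e → ¬ B e) → ∀ v, π v ∈ X ↔ v ∈ X := by
  classical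
  let R : V → V → Prop := fun u v =>
    ∀ X : Finset V, (∀ e, cr s t X e → ¬ B e) → (v ∈ X ↔ u ∈ X)
  have hne : ∀ u, ∃ v, R u v := fun u => ⟨u, fun _ _ => Iff.rfl⟩
  refine ⟨fun u => (hne u).choose, fun b hb => ?_, fun X hX v => (hne v).choose_spec X hX⟩
  have : R (s b) = R (t b) := by
    funext v
    refine propext (forall₂_congr fun X hX => ?_)
    have : s b ∈ X ↔ t b ∈ X := by
      by_contra k
      exact hX b k hb
    rw [this]
  simp only
  congr 1

theorem exists_inv (n : ℕ) : ∀ s t : E → V, (univ.filter fun e => s e ≠ t e).card ≤ n →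
    H7 s t → ∃ A J, Inv s t A J := by
  induction n with
  | zero =>
    intro s t hn _
    refine ⟨_, _, inv_base fun e => ?_⟩
    by_contra k
    have : 0 < (univ.filter fun e => s e ≠ t e).card :=
      card_pos.2 ⟨e, mem_filter.2 ⟨mem_univ _, k⟩⟩
    omega
  | succ n ih =>
    intro s t hn h
    by_cases h0 : ∀ e, s e = t e
    · exact ⟨_, _, inv_base h0⟩
    push Not at h0
    by_cases hz : ∃ z, Even (d s t {z}) ∧ d s t {z} ≠ 0
    · obtain ⟨z, z1, z2⟩ := hz
      obtain ⟨s', t', f, f', x, x', m, h'⟩ := split h z1 z2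
      have hf' : s f' ≠ t f' := by
        rcases m.hf' with ⟨a, b⟩ | ⟨a, b⟩ <;> rw [a, b]
        exacts [m.xz'.symm, m.xz']
      have hf : s f ≠ t f := by
        rcases m.hf with ⟨a, b⟩ | ⟨a, b⟩ <;> rw [a, b]
        exacts [m.xz.symm, m.xz]
      have hlt : (univ.filter fun e => s' e ≠ t' e) ⊂ univ.filter fun e => s e ≠ t e := by
        refine ⟨fun e he => mem_filter.2 ⟨mem_univ _, ?_⟩, fun k => ?_⟩
        · by_cases a : e = f
          · exact a ▸ hf
          by_cases b : e = f'
          · exact b ▸ hf'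
          rw [← (m.rest e a b).1, ← (m.rest e a b).2]
          exact (mem_filter.1 he).2
        · exact (mem_filter.1 (k (mem_filter.2 ⟨mem_univ f', hf'⟩))).2 m.loop
      obtain ⟨A, J, hI⟩ := ih s' t' (by have := card_lt_card hlt; omega) h'
      exact ⟨_, _, inv_merge m hI⟩
    · obtain ⟨A₀, B, ⟨b, b1, b2⟩, hsp⟩ := piece (s := s) (t := t) (fun v => by
        by_cases a : d s t {v} = 0
        · exact Or.inl a
        · exact Or.inr (h _ (Nat.not_even_iff_odd.1 fun k => hz ⟨v, k, a⟩))) h0
      obtain ⟨π, p1, p2⟩ := exists_proj (s := s) (t := t) B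
      have hlt : (univ.filter fun e => π (s e) ≠ π (t e)) ⊂ univ.filter fun e => s e ≠ t e :=
        ⟨fun e he => mem_filter.2 ⟨mem_univ _, fun k => (mem_filter.1 he).2 (by rw [k])⟩,
          fun k => (mem_filter.1 (k (mem_filter.2 ⟨mem_univ b, b2⟩))).2 (p1 b b1)⟩
      obtain ⟨A, J, hI⟩ := ih (fun e => π (s e)) (fun e => π (t e))
        (by have := card_lt_card hlt; omega) fun X => by
          have : d (fun e => π (s e)) (fun e => π (t e)) X =
              d s t (univ.filter fun v => π v ∈ X) := by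
            unfold d
            congr 1
            exact filter_congr fun e _ => by simp [cr]
          rw [this]
          exact h _
      exact inv_contract hsp p1 p2 hI

open Classical in
lemma Inv.cost {A : E → ZMod 7} {J : ZMod 7 → Finset E} (h : Inv s t A J) (e : E) :
    ∑ i, ((if e ∈ J i then (1 : ℝ) else 0) +
      8 * (if e ∈ J i then 0 else if Bad s t (J i) e then (1 / 2 : ℝ) else 1 / 4)) ≤ 14 := by
  by_cases hb : ∃ i, Bad s t (J i) e
  · obtain ⟨i, hi⟩ := hb
    obtain ⟨a, b, c⟩ := h.bad i e hi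
    have k : ∀ a : ZMod 7, a ≠ a - 1 := by decide
    have h1 : ∀ j, ((if e ∈ J j then (1 : ℝ) else 0) +
        8 * (if e ∈ J j then 0 else if Bad s t (J j) e then (1 / 2 : ℝ) else 1 / 4)) ≤
        2 + (if j = i then 2 else 0) - (if j = A e then 1 else 0) -
          (if j = A e - 1 then 1 else 0) := by
      intro j
      by_cases hj : e ∈ J j
      · have : j ≠ i := fun k => hi.1 (k ▸ hj)
        have k2 : ∀ a j : ZMod 7, (a = j ∨ a = j + 1) → j = a ∨ j = a - 1 := by decide
        have k3 : ¬ (j = A e ∧ j = A e - 1) := fun x => k _ (x.1.symm.trans x.2)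
        have := k2 _ _ (h.win j e hj)
        by_cases x : j = A e <;> by_cases y : j = A e - 1 <;>
          simp only [hj, if_true, if_neg ‹j ≠ i›] <;> first | tauto | skip
        · rw [if_pos x, if_neg y]; norm_num
        · rw [if_neg x, if_pos y]; norm_num
      · have x : j ≠ A e := fun k => hj (k ▸ a)
        have y : j ≠ A e - 1 := fun k => hj (k ▸ b)
        rw [if_neg hj, if_neg hj, if_neg x, if_neg y]
        by_cases hB : Bad s t (J j) e
        · rw [if_pos hB, if_pos (c j hB)]; norm_num
        · rw [if_neg hB]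
          split_ifs <;> norm_num
    refine (sum_le_sum fun j _ => h1 j).trans ?_
    simp only [sum_sub_distrib, sum_add_distrib, sum_ite_eq', mem_univ, if_true, sum_const,
      card_univ, ZMod.card]
    norm_num
  · have h1 : ∀ j, ((if e ∈ J j then (1 : ℝ) else 0) +
        8 * (if e ∈ J j then 0 else if Bad s t (J j) e then (1 / 2 : ℝ) else 1 / 4)) ≤ 2 := by
      intro j
      rw [if_neg fun k : Bad s t (J j) e => hb ⟨j, k⟩]
      split_ifs <;> norm_num
    refine (sum_le_sum fun j _ => h1 j).trans ?_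
    simp only [sum_const, card_univ, ZMod.card]
    norm_num

theorem two_ninths (h : H7 s t) : ∃ P J : Finset E, Disjoint P J ∧
    (∀ v, bd s t P v = bd s t univ v) ∧ (∀ v, bd s t J v = bd s t univ v) ∧
    9 * P.card ≤ 2 * Fintype.card E := by
  classical
  obtain ⟨A, J, hI⟩ := exists_inv _ s t le_rfl h
  choose L l1 l2 l3 using fun i => light_join (hI.join i) (hI.join (i + 2)) (hI.disj i)
    (fun _ => 1) fun _ => zero_le_one
  by_contra hno
  have a1 : ∀ i, (2 * Fintype.card E : ℝ) < 9 * (J i).card := fun i => by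
    by_contra k
    exact hno ⟨J i, J (i + 2), hI.disj i, hI.join i, hI.join _, by exact_mod_cast not_lt.1 k⟩
  have a2 : ∀ i, (2 * Fintype.card E : ℝ) < 9 * (L i).card := fun i => by
    by_contra k
    exact hno ⟨L i, J i, l1 i, l2 i, hI.join _, by exact_mod_cast not_lt.1 k⟩
  have a3 := sum_le_sum fun e (_ : e ∈ (univ : Finset E)) => hI.cost e
  rw [sum_comm] at a3
  have a4 : ∀ i : ZMod 7, (2 * Fintype.card E : ℝ) <
      ∑ e, ((if e ∈ J i then (1 : ℝ) else 0) +
        8 * (if e ∈ J i then 0 else if Bad s t (J i) e then (1 / 2 : ℝ) else 1 / 4)) := by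
    intro i
    have b := l3 i
    simp only [sum_const, nsmul_eq_mul, mul_one, one_mul] at b
    rw [sum_add_distrib, ← mul_sum]
    have c : ∑ e, (if e ∈ J i then (1 : ℝ) else 0) = (J i).card := by simp
    have := a1 i
    have := a2 i
    linarith
  have a5 := sum_lt_sum_of_nonempty univ_nonempty fun i (_ : i ∈ (univ : Finset (ZMod 7))) => a4 i
  simp only [sum_const, card_univ, ZMod.card, nsmul_eq_mul] at a3 a5
  push_cast at a5
  linarith

end Pool.Agent.Lib.MP_a48b5a_co.O7
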