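import Pool.Agent.Lib.MP_a48b5a_co.O7Cyc

/-!
# Splitting at a vertex of even degree keeps all odd cuts at least seven
-/

set_option autoImplicit false
set_option linter.unusedSectionVars false

namespace Pool.Agent.Lib.MP_a48b5a_co.O7

open Finset U5

variable {V E : Type} [Fintype V] [DecidableEq V] [Fintype E] [DecidableEq E]
variable {s t : E → V}

/-- All odd cuts have at least seven edges. -/
def H7 (s t : E → V) : Prop := ∀ X : Finset V, Odd (d s t X) → 7 ≤ d s t X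

lemma odd_iff (X : Finset V) : Odd (d s t X) ↔ ∑ v ∈ X, bd s t univ v = 1 := by
  rw [sum_bd, ZMod.natCast_eq_one_iff_odd, d]

lemma submod (X Y : Finset V) : d s t (X ∩ Y) + d s t (X ∪ Y) ≤ d s t X + d s t Y := by
  unfold d
  simp only [Finset.card_filter]
  rw [← Finset.sum_add_distrib, ← Finset.sum_add_distrib]
  refine Finset.sum_le_sum fun e _ => ?_
  unfold cr
  simp only [mem_inter, mem_union]
  by_cases a : s e ∈ X <;> by_cases b : t e ∈ X <;> by_cases c : s e ∈ Y <;>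
    by_cases c' : t e ∈ Y <;> simp [a, b, c, c']

lemma merge_H7 (h : H7 s t) {s' t' : E → V} {z x x' : V} {f f' : E}
    (m : Merge s t s' t' z f f' x x')
    (hno : ¬ ∃ X : Finset V, z ∉ X ∧ d s t X = 7 ∧ x ∈ X ∧ x' ∈ X) : H7 s' t' := by
  have key : ∀ X : Finset V, z ∉ X → Odd (d s' t' X) → 7 ≤ d s' t' X := by
    intro X hz ho
    have e := m.d_eq hz
    obtain ⟨k, hk⟩ := ho
    by_cases hx : x ∈ X ∧ x' ∈ X
    · rw [if_pos hx] at e
      have h1 := h X ⟨k + 1, by omega⟩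
      have h2 : d s t X ≠ 7 := fun a => hno ⟨X, hz, a, hx⟩
      omega
    · rw [if_neg hx] at e
      have h1 := h X ⟨k, by omega⟩
      omega
  intro X ho
  by_cases hz : z ∈ X
  · rw [← d_compl] at ho ⊢
    exact key _ (fun a => mem_compl.1 a hz) ho
  · exact key X hz ho

theorem split (h : H7 s t) {z : V} (he : Even (d s t {z})) (h0 : d s t {z} ≠ 0) :
    ∃ (s' t' : E → V) (f f' : E) (x x' : V), Merge s t s' t' z f f' x x' ∧ H7 s' t' := by
  classical
  by_contra hno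
  have hall : ∀ f f' x x', f ≠ f' → x ≠ z → x' ≠ z → Joins s t f z x → Joins s t f' z x' →
      ∃ X : Finset V, z ∉ X ∧ d s t X = 7 ∧ x ∈ X ∧ x' ∈ X := by
    intro f f' x x' a b c j j'
    obtain ⟨s', t', m⟩ := exists_merge a b c j j'
    by_contra k
    exact hno ⟨s', t', f, f', x, x', m, merge_H7 h m k⟩
  have h2 : 1 < (univ.filter (cr s t {z})).card := by
    obtain ⟨k, hk⟩ := he
    unfold d at hk h0
    omega
  obtain ⟨f₀, hf₀, f₁, hf₁, hne⟩ := one_lt_card.1 h2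
  obtain ⟨x₀, a₀, j₀⟩ := exists_joins (mem_filter.1 hf₀).2
  obtain ⟨x₁, a₁, j₁⟩ := exists_joins (mem_filter.1 hf₁).2
  obtain ⟨X₀, b1, b2, b3, -⟩ := hall f₀ f₁ x₀ x₁ hne a₀ a₁ j₀ j₁
  obtain ⟨X, hX, hmax⟩ := exists_max_image
    (univ.filter fun X : Finset V => z ∉ X ∧ d s t X = 7 ∧ ∃ e, cr s t {z} e ∧ cr s t X e) card
    ⟨X₀, mem_filter.2 ⟨mem_univ _, b1, b2, f₀, (mem_filter.1 hf₀).2, by
      rw [j₀.cr_iff]; simp [b1, b3]⟩⟩
  obtain ⟨hz, h7, e, he1, he2⟩ := (mem_filter.1 hX).2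
  obtain ⟨f, hf1, hf2⟩ : ∃ f, cr s t {z} f ∧ ¬ cr s t X f := by
    by_contra k
    have k1 : (univ.filter fun e => cr s t {z} e ∧ cr s t X e) = univ.filter (cr s t {z}) :=
      filter_congr fun g _ => ⟨fun a => a.1, fun a => ⟨a, by
        by_contra b
        exact k ⟨g, a, b⟩⟩⟩
    have k2 := d_insert (s := s) (t := t) hz
    rw [k1] at k2
    change _ + 2 * d s t {z} = _ at k2
    obtain ⟨c, hc⟩ := he
    have := h (insert z X) ⟨3 - c, by omega⟩
    omega
  obtain ⟨a, az, ja⟩ := exists_joins he1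
  obtain ⟨b, bz, jb⟩ := exists_joins hf1
  have haX : a ∈ X := by
    rw [ja.cr_iff] at he2
    tauto
  have hbX : b ∉ X := by
    rw [jb.cr_iff] at hf2
    tauto
  obtain ⟨Y, zY, Y7, aY, bY⟩ := hall e f a b (fun k => hf2 (k ▸ he2)) az bz ja jb
  have oX : ∑ v ∈ X, bd s t univ v = 1 := (odd_iff X).1 (h7 ▸ by decide)
  have oY : ∑ v ∈ Y, bd s t univ v = 1 := (odd_iff Y).1 (Y7 ▸ by decide)
  have zU : z ∉ X ∪ Y := fun k => (mem_union.1 k).elim hz zY
  have eU : cr s t (X ∪ Y) e := by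
    rw [ja.cr_iff]
    simp [hz, zY, haX]
  have p1 := sum_inter_add_sum_sdiff X Y (bd s t univ)
  have p2 := sum_inter_add_sum_sdiff Y X (bd s t univ)
  have p3 := sum_union_inter (s₁ := X) (s₂ := Y) (f := bd s t univ)
  rw [inter_comm Y X] at p2
  rw [oX] at p1
  rw [oY] at p2
  rw [oX, oY] at p3
  by_cases hI : ∑ v ∈ X ∩ Y, bd s t univ v = 1
  · have k : ∀ u : ZMod 2, u + 1 = 1 + 1 → u = 1 := by decide
    rw [hI] at p3
    have q1 := h _ ((odd_iff _).2 hI)
    have q2 := h _ ((odd_iff _).2 (k _ p3))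
    have q3 := submod (s := s) (t := t) X Y
    have q4 := hmax (X ∪ Y) (mem_filter.2 ⟨mem_univ _, zU, by omega, e, he1, eU⟩)
    have q5 := card_lt_card (show X ⊂ X ∪ Y from
      ⟨subset_union_left, fun k => hbX (k (mem_union_right _ bY))⟩)
    omega
  · have k : ∀ u w : ZMod 2, u ≠ 1 → u + w = 1 → w = 1 := by decide
    have q1 := h _ ((odd_iff _).2 (k _ _ hI p1))
    have q2 := h _ ((odd_iff _).2 (k _ _ hI p2))
    have q3 := two_cut (s := s) (t := t) X Y
    have q4 : 0 < (univ.filter fun e => cr s t (X ∩ Y) e ∧ cr s t (X ∪ Y) e).card :=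
      card_pos.2 ⟨e, mem_filter.2 ⟨mem_univ _, by rw [ja.cr_iff]; simp [hz, haX, aY], eU⟩⟩
    omega

end Pool.Agent.Lib.MP_a48b5a_co.O7
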