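import Mathlib

set_option autoImplicit false

namespace Pool.Agent.Lib.MP_a48b5a_co

open Finset

variable {V E : Type*} [Fintype V] [DecidableEq V] [Fintype E] [DecidableEq E]

/-- The edge `e` has exactly one end in `X`. -/
def cr (s t : E → V) (X : Finset V) (e : E) : Prop := ¬ (s e ∈ X ↔ t e ∈ X)

instance (s t : E → V) (X : Finset V) : DecidablePred (cr s t X) := fun e => by
  unfold cr; infer_instance

/-- The edge `e` has at least one end in `X`. -/
def tch (s t : E → V) (X : Finset V) (e : E) : Prop := s e ∈ X ∨ t e ∈ X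

instance (s t : E → V) (X : Finset V) : DecidablePred (tch s t X) := fun e => by
  unfold tch; infer_instance

/-- Degree parity of an edge set. -/
def bd (s t : E → V) (J : Finset E) (v : V) : ZMod 2 :=
  ∑ e ∈ J, ((if s e = v then 1 else 0) + (if t e = v then 1 else 0))

/-- All `T`-odd cuts have `x`-weight at least one. -/
def Feas (s t : E → V) (T : V → ZMod 2) (x : E → ℝ) : Prop :=
  ∀ X : Finset V, ∑ v ∈ X, T v = 1 → 1 ≤ ∑ e with cr s t X e, x e

omit [Fintype V] [Fintype E] [DecidableEq E] in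
lemma sum_bd (s t : E → V) (J : Finset E) (X : Finset V) :
    ∑ v ∈ X, bd s t J v = ((J.filter (cr s t X)).card : ZMod 2) := by
  unfold bd
  rw [Finset.sum_comm, Finset.card_filter, Nat.cast_sum]
  refine Finset.sum_congr rfl fun e _ => ?_
  rw [Finset.sum_add_distrib, Finset.sum_ite_eq, Finset.sum_ite_eq]
  unfold cr
  by_cases h1 : s e ∈ X <;> by_cases h2 : t e ∈ X <;> simp [h1, h2]
  decide

omit [Fintype E] [DecidableEq E] in
lemma sum_bd_univ (s t : E → V) (J : Finset E) : ∑ v, bd s t J v = 0 := by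
  rw [sum_bd]
  have : J.filter (cr s t univ) = ∅ := by
    ext e; simp [cr]
  simp [this]

omit [Fintype V] [Fintype E] in
lemma bd_union (s t : E → V) {J K : Finset E} (h : Disjoint J K) (v : V) :
    bd s t (J ∪ K) v = bd s t J v + bd s t K v := by
  unfold bd
  rw [Finset.sum_union h]

omit [Fintype V] [Fintype E] in
lemma bd_insert (s t : E → V) {J : Finset E} {e : E} (h : e ∉ J) (v : V) :
    bd s t (insert e J) v = bd s t {e} v + bd s t J v := by
  unfold bd
  rw [Finset.sum_insert h, Finset.sum_singleton]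

omit [Fintype V] [Fintype E] [DecidableEq E] in
lemma bd_eq_zero (s t : E → V) {J : Finset E} {v : V} (h : ∀ e ∈ J, s e ≠ v ∧ t e ≠ v) :
    bd s t J v = 0 := by
  unfold bd
  refine Finset.sum_eq_zero fun e he => ?_
  simp [(h e he).1, (h e he).2]

omit [Fintype V] [Fintype E] [DecidableEq E] in
lemma bd_eq_card (s t : E → V) (J : Finset E) (v : V) :
    bd s t J v = ((J.filter (cr s t {v})).card : ZMod 2) := by
  rw [← sum_bd, Finset.sum_singleton]

omit [Fintype E] [DecidableEq E] in
lemma cr_compl (s t : E → V) (X : Finset V) (e : E) : cr s t Xᶜ e ↔ cr s t X e := by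
  unfold cr
  simp only [Finset.mem_compl]
  tauto

lemma eq_of_sum_eq {f g : V → ZMod 2} (h : ∑ v, f v = ∑ v, g v) (u : V)
    (h2 : ∀ v, v ≠ u → f v = g v) (v : V) : f v = g v := by
  by_cases hv : v = u
  · subst hv
    rw [← Finset.add_sum_erase _ _ (Finset.mem_univ v),
      ← Finset.add_sum_erase _ g (Finset.mem_univ v)] at h
    have : ∑ y ∈ univ.erase v, f y = ∑ y ∈ univ.erase v, g y :=
      Finset.sum_congr rfl fun y hy => h2 y (Finset.ne_of_mem_erase hy)
    rw [this] at h
    exact add_right_cancel h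
  · exact h2 v hv

lemma sum_compl_eq {T : V → ZMod 2} (h0 : ∑ v, T v = 0) (X : Finset V) :
    ∑ v ∈ Xᶜ, T v = ∑ v ∈ X, T v := by
  have h := Finset.sum_add_sum_compl X T
  rw [h0] at h
  have h2 : ∀ a b : ZMod 2, a + b = 0 → b = a := by decide
  exact h2 _ _ h

/-- The statement of the `T`-join theorem for graphs living on at most `n` vertices. -/
def TJ (V E : Type*) [Fintype V] [DecidableEq V] [Fintype E] [DecidableEq E] (n : ℕ) : Prop :=
  ∀ (s t : E → V) (A : Finset V) (T : V → ZMod 2) (x : E → ℝ), A.card ≤ n →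
    (∀ e, s e ∈ A ∧ t e ∈ A) → (∀ v, v ∉ A → T v = 0) → ∑ v, T v = 0 → (∀ e, 0 ≤ x e) →
    Feas s t T x → ∀ w : E → ℝ, (∀ e, 0 ≤ w e) →
      ∃ J : Finset E, (∀ e ∈ J, 0 < x e) ∧ (∀ v, bd s t J v = T v) ∧
        ∑ e ∈ J, w e ≤ ∑ e, w e * x e

/-- One-sided form: a join for the vertices of `X` made of edges touching `X`. -/
def Side (s t : E → V) (T : V → ZMod 2) (x : E → ℝ) (X : Finset V) : Prop :=
  ∀ w : E → ℝ, (∀ e, 0 ≤ w e) →
    ∃ J : Finset E, (∀ e ∈ J, 0 < x e ∧ tch s t X e) ∧ (∀ v ∈ X, bd s t J v = T v) ∧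
      ∑ e ∈ J, w e ≤ ∑ e with tch s t X e, w e * x e

lemma side_of_TJ {n : ℕ} (ih : TJ V E n) {s t : E → V} {A : Finset V} {T : V → ZMod 2}
    {x : E → ℝ} (hA : ∀ e, s e ∈ A ∧ t e ∈ A) (hT : ∀ v, v ∉ A → T v = 0)
    (h0 : ∑ v, T v = 0) (hx : ∀ e, 0 ≤ x e) (hF : Feas s t T x) (X : Finset V) {z : V}
    (hz : z ∉ X) (hc : (A ∩ X).card + 1 ≤ n) : Side s t T x X := by
  intro w hw
  set q : V → V := fun v => if v ∈ X then v else z with hq
  have hqX : ∀ u v, v ∈ X → (q u = v ↔ u = v) := by
    intro u v hv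
    simp only [hq]
    split_ifs with h
    · rfl
    · constructor
      · intro h1; exact absurd (h1 ▸ hv) hz
      · intro h1; exact absurd (h1 ▸ hv) h
  set T' : V → ZMod 2 := fun v => ∑ u with q u = v, T u with hT'
  have hsum : ∀ Y : Finset V, ∑ v ∈ Y, T' v = ∑ u with q u ∈ Y, T u := by
    intro Y
    simp only [hT']
    rw [← Finset.sum_fiberwise_of_maps_to (s := univ.filter (fun u => q u ∈ Y)) (t := Y) (g := q)
      (fun u hu => (Finset.mem_filter.1 hu).2)]
    refine Finset.sum_congr rfl fun v hv => Finset.sum_congr ?_ fun _ _ => rfl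
    ext u
    simp only [Finset.mem_filter, Finset.mem_univ, true_and]
    constructor
    · intro h; exact ⟨h ▸ hv, h⟩
    · intro h; exact h.2
  obtain ⟨J, h1, h2, h3⟩ := ih (q ∘ s) (q ∘ t) (insert z (A ∩ X)) T'
    (fun e => if tch s t X e then x e else 0)
    ((Finset.card_insert_le _ _).trans hc)
    (by
      intro e
      have : ∀ u ∈ A, q u ∈ insert z (A ∩ X) := by
        intro u hu
        simp only [hq]
        split_ifs with h
        · exact Finset.mem_insert_of_mem (Finset.mem_inter.2 ⟨hu, h⟩)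
        · exact Finset.mem_insert_self _ _
      exact ⟨this _ (hA e).1, this _ (hA e).2⟩)
    (by
      intro v hv
      simp only [hT']
      refine Finset.sum_eq_zero fun u hu => ?_
      have hu2 := (Finset.mem_filter.1 hu).2
      apply hT
      intro huA
      apply hv
      rw [← hu2]
      simp only [hq]
      split_ifs with h
      · exact Finset.mem_insert_of_mem (Finset.mem_inter.2 ⟨huA, h⟩)
      · exact Finset.mem_insert_self _ _)
    (by rw [hsum]; simpa using h0)
    (by intro e; split_ifs; exacts [hx e, le_rfl])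
    (by
      intro Y hY
      rw [hsum] at hY
      refine (hF _ hY).trans (le_of_eq ?_)
      refine Finset.sum_congr ?_ fun e he => ?_
      · ext e
        simp [cr]
      · have he2 := (Finset.mem_filter.1 he).2
        have h9 : tch s t X e := by
          by_contra hc2
          apply he2
          unfold tch at hc2
          push Not at hc2
          simp [hq, hc2.1, hc2.2]
        simp only [if_pos h9])
    w hw
  refine ⟨J, fun e he => ?_, fun v hv => ?_, h3.trans (le_of_eq ?_)⟩
  · have := h1 e he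
    split_ifs at this with h
    · exact ⟨this, h⟩
    · exact absurd this (lt_irrefl _)
  · have h4 := h2 v
    have h5 : T' v = T v := by
      simp only [hT']
      rw [Finset.sum_eq_single v]
      · intro u hu huv
        exact absurd ((hqX u v hv).1 (Finset.mem_filter.1 hu).2) huv
      · intro h
        exact absurd (by simpa using (hqX v v hv).2 rfl) h
    rw [← h5, ← h4]
    unfold bd
    refine Finset.sum_congr rfl fun e _ => ?_
    simp only [Function.comp, hqX _ v hv]
  · rw [Finset.sum_filter]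
    refine Finset.sum_congr rfl fun e _ => ?_
    split_ifs <;> simp

omit [Fintype V] [Fintype E] [DecidableEq E] in
lemma single_cross {s t : E → V} {X : Finset V} {J : Finset E} {ω : E → ℝ} {L : ℝ}
    (hω : ∀ e, 0 ≤ ω e) (hL : ∀ e, cr s t X e → L ≤ ω e) (hJ : ∑ e ∈ J, ω e < 2 * L)
    (hodd : ((J.filter (cr s t X)).card : ZMod 2) = 1) :
    ∃ e, J.filter (cr s t X) = {e} := by
  rw [← Finset.card_eq_one]
  have h1 : (J.filter (cr s t X)).card ≠ 0 := by
    intro h
    rw [h] at hodd
    exact absurd hodd (by decide)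
  by_contra h2
  have h3 : 2 ≤ (J.filter (cr s t X)).card := by omega
  have h4 : ∑ e ∈ J.filter (cr s t X), ω e ≤ ∑ e ∈ J, ω e :=
    Finset.sum_le_sum_of_subset_of_nonneg (Finset.filter_subset _ _) fun e _ _ => hω e
  have h5 : ((J.filter (cr s t X)).card : ℝ) * L ≤ ∑ e ∈ J.filter (cr s t X), ω e := by
    have := Finset.card_nsmul_le_sum (J.filter (cr s t X)) ω L
      (fun e he => hL e (Finset.mem_filter.1 he).2)
    simpa using this
  have h6 : (2 : ℝ) ≤ (J.filter (cr s t X)).card := by exact_mod_cast h3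
  have h7 : 0 ≤ ∑ e ∈ J, ω e := Finset.sum_nonneg fun e _ => hω e
  nlinarith

end Pool.Agent.Lib.MP_a48b5a_co
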