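import Pool.Agent.Lib.MP_a48b5a_co.TJBasic

set_option autoImplicit false

namespace Pool.Agent.Lib.MP_a48b5a_co

open Finset

variable {V E : Type*} [Fintype V] [DecidableEq V] [Fintype E] [DecidableEq E]

omit [Fintype V] [DecidableEq E] in
lemma sum_tch_split (s t : E → V) (X : Finset V) (g : E → ℝ) :
    ∑ e with tch s t X e, g e =
      ∑ e with (s e ∈ X ∧ t e ∈ X), g e + ∑ e with cr s t X e, g e := by
  rw [Finset.sum_filter, Finset.sum_filter, Finset.sum_filter, ← Finset.sum_add_distrib]
  refine Finset.sum_congr rfl fun e _ => ?_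
  unfold tch cr
  by_cases h1 : s e ∈ X <;> by_cases h2 : t e ∈ X <;> simp [h1, h2]

omit [DecidableEq E] in
lemma sum_total_split (s t : E → V) (X : Finset V) (g : E → ℝ) :
    ∑ e, g e = ∑ e with (s e ∈ X ∧ t e ∈ X), g e + ∑ e with tch s t Xᶜ e, g e := by
  rw [Finset.sum_filter, Finset.sum_filter, ← Finset.sum_add_distrib]
  refine Finset.sum_congr rfl fun e _ => ?_
  unfold tch
  by_cases h1 : s e ∈ X <;> by_cases h2 : t e ∈ X <;> simp [h1, h2]

omit [Fintype V] [Fintype E] [DecidableEq E] in
lemma sum_eq_of_single {s t : E → V} {X : Finset V} {J : Finset E} {e : E}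
    (h : J.filter (cr s t X) = {e}) (g : E → ℝ) :
    ∑ f ∈ J, g f = ∑ f ∈ J.filter (fun f => ¬ cr s t X f), g f + g e := by
  rw [← Finset.sum_filter_add_sum_filter_not J (cr s t X), h, Finset.sum_singleton, add_comm]

omit [Fintype V] [Fintype E] [DecidableEq E] in
lemma bd_eq_of_single {s t : E → V} {X : Finset V} {J : Finset E} {e : E}
    (h : J.filter (cr s t X) = {e}) (v : V) :
    bd s t J v = bd s t (J.filter (fun f => ¬ cr s t X f)) v + bd s t {e} v := by
  unfold bd
  rw [← Finset.sum_filter_add_sum_filter_not J (cr s t X), h, add_comm]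

lemma glue {s t : E → V} {T : V → ZMod 2} {x : E → ℝ} (h0 : ∑ v, T v = 0) (hx : ∀ e, 0 ≤ x e)
    {X : Finset V} (hodd : ∑ v ∈ X, T v = 1) (htight : ∑ e with cr s t X e, x e = 1)
    (hin : Side s t T x X) (hout : Side s t T x Xᶜ) (w : E → ℝ) (hw : ∀ e, 0 ≤ w e) :
    ∃ J : Finset E, (∀ e ∈ J, 0 < x e) ∧ (∀ v, bd s t J v = T v) ∧
      ∑ e ∈ J, w e ≤ ∑ e, w e * x e := by
  classical
  set W : ℝ := ∑ e, w e * x e with hW
  set Ω : ℝ := ∑ e, w e with hΩ
  have hwx : ∀ e, 0 ≤ w e * x e := fun e => mul_nonneg (hw e) (hx e)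
  have hW0 : 0 ≤ W := Finset.sum_nonneg fun e _ => hwx e
  have hΩ0 : 0 ≤ Ω := Finset.sum_nonneg fun e _ => hw e
  set cand : E → Finset E → Prop := fun e F =>
    (∀ f ∈ F, 0 < x f ∧ s f ∈ X ∧ t f ∈ X) ∧ ∀ v ∈ X, bd s t F v + bd s t {e} v = T v with hcand
  have hc : ∀ e, ∃ c : ℝ, 0 ≤ c ∧ c ≤ Ω + W + 1 ∧ (∀ F, cand e F → c ≤ ∑ f ∈ F, w f) ∧
      ((∃ F, cand e F ∧ ∑ f ∈ F, w f = c) ∨ c = W + 1) := by
    intro e
    by_cases hne : (univ.filter (cand e)).Nonempty
    · obtain ⟨F, hF, hmin⟩ := Finset.exists_min_image _ (fun F => ∑ f ∈ F, w f) hne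
      refine ⟨∑ f ∈ F, w f, Finset.sum_nonneg fun f _ => hw f, ?_, fun F' hF' => ?_,
        Or.inl ⟨F, (Finset.mem_filter.1 hF).2, rfl⟩⟩
      · have : ∑ f ∈ F, w f ≤ Ω :=
          Finset.sum_le_sum_of_subset_of_nonneg (Finset.subset_univ _) fun f _ _ => hw f
        linarith
      · exact hmin F' (Finset.mem_filter.2 ⟨Finset.mem_univ _, hF'⟩)
    · refine ⟨W + 1, by linarith, by linarith, fun F hF => ?_, Or.inr rfl⟩
      exact absurd ⟨F, Finset.mem_filter.2 ⟨Finset.mem_univ _, hF⟩⟩ hne
  choose c hc0 hc1 hc2 hc3 using hc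
  set Win : ℝ := ∑ e with (s e ∈ X ∧ t e ∈ X), w e * x e with hWin
  have hWin0 : 0 ≤ Win := Finset.sum_nonneg fun e _ => hwx e
  have hWinW : Win ≤ W :=
    Finset.sum_le_sum_of_subset_of_nonneg (Finset.subset_univ _) fun f _ _ => hwx f
  have hcx0 : 0 ≤ ∑ e with cr s t X e, c e * x e :=
    Finset.sum_nonneg fun e _ => mul_nonneg (hc0 e) (hx e)
  have key : ∑ e with cr s t X e, c e * x e ≤ Win := by
    set M : ℝ := W + 2 * (Ω + W + 1) + 1 with hM
    obtain ⟨J, h1, h2, h3⟩ := hin (fun e => if cr s t X e then M - c e else w e)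
      (by
        intro e
        split_ifs
        · linarith [hc1 e]
        · exact hw e)
    have h4 : ∑ e with tch s t X e, (if cr s t X e then M - c e else w e) * x e =
        Win + M - ∑ e with cr s t X e, c e * x e := by
      rw [sum_tch_split]
      have a1 : ∑ e with (s e ∈ X ∧ t e ∈ X), (if cr s t X e then M - c e else w e) * x e
          = Win := by
        refine Finset.sum_congr rfl fun e he => ?_
        have := (Finset.mem_filter.1 he).2
        rw [if_neg (by unfold cr; simp [this.1, this.2])]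
      have a2 : ∑ e with cr s t X e, (if cr s t X e then M - c e else w e) * x e
          = M * ∑ e with cr s t X e, x e - ∑ e with cr s t X e, c e * x e := by
        rw [Finset.mul_sum, ← Finset.sum_sub_distrib]
        refine Finset.sum_congr rfl fun e he => ?_
        rw [if_pos (Finset.mem_filter.1 he).2]
        ring
      rw [a1, a2, htight]
      ring
    rw [h4] at h3
    have h5 : ((J.filter (cr s t X)).card : ZMod 2) = 1 := by
      rw [← sum_bd, ← hodd]
      exact Finset.sum_congr rfl h2
    obtain ⟨e, he⟩ := single_cross (L := M - (Ω + W + 1))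
      (ω := fun e => if cr s t X e then M - c e else w e)
      (by
        intro e
        split_ifs
        · linarith [hc1 e]
        · exact hw e)
      (by
        intro e he
        rw [if_pos he]
        linarith [hc1 e])
      (by linarith) h5
    have he2 : cr s t X e := by
      have : e ∈ J.filter (cr s t X) := by rw [he]; exact Finset.mem_singleton_self e
      exact (Finset.mem_filter.1 this).2
    rw [sum_eq_of_single he, if_pos he2] at h3
    have h6 : ∑ f ∈ J.filter (fun f => ¬ cr s t X f), (if cr s t X f then M - c f else w f)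
        = ∑ f ∈ J.filter (fun f => ¬ cr s t X f), w f :=
      Finset.sum_congr rfl fun f hf => by rw [if_neg (Finset.mem_filter.1 hf).2]
    rw [h6] at h3
    have h7 := hc2 e (J.filter (fun f => ¬ cr s t X f)) ⟨fun f hf => by
      obtain ⟨a1, a2⟩ := Finset.mem_filter.1 hf
      refine ⟨(h1 f a1).1, ?_⟩
      have a3 := (h1 f a1).2
      unfold tch at a3
      unfold cr at a2
      tauto, fun v hv => by rw [← bd_eq_of_single he, h2 v hv]⟩
    linarith
  set M : ℝ := W + 1 with hM
  obtain ⟨J, h1, h2, h3⟩ := hout (fun e => if cr s t X e then w e + c e + M else w e)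
    (by
      intro e
      split_ifs
      · linarith [hc0 e, hw e]
      · exact hw e)
  have h4 : ∑ e with tch s t Xᶜ e, (if cr s t X e then w e + c e + M else w e) * x e =
      ∑ e with tch s t Xᶜ e, w e * x e + ∑ e with cr s t X e, c e * x e + M := by
    have a1 : ∑ e with cr s t X e, c e * x e + M = ∑ e with cr s t X e, (c e + M) * x e := by
      conv_lhs => rw [← mul_one M, ← htight]
      rw [Finset.mul_sum, ← Finset.sum_add_distrib]
      exact Finset.sum_congr rfl fun e _ => by ring
    rw [add_assoc, a1, Finset.sum_filter, Finset.sum_filter, Finset.sum_filter,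
      ← Finset.sum_add_distrib]
    refine Finset.sum_congr rfl fun e _ => ?_
    unfold tch cr
    by_cases b1 : s e ∈ X <;> by_cases b2 : t e ∈ X <;> simp [b1, b2] <;> ring
  have h8 : W = Win + ∑ e with tch s t Xᶜ e, w e * x e := sum_total_split s t X _
  rw [h4] at h3
  have h5 : ((J.filter (cr s t X)).card : ZMod 2) = 1 := by
    have a1 : J.filter (cr s t X) = J.filter (cr s t Xᶜ) :=
      Finset.filter_congr fun e _ => (cr_compl s t X e).symm
    rw [a1, ← sum_bd, ← hodd, ← sum_compl_eq h0]
    exact Finset.sum_congr rfl h2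
  obtain ⟨e, he⟩ := single_cross (L := M)
    (ω := fun e => if cr s t X e then w e + c e + M else w e)
    (by
      intro e
      split_ifs
      · linarith [hc0 e, hw e]
      · exact hw e)
    (by
      intro e he
      rw [if_pos he]
      linarith [hc0 e, hw e])
    (by linarith) h5
  have he2 : cr s t X e := by
    have : e ∈ J.filter (cr s t X) := by rw [he]; exact Finset.mem_singleton_self e
    exact (Finset.mem_filter.1 this).2
  have h9 := sum_eq_of_single he w
  rw [sum_eq_of_single he, if_pos he2] at h3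
  have h6 : ∑ f ∈ J.filter (fun f => ¬ cr s t X f), (if cr s t X f then w f + c f + M else w f)
      = ∑ f ∈ J.filter (fun f => ¬ cr s t X f), w f :=
    Finset.sum_congr rfl fun f hf => by rw [if_neg (Finset.mem_filter.1 hf).2]
  rw [h6] at h3
  have h10 : 0 ≤ ∑ f ∈ J, w f := Finset.sum_nonneg fun f _ => hw f
  rcases hc3 e with ⟨F, ⟨hF1, hF2⟩, hF3⟩ | hbad
  swap
  · exfalso
    linarith
  have hdisj : Disjoint F J := by
    rw [Finset.disjoint_left]
    intro f hf hfJ
    have a1 := (h1 f hfJ).2
    have a2 := (hF1 f hf).2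
    unfold tch at a1
    simp only [Finset.mem_compl] at a1
    tauto
  refine ⟨F ∪ J, fun f hf => ?_, fun v => ?_, ?_⟩
  · rcases Finset.mem_union.1 hf with h | h
    · exact (hF1 f h).1
    · exact (h1 f h).1
  · rw [bd_union s t hdisj]
    by_cases hv : v ∈ X
    · rw [bd_eq_of_single he, bd_eq_zero s t (J := J.filter (fun f => ¬ cr s t X f)), zero_add,
        hF2 v hv]
      intro f hf
      obtain ⟨a1, a2⟩ := Finset.mem_filter.1 hf
      have a3 := (h1 f a1).2
      unfold tch at a3
      unfold cr at a2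
      simp only [Finset.mem_compl] at a3
      constructor
      · intro h; rw [← h] at hv; tauto
      · intro h; rw [← h] at hv; tauto
    · rw [bd_eq_zero s t (J := F), zero_add, h2 v (Finset.mem_compl.2 hv)]
      intro f hf
      have a2 := (hF1 f hf).2
      constructor
      · intro h; rw [← h] at hv; exact hv a2.1
      · intro h; rw [← h] at hv; exact hv a2.2
  · rw [Finset.sum_union hdisj]
    linarith

lemma exists_step {ι : Type*} [Fintype ι] (a b : ι → ℝ) (ha : ∀ i, 0 ≤ a i)
    (hab : ∀ i, a i = 0 → b i = 0) (hb : ∃ i, b i < 0) :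
    ∃ l : ℝ, 0 ≤ l ∧ (∀ i, 0 ≤ a i + l * b i) ∧
      (univ.filter (fun i => 0 < a i + l * b i)).card < (univ.filter (fun i => 0 < a i)).card := by
  classical
  have hne : (univ.filter (fun i => b i < 0)).Nonempty := by
    obtain ⟨i, hi⟩ := hb
    exact ⟨i, Finset.mem_filter.2 ⟨Finset.mem_univ _, hi⟩⟩
  obtain ⟨j, hj, hmin⟩ := Finset.exists_min_image _ (fun i => a i / (- b i)) hne
  have hj2 := (Finset.mem_filter.1 hj).2
  have hl : 0 ≤ a j / (- b j) := div_nonneg (ha j) (by linarith)
  refine ⟨a j / (- b j), hl, fun i => ?_, ?_⟩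
  · by_cases hi : b i < 0
    · have h1 := hmin i (Finset.mem_filter.2 ⟨Finset.mem_univ _, hi⟩)
      rw [le_div_iff₀ (by linarith)] at h1
      linarith
    · have := mul_nonneg hl (not_lt.1 hi)
      linarith [ha i]
  · apply Finset.card_lt_card
    rw [Finset.ssubset_iff_of_subset]
    · refine ⟨j, Finset.mem_filter.2 ⟨Finset.mem_univ _, ?_⟩, fun h => ?_⟩
      · rcases (ha j).lt_or_eq with h | h
        · exact h
        · have := hab j h.symm
          linarith
      · have h1 := (Finset.mem_filter.1 h).2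
        have h2 : a j + a j / (- b j) * b j = 0 := by
          have : b j ≠ 0 := by linarith
          field_simp
          ring
        linarith
    · intro i hi
      have h1 := (Finset.mem_filter.1 hi).2
      refine Finset.mem_filter.2 ⟨Finset.mem_univ _, ?_⟩
      rcases (ha i).lt_or_eq with h | h
      · exact h
      · rw [hab i h.symm, ← h] at h1
        simp at h1

end Pool.Agent.Lib.MP_a48b5a_co
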