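import Pool.Agent.Lib.MP_a48b5a_co.TJGlue

set_option autoImplicit false

namespace Pool.Agent.Lib.MP_a48b5a_co

open Finset

variable {V E : Type*} [Fintype V] [DecidableEq V] [Fintype E] [DecidableEq E]

/-- No nonzero direction keeps all tight constraints tight. -/
def ND (s t : E → V) (T : V → ZMod 2) (x : E → ℝ) : Prop :=
  ∀ d : E → ℝ, (∀ e, x e = 0 → d e = 0) →
    (∀ X : Finset V, ∑ v ∈ X, T v = 1 → ∑ e with cr s t X e, x e = 1 →
      ∑ e with cr s t X e, d e = 0) → ∀ e, d e = 0

omit [DecidableEq E] in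
lemma reduce_vertex {s t : E → V} {T : V → ZMod 2} (w : E → ℝ) (hw : ∀ e, 0 ≤ w e)
    (H : ∀ x : E → ℝ, (∀ e, 0 ≤ x e) → Feas s t T x → ND s t T x →
      ∃ J : Finset E, (∀ e ∈ J, 0 < x e) ∧ (∀ v, bd s t J v = T v) ∧
        ∑ e ∈ J, w e ≤ ∑ e, w e * x e)
    (x : E → ℝ) (hx : ∀ e, 0 ≤ x e) (hF : Feas s t T x) :
    ∃ J : Finset E, (∀ e ∈ J, 0 < x e) ∧ (∀ v, bd s t J v = T v) ∧
      ∑ e ∈ J, w e ≤ ∑ e, w e * x e := by
  classical
  let lin : (E → ℝ) → E ⊕ Finset V → ℝ := fun y i =>
    match i with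
    | Sum.inl e => y e
    | Sum.inr X => if ∑ v ∈ X, T v = 1 then ∑ e with cr s t X e, y e else 0
  let off : E ⊕ Finset V → ℝ := fun i =>
    match i with
    | Sum.inl _ => 0
    | Sum.inr X => if ∑ v ∈ X, T v = 1 then 1 else 0
  have main : ∀ k : ℕ, ∀ x : E → ℝ, (∀ e, 0 ≤ x e) → Feas s t T x →
      (univ.filter (fun i => 0 < lin x i - off i)).card ≤ k →
      ∃ J : Finset E, (∀ e ∈ J, 0 < x e) ∧ (∀ v, bd s t J v = T v) ∧
        ∑ e ∈ J, w e ≤ ∑ e, w e * x e := by
    intro k
    induction k using Nat.strong_induction_on with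
    | _ k ih =>
      intro x hx hF hk
      by_cases hN : ND s t T x
      · exact H x hx hF hN
      have hd : ∃ d : E → ℝ, (∀ e, x e = 0 → d e = 0) ∧
          (∀ X : Finset V, ∑ v ∈ X, T v = 1 → ∑ e with cr s t X e, x e = 1 →
            ∑ e with cr s t X e, d e = 0) ∧ (∃ e, d e < 0) ∧ ∑ e, w e * d e ≤ 0 := by
        unfold ND at hN
        push Not at hN
        obtain ⟨d, h1, h2, e, he⟩ := hN
        have hneg : (∀ e, x e = 0 → (-d) e = 0) ∧
            (∀ X : Finset V, ∑ v ∈ X, T v = 1 → ∑ e with cr s t X e, x e = 1 →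
              ∑ e with cr s t X e, (-d) e = 0) ∧ ∑ e, w e * (-d) e = - ∑ e, w e * d e := by
          refine ⟨fun e he => by simp [h1 e he], fun X a1 a2 => ?_, ?_⟩
          · simp only [Pi.neg_apply, Finset.sum_neg_distrib, h2 X a1 a2, neg_zero]
          · simp only [Pi.neg_apply, mul_neg, Finset.sum_neg_distrib]
        have hsome : ∀ d' : E → ℝ, ∑ e, w e * d' e < 0 → ∃ e, d' e < 0 := by
          intro d' h
          by_contra hc
          push Not at hc
          have := Finset.sum_nonneg (s := univ) fun e _ => mul_nonneg (hw e) (hc e)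
          linarith
        rcases lt_trichotomy (∑ e, w e * d e) 0 with h | h | h
        · exact ⟨d, h1, h2, hsome d h, h.le⟩
        · rcases lt_or_gt_of_ne he with h3 | h3
          · exact ⟨d, h1, h2, ⟨e, h3⟩, h.le⟩
          · exact ⟨-d, hneg.1, hneg.2.1, ⟨e, by simpa using h3⟩, by rw [hneg.2.2, h]; simp⟩
        · exact ⟨-d, hneg.1, hneg.2.1, hsome (-d) (by rw [hneg.2.2]; linarith),
            by rw [hneg.2.2]; linarith⟩
      obtain ⟨d, h1, h2, ⟨e0, he0⟩, h4⟩ := hd
      obtain ⟨l, hl, h5, h6⟩ := exists_step (fun i => lin x i - off i) (lin d)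
        (by
          rintro (e | X)
          · simpa [lin, off] using hx e
          · simp only [lin, off]
            split_ifs with h
            · linarith [hF X h]
            · simp)
        (by
          rintro (e | X)
          · intro h
            exact h1 e (by simpa [lin, off] using h)
          · simp only [lin, off]
            split_ifs with h
            · intro h7
              exact h2 X h (by linarith)
            · simp)
        ⟨Sum.inl e0, he0⟩
      have hlin : ∀ i, lin (fun e => x e + l * d e) i - off i = lin x i - off i + l * lin d i := by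
        rintro (e | X)
        · simp [lin, off]
        · simp only [lin, off]
          split_ifs with h
          · rw [Finset.sum_add_distrib, ← Finset.mul_sum]
            ring
          · simp
      obtain ⟨J, a1, a2, a3⟩ := ih _ (lt_of_lt_of_le h6 hk) (fun e => x e + l * d e)
        (fun e => by simpa [lin, off] using h5 (Sum.inl e))
        (fun X hX => by
          have := (h5 (Sum.inr X)).trans (hlin (Sum.inr X)).symm.le
          simp only [lin, off, if_pos hX] at this
          linarith)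
        (by simp only [hlin]; exact le_rfl)
      refine ⟨J, fun e he => ?_, a2, a3.trans ?_⟩
      · rcases (hx e).lt_or_eq with h | h
        · exact h
        · have := a1 e he
          simp only [h1 e h.symm, ← h] at this
          simp at this
      · have : ∑ e, w e * (x e + l * d e) = ∑ e, w e * x e + l * ∑ e, w e * d e := by
          rw [Finset.mul_sum, ← Finset.sum_add_distrib]
          exact Finset.sum_congr rfl fun e _ => by ring
        rw [this]
        nlinarith
  exact main _ x hx hF le_rfl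

omit [Fintype V] [Fintype E] [DecidableEq E] in
lemma other_end {s t : E → V} {v : V} {e : E} (h : cr s t {v} e) :
    ∃ u, u ≠ v ∧ ((s e = v ∧ t e = u) ∨ (s e = u ∧ t e = v)) := by
  unfold cr at h
  simp only [Finset.mem_singleton] at h
  by_cases h1 : s e = v
  · exact ⟨t e, fun h2 => h (by simp [h1, h2]), Or.inl ⟨h1, rfl⟩⟩
  · by_cases h2 : t e = v
    · exact ⟨s e, h1, Or.inr ⟨rfl, h2⟩⟩
    · exact absurd (by simp [h1, h2]) h

omit [Fintype V] [DecidableEq E] in
lemma sum_supp {x : E → ℝ} (hx : ∀ e, 0 ≤ x e) (P : E → Prop) [DecidablePred P] (g : E → ℝ) :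
    ∑ e with P e, g e * x e = ∑ e with (0 < x e ∧ P e), g e * x e := by
  rw [Finset.sum_filter, Finset.sum_filter]
  refine Finset.sum_congr rfl fun e _ => ?_
  rcases (hx e).lt_or_eq with h | h
  · simp [h]
  · simp [← h]

omit [Fintype V] [DecidableEq E] in
lemma sum_supp' {x : E → ℝ} (hx : ∀ e, 0 ≤ x e) (P : E → Prop) [DecidablePred P] :
    ∑ e with P e, x e = ∑ e with (0 < x e ∧ P e), x e := by
  simpa using sum_supp hx P (fun _ => 1)

/-- A tight vertex with a single edge in the support. -/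
lemma case_single {n : ℕ} (ih : TJ V E n) {s t : E → V} {A : Finset V} {T : V → ZMod 2}
    {x : E → ℝ} (hc : A.card ≤ n + 1) (hA : ∀ e, s e ∈ A ∧ t e ∈ A) (hT : ∀ v, v ∉ A → T v = 0)
    (h0 : ∑ v, T v = 0) (hx : ∀ e, 0 ≤ x e) (hF : Feas s t T x)
    (hloop : ∀ e, 0 < x e → s e ≠ t e) {v : V} (hv : T v = 1)
    (hvt : ∑ e with cr s t {v} e, x e = 1) {e : E}
    (he : univ.filter (fun f => 0 < x f ∧ cr s t {v} f) = {e}) (w : E → ℝ) (hw : ∀ e, 0 ≤ w e) :
    ∃ J : Finset E, (∀ e ∈ J, 0 < x e) ∧ (∀ v, bd s t J v = T v) ∧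
      ∑ e ∈ J, w e ≤ ∑ e, w e * x e := by
  have he1 : 0 < x e ∧ cr s t {v} e := by
    have : e ∈ univ.filter (fun f => 0 < x f ∧ cr s t {v} f) := by
      rw [he]; exact Finset.mem_singleton_self e
    exact (Finset.mem_filter.1 this).2
  have hxe : x e = 1 := by
    rw [sum_supp' hx, he, Finset.sum_singleton] at hvt
    exact hvt
  obtain ⟨u, huv, hends⟩ := other_end he1.2
  have hmem : u ∈ A ∧ v ∈ A := by
    rcases hends with ⟨a, b⟩ | ⟨a, b⟩
    · exact ⟨b ▸ (hA e).2, a ▸ (hA e).1⟩
    · exact ⟨a ▸ (hA e).1, b ▸ (hA e).2⟩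
  have hcard : (A ∩ ({u, v} : Finset V)ᶜ).card + 1 ≤ n := by
    have h1 : A ∩ ({u, v} : Finset V)ᶜ = A \ {u, v} := by
      ext y; simp
    have h2 : ({u, v} : Finset V) ⊆ A := by
      intro y hy
      simp only [Finset.mem_insert, Finset.mem_singleton] at hy
      rcases hy with rfl | rfl
      exacts [hmem.1, hmem.2]
    have h3 := Finset.card_sdiff_add_card_eq_card h2
    rw [Finset.card_pair huv] at h3
    rw [h1]
    omega
  obtain ⟨J, h1, h2, h3⟩ := side_of_TJ ih hA hT h0 hx hF ({u, v} : Finset V)ᶜ (z := v)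
    (by simp) hcard w hw
  have hnt : ¬ tch s t ({u, v} : Finset V)ᶜ e := by
    unfold tch
    rcases hends with ⟨a, b⟩ | ⟨a, b⟩ <;> simp [a, b]
  have heJ : e ∉ J := fun h => hnt (h1 e h).2
  refine ⟨insert e J, fun f hf => ?_, ?_, ?_⟩
  · rcases Finset.mem_insert.1 hf with rfl | h
    · exact he1.1
    · exact (h1 f h).1
  · refine eq_of_sum_eq (by rw [sum_bd_univ, h0]) u fun y hy => ?_
    rw [bd_insert s t heJ]
    by_cases hyv : y = v
    · subst hyv
      rw [bd_eq_zero s t (J := J), hv]
      · unfold bd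
        rcases hends with ⟨a, b⟩ | ⟨a, b⟩ <;> simp [a, b, huv]
      · intro f hf
        by_contra hcon
        have a1 : cr s t {y} f := by
          have := hloop f (h1 f hf).1
          unfold cr
          simp only [Finset.mem_singleton]
          intro h
          by_cases b1 : s f = y
          · exact this (b1.trans (h.1 b1).symm)
          · exact hcon ⟨b1, fun b2 => b1 (h.2 b2)⟩
        have a2 : f ∈ univ.filter (fun f => 0 < x f ∧ cr s t {y} f) :=
          Finset.mem_filter.2 ⟨Finset.mem_univ _, (h1 f hf).1, a1⟩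
        rw [he, Finset.mem_singleton] at a2
        exact heJ (a2 ▸ hf)
    · rw [h2 y (by simp [hy, hyv]), bd_eq_zero s t (J := {e}), zero_add]
      intro f hf
      rw [Finset.mem_singleton] at hf
      subst hf
      rcases hends with ⟨a, b⟩ | ⟨a, b⟩
      · rw [a, b]; exact ⟨Ne.symm hyv, Ne.symm hy⟩
      · rw [a, b]; exact ⟨Ne.symm hy, Ne.symm hyv⟩
  · rw [Finset.sum_insert heJ]
    have a1 : ∑ f ∈ insert e (univ.filter (tch s t ({u, v} : Finset V)ᶜ)), w f * x f
        ≤ ∑ f, w f * x f :=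
      Finset.sum_le_sum_of_subset_of_nonneg (Finset.subset_univ _)
        fun f _ _ => mul_nonneg (hw f) (hx f)
    rw [Finset.sum_insert (by simpa using hnt), hxe] at a1
    linarith

omit [Fintype V] [Fintype E] in
lemma pair_of_card_two {P : Finset E} {e : E} (h : P.card = 2) (he : e ∈ P) :
    ∃ g, g ≠ e ∧ P = {e, g} := by
  obtain ⟨a, b, hab, rfl⟩ := Finset.card_eq_two.1 h
  simp only [Finset.mem_insert, Finset.mem_singleton] at he
  rcases he with rfl | rfl
  · exact ⟨b, hab.symm, rfl⟩
  · exact ⟨a, hab, Finset.pair_comm _ _⟩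

/-- All support edges join tight vertices, each of which has exactly two support edges. -/
lemma case_double {n : ℕ} (ih : TJ V E n) {s t : E → V} {A : Finset V} {T : V → ZMod 2}
    {x : E → ℝ} (hc : A.card ≤ n + 1) (hA : ∀ e, s e ∈ A ∧ t e ∈ A) (hT : ∀ v, v ∉ A → T v = 0)
    (h0 : ∑ v, T v = 0) (hx : ∀ e, 0 ≤ x e) (hF : Feas s t T x) (hN : ND s t T x)
    (hloop : ∀ e, 0 < x e → s e ≠ t e) (U : V → Prop)
    (hU : ∀ v, U v → T v = 1 ∧ ∑ e with cr s t {v} e, x e = 1 ∧
      (univ.filter (fun f => 0 < x f ∧ cr s t {v} f)).card = 2)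
    (hS : ∀ e, 0 < x e → U (s e) ∧ U (t e)) {e : E} (he : 0 < x e)
    (w : E → ℝ) (hw : ∀ e, 0 ≤ w e) :
    ∃ J : Finset E, (∀ e ∈ J, 0 < x e) ∧ (∀ v, bd s t J v = T v) ∧
      ∑ e ∈ J, w e ≤ ∑ e, w e * x e := by
  have hpair : ∀ v a, U v → 0 < x a → cr s t {v} a → ∃ b, b ≠ a ∧ 0 < x b ∧ cr s t {v} b ∧
      x a + x b = 1 ∧ ∀ c, 0 < x c → cr s t {v} c → c = a ∨ c = b := by
    intro v a hv ha hav
    obtain ⟨b, hb, hP⟩ := pair_of_card_two (hU v hv).2.2
      (Finset.mem_filter.2 ⟨Finset.mem_univ a, ha, hav⟩)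
    have h1 : b ∈ univ.filter (fun f => 0 < x f ∧ cr s t {v} f) := by rw [hP]; simp
    refine ⟨b, hb, (Finset.mem_filter.1 h1).2.1, (Finset.mem_filter.1 h1).2.2, ?_, ?_⟩
    · have := (hU v hv).2.1
      rw [sum_supp' hx, hP, Finset.sum_pair hb.symm] at this
      exact this
    · intro c hc1 hc2
      have h2 : c ∈ univ.filter (fun f => 0 < x f ∧ cr s t {v} f) :=
        Finset.mem_filter.2 ⟨Finset.mem_univ c, hc1, hc2⟩
      rw [hP] at h2
      simpa using h2
  have hcr : ∀ a y, 0 < x a → (cr s t {y} a ↔ (s a = y ∨ t a = y)) := by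
    intro a y ha
    have := hloop a ha
    unfold cr
    simp only [Finset.mem_singleton]
    by_cases b1 : s a = y <;> by_cases b2 : t a = y
    · exact absurd (b1.trans b2.symm) this
    all_goals simp [b1, b2]
  obtain ⟨v, hv⟩ : ∃ v, s e = v := ⟨_, rfl⟩
  obtain ⟨u, hu⟩ : ∃ u, t e = u := ⟨_, rfl⟩
  have huv : u ≠ v := fun h => hloop e he (by rw [hv, hu, h])
  have hUv : U v := hv ▸ (hS e he).1
  have hUu : U u := hu ▸ (hS e he).2
  obtain ⟨f, hfe, hf, hfv, hef, hvall⟩ := hpair v e hUv he ((hcr e v he).2 (Or.inl hv))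
  obtain ⟨g, hge, hg, hgu, heg, huall⟩ := hpair u e hUu he ((hcr e u he).2 (Or.inr hu))
  obtain ⟨y, hyv, hfends⟩ := other_end hfv
  have hUy : U y := by
    rcases hfends with ⟨_, b⟩ | ⟨a, _⟩
    · exact b ▸ (hS f hf).2
    · exact a ▸ (hS f hf).1
  by_cases hyu : y = u
  · exfalso
    have h1 := hN (fun a => (if a = e then 1 else 0) - (if a = f then 1 else 0))
      (by
        intro a ha
        have a1 : a ≠ e := fun h => by rw [h] at ha; linarith
        have a2 : a ≠ f := fun h => by rw [h] at ha; linarith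
        simp [a1, a2])
      (by
        intro X _ _
        rw [Finset.sum_sub_distrib, Finset.sum_ite_eq', Finset.sum_ite_eq']
        have : cr s t X e ↔ cr s t X f := by
          unfold cr
          rcases hfends with ⟨a, b⟩ | ⟨a, b⟩
          · rw [hv, hu, a, b, hyu]
          · rw [hv, hu, a, b, hyu]; tauto
        simp [this])
      e
    simp [hfe.symm] at h1
  obtain ⟨h, hhf, hh, hhy, hfh, hyall⟩ := hpair y f hUy hf ((hcr f y hf).2 (by tauto))
  set X : Finset V := {u, v, y} with hX
  have hodd : ∑ z ∈ X, T z = 1 := by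
    rw [hX, Finset.sum_insert (by simp [huv, Ne.symm hyu]), Finset.sum_pair hyv.symm,
      (hU u hUu).1, (hU v hUv).1, (hU y hUy).1]
    decide
  have hne : ¬ cr s t X e := by
    unfold cr; simp [hX, hv, hu]
  have hnf : ¬ cr s t X f := by
    unfold cr
    rcases hfends with ⟨a, b⟩ | ⟨a, b⟩ <;> simp [hX, a, b]
  have hcross : ∀ c, 0 < x c → cr s t X c → c = g ∨ c = h := by
    intro c hc1 hc2
    have h1 : ∃ z ∈ X, s c = z ∨ t c = z := by
      unfold cr at hc2
      by_cases b1 : s c ∈ X
      · exact ⟨_, b1, Or.inl rfl⟩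
      · exact ⟨t c, by tauto, Or.inr rfl⟩
    obtain ⟨z, hz, hz2⟩ := h1
    have h2 := (hcr c z hc1).2 hz2
    simp only [hX, Finset.mem_insert, Finset.mem_singleton] at hz
    rcases hz with rfl | rfl | rfl
    · rcases huall c hc1 h2 with rfl | rfl
      · exact absurd hc2 hne
      · exact Or.inl rfl
    · rcases hvall c hc1 h2 with rfl | rfl
      · exact absurd hc2 hne
      · exact absurd hc2 hnf
    · rcases hyall c hc1 h2 with rfl | rfl
      · exact absurd hc2 hnf
      · exact Or.inr rfl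
  have hge1 := hF X hodd
  rw [sum_supp' hx] at hge1
  have hone : ∀ c, x c < 1 → ¬ (univ.filter (fun a => 0 < x a ∧ cr s t X a) ⊆ {c}) := by
    intro c hc1 hsub
    have := Finset.sum_le_sum_of_subset_of_nonneg hsub (f := x) fun a _ _ => hx a
    rw [Finset.sum_singleton] at this
    linarith
  have hgX : cr s t X g := by
    by_contra hcon
    refine hone h (by linarith) fun a ha => ?_
    obtain ⟨a1, a2⟩ := (Finset.mem_filter.1 ha).2
    rcases hcross a a1 a2 with rfl | rfl
    · exact absurd a2 hcon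
    · simp
  have hhX : cr s t X h := by
    by_contra hcon
    refine hone g (by linarith) fun a ha => ?_
    obtain ⟨a1, a2⟩ := (Finset.mem_filter.1 ha).2
    rcases hcross a a1 a2 with rfl | rfl
    · simp
    · exact absurd a2 hcon
  have hgh : g ≠ h := by
    intro hcon
    refine hone h (by linarith) fun a ha => ?_
    obtain ⟨a1, a2⟩ := (Finset.mem_filter.1 ha).2
    rcases hcross a a1 a2 with rfl | rfl
    · simp [hcon]
    · simp
  have htight : ∑ a with cr s t X a, x a = 1 := by
    rw [sum_supp' hx]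
    have : univ.filter (fun a => 0 < x a ∧ cr s t X a) = {g, h} := by
      ext a
      simp only [Finset.mem_filter, Finset.mem_univ, true_and, Finset.mem_insert,
        Finset.mem_singleton]
      constructor
      · intro ha; exact hcross a ha.1 ha.2
      · rintro (rfl | rfl)
        exacts [⟨hg, hgX⟩, ⟨hh, hhX⟩]
    rw [this, Finset.sum_pair hgh]
    linarith
  have hmemA : X ⊆ A := by
    intro z hz
    simp only [hX, Finset.mem_insert, Finset.mem_singleton] at hz
    rcases hz with rfl | rfl | rfl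
    · exact hu ▸ (hA e).2
    · exact hv ▸ (hA e).1
    · rcases hfends with ⟨_, b⟩ | ⟨a, _⟩
      · exact b ▸ (hA f).2
      · exact a ▸ (hA f).1
  have hcard : (A ∩ Xᶜ).card + 1 ≤ n := by
    have h1 : A ∩ Xᶜ = A \ X := by ext z; simp
    have h3 := Finset.card_sdiff_add_card_eq_card hmemA
    have h4 : X.card = 3 := Finset.card_eq_three.2 ⟨u, v, y, huv, Ne.symm hyu, hyv.symm, rfl⟩
    rw [h1]
    omega
  have hout : Side s t T x Xᶜ := side_of_TJ ih hA hT h0 hx hF Xᶜ (z := v) (by simp [hX]) hcard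
  have hgf : g ≠ f := fun hcon => hnf (hcon ▸ hgX)
  have hhe : h ≠ e := fun hcon => hne (hcon ▸ hhX)
  obtain ⟨g', hg'u, hgends⟩ := other_end hgu
  obtain ⟨h', hh'y, hhends⟩ := other_end hhy
  have hg'X : g' ∉ X := by
    intro hcon
    apply hgX
    rcases hgends with ⟨a, b⟩ | ⟨a, b⟩ <;> simp [a, b, hcon] <;> simp [hX]
  have hh'X : h' ∉ X := by
    intro hcon
    apply hhX
    rcases hhends with ⟨a, b⟩ | ⟨a, b⟩ <;> simp [a, b, hcon] <;> simp [hX]
  simp only [hX, Finset.mem_insert, Finset.mem_singleton, not_or] at hg'X hh'X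
  have hin : Side s t T x X := by
    intro ω hω
    have hte : tch s t X e := Or.inl (by simp [hX, hv])
    have htf : tch s t X f := by
      unfold tch
      rcases hfends with ⟨a, b⟩ | ⟨a, b⟩ <;> simp [hX, a, b]
    have htg : tch s t X g := by unfold tch; unfold cr at hgX; tauto
    have hth : tch s t X h := by unfold tch; unfold cr at hhX; tauto
    have hsum : ω e * x e + ω f * x f + ω g * x g + ω h * x h
        ≤ ∑ a with tch s t X a, ω a * x a := by
      have a1 : ∑ a ∈ ({e, f, g, h} : Finset E), ω a * x a ≤ ∑ a with tch s t X a, ω a * x a := by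
        refine Finset.sum_le_sum_of_subset_of_nonneg ?_ fun a _ _ => mul_nonneg (hω a) (hx a)
        intro a ha
        simp only [Finset.mem_insert, Finset.mem_singleton] at ha
        rcases ha with rfl | rfl | rfl | rfl <;> simpa
      rw [Finset.sum_insert (by simp [hfe.symm, hge.symm, hhe.symm]),
        Finset.sum_insert (by simp [hgf.symm, hhf.symm]), Finset.sum_pair hgh] at a1
      linarith
    have e1 : x g = x f := by linarith
    have e2 : x h = x e := by linarith
    have e3 : x f = 1 - x e := by linarith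
    rcases le_total (ω e + ω h) (ω f + ω g) with hle | hle
    · refine ⟨{e, h}, fun a ha => ?_, fun z hz => ?_, ?_⟩
      · simp only [Finset.mem_insert, Finset.mem_singleton] at ha
        rcases ha with rfl | rfl
        exacts [⟨he, hte⟩, ⟨hh, hth⟩]
      · unfold bd
        rw [Finset.sum_pair hhe.symm]
        simp only [hX, Finset.mem_insert, Finset.mem_singleton] at hz
        rcases hz with rfl | rfl | rfl
        · rw [(hU _ hUu).1]
          rcases hhends with ⟨a, b⟩ | ⟨a, b⟩ <;> simp [a, b, hu, hv, huv.symm, hyu, hh'X.1]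
        · rw [(hU _ hUv).1]
          rcases hhends with ⟨a, b⟩ | ⟨a, b⟩ <;> simp [a, b, hu, hv, huv, hyv, hh'X.2.1]
        · rw [(hU _ hUy).1]
          rcases hhends with ⟨a, b⟩ | ⟨a, b⟩ <;>
            simp [a, b, hu, hv, Ne.symm hyu, hyv.symm, hh'X.2.2]
      · rw [Finset.sum_pair hhe.symm]
        rw [e1, e2, e3] at hsum
        nlinarith
    · refine ⟨{f, g}, fun a ha => ?_, fun z hz => ?_, ?_⟩
      · simp only [Finset.mem_insert, Finset.mem_singleton] at ha
        rcases ha with rfl | rfl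
        exacts [⟨hf, htf⟩, ⟨hg, htg⟩]
      · unfold bd
        rw [Finset.sum_pair hgf.symm]
        simp only [hX, Finset.mem_insert, Finset.mem_singleton] at hz
        rcases hz with rfl | rfl | rfl
        · rw [(hU _ hUu).1]
          rcases hgends with ⟨a, b⟩ | ⟨a, b⟩ <;> rcases hfends with ⟨c, d⟩ | ⟨c, d⟩ <;>
            simp [a, b, c, d, huv.symm, hyu, hg'X.1]
        · rw [(hU _ hUv).1]
          rcases hgends with ⟨a, b⟩ | ⟨a, b⟩ <;> rcases hfends with ⟨c, d⟩ | ⟨c, d⟩ <;>
            simp [a, b, c, d, huv, hyv, hg'X.2.1]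
        · rw [(hU _ hUy).1]
          rcases hgends with ⟨a, b⟩ | ⟨a, b⟩ <;> rcases hfends with ⟨c, d⟩ | ⟨c, d⟩ <;>
            simp [a, b, c, d, Ne.symm hyu, hyv.symm, hg'X.2.2]
      · rw [Finset.sum_pair hgf.symm]
        rw [e1, e2, e3] at hsum
        nlinarith
  exact glue h0 hx hodd htight hin hout w hw

end Pool.Agent.Lib.MP_a48b5a_co
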