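import Pool.Agent.Lib.MP_a48b5a_co.TJMain

set_option autoImplicit false

namespace Pool.Agent.Lib.MP_a48b5a_co

open Finset

variable {V E : Type*} [Fintype V] [DecidableEq V] [Fintype E] [DecidableEq E]

lemma card_supp_le {s t : E → V} {x : E → ℝ} (U : Finset V)
    (hN : ∀ d : E → ℝ, (∀ e, ¬ 0 < x e → d e = 0) →
      (∀ v ∈ U, ∑ e with cr s t {v} e, d e = 0) → ∀ e, d e = 0) :
    (univ.filter (fun e => 0 < x e)).card ≤ U.card := by
  classical
  set S := univ.filter (fun e => 0 < x e) with hS
  let ext : (S → ℝ) →ₗ[ℝ] (E → ℝ) :=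
    { toFun := fun y e => if h : e ∈ S then y ⟨e, h⟩ else 0
      map_add' := fun y z => by
        funext e
        by_cases h : e ∈ S <;> simp [h]
      map_smul' := fun c y => by
        funext e
        by_cases h : e ∈ S <;> simp [h] }
  let res : (E → ℝ) →ₗ[ℝ] (U → ℝ) :=
    { toFun := fun d v => ∑ e with cr s t {v.1} e, d e
      map_add' := fun y z => by
        funext v
        simp [Finset.sum_add_distrib]
      map_smul' := fun c y => by
        funext v
        simp [Finset.mul_sum] }
  have hinj : Function.Injective (res ∘ₗ ext) := by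
    rw [← LinearMap.ker_eq_bot, LinearMap.ker_eq_bot']
    intro y hy
    have h1 := hN (ext y)
      (fun e he => by
        have : e ∉ S := by simpa [hS] using he
        simp [ext, this])
      (fun v hv => congrFun hy ⟨v, hv⟩)
    funext e
    have := h1 e.1
    simpa [ext, e.2] using this
  have := LinearMap.finrank_le_finrank_of_injective hinj
  simpa using this

theorem tj_all (n : ℕ) : TJ V E n := by
  induction n with
  | zero =>
    intro s t A T x hc hA hT _ hx _ w hw
    have hA0 : A = ∅ := Finset.card_eq_zero.1 (by omega)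
    refine ⟨∅, by simp, fun v => ?_, ?_⟩
    · rw [hT v (by simp [hA0])]
      simp [bd]
    · simpa using Finset.sum_nonneg fun e _ => mul_nonneg (hw e) (hx e)
  | succ n ih =>
    intro s t A T x hc hA hT h0 hx hF w hw
    refine reduce_vertex w hw (fun x hx hF hN => ?_) x hx hF
    by_cases hcase : ∃ X : Finset V, ∑ v ∈ X, T v = 1 ∧ ∑ e with cr s t X e, x e = 1 ∧
        2 ≤ (A ∩ X).card ∧ 2 ≤ (A ∩ Xᶜ).card
    · obtain ⟨X, h1, h2, h3, h4⟩ := hcase
      have h5 : (A ∩ X).card + (A ∩ Xᶜ).card = A.card := by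
        have : A ∩ Xᶜ = A \ X := by ext z; simp
        rw [this, add_comm]
        exact Finset.card_sdiff_add_card_inter A X
      obtain ⟨z, hz⟩ : (A ∩ Xᶜ).Nonempty := Finset.card_pos.1 (by omega)
      obtain ⟨z', hz'⟩ : (A ∩ X).Nonempty := Finset.card_pos.1 (by omega)
      exact glue h0 hx h1 h2
        (side_of_TJ ih hA hT h0 hx hF X (z := z)
          (Finset.mem_compl.1 (Finset.mem_inter.1 hz).2) (by omega))
        (side_of_TJ ih hA hT h0 hx hF Xᶜ (z := z')
          (by simpa using (Finset.mem_inter.1 hz').2) (by omega)) w hw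
    set U : Finset V := univ.filter (fun v => T v = 1 ∧ ∑ e with cr s t {v} e, x e = 1) with hU
    have hsmall : ∀ X : Finset V, ∑ v ∈ X, T v = 1 → (A ∩ X).card ≤ 1 →
        ∃ v, T v = 1 ∧ ∀ e, cr s t X e ↔ cr s t {v} e := by
      intro X h1 h2
      have h3 : ∑ v ∈ A ∩ X, T v = 1 := by
        rw [← h1]
        refine Finset.sum_subset Finset.inter_subset_right fun v hv hv2 => hT v fun h => ?_
        exact hv2 (Finset.mem_inter.2 ⟨h, hv⟩)
      have h4 : (A ∩ X).card ≠ 0 := by
        intro h
        rw [Finset.card_eq_zero.1 h, Finset.sum_empty] at h3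
        exact absurd h3 (by decide)
      obtain ⟨v, hv⟩ := Finset.card_eq_one.1 (show (A ∩ X).card = 1 by omega)
      rw [hv, Finset.sum_singleton] at h3
      refine ⟨v, h3, fun e => ?_⟩
      have h5 : ∀ y ∈ A, y ∈ X ↔ y ∈ ({v} : Finset V) := by
        intro y hy
        rw [← hv]
        simp [hy]
      unfold cr
      rw [h5 _ (hA e).1, h5 _ (hA e).2]
    have hN' : ∀ d : E → ℝ, (∀ e, ¬ 0 < x e → d e = 0) →
        (∀ v ∈ U, ∑ e with cr s t {v} e, d e = 0) → ∀ e, d e = 0 := by
      intro d h1 h2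
      refine hN d (fun e he => h1 e (by simp [he])) fun X a1 a2 => ?_
      have a3 : ∃ v, T v = 1 ∧ ∀ e, cr s t X e ↔ cr s t {v} e := by
        by_cases b1 : (A ∩ X).card ≤ 1
        · exact hsmall X a1 b1
        · have b2 : (A ∩ Xᶜ).card ≤ 1 := by
            by_contra b3
            exact hcase ⟨X, a1, a2, by omega, by omega⟩
          obtain ⟨v, b4, b5⟩ := hsmall Xᶜ (by rw [sum_compl_eq h0, a1]) b2
          exact ⟨v, b4, fun e => by rw [← b5, cr_compl]⟩
      obtain ⟨v, b1, b2⟩ := a3
      have b3 : univ.filter (cr s t X) = univ.filter (cr s t {v}) :=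
        Finset.filter_congr fun e _ => b2 e
      rw [b3] at a2 ⊢
      exact h2 v (Finset.mem_filter.2 ⟨Finset.mem_univ _, b1, a2⟩)
    have hloop : ∀ e, 0 < x e → s e ≠ t e := by
      intro e he hst
      have := hN' (fun a => if a = e then 1 else 0)
        (fun a ha => by
          have : a ≠ e := fun h => ha (h ▸ he)
          simp [this])
        (fun v _ => by
          rw [Finset.sum_ite_eq']
          have : ¬ cr s t {v} e := by unfold cr; simp [hst]
          simp [this]) e
      simp at this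
    by_cases hone : ∃ v ∈ U, (univ.filter (fun f => 0 < x f ∧ cr s t {v} f)).card ≤ 1
    · obtain ⟨v, hv, h1⟩ := hone
      obtain ⟨h2, h3⟩ := (Finset.mem_filter.1 hv).2
      have h4 : (univ.filter (fun f => 0 < x f ∧ cr s t {v} f)).card ≠ 0 := by
        intro h
        rw [sum_supp' hx, Finset.card_eq_zero.1 h] at h3
        simp at h3
      obtain ⟨e, he⟩ := Finset.card_eq_one.1
        (show (univ.filter (fun f => 0 < x f ∧ cr s t {v} f)).card = 1 by omega)
      exact case_single ih hc hA hT h0 hx hF hloop h2 h3 he w hw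
    push Not at hone
    have hcard := card_supp_le U hN'
    set S := univ.filter (fun e => 0 < x e) with hS
    have hdc : ∑ v ∈ U, (univ.filter (fun f => 0 < x f ∧ cr s t {v} f)).card
        = ∑ e ∈ S, (U.filter (fun v => cr s t {v} e)).card := by
      simp only [Finset.card_filter]
      rw [Finset.sum_comm, hS, Finset.sum_filter]
      refine Finset.sum_congr rfl fun e _ => ?_
      by_cases h : 0 < x e <;> simp [h]
    have hsub : ∀ e, U.filter (fun v => cr s t {v} e) ⊆ {s e, t e} := by
      intro e v hv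
      obtain ⟨u, _, h⟩ := other_end (Finset.mem_filter.1 hv).2
      rcases h with ⟨a, _⟩ | ⟨_, b⟩
      · simp [a]
      · simp [b]
    have hle2 : ∀ e ∈ S, (U.filter (fun v => cr s t {v} e)).card ≤ 2 := fun e _ =>
      (Finset.card_le_card (hsub e)).trans Finset.card_le_two
    have hge2 : ∀ v ∈ U, 2 ≤ (univ.filter (fun f => 0 < x f ∧ cr s t {v} f)).card :=
      fun v hv => hone v hv
    have hA1 : ∑ v ∈ U, 2 ≤ ∑ v ∈ U, (univ.filter (fun f => 0 < x f ∧ cr s t {v} f)).card :=
      Finset.sum_le_sum hge2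
    have hA2 : ∑ e ∈ S, (U.filter (fun v => cr s t {v} e)).card ≤ ∑ e ∈ S, 2 :=
      Finset.sum_le_sum hle2
    have hA3 : ∑ v ∈ U, 2 = 2 * U.card := by simp [mul_comm]
    have hA4 : ∑ e ∈ S, 2 = 2 * S.card := by simp [mul_comm]
    have hE1 := (Finset.sum_eq_sum_iff_of_le hge2).1 (by omega)
    have hE2 := (Finset.sum_eq_sum_iff_of_le hle2).1 (by omega)
    by_cases hSe : S.Nonempty
    · obtain ⟨e, he⟩ := hSe
      refine case_double ih hc hA hT h0 hx hF hN hloop (fun v => v ∈ U) (fun v hv => ?_)
        (fun a ha => ?_) (Finset.mem_filter.1 he).2 w hw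
      · exact ⟨(Finset.mem_filter.1 hv).2.1, (Finset.mem_filter.1 hv).2.2, (hE1 v hv).symm⟩
      · have h1 := hE2 a (Finset.mem_filter.2 ⟨Finset.mem_univ _, ha⟩)
        have h2 : U.filter (fun v => cr s t {v} a) = {s a, t a} :=
          Finset.eq_of_subset_of_card_le (hsub a) (by rw [h1]; exact Finset.card_le_two)
        have h3 : s a ∈ U.filter (fun v => cr s t {v} a) := by rw [h2]; simp
        have h4 : t a ∈ U.filter (fun v => cr s t {v} a) := by rw [h2]; simp
        exact ⟨(Finset.mem_filter.1 h3).1, (Finset.mem_filter.1 h4).1⟩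
    · refine ⟨∅, by simp, fun v => ?_, ?_⟩
      · have h1 : T v ≠ 1 := by
          intro h
          have h2 := hF {v} (by simpa using h)
          rw [sum_supp' hx] at h2
          have h3 : univ.filter (fun f => 0 < x f ∧ cr s t {v} f) = ∅ := by
            rw [Finset.filter_eq_empty_iff]
            intro f _ hf
            exact hSe ⟨f, Finset.mem_filter.2 ⟨Finset.mem_univ _, hf.1⟩⟩
          rw [h3] at h2
          simp at h2
          linarith
        have h2 : ∀ a : ZMod 2, a ≠ 1 → 0 = a := by decide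
        simpa [bd] using h2 _ h1
      · simpa using Finset.sum_nonneg fun e _ => mul_nonneg (hw e) (hx e)

/-- The Edmonds-Johnson theorem on the dominant of the `T`-join polytope. -/
theorem exists_join (s t : E → V) (T : V → ZMod 2) (h0 : ∑ v, T v = 0) (x : E → ℝ)
    (hx : ∀ e, 0 ≤ x e) (hF : Feas s t T x) (w : E → ℝ) (hw : ∀ e, 0 ≤ w e) :
    ∃ J : Finset E, (∀ e ∈ J, 0 < x e) ∧ (∀ v, bd s t J v = T v) ∧
      ∑ e ∈ J, w e ≤ ∑ e, w e * x e :=
  tj_all (Fintype.card V) s t univ T x (by simp) (by simp) (by simp) h0 hx hF w hw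

end Pool.Agent.Lib.MP_a48b5a_co
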