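import Pool.Agent.Lib.MP_a48b5a_co.U5Basic

/-!
# The law in the base case
-/

set_option autoImplicit false
set_option linter.unusedSectionVars false

namespace Pool.Agent.Lib.MP_a48b5a_co.U5

open Finset

variable {V E : Type} [Fintype V] [DecidableEq V] [Fintype E] [DecidableEq E]
variable {s t : E → V} {W U : Finset V} {r : V}

/-- A cut that does not separate `U` is empty or the cut of the root. -/
lemma ba_cs_nosep (h : Core s t (insert r U) U r) {X : Finset V} (hX : ¬ Sep U X)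
    (c : E → ZMod 2) (hc : cs s t c {r} = 0) : cs s t c X = 0 := by
  have hends : ∀ e, s e ≠ t e → (s e = r ∨ s e ∈ U) ∧ (t e = r ∨ t e ∈ U) := fun e he => by
    simpa only [mem_insert] using h.ends e he
  have hr := h.rU
  have key : (∀ e, ¬ cr s t X e) ∨ ∀ e, cr s t X e ↔ cr s t {r} e := by
    have hU : (∀ u ∈ U, u ∈ X) ∨ ∀ u ∈ U, u ∉ X := by
      by_contra hcon
      rw [not_or] at hcon
      obtain ⟨h1, h2⟩ := hcon
      push Not at h1 h2
      exact hX ⟨h2, h1⟩
    have aux : ∀ e, s e ≠ t e →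
        (s e = r ∧ t e ∈ U ∧ t e ≠ r) ∨ (t e = r ∧ s e ∈ U ∧ s e ≠ r) ∨
          (s e ∈ U ∧ t e ∈ U ∧ s e ≠ r ∧ t e ≠ r) := by
      intro e he
      obtain ⟨a | a, b | b⟩ := hends e he
      · exact absurd (a.trans b.symm) he
      · exact Or.inl ⟨a, b, fun h' => hr (h' ▸ b)⟩
      · exact Or.inr (Or.inl ⟨b, a, fun h' => hr (h' ▸ a)⟩)
      · exact Or.inr (Or.inr ⟨a, b, fun h' => hr (h' ▸ a), fun h' => hr (h' ▸ b)⟩)
    by_cases hrX : r ∈ X <;> rcases hU with hU | hU
    · refine Or.inl fun e he => ?_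
      apply he
      rcases aux e (ne_of_cr he) with ⟨a, b, -⟩ | ⟨a, b, -⟩ | ⟨a, b, -⟩
      · simp [a, hrX, hU _ b]
      · simp [a, hrX, hU _ b]
      · simp [hU _ a, hU _ b]
    · refine Or.inr fun e => ?_
      by_cases he : s e = t e
      · exact iff_of_false (fun h' => ne_of_cr h' he) (fun h' => ne_of_cr h' he)
      unfold cr
      rcases aux e he with ⟨a, b, c⟩ | ⟨a, b, c⟩ | ⟨a, b, c, c'⟩
      · simp [a, hrX, hU _ b, c]
      · simp [a, hrX, hU _ b, c]
      · simp [hU _ a, hU _ b, c, c']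
    · refine Or.inr fun e => ?_
      by_cases he : s e = t e
      · exact iff_of_false (fun h' => ne_of_cr h' he) (fun h' => ne_of_cr h' he)
      unfold cr
      rcases aux e he with ⟨a, b, c⟩ | ⟨a, b, c⟩ | ⟨a, b, c, c'⟩
      · simp [a, hrX, hU _ b, c]
      · simp [a, hrX, hU _ b, c]
      · simp [hU _ a, hU _ b, c, c']
    · refine Or.inl fun e he => ?_
      apply he
      rcases aux e (ne_of_cr he) with ⟨a, b, -⟩ | ⟨a, b, -⟩ | ⟨a, b, -⟩
      · simp [a, hrX, hU _ b]
      · simp [a, hrX, hU _ b]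
      · simp [hU _ a, hU _ b]
  rcases key with key | key
  · exact Finset.sum_eq_zero fun e _ => if_neg (key e)
  · rw [← hc]
    exact Finset.sum_congr rfl fun e _ => by simp only [key e]

/-- A chain can be corrected on a connected set of non-root edges. -/
lemma ba_ext_chain (h : Core s t (insert r U) U r) (D : E → Prop)
    (hD : ∀ X, Sep U X → ∃ e, cr s t X e ∧ ¬ cr s t {r} e ∧ D e) (b c₀ : E → ZMod 2)
    (hr : cs s t c₀ {r} = cs s t b {r}) :
    ∃ c : E → ZMod 2, (∀ e, ¬ (¬ cr s t {r} e ∧ D e) → c e = c₀ e) ∧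
      ∀ X, cs s t c X = cs s t b X := by
  obtain ⟨c, h1, h2⟩ := exists_chain (s := s) (t := t) (fun e => ¬ cr s t {r} e ∧ D e)
    (fun v => cs s t (c₀ + b) {v}) (fun X hX => by
      rw [← cs_eq_sum Z2_add_self]
      refine ba_cs_nosep h (fun hS => ?_) _ ?_
      · obtain ⟨e, a1, a2, a3⟩ := hD X hS
        exact hX e a1 ⟨a2, a3⟩
      · rw [cs_add, hr, Z2_add_self])
  refine ⟨c₀ + c, fun e he => by simp [h1 e he], fun X => ?_⟩
  rw [cs_add, h2, ← cs_eq_sum Z2_add_self, cs_add, ← add_assoc, Z2_add_self, zero_add]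

/-- The character of the Klein group with kernel `{0, y}`. -/
def baChar (y : K) : K →+ ZMod 2 where
  toFun x := x.1 * y.2 + x.2 * y.1
  map_zero' := by simp
  map_add' a b := by simp only [Prod.fst_add, Prod.snd_add]; ring

/-- Each colour class has the parity of the cut. -/
lemma ba_parity {y : K} (hy : y ≠ 0) {φ : E → K} {X : Finset V}
    (h0 : ∀ e, cr s t X e → φ e ≠ 0) (h1 : cs s t φ X = 0) :
    cs s t (fun e => if φ e = y then (1 : ZMod 2) else 0) X = cs s t (fun _ => (1 : ZMod 2)) X := by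
  have k : ∀ x y : K, y ≠ 0 → x ≠ 0 →
      (if x = y then (1 : ZMod 2) else 0) = (x.1 * y.2 + x.2 * y.1) + 1 := by decide
  have h2 := cs_hom (s := s) (t := t) (baChar y) φ X
  rw [h1, map_zero] at h2
  have h3 := cs_add (s := s) (t := t) (fun e => baChar y (φ e)) (fun _ => (1 : ZMod 2)) X
  rw [h2, zero_add] at h3
  rw [← h3]
  exact cs_congr fun e he => k _ _ hy (h0 e he)

/-- Admissible indicators of the `y`-class. -/
def BaJ (s t : E → V) (r : V) (A : E → ZMod 5) (π : E → K) (y : K) (i : ZMod 5)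
    (j : E → ZMod 2) : Prop :=
  (∀ X, cs s t j X = cs s t (fun _ => (1 : ZMod 2)) X) ∧
    (∀ e, cr s t {r} e → j e = if π e = y then 1 else 0) ∧
    ∀ e, ¬ cr s t {r} e → (A e = i ∨ A e = i + 1) → j e = 0

/-- Every admissible indicator is the `y`-class of a flow extending the pattern. -/
lemma ba_lift (h : Core s t (insert r U) U r) {A : E → ZMod 5} (hA : Cyc s t U r A)
    {π : E → K} (hπ : Valid s t r π) {y : K} (hy : y ≠ 0) {i : ZMod 5} {j : E → ZMod 2}
    (hj : BaJ s t r A π y i j) : ∃ φ, Ext s t r π φ ∧ ∀ e, φ e = y ↔ j e = 1 := by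
  classical
  have k0 : ∀ y : K, ∃ a : K, a ≠ 0 ∧ a ≠ y := by decide
  obtain ⟨a, ha0, hay⟩ := k0 y
  have hsm : ∀ (x : K) (c : E → ZMod 2) (X : Finset V),
      cs s t (fun e => c e • x) X = cs s t c X • x := fun x c X => by
    simpa using cs_hom (s := s) (t := t) ((smulAddHom (ZMod 2) K).flip x) c X
  have hsum : ∀ (c : E → ZMod 2) (X : Finset V),
      cs s t (fun e => (j e + 1) • a + c e • y) X = cs s t c X • y := fun c X => by
    have e1 := cs_add (s := s) (t := t) (fun e => (j e + 1) • a) (fun e => c e • y) X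
    have e2 := cs_add (s := s) (t := t) j (fun _ => (1 : ZMod 2)) X
    rw [hj.1, Z2_add_self] at e2
    have e3 := hsm a (j + fun _ => (1 : ZMod 2)) X
    rw [e2, zero_smul] at e3
    refine e1.trans ?_
    rw [hsm y c X]
    exact (congrArg (· + cs s t c X • y) e3).trans (zero_add _)
  have k1 : ∀ x a y : K, y ≠ 0 → a ≠ 0 → a ≠ y → x ≠ 0 →
      ((if x = y then (1 : ZMod 2) else 0) + 1) • a + (if x = a then (0 : ZMod 2) else 1) • y
        = x := by decide
  have k2 : ∀ (c : ZMod 2) (y : K), y ≠ 0 → c • y = 0 → c = 0 := by decide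
  have k3 : ∀ (a y : K) (j c : ZMod 2), y ≠ 0 → a ≠ 0 → a ≠ y → (j = 1 → c = 1) →
      (j + 1) • a + c • y ≠ 0 ∧ ((j + 1) • a + c • y = y ↔ j = 1) := by decide
  set c₀ : E → ZMod 2 := fun e => if cr s t {r} e then (if π e = a then 0 else 1) else j e
    with hc₀
  have hroot : ∀ e, cr s t {r} e → (j e + 1) • a + c₀ e • y = π e := fun e he => by
    simp only [hc₀, if_pos he, hj.2.1 e he]
    exact k1 _ _ _ hy ha0 hay (hπ.1 e he)
  have hc0 : cs s t c₀ {r} = cs s t (fun _ => (0 : ZMod 2)) {r} := by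
    have e1 := hsum c₀ {r}
    rw [cs_congr hroot, hπ.2] at e1
    rw [k2 _ _ hy e1.symm]
    simp [cs]
  obtain ⟨c, h1, h2⟩ := ba_ext_chain h (fun e => A e = i ∨ A e = i + 1) (hA i) _ c₀ hc0
  have hjc : ∀ e, j e = 1 → c e = 1 := fun e he => by
    have hw : ¬ (¬ cr s t {r} e ∧ (A e = i ∨ A e = i + 1)) := fun hw => by
      rw [hj.2.2 e hw.1 hw.2] at he
      exact absurd he (by decide)
    rw [h1 e hw]
    by_cases hr : cr s t {r} e
    · have e1 := hj.2.1 e hr
      rw [he] at e1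
      have e2 : π e = y := by
        by_contra hne
        rw [if_neg hne] at e1
        exact absurd e1 (by decide)
      simp only [hc₀, if_pos hr, e2, if_neg hay.symm]
    · simp only [hc₀, if_neg hr, he]
  refine ⟨fun e => (j e + 1) • a + c e • y, ⟨⟨fun e => (k3 _ _ _ _ hy ha0 hay (hjc e)).1,
    fun X => ?_⟩, fun e he => ?_⟩, fun e => (k3 _ _ _ _ hy ha0 hay (hjc e)).2⟩
  · rw [hsum, h2]
    simp [cs]
  · show (j e + 1) • a + c e • y = π e
    rw [h1 e fun hw => hw.1 he]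
    exact hroot e he

lemma ba_win {A : E → ZMod 5} {π φ : E → K} {y : K} {i : ZMod 5} {j : E → ZMod 2}
    (hj : BaJ s t r A π y i j) (hφ : ∀ e, φ e = y ↔ j e = 1) : Win s t r A i (y, φ) :=
  fun e h1 h2 h3 => by
    have := (hφ e).1 h3
    rw [hj.2.2 e h1 h2] at this
    exact absurd this (by decide)

lemma ba_of_flow {A : E → ZMod 5} {π φ : E → K} {y : K} (hy : y ≠ 0) {i : ZMod 5}
    (hφ : Ext s t r π φ) (hw : Win s t r A i (y, φ)) :
    BaJ s t r A π y i fun e => if φ e = y then 1 else 0 :=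
  ⟨fun X => ba_parity hy (fun e _ => hφ.1.1 e) (hφ.1.2 X),
    fun e he => by simp only [hφ.2 e he], fun e h1 h2 => if_neg (hw e h1 h2)⟩

/-- The `y`-class can be prescribed outside the window and a connected set `D`. -/
theorem prescribe (h : Core s t (insert r U) U r) {A : E → ZMod 5} (hA : Cyc s t U r A)
    {π : E → K} (hπ : Valid s t r π) {y : K} (hy : y ≠ 0) (i : ZMod 5) (D Q : E → Prop)
    (hD : ∀ X, Sep U X → ∃ e, cr s t X e ∧ ¬ cr s t {r} e ∧ D e ∧ A e ≠ i ∧ A e ≠ i + 1) :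
    ∃ φ, Ext s t r π φ ∧ Win s t r A i (y, φ) ∧
      ∀ e, ¬ cr s t {r} e → ¬ D e → A e ≠ i → A e ≠ i + 1 → (φ e = y ↔ Q e) := by
  classical
  set j₀ : E → ZMod 2 := fun e => if cr s t {r} e then (if π e = y then 1 else 0) else
    if A e = i ∨ A e = i + 1 then 0 else if Q e then 1 else 0 with hj₀
  have h0 : cs s t j₀ {r} = cs s t (fun _ => (1 : ZMod 2)) {r} := by
    rw [← ba_parity hy hπ.1 hπ.2]
    exact cs_congr fun e he => by simp only [hj₀, if_pos he]
  obtain ⟨j, h1, h2⟩ := ba_ext_chain h (fun e => D e ∧ A e ≠ i ∧ A e ≠ i + 1) hD _ j₀ h0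
  have hj : BaJ s t r A π y i j := by
    refine ⟨h2, fun e he => ?_, fun e he hw => ?_⟩
    · rw [h1 e fun hw => hw.1 he]
      simp only [hj₀, if_pos he]
    · rw [h1 e fun hw' => hw.elim hw'.2.2.1 hw'.2.2.2]
      simp only [hj₀, if_neg he, if_pos hw]
  obtain ⟨φ, h3, h4⟩ := ba_lift h hA hπ hy hj
  refine ⟨φ, h3, ba_win hj h4, fun e a1 a2 a3 a4 => ?_⟩
  rw [h4, h1 e fun hw => a2 hw.2.1]
  simp only [hj₀, if_neg a1, if_neg (not_or.2 ⟨a3, a4⟩)]
  by_cases hQ : Q e
  · simp [hQ]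
  · simp [hQ]

theorem base_prob (h : Core s t (insert r U) U r) {A : E → ZMod 5} (hA : Cyc s t U r A) :
    ∃ ν : (E → K) → Law (K × (E → K)),
      (∀ π, Valid s t r π → ∀ ω, (ν π).supp ω →
        ω.1 ≠ 0 ∧ Ext s t r π ω.2 ∧ ∃ i, Win s t r A i ω) ∧
      ∀ π, Valid s t r π → ∀ Ev, Forced s t r A π Ev → 1 / 60 ≤ (ν π).pr Ev := by
  classical
  have hF : ∀ (π : E → K) (y : K) (i : ZMod 5) (j : E → ZMod 2), ∃ φ : E → K,
      Valid s t r π → y ≠ 0 → BaJ s t r A π y i j →
        Ext s t r π φ ∧ ∀ e, φ e = y ↔ j e = 1 := by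
    intro π y i j
    by_cases hc : Valid s t r π ∧ y ≠ 0 ∧ BaJ s t r A π y i j
    · obtain ⟨φ, hφ⟩ := ba_lift h hA hc.1 hc.2.1 hc.2.2
      exact ⟨φ, fun _ _ _ => hφ⟩
    · exact ⟨π, fun a b c => absurd ⟨a, b, c⟩ hc⟩
  choose F hF using hF
  set S : (E → K) → K → ZMod 5 → Finset (E → ZMod 2) :=
    fun π y i => univ.filter (BaJ s t r A π y i) with hS
  have memS : ∀ π y i j, j ∈ S π y i ↔ BaJ s t r A π y i j := fun π y i j => by simp [hS]
  have hY : (univ.filter fun y : K => y ≠ 0).Nonempty := ⟨(1, 0), by decide⟩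
  have hne : ∀ π, Valid s t r π → ∀ y : K, y ≠ 0 → ∀ i, (S π y i).Nonempty := by
    intro π hπ y hy i
    have k : ∀ i a : ZMod 5, a = i + 2 ∨ a = i + 2 + 1 → a ≠ i ∧ a ≠ i + 1 := by decide
    obtain ⟨φ, h1, h2, -⟩ := prescribe h hA hπ hy i (fun _ => True) (fun _ => True)
      (fun X hX => by
        obtain ⟨e, a1, a2, a3⟩ := hA (i + 2) X hX
        exact ⟨e, a1, a2, trivial, k _ _ a3⟩)
    exact ⟨_, (memS _ _ _ _).2 (ba_of_flow hy h1 h2)⟩
  refine ⟨fun π => (Law.unif (univ.filter fun y : K => y ≠ 0)).bind fun y =>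
    (Law.unif (univ : Finset (ZMod 5))).bind fun i =>
      (Law.unif (S π y i)).map fun j => (y, F π y i j), ?_, ?_⟩
  · intro π hπ ω hω
    obtain ⟨y, hy, i, -, j, hj, rfl⟩ := hω
    have hy0 : y ≠ 0 := by simpa using (Law.unif_supp hY).1 hy
    have hj' := (memS _ _ _ _).1 ((Law.unif_supp (hne π hπ y hy0 i)).1 hj)
    obtain ⟨h1, h2⟩ := hF π y i j hπ hy0 hj'
    exact ⟨hy0, h1, i, ba_win hj' h2⟩
  · intro π hπ Ev hEv
    obtain ⟨y, i, c₁, c₂, φ₀, hy, h0, hw, hall⟩ := hEv
    have hj0 := (memS _ _ _ _).2 (ba_of_flow hy h0 hw)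
    have p3 : (1 / 4 : ℝ) ≤ ((Law.unif (S π y i)).map fun j => (y, F π y i j)).pr Ev := by
      rw [Law.pr_map]
      have a1 := Law.pr_unif_affine (A := ZMod 2 × ZMod 2) (S := S π y i) (fun a ha b hb c hc => by
        rw [memS] at ha hb hc ⊢
        have e0 : a - b + c = a + b + c := by
          funext e
          have : ∀ u v w : ZMod 2, u - v + w = u + v + w := by decide
          exact this _ _ _
        rw [e0]
        refine ⟨fun X => ?_, fun e he => ?_, fun e he hw => ?_⟩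
        · rw [cs_add, cs_add, ha.1, hb.1, hc.1, Z2_add_self, zero_add]
        · simp only [Pi.add_apply]
          rw [ha.2.1 e he, hb.2.1 e he, hc.2.1 e he, Z2_add_self, zero_add]
        · simp only [Pi.add_apply]
          rw [ha.2.2 e he hw, hb.2.2 e he hw, hc.2.2 e he hw, add_zero, add_zero])
        (fun j => (j c₁, j c₂)) (fun _ _ _ => rfl) hj0
      have a2 : (Fintype.card (ZMod 2 × ZMod 2) : ℝ) = 4 := by
        rw [Fintype.card_prod, ZMod.card]; norm_num
      rw [a2] at a1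
      refine a1.trans (Law.pr_mono _ fun j hj hL => ?_)
      have hj' := (memS _ _ _ _).1 ((Law.unif_supp ⟨_, hj0⟩).1 hj)
      obtain ⟨h1, h2⟩ := hF π y i j hπ hy hj'
      obtain ⟨e1, e2⟩ := Prod.mk.inj hL
      have k : ∀ (P : Prop) [Decidable P], ((if P then (1 : ZMod 2) else 0) = 1 ↔ P) := by
        intro P _
        by_cases hP : P
        · simp [hP]
        · simp [hP]
      refine hall _ h1 (ba_win hj' h2) ?_ ?_
      · rw [h2, e1, k]
      · rw [h2, e2, k]
    have p2 : (1 / 5 * (1 / 4) : ℝ) ≤ ((Law.unif (univ : Finset (ZMod 5))).bind fun i =>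
        (Law.unif (S π y i)).map fun j => (y, F π y i j)).pr Ev := by
      refine Law.pr_bind _ _ (C := fun i' => i' = i) (by norm_num) ?_ ?_
      · have := Law.pr_unif_point (mem_univ i)
        rwa [Finset.card_univ, ZMod.card, Nat.cast_ofNat] at this
      · rintro _ - rfl
        exact p3
    have p1 := Law.pr_bind (Law.unif (univ.filter fun y : K => y ≠ 0))
      (fun y => (Law.unif (univ : Finset (ZMod 5))).bind fun i =>
        (Law.unif (S π y i)).map fun j => (y, F π y i j)) (C := fun y' => y' = y) (A := Ev)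
      (p := 1 / 3) (q := 1 / 5 * (1 / 4)) (by norm_num)
      (by
        have hm : y ∈ univ.filter fun y : K => y ≠ 0 := by simpa using hy
        have := Law.pr_unif_point hm
        have hc : (univ.filter fun y : K => y ≠ 0).card = 3 := by decide
        rwa [hc, Nat.cast_ofNat] at this)
      (by
        rintro _ - rfl
        exact p2)
    refine le_trans (by norm_num) p1

end Pool.Agent.Lib.MP_a48b5a_co.U5
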