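import Pool.Agent.Lib.MP_a48b5a_co.U5BaseA

/-!
# The pair lemma in the base case
-/

set_option autoImplicit false
set_option linter.unusedSectionVars false

namespace Pool.Agent.Lib.MP_a48b5a_co.U5

open Finset

variable {V E : Type} [Fintype V] [DecidableEq V] [Fintype E] [DecidableEq E]
variable {s t : E → V} {W U : Finset V} {r : V}

section Aux

variable {A : E → ZMod 5} {p q : E} {u : V} {π : E → K}

lemma fe_xor {a b : Prop} (h : ¬ (a ↔ b)) (ha : ¬ a) : b := by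
  by_contra hb
  exact h (iff_of_false ha hb)

lemma fe_sep (h : Core s t (insert r U) U r) {X : Finset V} {e : E} (he : cr s t X e)
    (hr : ¬ cr s t {r} e) : Sep U X := by
  have hne := ne_of_cr he
  obtain ⟨h1, h2⟩ := h.ends e hne
  have h3 : s e ≠ r := fun a => hr (cr_single.2 ⟨hne, Or.inl a⟩)
  have h4 : t e ≠ r := fun a => hr (cr_single.2 ⟨hne, Or.inr a⟩)
  have h5 : s e ∈ U := (mem_insert.1 h1).resolve_left h3
  have h6 : t e ∈ U := (mem_insert.1 h2).resolve_left h4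
  unfold cr at he
  by_cases a : s e ∈ X
  · exact ⟨⟨s e, h5, a⟩, t e, h6, fun b => he (by simp [a, b])⟩
  · refine ⟨⟨t e, h6, ?_⟩, s e, h5, a⟩
    by_contra b
    exact he (by simp [a, b])

/-- A normalised cut through `p` and `q` whose other non-root edges avoid the window `i`. -/
def FeCand (s t : E → V) (r u : V) (A : E → ZMod 5) (p q : E) (i : ZMod 5) (X : Finset V) : Prop :=
  r ∉ X ∧ u ∉ X ∧ cr s t X p ∧ cr s t X q ∧
    ∀ e, cr s t X e → ¬ cr s t {r} e → e ≠ p → e ≠ q → A e ≠ i ∧ A e ≠ i + 1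

lemma fe_unique (h : Core s t (insert r U) U r) (hA : Cyc s t U r A) (hu : u ∈ U) {i : ZMod 5}
    {X Y : Finset V} (hX : FeCand s t r u A p q i X) (hY : FeCand s t r u A p q i Y) (e : E) :
    cr s t X e ↔ cr s t Y e := by
  obtain ⟨x1, x2, x3, x4, x5⟩ := hX
  obtain ⟨y1, y2, y3, y4, y5⟩ := hY
  have hns : ¬ Sep U (symmDiff X Y) := by
    intro hs
    obtain ⟨f, f1, f2, f3⟩ := hA i _ hs
    rw [cr_symmDiff] at f1
    have fp : f ≠ p := by rintro rfl; exact f1 (iff_of_true x3 y3)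
    have fq : f ≠ q := by rintro rfl; exact f1 (iff_of_true x4 y4)
    by_cases a : cr s t X f
    · have := x5 f a f2 fp fq; tauto
    · have := y5 f (fe_xor f1 a) f2 fp fq; tauto
  have hout : ∀ v ∈ insert r U, v ∉ symmDiff X Y := by
    intro v hv hv'
    rcases mem_insert.1 hv with rfl | hv
    · rw [Finset.mem_symmDiff] at hv'; tauto
    · exact hns ⟨⟨v, hv, hv'⟩, u, hu, by rw [Finset.mem_symmDiff]; tauto⟩
  by_contra hc
  have h1 := (cr_symmDiff X Y e).2 hc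
  obtain ⟨a, b⟩ := h.ends e (ne_of_cr h1)
  exact h1 (iff_of_false (hout _ a) (hout _ b))

lemma fe_cyc {y : K} {φ : E → K} {f g : E} (hfg : f ≠ g) (hf : ¬ cr s t {r} f) (hy : φ f ≠ y) :
    (∃ c : E → ZMod 2, (∀ X, cs s t c X = 0) ∧ (∀ e, φ e = y ∨ cr s t {r} e → c e = 0) ∧
      c f = 1 ∧ c g = 0) ∨
    ∃ X, cr s t X f ∧ ∀ e, cr s t X e → ¬ cr s t {r} e → e ≠ f → e ≠ g → φ e = y := by
  by_cases hc : ∀ X : Finset V, s f ∈ X → t f ∉ X →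
      ∃ e, cr s t X e ∧ (φ e ≠ y ∧ ¬ cr s t {r} e ∧ e ≠ f ∧ e ≠ g)
  · left
    obtain ⟨c, c1, c2⟩ := exists_path (s := s) (t := t)
      (fun e => φ e ≠ y ∧ ¬ cr s t {r} e ∧ e ≠ f ∧ e ≠ g) (s f) (t f) hc
    refine ⟨c + fun e => if e = f then 1 else 0, fun X => ?_, fun e he => ?_, ?_, ?_⟩
    · rw [cs_add, c2, cs_single]
      unfold cr
      by_cases a : s f ∈ X <;> by_cases b : t f ∈ X <;> simp [a, b, Z2_add_self]
    · have ef : e ≠ f := by rintro rfl; tauto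
      have := c1 e (by tauto)
      simp [this, ef]
    · have := c1 f (by tauto)
      simp [this]
    · have := c1 g (by tauto)
      simp [this, hfg.symm]
  · right
    push Not at hc
    obtain ⟨X, x1, x2, x3⟩ := hc
    refine ⟨X, fun a => x2 (a.1 x1), fun e e1 e2 e3 e4 => ?_⟩
    by_contra e5
    exact e4 (x3 e e1 e5 e2 e3)

lemma fe_bad (hur : u ≠ r) {y : K} {φ : E → K} (hy : y ≠ 0) (hφ : IsFlow s t φ) (hpq : p ≠ q)
    (hp : ¬ cr s t {r} p) (hq : ¬ cr s t {r} q) (hp' : φ p ≠ y) (hq' : φ q ≠ y)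
    (hn : ¬ EqF s t r p q (y, φ)) :
    φ p + φ q = y ∧ ∃ X : Finset V, r ∉ X ∧ u ∉ X ∧ cr s t X p ∧ cr s t X q ∧
      ∀ e, cr s t X e → ¬ cr s t {r} e → e ≠ p → e ≠ q → φ e = y := by
  have k1 : ∀ a b y : K, y ≠ 0 → a ≠ 0 → b ≠ 0 → a ≠ y → b ≠ y → a ≠ b → a + b = y := by decide
  have k2 : ∀ a b y : K, a + b = y →
      a + (1 : ZMod 2) • y = b + (0 : ZMod 2) • y ∧ a + (0 : ZMod 2) • y = b + (1 : ZMod 2) • y := by
    decide
  have hne : φ p ≠ φ q := fun a => hn ⟨φ, Phi.refl (ω := (y, φ)) hφ, a⟩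
  have hsum := k1 _ _ _ hy (hφ.1 p) (hφ.1 q) hp' hq' hne
  refine ⟨hsum, ?_⟩
  have h0 : ∃ X : Finset V, cr s t X p ∧ cr s t X q ∧
      ∀ e, cr s t X e → ¬ cr s t {r} e → e ≠ p → e ≠ q → φ e = y := by
    rcases fe_cyc (s := s) (t := t) (r := r) hpq hp hp' with ⟨c, c1, c2, c3, c4⟩ | ⟨X, x1, x2⟩
    · refine absurd ⟨_, Phi.flip (ω := (y, φ)) hy hφ c1 c2, ?_⟩ hn
      simp only [c3, c4]
      exact (k2 _ _ _ hsum).1
    rcases fe_cyc (s := s) (t := t) (r := r) hpq.symm hq hq' with ⟨c, c1, c2, c3, c4⟩ | ⟨Y, y1, y2⟩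
    · refine absurd ⟨_, Phi.flip (ω := (y, φ)) hy hφ c1 c2, ?_⟩ hn
      simp only [c3, c4]
      exact (k2 _ _ _ hsum).2
    by_cases a : cr s t X q
    · exact ⟨X, x1, a, x2⟩
    by_cases b : cr s t Y p
    · exact ⟨Y, b, y1, fun e e1 e2 e3 e4 => y2 e e1 e2 e4 e3⟩
    refine ⟨symmDiff X Y, (cr_symmDiff _ _ _).2 (by tauto), (cr_symmDiff _ _ _).2 (by tauto),
      fun e e1 e2 e3 e4 => ?_⟩
    rw [cr_symmDiff] at e1
    by_cases c : cr s t X e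
    · exact x2 e c e2 e3 e4
    · exact y2 e (fe_xor e1 c) e2 e4 e3
  have h1 : ∃ X : Finset V, u ∉ X ∧ cr s t X p ∧ cr s t X q ∧
      ∀ e, cr s t X e → ¬ cr s t {r} e → e ≠ p → e ≠ q → φ e = y := by
    obtain ⟨X, x1, x2, x3⟩ := h0
    by_cases a : u ∈ X
    · exact ⟨Xᶜ, fun b => mem_compl.1 b a, (cr_compl s t X p).2 x1, (cr_compl s t X q).2 x2,
        fun e e1 => x3 e ((cr_compl s t X e).1 e1)⟩
    · exact ⟨X, a, x1, x2, x3⟩
  obtain ⟨X, x0, x1, x2, x3⟩ := h1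
  by_cases a : r ∈ X
  · refine ⟨symmDiff X {r}, by simp [Finset.mem_symmDiff, a],
      by simp [Finset.mem_symmDiff, x0, hur], (cr_symmDiff _ _ _).2 (by tauto),
      (cr_symmDiff _ _ _).2 (by tauto), fun e e1 e2 => x3 e ?_ e2⟩
    rw [cr_symmDiff] at e1
    exact fe_xor (fun b => e1 b.symm) e2
  · exact ⟨X, a, x0, x1, x2, x3⟩

/-- The event is forced as soon as every bad cut is excluded. -/
lemma fe_core (hur : u ≠ r) (hpq : p ≠ q) (hp : ¬ cr s t {r} p) (hq : ¬ cr s t {r} q)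
    {y : K} (hy : y ≠ 0) {i : ZMod 5} {c₁ c₂ : E} {φ₀ : E → K} (h1 : Ext s t r π φ₀)
    (h2 : Win s t r A i (y, φ₀)) (h3 : φ₀ c₁ ≠ y) (h4 : φ₀ c₂ ≠ y)
    (hoff : (c₁ = q ∧ (A p = i ∨ A p = i + 1)) ∨ (c₁ = p ∧ (A q = i ∨ A q = i + 1)))
    (hbad : ∀ φ X, Ext s t r π φ → φ c₂ ≠ y → FeCand s t r u A p q i X → φ p + φ q = y →
      (∀ e, cr s t X e → ¬ cr s t {r} e → e ≠ p → e ≠ q → φ e = y) → False) :
    Forced s t r A π (EqF s t r p q) := by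
  refine ⟨y, i, c₁, c₂, φ₀, hy, h1, h2, fun φ f1 f2 f3 f4 => ?_⟩
  have g3 : φ c₁ ≠ y := fun a => h3 (f3.1 a)
  have g4 : φ c₂ ≠ y := fun a => h4 (f4.1 a)
  have g5 : φ p ≠ y ∧ φ q ≠ y := by
    rcases hoff with ⟨rfl, a⟩ | ⟨rfl, a⟩
    · exact ⟨f2 p hp a, g3⟩
    · exact ⟨g3, f2 q hq a⟩
  by_contra hn
  obtain ⟨b1, X, x1, x2, x3, x4, x5⟩ := fe_bad hur hy f1.1 hpq hp hq g5.1 g5.2 hn
  refine hbad φ X f1 g4 ⟨x1, x2, x3, x4, fun e e1 e2 e3 e4 => ?_⟩ b1 x5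
  have := x5 e e1 e2 e3 e4
  exact ⟨fun a => f2 e e2 (Or.inl a) this, fun a => f2 e e2 (Or.inr a) this⟩

/-- An edge of the candidate cut that can be kept off the colour class kills it. -/
lemma fe_kill (h : Core s t (insert r U) U r) (hA : Cyc s t U r A) (hu : u ∈ U) (hpq : p ≠ q)
    (hp : ¬ cr s t {r} p) (hq : ¬ cr s t {r} q) {y : K} (hy : y ≠ 0) {i : ZMod 5} {c₁ c₂ : E}
    {φ₀ : E → K} (h1 : Ext s t r π φ₀) (h2 : Win s t r A i (y, φ₀)) (h3 : φ₀ c₁ ≠ y)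
    (h4 : φ₀ c₂ ≠ y)
    (hoff : (c₁ = q ∧ (A p = i ∨ A p = i + 1)) ∨ (c₁ = p ∧ (A q = i ∨ A q = i + 1)))
    {X : Finset V} (hX : FeCand s t r u A p q i X)
    (hc : cr s t X c₂ ∧ ¬ cr s t {r} c₂ ∧ c₂ ≠ p ∧ c₂ ≠ q) :
    Forced s t r A π (EqF s t r p q) :=
  fe_core (u := u) (fun a => h.rU (a ▸ hu)) hpq hp hq hy h1 h2 h3 h4 hoff
    fun _ _ _ g hY _ b =>
      g (b c₂ ((fe_unique h hA hu hX hY c₂).1 hc.1) hc.2.1 hc.2.2.1 hc.2.2.2)

/-- A flow that avoids `y` outside the pair `j, j + 1`. -/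
lemma fe_pre (h : Core s t (insert r U) U r) (hA : Cyc s t U r A) (hπ : Valid s t r π) {y : K}
    (hy : y ≠ 0) (i j : ZMod 5) (hij : ∀ x, x = j ∨ x = j + 1 → x ≠ i ∧ x ≠ i + 1) :
    ∃ φ, Ext s t r π φ ∧ Win s t r A i (y, φ) ∧
      ∀ e, ¬ cr s t {r} e → A e ≠ j → A e ≠ j + 1 → φ e ≠ y := by
  obtain ⟨φ, f1, f2, f3⟩ := prescribe h hA hπ hy i (fun e => A e = j ∨ A e = j + 1)
    (fun _ => False) fun X hX => by
      obtain ⟨e, e1, e2, e3⟩ := hA j X hX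
      exact ⟨e, e1, e2, e3, hij _ e3⟩
  refine ⟨φ, f1, f2, fun e e1 e2 e3 => ?_⟩
  by_cases a : A e = i ∨ A e = i + 1
  · exact f2 e e1 a
  · exact (f3 e e1 (by tauto) (by tauto) (by tauto)).1

/-- Two far edges: one of them can be kept off the colour class together with `f`. -/
lemma fe_twofar (h : Core s t (insert r U) U r) (hA : Cyc s t U r A) (hπ : Valid s t r π) {y : K}
    (hy : y ≠ 0) (i j k : ZMod 5) (hij : ∀ x, x = j ∨ x = j + 1 → x ≠ i ∧ x ≠ i + 1)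
    (hik : ∀ x, x = k ∨ x = k + 1 → x ≠ i ∧ x ≠ i + 1) {f c c' : E} (hf : ¬ cr s t {r} f)
    (hc : ¬ cr s t {r} c) (hc' : ¬ cr s t {r} c') (hcc : c ≠ c') (hcf : c ≠ f)
    (hA' : A c' = A c) (hci : A c ≠ i ∧ A c ≠ i + 1) (hcj : A c ≠ j ∧ A c ≠ j + 1)
    (hfk : A f ≠ k ∧ A f ≠ k + 1) :
    ∃ φ, Ext s t r π φ ∧ Win s t r A i (y, φ) ∧ φ f ≠ y ∧ (φ c ≠ y ∨ φ c' ≠ y) := by
  have key : ∀ b : E, ¬ cr s t {r} b → A b = A c →
      (∃ φ, Ext s t r π φ ∧ Win s t r A i (y, φ) ∧ φ f ≠ y ∧ φ b ≠ y) ∨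
      ∃ Y, cr s t Y b ∧ cr s t Y f ∧
        ∀ e, cr s t Y e → ¬ cr s t {r} e → A e ≠ i → A e ≠ i + 1 → e = f ∨ e = b := by
    intro b hb hAb
    by_cases hD : ∀ X, Sep U X →
        ∃ e, cr s t X e ∧ ¬ cr s t {r} e ∧ (e ≠ f ∧ e ≠ b) ∧ A e ≠ i ∧ A e ≠ i + 1
    · left
      obtain ⟨φ, f1, f2, f3⟩ := prescribe h hA hπ hy i (fun e => e ≠ f ∧ e ≠ b)
        (fun _ => False) hD
      have : ∀ e, ¬ cr s t {r} e → e = f ∨ e = b → φ e ≠ y := by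
        intro e e1 e2
        by_cases a : A e = i ∨ A e = i + 1
        · exact f2 e e1 a
        · exact (f3 e e1 (by tauto) (by tauto) (by tauto)).1
      exact ⟨φ, f1, f2, this f hf (Or.inl rfl), this b hb (Or.inr rfl)⟩
    · right
      push Not at hD
      obtain ⟨Y, y1, y2⟩ := hD
      have y3 : ∀ e, cr s t Y e → ¬ cr s t {r} e → A e ≠ i → A e ≠ i + 1 → e = f ∨ e = b := by
        intro e e1 e2 e3 e4
        by_contra e5
        exact e4 (y2 e e1 e2 (by tauto) e3)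
      refine ⟨Y, ?_, ?_, y3⟩
      · obtain ⟨e, e1, e2, e3⟩ := hA k Y y1
        rcases y3 e e1 e2 (hik _ e3).1 (hik _ e3).2 with rfl | rfl
        · tauto
        · exact e1
      · obtain ⟨e, e1, e2, e3⟩ := hA j Y y1
        rcases y3 e e1 e2 (hij _ e3).1 (hij _ e3).2 with rfl | rfl
        · exact e1
        · rw [hAb] at e3; tauto
  rcases key c hc rfl with ⟨φ, f1, f2, f3, f4⟩ | ⟨Y, y1, y2, y3⟩
  · exact ⟨φ, f1, f2, f3, Or.inl f4⟩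
  rcases key c' hc' hA' with ⟨φ, f1, f2, f3, f4⟩ | ⟨Z, z1, z2, z3⟩
  · exact ⟨φ, f1, f2, f3, Or.inr f4⟩
  exfalso
  have h1 : cr s t (symmDiff Y Z) c := by
    refine (cr_symmDiff _ _ _).2 fun a => ?_
    rcases z3 c (a.1 y1) hc hci.1 hci.2 with b | b
    exacts [hcf b, hcc b]
  obtain ⟨e, e1, e2, e3⟩ := hA j _ (fe_sep h h1 hc)
  rw [cr_symmDiff] at e1
  have ef : e ≠ f := by rintro rfl; exact e1 (iff_of_true y2 z2)
  by_cases a : cr s t Y e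
  · rcases y3 e a e2 (hij _ e3).1 (hij _ e3).2 with b | rfl
    · exact ef b
    · tauto
  · rcases z3 e (fe_xor e1 a) e2 (hij _ e3).1 (hij _ e3).2 with b | rfl
    · exact ef b
    · rw [hA'] at e3; tauto

lemma fe_sum {M : Type} [AddCommMonoid M] (hpq : p ≠ q) (hp : ¬ cr s t {r} p)
    (hq : ¬ cr s t {r} q) {X : Finset V} (h1 : cr s t X p) (h2 : cr s t X q) (φ : E → M) :
    cs s t φ X = φ p + φ q +
      ∑ e ∈ univ.filter (fun e => cr s t X e ∧ ¬ cr s t {r} e ∧ e ≠ p ∧ e ≠ q), φ e +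
      ∑ e ∈ univ.filter (fun e => cr s t X e ∧ cr s t {r} e), φ e := by
  have a1 : φ p = ∑ e, if e = p then φ e else 0 := by simp
  have a2 : φ q = ∑ e, if e = q then φ e else 0 := by simp
  rw [a1, a2, Finset.sum_filter, Finset.sum_filter, cs]
  simp only [← Finset.sum_add_distrib]
  refine Finset.sum_congr rfl fun e _ => ?_
  by_cases b1 : e = p
  · subst b1; simp [h1, hp, hpq]
  by_cases b2 : e = q
  · subst b2; simp [h2, hq, b1]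
  by_cases b3 : cr s t X e <;> by_cases b4 : cr s t {r} e <;> simp [b1, b2, b3, b4]

lemma fe_count (h : Core s t (insert r U) U r) (hpq : p ≠ q) (hp : ¬ cr s t {r} p)
    (hq : ¬ cr s t {r} q) {X : Finset V} (h1 : cr s t X p) (h2 : cr s t X q) :
    3 ≤ (univ.filter (fun e => cr s t X e ∧ ¬ cr s t {r} e ∧ e ≠ p ∧ e ≠ q)).card +
      (univ.filter (fun e => cr s t X e ∧ cr s t {r} e)).card ∧
    (univ.filter (fun e => cr s t X e ∧ cr s t {r} e)).card ≤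
      (univ.filter (fun e => cr s t X e ∧ ¬ cr s t {r} e ∧ e ≠ p ∧ e ≠ q)).card + 1 := by
  have hd : ∀ Y : Finset V, d s t Y = cs s t (fun _ => (1 : ℕ)) Y := fun Y => by
    rw [d, Finset.card_filter, cs]
  have a1 := h.cut5 X (fe_sep h h1 hp)
  have b1 : cr s t (symmDiff X {r}) p := (cr_symmDiff _ _ _).2 (by tauto)
  have a2 := h.cut5 _ (fe_sep h b1 hp)
  have a3 := h.d4 r (mem_insert_self _ _) h.rU
  have a4 : d s t (symmDiff X {r}) + 2 * (univ.filter (fun e => cr s t X e ∧ cr s t {r} e)).card =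
      d s t X + d s t {r} := by
    unfold d
    simp only [Finset.card_filter]
    rw [Finset.mul_sum, ← Finset.sum_add_distrib, ← Finset.sum_add_distrib]
    refine Finset.sum_congr rfl fun e _ => ?_
    simp only [cr_symmDiff]
    by_cases b3 : cr s t X e <;> by_cases b4 : cr s t {r} e <;> simp [b3, b4]
  have a5 := fe_sum hpq hp hq h1 h2 (fun _ => (1 : ℕ))
  rw [← hd] at a5
  simp only [Finset.sum_const, smul_eq_mul, mul_one] at a5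
  omega

end Aux

theorem forced_eq (h : Core s t (insert r U) U r) {A : E → ZMod 5} (hA : Cyc s t U r A) {p q : E}
    (hp : ¬ cr s t {r} p) (hq : ¬ cr s t {r} q) (hpq : A q = A p + 1 ∨ A q = A p + 2) :
    (∀ π, Valid s t r π → Forced s t r A π (EqF s t r p q)) ∨
      ∃ g g', cr s t {r} g ∧ cr s t {r} g' ∧ g ≠ g' ∧
        ∀ π, Valid s t r π → π g ≠ π g' → Forced s t r A π (EqF s t r p q) := by
  obtain ⟨u, hu⟩ := h.Une
  have hur : u ≠ r := fun a => h.rU (a ▸ hu)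
  have z0 : ∀ a b : ZMod 5, b = a + 1 ∨ b = a + 2 → a ≠ b ∧ b ≠ a + 3 ∧ b ≠ a + 3 + 1 := by decide
  have z3 : ∀ a x : ZMod 5, x = a + 3 ∨ x = a + 3 + 1 → x ≠ a ∧ x ≠ a + 1 := by decide
  have z2 : ∀ a x : ZMod 5, x = a + 2 ∨ x = a + 2 + 1 → x ≠ a ∧ x ≠ a + 1 := by decide
  obtain ⟨n0, n3, n4⟩ := z0 _ _ hpq
  have hne : p ≠ q := fun a => n0 (by rw [a])
  have hy1 : ((1, 0) : K) ≠ 0 := by decide
  have off : (q = q ∧ (A p = A p ∨ A p = A p + 1)) ∨ (q = p ∧ (A q = A p ∨ A q = A p + 1)) :=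
    Or.inl ⟨rfl, Or.inl rfl⟩
  by_cases hex : ∃ X, FeCand s t r u A p q (A p) X
  swap
  · refine Or.inl fun π hπ => ?_
    obtain ⟨φ, f1, f2, f3⟩ := fe_pre h hA hπ hy1 (A p) (A p + 3) (z3 _)
    exact fe_core hur hne hp hq hy1 f1 f2 (f3 q hq n3 n4) (f3 q hq n3 n4) off
      fun _ X _ _ hX _ _ => hex ⟨X, hX⟩
  obtain ⟨X, hX⟩ := hex
  set C := univ.filter (fun e => cr s t X e ∧ ¬ cr s t {r} e ∧ e ≠ p ∧ e ≠ q) with hC
  set R := univ.filter (fun e => cr s t X e ∧ cr s t {r} e) with hR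
  have memC : ∀ e, e ∈ C ↔ cr s t X e ∧ ¬ cr s t {r} e ∧ e ≠ p ∧ e ≠ q := fun e => by simp [hC]
  have memR : ∀ e, e ∈ R ↔ cr s t X e ∧ cr s t {r} e := fun e => by simp [hR]
  have hcl : ∀ e ∈ C, A e ≠ A p ∧ A e ≠ A p + 1 := fun e he => by
    obtain ⟨a, b, c, c'⟩ := (memC e).1 he
    exact hX.2.2.2.2 e a b c c'
  -- small candidate cuts
  have small : ∀ π y, Valid s t r π → y ≠ 0 → y + C.card • y + ∑ e ∈ R, π e ≠ 0 →
      Forced s t r A π (EqF s t r p q) := by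
    intro π y hπ hy hs
    obtain ⟨φ₀, f1, f2, f3⟩ := fe_pre h hA hπ hy (A p) (A p + 3) (z3 _)
    refine fe_core hur hne hp hq hy f1 f2 (f3 q hq n3 n4) (f3 q hq n3 n4) off
      fun φ Y g1 _ hY g2 g3 => hs ?_
    have e1 := fe_sum hne hp hq hX.2.2.1 hX.2.2.2.1 φ
    rw [g1.1.2, g2, ← hC, ← hR] at e1
    have e2 : ∑ e ∈ C, φ e = C.card • y := by
      rw [← Finset.sum_const]
      refine Finset.sum_congr rfl fun e he => ?_
      obtain ⟨a, b, c, c'⟩ := (memC e).1 he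
      exact g3 e ((fe_unique h hA hu hX hY e).1 a) b c c'
    have e3 : ∑ e ∈ R, φ e = ∑ e ∈ R, π e :=
      Finset.sum_congr rfl fun e he => g1.2 e ((memR e).1 he).2
    rw [e2, e3] at e1
    exact e1.symm
  obtain ⟨k1, k2⟩ := fe_count h hne hp hq hX.2.2.1 hX.2.2.2.1
  rw [← hC, ← hR] at k1 k2
  by_cases c1 : C.card ≤ 1
  · have c2 : C.card = 1 := by omega
    have c3 : R.card = 2 := by omega
    obtain ⟨g, g', g1, g2⟩ := Finset.card_eq_two.1 c3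
    refine Or.inr ⟨g, g', ((memR g).1 (by simp [g2])).2, ((memR g').1 (by simp [g2])).2, g1,
      fun π hπ hg => small π _ hπ hy1 ?_⟩
    have k : ∀ a b : K, a ≠ b → ((1, 0) : K) + (1, 0) + (a + b) ≠ 0 := by decide
    rw [c2, g2, Finset.sum_pair g1, one_smul]
    exact k _ _ hg
  refine Or.inl fun π hπ => ?_
  by_cases c2 : C.card = 2
  · have k : ∀ a : K, ∃ y : K, y ≠ 0 ∧ y + (y + y) + a ≠ 0 := by decide
    obtain ⟨y, y1, y2⟩ := k (∑ e ∈ R, π e)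
    refine small π y hπ y1 ?_
    rw [c2, two_smul]
    exact y2
  by_cases m2 : ∃ c ∈ C, A c = A p + 2
  · obtain ⟨c, c3, c4⟩ := m2
    obtain ⟨φ, f1, f2, f3⟩ := fe_pre h hA hπ hy1 (A p) (A p + 3) (z3 _)
    have := z0 _ _ (Or.inr c4)
    exact fe_kill h hA hu hne hp hq hy1 f1 f2 (f3 q hq n3 n4)
      (f3 c ((memC c).1 c3).2.1 this.2.1 this.2.2) off hX ((memC c).1 c3)
  push Not at m2
  have hcl' : ∀ e ∈ C, A e = A p + 3 ∨ A e = A p + 4 := fun e he => by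
    have k : ∀ a x : ZMod 5, x ≠ a → x ≠ a + 1 → x ≠ a + 2 → x = a + 3 ∨ x = a + 4 := by decide
    exact k _ _ (hcl e he).1 (hcl e he).2 (m2 e he)
  -- the use of two far edges
  have far : ∀ (i j k : ZMod 5) (f c c' : E), (∀ x, x = j ∨ x = j + 1 → x ≠ i ∧ x ≠ i + 1) →
      (∀ x, x = k ∨ x = k + 1 → x ≠ i ∧ x ≠ i + 1) → c ∈ C → c' ∈ C → c ≠ c' → A c' = A c →
      (A c ≠ j ∧ A c ≠ j + 1) → (A f ≠ k ∧ A f ≠ k + 1) →
      ((f = q ∧ (A p = i ∨ A p = i + 1)) ∨ (f = p ∧ (A q = i ∨ A q = i + 1))) →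
      (∀ e ∈ C, A e ≠ i ∧ A e ≠ i + 1) → Forced s t r A π (EqF s t r p q) := by
    intro i j k f c c' a1 a2 a3 a4 a5 a6 a7 a8 a9 a10
    have hY : FeCand s t r u A p q i X := ⟨hX.1, hX.2.1, hX.2.2.1, hX.2.2.2.1,
      fun e e1 e2 e3 e4 => a10 e ((memC e).2 ⟨e1, e2, e3, e4⟩)⟩
    have b3 := (memC c).1 a3
    have b4 := (memC c').1 a4
    have hf : ¬ cr s t {r} f ∧ c ≠ f := by
      rcases a9 with ⟨rfl, -⟩ | ⟨rfl, -⟩
      exacts [⟨hq, b3.2.2.2⟩, ⟨hp, b3.2.2.1⟩]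
    obtain ⟨φ, f1, f2, f3, f4 | f4⟩ := fe_twofar h hA hπ hy1 i j k a1 a2 hf.1 b3.2.1 b4.2.1 a5 hf.2
      a6 (a10 c a3) a7 a8
    · exact fe_kill h hA hu hne hp hq hy1 f1 f2 f3 f4 a9 hY b3
    · exact fe_kill h hA hu hne hp hq hy1 f1 f2 f3 f4 a9 hY b4
  by_cases m4 : ∃ c ∈ C, ∃ c' ∈ C, c ≠ c' ∧ A c = A p + 4 ∧ A c' = A p + 4
  · obtain ⟨c, a1, c', a2, a3, a4, a5⟩ := m4
    have k : ∀ a : ZMod 5, a + 4 ≠ a + 2 ∧ a + 4 ≠ a + 2 + 1 := by decide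
    exact far (A p) (A p + 2) (A p + 3) q c c' (z2 _) (z3 _) a1 a2 a3 (a5.trans a4.symm)
      (by rw [a4]; exact k _) ⟨n3, n4⟩ off hcl
  have m3 : ∃ c ∈ C, ∃ c' ∈ C, c ≠ c' ∧ A c = A p + 3 ∧ A c' = A p + 3 := by
    obtain ⟨a, b, c, ha, hb, hc, ab, ac, bc⟩ := Finset.two_lt_card_iff.1 (show 2 < C.card by omega)
    rcases hcl' a ha with a' | a' <;> rcases hcl' b hb with b' | b' <;>
      rcases hcl' c hc with c' | c'
    · exact ⟨a, ha, b, hb, ab, a', b'⟩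
    · exact ⟨a, ha, b, hb, ab, a', b'⟩
    · exact ⟨a, ha, c, hc, ac, a', c'⟩
    · exact absurd ⟨b, hb, c, hc, bc, b', c'⟩ m4
    · exact ⟨b, hb, c, hc, bc, b', c'⟩
    · exact absurd ⟨a, ha, c, hc, ac, a', c'⟩ m4
    · exact absurd ⟨a, ha, b, hb, ab, a', b'⟩ m4
    · exact absurd ⟨a, ha, b, hb, ab, a', b'⟩ m4
  obtain ⟨c, a1, c', a2, a3, a4, a5⟩ := m3
  rcases hpq with hq1 | hq2
  · by_cases m : ∃ b ∈ C, A b = A p + 4
    · obtain ⟨b, b1, b2⟩ := m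
      obtain ⟨φ, f1, f2, f3⟩ := fe_pre h hA hπ hy1 (A p) (A p + 2) (z2 _)
      have k : ∀ a : ZMod 5, a + 4 ≠ a + 2 ∧ a + 4 ≠ a + 2 + 1 := by decide
      exact fe_kill h hA hu hne hp hq hy1 f1 f2 (f2 q hq (Or.inr hq1))
        (f3 b ((memC b).1 b1).2.1 (by rw [b2]; exact (k _).1) (by rw [b2]; exact (k _).2))
        off hX ((memC b).1 b1)
    · push Not at m
      have k1 : ∀ a x : ZMod 5, x = a + 1 ∨ x = a + 1 + 1 → x ≠ a + 4 ∧ x ≠ a + 4 + 1 := by decide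
      have k2 : ∀ a x : ZMod 5, x = a + 2 ∨ x = a + 2 + 1 → x ≠ a + 4 ∧ x ≠ a + 4 + 1 := by decide
      have k3 : ∀ a : ZMod 5, (a + 3 ≠ a + 1 ∧ a + 3 ≠ a + 1 + 1) ∧
          (a + 1 ≠ a + 2 ∧ a + 1 ≠ a + 2 + 1) ∧ a = a + 4 + 1 ∧
          (a + 3 ≠ a + 4 ∧ a + 3 ≠ a + 4 + 1) := by decide
      refine far (A p + 4) (A p + 1) (A p + 2) q c c' (k1 _) (k2 _) a1 a2 a3 (a5.trans a4.symm)
        (by rw [a4]; exact (k3 _).1) (by rw [hq1]; exact (k3 _).2.1)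
        (Or.inl ⟨rfl, Or.inr (k3 _).2.2.1⟩) fun e he => ?_
      rw [(hcl' e he).resolve_right (m e he)]
      exact (k3 _).2.2.2
  · have k1 : ∀ a x : ZMod 5, x = a + 4 ∨ x = a + 4 + 1 → x ≠ a + 1 ∧ x ≠ a + 1 + 1 := by decide
    have k2 : ∀ a x : ZMod 5, x = a + 3 ∨ x = a + 3 + 1 → x ≠ a + 1 ∧ x ≠ a + 1 + 1 := by decide
    have k3 : ∀ a : ZMod 5, (a + 3 ≠ a + 4 ∧ a + 3 ≠ a + 4 + 1) ∧
        (a ≠ a + 3 ∧ a ≠ a + 3 + 1) ∧ a + 2 = a + 1 + 1 := by decide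
    have k4 : ∀ a x : ZMod 5, x = a + 3 ∨ x = a + 4 → x ≠ a + 1 ∧ x ≠ a + 1 + 1 := by decide
    exact far (A p + 1) (A p + 4) (A p + 3) p c c' (k1 _) (k2 _) a1 a2 a3 (a5.trans a4.symm)
      (by rw [a4]; exact (k3 _).1) (k3 _).2.1
      (Or.inr ⟨rfl, Or.inr (hq2.trans (k3 _).2.2)⟩) fun e he => k4 _ _ (hcl' e he)

end Pool.Agent.Lib.MP_a48b5a_co.U5
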