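import Pool.Agent.Lib.MP_a48b5a_co.U5Basic

/-!
# Cyclic partition of the non-root edges
-/

set_option autoImplicit false
set_option linter.unusedSectionVars false

namespace Pool.Agent.Lib.MP_a48b5a_co.U5

open Finset

variable {V E : Type} [Fintype V] [DecidableEq V] [Fintype E] [DecidableEq E]
variable {s t : E → V} {W U : Finset V} {r : V}

/-- The window `x` of the labelling `A`. -/
def cyWin (s t : E → V) (r : V) (A : E → ZMod 5) (x : ZMod 5) (e : E) : Prop :=
  ¬ cr s t {r} e ∧ (A e = x ∨ A e = x + 1)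

/-- The edge `e` is spanned by the edges in `D`. -/
def cySpan (s t : E → V) (D : E → Prop) (e : E) : Prop :=
  ∀ X : Finset V, cr s t X e → ∃ e', cr s t X e' ∧ D e'

/-- The edge `e` joins two components of the window it would enter. -/
def cyPush (s t : E → V) (r : V) (A : E → ZMod 5) (e : E) : Prop :=
  ¬ cr s t {r} e ∧ ¬ cySpan s t (cyWin s t r A (A e + 1)) e

def cyStep (s t : E → V) (r : V) (A A' : E → ZMod 5) : Prop :=
  ∃ e, cyPush s t r A e ∧ A' = Function.update A e (A e + 1)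

/-- A finite relation has a state to which every reachable state returns. -/
lemma cy_terminal {α : Type} [Fintype α] [Nonempty α] (R : α → α → Prop) :
    ∃ a, ∀ b, Relation.ReflTransGen R a b → Relation.ReflTransGen R b a := by
  classical
  obtain ⟨a, -, ha⟩ := Finset.exists_min_image (univ : Finset α)
    (fun a => (univ.filter fun b => Relation.ReflTransGen R a b).card) univ_nonempty
  refine ⟨a, fun b hb => ?_⟩
  have hsub : (univ.filter fun c => Relation.ReflTransGen R b c) ⊆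
      univ.filter fun c => Relation.ReflTransGen R a c := fun c hc =>
    mem_filter.2 ⟨mem_univ _, hb.trans (mem_filter.1 hc).2⟩
  have heq := Finset.eq_of_subset_of_card_le hsub (ha b (mem_univ b))
  have : a ∈ univ.filter fun c => Relation.ReflTransGen R b c := by
    rw [heq]
    exact mem_filter.2 ⟨mem_univ _, Relation.ReflTransGen.refl⟩
  exact (mem_filter.1 this).2

lemma cy_exists_of_cs {c : E → ZMod 2} {X : Finset V} (h : cs s t c X ≠ 0) :
    ∃ e, cr s t X e ∧ c e ≠ 0 := by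
  by_contra hc
  refine h (Finset.sum_eq_zero fun e _ => ?_)
  split_ifs with h1
  · by_contra h2
    exact hc ⟨e, h1, h2⟩
  · rfl

lemma cy_cs_eq {c : E → ZMod 2} {X : Finset V} {e : E} (he : cr s t X e)
    (h : ∀ e', e' ≠ e → cr s t X e' → c e' = 0) : cs s t c X = c e := by
  unfold cs
  rw [Finset.sum_eq_single e, if_pos he]
  · intro b _ hb
    split_ifs with h1
    exacts [h b hb h1, rfl]
  · simp

/-- A push creates no cycle. -/
lemma cy_step_back {A A' : E → ZMod 5} (hs : cyStep s t r A A') {x : ZMod 5} {G : E → Prop}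
    (hG : ∀ e, G e → cySpan s t (cyWin s t r A x) e) {c : E → ZMod 2}
    (hc : ∀ X, cs s t c X = 0) (h : ∀ e, c e ≠ 0 → cyWin s t r A' x e ∨ G e) :
    ∀ e, c e ≠ 0 → cyWin s t r A x e ∨ G e := by
  obtain ⟨f, ⟨hf1, hf2⟩, rfl⟩ := hs
  have hne : ∀ e, e ≠ f → cyWin s t r (Function.update A f (A f + 1)) x e →
      cyWin s t r A x e := fun e he hw => by
    unfold cyWin at hw ⊢
    rwa [Function.update_of_ne he] at hw
  intro e he
  rcases h e he with h1 | h1
  swap
  · exact Or.inr h1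
  by_cases hef : e = f
  swap
  · exact Or.inl (hne e hef h1)
  subst hef
  obtain ⟨-, h2⟩ := h1
  rw [Function.update_self] at h2
  rcases h2 with h2 | h2
  swap
  · exact Or.inl ⟨hf1, Or.inl (add_right_cancel h2)⟩
  exfalso
  refine hf2 fun X hX => ?_
  by_contra hno
  refine he ((cy_cs_eq hX fun e' he' hX' => ?_).symm.trans (hc X))
  by_contra h3
  rcases h e' h3 with h4 | h4
  · exact hno ⟨e', hX', h2 ▸ hne e' he' h4⟩
  · obtain ⟨e'', h5, h6⟩ := hG e' h4 X hX'
    exact hno ⟨e'', h5, h2 ▸ h6⟩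

section Terminal

variable {A₀ : E → ZMod 5}

/-- The edge is pushed in some state reachable from `A₀`. -/
def cyMoved (s t : E → V) (r : V) (A₀ : E → ZMod 5) (e : E) : Prop :=
  ∃ A, Relation.ReflTransGen (cyStep s t r) A₀ A ∧ cyPush s t r A e

lemma cy_fixed {b : E} (hb : ¬ cyMoved s t r A₀ b) {A : E → ZMod 5}
    (hA : Relation.ReflTransGen (cyStep s t r) A₀ A) : A b = A₀ b := by
  induction hA with
  | refl => rfl
  | tail h1 h2 ih =>
    obtain ⟨f, hf, rfl⟩ := h2
    have : b ≠ f := fun h => hb ⟨_, h1, h ▸ hf⟩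
    rw [Function.update_of_ne this, ih]

lemma cy_succ
    (hT : ∀ A, Relation.ReflTransGen (cyStep s t r) A₀ A →
      Relation.ReflTransGen (cyStep s t r) A A₀)
    {e : E} (he : cyMoved s t r A₀ e) {A : E → ZMod 5}
    (hA : Relation.ReflTransGen (cyStep s t r) A₀ A) :
    ∃ A', Relation.ReflTransGen (cyStep s t r) A₀ A' ∧ A' e = A e + 1 := by
  by_contra hno
  have hall : ∀ A', Relation.ReflTransGen (cyStep s t r) A A' → A' e = A e := by
    intro A' h
    induction h with
    | refl => rfl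
    | tail h1 h2 ih =>
      have h3 := (hA.trans h1).tail h2
      obtain ⟨f, hf, rfl⟩ := h2
      by_cases hef : e = f
      · subst hef
        exact absurd ⟨_, h3, by rw [Function.update_self, ih]⟩ hno
      · rw [Function.update_of_ne hef, ih]
  obtain ⟨A₂, h1, h2⟩ := he
  refine hno ⟨_, h1.tail ⟨e, h2, rfl⟩, ?_⟩
  rw [Function.update_self, hall A₂ ((hT A hA).trans h1)]

lemma cy_leaves
    (hT : ∀ A, Relation.ReflTransGen (cyStep s t r) A₀ A →
      Relation.ReflTransGen (cyStep s t r) A A₀)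
    {e : E} (he : cyMoved s t r A₀ e) (x : ZMod 5) :
    ∃ A, Relation.ReflTransGen (cyStep s t r) A₀ A ∧ ¬ cyWin s t r A x e := by
  obtain ⟨A₁, h1, k1⟩ := cy_succ hT he Relation.ReflTransGen.refl
  obtain ⟨A₂, h2, k2⟩ := cy_succ hT he h1
  have key : ∀ a x : ZMod 5, ¬ (a = x ∨ a = x + 1) ∨ ¬ (a + 1 = x ∨ a + 1 = x + 1) ∨
      ¬ (a + 1 + 1 = x ∨ a + 1 + 1 = x + 1) := by decide
  rcases key (A₀ e) x with h | h | h
  · exact ⟨A₀, Relation.ReflTransGen.refl, fun hw => h hw.2⟩
  · exact ⟨A₁, h1, fun hw => h (k1 ▸ hw.2)⟩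
  · exact ⟨A₂, h2, fun hw => h (k1 ▸ k2 ▸ hw.2)⟩

/-- Cycles of a window of the terminal state avoid the moved edges. -/
lemma cy_cycle
    (hT : ∀ A, Relation.ReflTransGen (cyStep s t r) A₀ A →
      Relation.ReflTransGen (cyStep s t r) A A₀)
    {x : ZMod 5} {G : E → Prop}
    (hG : ∀ A, Relation.ReflTransGen (cyStep s t r) A₀ A →
      ∀ e, G e → cySpan s t (cyWin s t r A x) e)
    {c : E → ZMod 2} (hc : ∀ X, cs s t c X = 0)
    (h : ∀ e, c e ≠ 0 → cyWin s t r A₀ x e ∨ G e) {e : E} (he : cyMoved s t r A₀ e)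
    (hGe : ¬ G e) : c e = 0 := by
  obtain ⟨A, hA, hw⟩ := cy_leaves hT he x
  have key : ∀ A', Relation.ReflTransGen (cyStep s t r) A A' →
      (∀ e, c e ≠ 0 → cyWin s t r A' x e ∨ G e) → ∀ e, c e ≠ 0 → cyWin s t r A x e ∨ G e := by
    intro A' h1
    induction h1 with
    | refl => exact id
    | tail h2 h3 ih => exact fun h4 => ih (cy_step_back h3 (hG _ (hA.trans h2)) hc h4)
  by_contra hne
  rcases key A₀ (hT A hA) h e hne with h1 | h1
  exacts [hw h1, hGe h1]

lemma cy_span_next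
    (hT : ∀ A, Relation.ReflTransGen (cyStep s t r) A₀ A →
      Relation.ReflTransGen (cyStep s t r) A A₀)
    {b : E} (hr : ¬ cr s t {r} b) (hb : ¬ cyMoved s t r A₀ b) :
    cySpan s t (fun e => cyWin s t r A₀ (A₀ b + 1) e ∧ ¬ cyMoved s t r A₀ e) b := by
  have hsp : ∀ A, Relation.ReflTransGen (cyStep s t r) A₀ A →
      cySpan s t (cyWin s t r A (A₀ b + 1)) b := fun A hA => by
    by_contra hno
    exact hb ⟨A, hA, hr, by rwa [cy_fixed hb hA]⟩
  obtain ⟨c, hc1, hc2⟩ := exists_path (s := s) (t := t) (cyWin s t r A₀ (A₀ b + 1)) (s b) (t b)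
    fun X h1 h2 => hsp A₀ Relation.ReflTransGen.refl X fun h => h2 (h.1 h1)
  have hcyc : ∀ X, cs s t (c + fun e => if e = b then 1 else 0) X = 0 := fun X => by
    rw [cs_add, hc2, cs_single]
    unfold cr
    by_cases h1 : s b ∈ X <;> by_cases h2 : t b ∈ X <;> simp [h1, h2, Z2_add_self]
  intro X hX
  have hne : cs s t c X ≠ 0 := by
    rw [hc2]
    unfold cr at hX
    by_cases h1 : s b ∈ X <;> by_cases h2 : t b ∈ X <;> simp_all
  obtain ⟨e, he1, he2⟩ := cy_exists_of_cs hne
  have hw : cyWin s t r A₀ (A₀ b + 1) e := by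
    by_contra h
    exact he2 (hc1 e h)
  refine ⟨e, he1, hw, fun hm => he2 ?_⟩
  have heb : e ≠ b := fun h => hb (h ▸ hm)
  have := cy_cycle hT (x := A₀ b + 1) (G := fun e => e = b)
    (fun A hA e h => h ▸ hsp A hA) hcyc (fun e' h => by
      by_cases h1 : e' = b
      · exact Or.inr h1
      · refine Or.inl ?_
        by_contra h2
        exact h (by simp [h1, hc1 e' h2])) hm heb
  simpa [heb] using this

lemma cy_span_all
    (hT : ∀ A, Relation.ReflTransGen (cyStep s t r) A₀ A →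
      Relation.ReflTransGen (cyStep s t r) A A₀)
    (x : ZMod 5) {b : E} (hr : ¬ cr s t {r} b) (hb : ¬ cyMoved s t r A₀ b) :
    cySpan s t (fun e => cyWin s t r A₀ x e ∧ ¬ cyMoved s t r A₀ e) b := by
  let Sp : ZMod 5 → Prop := fun a => ∀ b, ¬ cr s t {r} b → ¬ cyMoved s t r A₀ b → A₀ b = a →
    cySpan s t (fun e => cyWin s t r A₀ x e ∧ ¬ cyMoved s t r A₀ e) b
  have h0 : Sp x := fun b h1 h2 h3 X hX => ⟨b, hX, ⟨h1, Or.inl h3⟩, h2⟩
  have h1 : Sp (x + 1) := fun b h1 h2 h3 X hX => ⟨b, hX, ⟨h1, Or.inr h3⟩, h2⟩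
  have hstep : ∀ a, Sp (a + 1) → Sp (a + 1 + 1) → Sp a := fun a k1 k2 b h1 h2 h3 X hX => by
    obtain ⟨e, he, ⟨hw1, hw2⟩, hm⟩ := cy_span_next hT h1 h2 X hX
    rw [h3] at hw2
    rcases hw2 with h4 | h4
    exacts [k1 e hw1 hm h4 X he, k2 e hw1 hm h4 X he]
  have e1 : ∀ x : ZMod 5, x + 4 + 1 = x ∧ x + 3 + 1 = x + 4 ∧ x + 2 + 1 = x + 3 := by decide
  obtain ⟨e4, e3, e2⟩ := e1 x
  have h4 : Sp (x + 4) := hstep _ (by rwa [e4]) (by rwa [e4])
  have h3 : Sp (x + 3) := hstep _ (by rwa [e3]) (by rwa [e3, e4])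
  have h2 : Sp (x + 2) := hstep _ (by rwa [e2]) (by rwa [e2, e3])
  have e5 : ∀ a x : ZMod 5, a = x ∨ a = x + 1 ∨ a = x + 2 ∨ a = x + 3 ∨ a = x + 4 := by decide
  rcases e5 (A₀ b) x with h | h | h | h | h
  exacts [h0 b hr hb h, h1 b hr hb h, h2 b hr hb h, h3 b hr hb h, h4 b hr hb h]

end Terminal

section Count

open Classical in
/-- The component of `u` in the graph of the edges in `B`. -/
noncomputable def cyCls (s t : E → V) (U : Finset V) (B : E → Prop) (u : V) : Finset V :=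
  U.filter fun v => ∀ X : Finset V, (∀ e, cr s t X e → ¬ B e) → (u ∈ X ↔ v ∈ X)

variable {B : E → Prop}

lemma cy_mem_cls {u v : V} : v ∈ cyCls s t U B u ↔
    v ∈ U ∧ ∀ X : Finset V, (∀ e, cr s t X e → ¬ B e) → (u ∈ X ↔ v ∈ X) := by
  unfold cyCls
  simp only [mem_filter]

lemma cy_self_mem {u : V} (hu : u ∈ U) : u ∈ cyCls s t U B u :=
  cy_mem_cls.2 ⟨hu, fun _ _ => Iff.rfl⟩

lemma cy_cls_eq {u v : V} (h : v ∈ cyCls s t U B u) : cyCls s t U B v = cyCls s t U B u := by
  have h1 := (cy_mem_cls.1 h).2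
  ext w
  rw [cy_mem_cls, cy_mem_cls]
  exact and_congr_right fun _ => forall₂_congr fun X hX => by rw [h1 X hX]

lemma cy_ends (h : Core s t (insert r U) U r) {e : E} (hr : ¬ cr s t {r} e) (hne : s e ≠ t e) :
    s e ∈ U ∧ t e ∈ U := by
  obtain ⟨h1, h2⟩ := h.ends e hne
  rw [mem_insert] at h1 h2
  exact ⟨h1.resolve_left fun k => hr (cr_single.2 ⟨hne, Or.inl k⟩),
    h2.resolve_left fun k => hr (cr_single.2 ⟨hne, Or.inr k⟩)⟩

lemma cy_cls_closed (h : Core s t (insert r U) U r) (hB : ∀ e, B e → ¬ cr s t {r} e) (u : V)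
    (e : E) (he : cr s t (cyCls s t U B u) e) : ¬ B e := fun hb => by
  obtain ⟨h1, h2⟩ := cy_ends h (hB e hb) (ne_of_cr he)
  have h3 : ∀ X : Finset V, (∀ e, cr s t X e → ¬ B e) → (s e ∈ X ↔ t e ∈ X) := fun X hX => by
    by_contra h4
    exact hX e h4 hb
  refine he ?_
  rw [cy_mem_cls, cy_mem_cls]
  exact and_congr (iff_of_true h1 h2) (forall₂_congr fun X hX => by rw [h3 X hX])

/-- A chain on non-root edges that is even on all components but one is even on closed sets. -/
lemma cy_even (h : Core s t (insert r U) U r) {c : E → ZMod 2}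
    (hc : ∀ e, c e ≠ 0 → ¬ cr s t {r} e) {u₁ : V}
    (h0 : ∀ X ∈ (U.image (cyCls s t U B)).erase (cyCls s t U B u₁), cs s t c X = 0)
    (Y : Finset V) (hY : ∀ e, cr s t Y e → ¬ B e) : cs s t c Y = 0 := by
  have key : ∀ Y : Finset V, (∀ e, cr s t Y e → ¬ B e) → u₁ ∉ Y → cs s t c Y = 0 := by
    intro Y hY hu
    have h1 : ∑ v ∈ Y.filter (· ∈ U), cs s t c {v} = ∑ v ∈ Y, cs s t c {v} := by
      refine Finset.sum_filter_of_ne fun v _ hv => ?_
      obtain ⟨e, he1, he2⟩ := cy_exists_of_cs hv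
      obtain ⟨k1, k2⟩ := cy_ends h (hc e he2) (ne_of_cr he1)
      rcases (cr_single.1 he1).2 with k | k
      exacts [k ▸ k1, k ▸ k2]
    rw [cs_eq_sum Z2_add_self, ← h1,
      ← Finset.sum_fiberwise_of_maps_to (t := U.image (cyCls s t U B)) (g := cyCls s t U B)
        fun v hv => mem_image_of_mem _ (mem_filter.1 hv).2]
    refine Finset.sum_eq_zero fun X hX => ?_
    rcases ((Y.filter (· ∈ U)).filter fun v => cyCls s t U B v = X).eq_empty_or_nonempty with
      h2 | ⟨v, hv⟩
    · rw [h2, Finset.sum_empty]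
    · obtain ⟨hv1, hv2⟩ := mem_filter.1 hv
      obtain ⟨hv3, hv4⟩ := mem_filter.1 hv1
      have h3 : ((Y.filter (· ∈ U)).filter fun v => cyCls s t U B v = X) = X := by
        ext w
        simp only [mem_filter]
        constructor
        · rintro ⟨⟨-, k1⟩, k2⟩
          exact k2 ▸ cy_self_mem k1
        · intro hw
          rw [← hv2] at hw
          exact ⟨⟨((cy_mem_cls.1 hw).2 Y hY).1 hv3, (cy_mem_cls.1 hw).1⟩,
            (cy_cls_eq hw).trans hv2⟩
      rw [h3, ← cs_eq_sum Z2_add_self]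
      refine h0 X (mem_erase.2 ⟨fun k => hu ?_, hX⟩)
      have k1 : v ∈ cyCls s t U B u₁ := k ▸ hv2 ▸ cy_self_mem hv4
      exact ((cy_mem_cls.1 k1).2 Y hY).2 hv3
  by_cases hu : u₁ ∈ Y
  · rw [← cs_compl]
    exact key Yᶜ (fun e he => hY e ((cr_compl s t Y e).1 he)) fun k => mem_compl.1 k hu
  · exact key Y hY hu

/-- Edges between components that lie on no cycle form a forest. -/
lemma cy_forest (h : Core s t (insert r U) U r) {D : E → Prop} {F : Finset E}
    (hF : ∀ e ∈ F, ¬ cr s t {r} e ∧ ¬ D e) (hD : ∀ e, B e → cySpan s t D e)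
    (hcyc : ∀ c : E → ZMod 2, (∀ X, cs s t c X = 0) → (∀ e, c e ≠ 0 → e ∈ F ∨ D e) →
      ∀ e ∈ F, c e = 0) :
    F.card + 1 ≤ (U.image (cyCls s t U B)).card := by
  obtain ⟨u₁, hu₁⟩ := h.Une
  have hmem : cyCls s t U B u₁ ∈ U.image (cyCls s t U B) := mem_image_of_mem _ hu₁
  have hle : F.powerset.card ≤
      ((U.image (cyCls s t U B)).erase (cyCls s t U B u₁)).powerset.card := by
    refine Finset.card_le_card_of_injOn
      (fun T => ((U.image (cyCls s t U B)).erase (cyCls s t U B u₁)).filter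
        fun X => cs s t (fun e => if e ∈ T then (1 : ZMod 2) else 0) X = 1)
      (fun T _ => mem_coe.2 (mem_powerset.2 (filter_subset _ _))) ?_
    intro T₁ h1 T₂ h2 heq
    have h1' : T₁ ⊆ F := mem_powerset.1 (mem_coe.1 h1)
    have h2' : T₂ ⊆ F := mem_powerset.1 (mem_coe.1 h2)
    obtain ⟨c, hc⟩ : ∃ c : E → ZMod 2, c = (fun e => if e ∈ T₁ then (1 : ZMod 2) else 0) +
      fun e => if e ∈ T₂ then (1 : ZMod 2) else 0 := ⟨_, rfl⟩
    have hcF : ∀ e, c e ≠ 0 → e ∈ F := fun e he => by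
      by_contra k
      have k1 : e ∉ T₁ := fun k1 => k (h1' k1)
      have k2 : e ∉ T₂ := fun k2 => k (h2' k2)
      exact he (by simp [hc, k1, k2])
    have h0 : ∀ X ∈ (U.image (cyCls s t U B)).erase (cyCls s t U B u₁), cs s t c X = 0 := by
      intro X hX
      have k := Finset.ext_iff.1 heq X
      simp only [mem_filter, hX, true_and] at k
      have k2 : ∀ a b : ZMod 2, (a = 1 ↔ b = 1) → a + b = 0 := by decide
      rw [hc, cs_add]
      exact k2 _ _ k
    obtain ⟨c', hc1, hc2⟩ := exists_chain (s := s) (t := t) D (fun v => cs s t c {v})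
      fun X hX => by
        rw [← cs_eq_sum Z2_add_self]
        refine cy_even h (fun e he => (hF e (hcF e he)).1) h0 X fun e he hb => ?_
        obtain ⟨e', k1, k2⟩ := hD e hb X he
        exact hX e' k1 k2
    have hz := hcyc (c + c')
      (fun X => by rw [cs_add, hc2, ← cs_eq_sum Z2_add_self, Z2_add_self])
      (fun e he => by
        by_contra k
        rw [not_or] at k
        have k1 : c e = 0 := by
          by_contra k1
          exact k.1 (hcF e k1)
        exact he (by rw [Pi.add_apply, k1, hc1 e k.2, add_zero]))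
    ext e
    by_cases he : e ∈ F
    · have k := hz e he
      rw [Pi.add_apply, hc1 e (hF e he).2, add_zero, hc] at k
      by_cases a : e ∈ T₁ <;> by_cases b : e ∈ T₂ <;> simp_all
    · exact iff_of_false (fun k => he (h1' k)) fun k => he (h2' k)
  rw [card_powerset, card_powerset, Nat.pow_le_pow_iff_right (by norm_num),
    card_erase_of_mem hmem] at hle
  have := card_pos.2 ⟨_, hmem⟩
  omega

lemma cy_degree (h : Core s t (insert r U) U r) {F : Finset E}
    (hF : ∀ e, ¬ cr s t {r} e → ∀ u, cr s t (cyCls s t U B u) e → e ∈ F) :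
    ∑ X ∈ U.image (cyCls s t U B), d s t X ≤ 4 + 2 * F.card := by
  have h4 : d s t {r} = 4 := h.d4 r h.rW h.rU
  have hF2 : F.card = ∑ e, if e ∈ F then 1 else 0 := by simp
  rw [← h4, hF2]
  unfold d
  simp only [Finset.card_filter]
  rw [Finset.sum_comm, Finset.mul_sum, ← Finset.sum_add_distrib]
  refine Finset.sum_le_sum fun e _ => ?_
  rw [← Finset.card_filter]
  have hend : ∀ X ∈ (U.image (cyCls s t U B)).filter fun X => cr s t X e,
      (s e ∈ U ∧ X = cyCls s t U B (s e)) ∨ (t e ∈ U ∧ X = cyCls s t U B (t e)) := by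
    intro X hX
    obtain ⟨h1, h2⟩ := mem_filter.1 hX
    obtain ⟨u, -, rfl⟩ := mem_image.1 h1
    have h3 : s e ∈ cyCls s t U B u ∨ t e ∈ cyCls s t U B u := by
      unfold cr at h2
      tauto
    rcases h3 with k | k
    exacts [Or.inl ⟨(cy_mem_cls.1 k).1, (cy_cls_eq k).symm⟩,
      Or.inr ⟨(cy_mem_cls.1 k).1, (cy_cls_eq k).symm⟩]
  by_cases hr : cr s t {r} e
  · have h1 : ((U.image (cyCls s t U B)).filter fun X => cr s t X e).card ≤ 1 := by
      refine card_le_one.2 fun X hX Y hY => ?_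
      rcases (cr_single.1 hr).2 with k | k
      · have k1 : s e ∉ U := k ▸ h.rU
        rw [((hend X hX).resolve_left fun a => k1 a.1).2,
          ((hend Y hY).resolve_left fun a => k1 a.1).2]
      · have k1 : t e ∉ U := k ▸ h.rU
        rw [((hend X hX).resolve_right fun a => k1 a.1).2,
          ((hend Y hY).resolve_right fun a => k1 a.1).2]
    rw [if_pos hr]
    omega
  · by_cases he : e ∈ F
    · have h1 : ((U.image (cyCls s t U B)).filter fun X => cr s t X e).card ≤
          ({cyCls s t U B (s e), cyCls s t U B (t e)} : Finset (Finset V)).card := by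
        refine card_le_card fun X hX => ?_
        rcases hend X hX with k | k <;> simp [k.2]
      have h2 := card_le_two (a := cyCls s t U B (s e)) (b := cyCls s t U B (t e))
      rw [if_pos he]
      omega
    · have h1 : ((U.image (cyCls s t U B)).filter fun X => cr s t X e) = ∅ := by
        refine filter_eq_empty_iff.2 fun X hX k => ?_
        obtain ⟨u, -, rfl⟩ := mem_image.1 hX
        exact he (hF e hr u k)
      rw [h1]
      simp

end Count

theorem cyclic (h : Core s t (insert r U) U r) : ∃ A : E → ZMod 5, Cyc s t U r A := by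
  classical
  obtain ⟨A₀, hT⟩ := cy_terminal (cyStep s t r)
  refine ⟨A₀, fun i X₀ hX₀ => ?_⟩
  by_contra hno
  let B : E → Prop := fun e => ¬ cr s t {r} e ∧ ¬ cyMoved s t r A₀ e
  have hcl : ∀ e, cr s t X₀ e → ¬ B e := fun e he hb => by
    obtain ⟨e', k1, k2, -⟩ := cy_span_all hT i hb.1 hb.2 X₀ he
    exact hno ⟨e', k1, k2⟩
  let F : Finset E := univ.filter fun e => ¬ cr s t {r} e ∧ cyMoved s t r A₀ e
  have hdeg := cy_degree (B := B) h (F := F) fun e he u hu => by
    refine mem_filter.2 ⟨mem_univ _, he, ?_⟩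
    by_contra k
    exact cy_cls_closed h (fun e hb => hb.1) u e hu ⟨he, k⟩
  have hlow : ∑ _X ∈ U.image (cyCls s t U B), 5 ≤ ∑ X ∈ U.image (cyCls s t U B), d s t X := by
    refine Finset.sum_le_sum fun X hX => h.cut5 X ?_
    obtain ⟨u, hu, rfl⟩ := mem_image.1 hX
    refine ⟨⟨u, hu, cy_self_mem hu⟩, ?_⟩
    obtain ⟨⟨u₁, k1, k2⟩, u₂, k3, k4⟩ := hX₀
    by_cases hu0 : u ∈ X₀
    · exact ⟨u₂, k3, fun k => k4 (((cy_mem_cls.1 k).2 X₀ hcl).1 hu0)⟩
    · exact ⟨u₁, k1, fun k => hu0 (((cy_mem_cls.1 k).2 X₀ hcl).2 k2)⟩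
  have hfor : ∀ x : ZMod 5, (F.filter fun e => A₀ e = x ∨ A₀ e = x + 1).card + 1 ≤
      (U.image (cyCls s t U B)).card := fun x => by
    refine cy_forest h (D := fun e => cyWin s t r A₀ x e ∧ ¬ cyMoved s t r A₀ e)
      (fun e he => ?_) (fun e hb => cy_span_all hT x hb.1 hb.2) fun c hc hs e he => ?_
    · obtain ⟨-, k1, k2⟩ := mem_filter.1 (mem_filter.1 he).1
      exact ⟨k1, fun k => k.2 k2⟩
    · refine cy_cycle hT (x := x) (G := fun _ => False) (fun _ _ _ k => k.elim) hc
        (fun e' he' => Or.inl ?_) (mem_filter.1 (mem_filter.1 he).1).2.2 id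
      rcases hs e' he' with k | k
      · exact ⟨(mem_filter.1 (mem_filter.1 k).1).2.1, (mem_filter.1 k).2⟩
      · exact k.1
  have hsum : ∑ x : ZMod 5, (F.filter fun e => A₀ e = x ∨ A₀ e = x + 1).card = 2 * F.card := by
    simp only [Finset.card_filter]
    rw [Finset.sum_comm, mul_comm, ← smul_eq_mul, ← Finset.sum_const]
    refine Finset.sum_congr rfl fun e _ => ?_
    have k : ∀ a : ZMod 5, (∑ x : ZMod 5, if a = x ∨ a = x + 1 then 1 else 0) = 2 := by decide
    exact k (A₀ e)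
  have hup := Finset.sum_le_sum fun x (_ : x ∈ (univ : Finset (ZMod 5))) => hfor x
  rw [Finset.sum_add_distrib, hsum] at hup
  simp only [Finset.sum_const, card_univ, ZMod.card, smul_eq_mul] at hup hlow
  omega

end Pool.Agent.Lib.MP_a48b5a_co.U5
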