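import Pool.Agent.Lib.MP_a48b5a_co.U5BaseB
import Pool.Agent.Lib.MP_a48b5a_co.U5Cyc

/-!
# The base case
-/

set_option autoImplicit false
set_option linter.unusedSectionVars false

namespace Pool.Agent.Lib.MP_a48b5a_co.U5

open Finset

variable {V E : Type} [Fintype V] [DecidableEq V] [Fintype E] [DecidableEq E]
variable {s t : E → V} {W U : Finset V} {r : V}

/-- One class can be prescribed freely and a second class can be kept off the colour `y`. -/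
lemma bc_presc (h : Core s t (insert r U) U r) {A : E → ZMod 5} (hA : Cyc s t U r A)
    {π : E → K} (hπ : Valid s t r π) {y : K} (hy : y ≠ 0) (a b : ZMod 5) (Q : E → Prop) :
    ∃ i φ, Ext s t r π φ ∧ Win s t r A i (y, φ) ∧
      (∀ e, ¬ cr s t {r} e → A e = a → (φ e = y ↔ Q e)) ∧
      ∀ e, ¬ cr s t {r} e → A e = b → ¬ Q e → φ e ≠ y := by
  have key : ∀ a b : ZMod 5, ∃ i j : ZMod 5, j ≠ i ∧ j ≠ i + 1 ∧ j + 1 ≠ i ∧ j + 1 ≠ i + 1 ∧
      a ≠ i ∧ a ≠ i + 1 ∧ a ≠ j ∧ a ≠ j + 1 ∧ b ≠ j ∧ b ≠ j + 1 := by decide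
  obtain ⟨i, j, k1, k2, k3, k4, k5, k6, k7, k8, k9, k10⟩ := key a b
  obtain ⟨φ, h1, h2, h3⟩ := prescribe h hA hπ hy i (fun e => A e = j ∨ A e = j + 1) Q
    (fun X hX => by
      obtain ⟨e, e1, e2, e3⟩ := hA j X hX
      refine ⟨e, e1, e2, e3, ?_⟩
      rcases e3 with e3 | e3 <;> rw [e3]
      exacts [⟨k1, k2⟩, ⟨k3, k4⟩])
  refine ⟨i, φ, h1, h2, fun e he ha => ?_, fun e he hb hQ => ?_⟩
  · refine h3 e he ?_ ?_ ?_ <;> rw [ha]
    exacts [fun hc => hc.elim k7 k8, k5, k6]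
  · by_cases hw : A e = i ∨ A e = i + 1
    · exact h2 e he hw
    · rw [not_or] at hw
      refine fun hc => hQ ((h3 e he ?_ hw.1 hw.2).1 hc)
      rw [hb]
      exact fun hc => hc.elim k9 k10

/-- A valid pattern on four edges misses a nonzero colour. -/
lemma bc_absent (hd : d s t {r} = 4) {π : E → K} (hπ : Valid s t r π) :
    ∃ y : K, y ≠ 0 ∧ ∀ e, cr s t {r} e → π e ≠ y := by
  obtain ⟨e₁, T, n1, hT, h3⟩ := Finset.card_eq_succ.1 (show (univ.filter (cr s t {r})).card = 3 + 1 from hd)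
  obtain ⟨e₂, e₃, e₄, n23, n24, n34, rfl⟩ := Finset.card_eq_three.1 h3
  have mem : ∀ e, cr s t {r} e ↔ e = e₁ ∨ e = e₂ ∨ e = e₃ ∨ e = e₄ := fun e => by
    have : e ∈ univ.filter (cr s t {r}) ↔ e ∈ insert e₁ ({e₂, e₃, e₄} : Finset E) := by rw [hT]
    simpa using this
  have hs := hπ.2
  rw [cs_eq_sum_filter, ← hT, Finset.sum_insert n1, Finset.sum_insert (by simp [n23, n24]),
    Finset.sum_pair n34] at hs
  have key : ∀ a b c e : K, a ≠ 0 → b ≠ 0 → c ≠ 0 → e ≠ 0 → a + (b + (c + e)) = 0 →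
      ∃ y : K, y ≠ 0 ∧ a ≠ y ∧ b ≠ y ∧ c ≠ y ∧ e ≠ y := by decide
  obtain ⟨y, hy, k1, k2, k3, k4⟩ := key _ _ _ _ (hπ.1 e₁ ((mem _).2 (by simp)))
    (hπ.1 e₂ ((mem _).2 (by simp))) (hπ.1 e₃ ((mem _).2 (by simp)))
    (hπ.1 e₄ ((mem _).2 (by simp))) hs
  refine ⟨y, hy, fun e he => ?_⟩
  rcases (mem e).1 he with rfl | rfl | rfl | rfl <;> assumption

lemma bc_pend (ν : (E → K) → Law (K × (E → K))) {p q : E} (hp : cr s t {r} p)
    (hq : cr s t {r} q) (hpq : p ≠ q) : Pend s t r ν p q := by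
  refine ⟨p, q, hp, hq, hpq, ⟨∅, fun φ => ?_⟩, fun _ _ _ _ => ⟨rfl, rfl⟩⟩
  have key : ∀ a b : K, a + b + a + b = 0 := by decide
  rw [key]
  simp [cs, cr]

lemma bc_forced_mono {A : E → ZMod 5} {π : E → K} {Ev Ev' : K × (E → K) → Prop}
    (h : Forced s t r A π Ev) (hh : ∀ ω, Ev ω → Ev' ω) : Forced s t r A π Ev' := by
  obtain ⟨y, i, c₁, c₂, φ₀, h1, h2, h3, h4⟩ := h
  exact ⟨y, i, c₁, c₂, φ₀, h1, h2, h3, fun φ a b c e => hh _ (h4 φ a b c e)⟩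

lemma bc_eq_symm {p q : E} (ω : K × (E → K)) (h : EqF s t r p q ω) : EqF s t r q p ω :=
  h.imp fun _ h => ⟨h.1, h.2.symm⟩

lemma bc_ne_symm {p q : E} (ω : K × (E → K)) (h : NeF s t r p q ω) : NeF s t r q p ω :=
  h.imp fun _ h => ⟨h.1, h.2.symm⟩

lemma bc_av (h : Core s t (insert r U) U r) {A : E → ZMod 5} (hA : Cyc s t U r A)
    {π : E → K} (hπ : Valid s t r π) (g g' : E) : Forced s t r A π (Av s t r g g') := by
  obtain ⟨y, hy, habs⟩ := bc_absent (h.d4 r h.rW h.rU) hπ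
  obtain ⟨i, φ₀, h1, h2, h3, h4⟩ := bc_presc h hA hπ hy (A g) (A g') (fun _ => False)
  have a : φ₀ g ≠ y := by
    by_cases hg : cr s t {r} g
    · rw [h1.2 g hg]; exact habs g hg
    · exact fun hc => (h3 g hg rfl).1 hc
  have b : φ₀ g' ≠ y := by
    by_cases hg : cr s t {r} g'
    · rw [h1.2 g' hg]; exact habs g' hg
    · exact h4 g' hg rfl id
  refine ⟨y, i, g, g', φ₀, hy, h1, h2, fun φ k1 _ k3 k4 => ⟨fun e he => ?_, fun hc => a (k3.1 hc),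
    fun hc => b (k4.1 hc)⟩⟩
  show φ e ≠ y
  rw [k1.2 e he]
  exact habs e he

lemma bc_eq_root (h : Core s t (insert r U) U r) {A : E → ZMod 5} (hA : Cyc s t U r A)
    {π : E → K} (hπ : Valid s t r π) {p q : E} (hp : cr s t {r} p) (hq : ¬ cr s t {r} q) :
    Forced s t r A π (EqF s t r p q) := by
  obtain ⟨i, φ₀, h1, h2, h3, -⟩ := bc_presc h hA hπ (hπ.1 p hp) (A q) (A q) (fun _ => True)
  refine ⟨π p, i, q, q, φ₀, hπ.1 p hp, h1, h2, fun φ k1 _ k3 _ =>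
    ⟨φ, Phi.refl (ω := (π p, φ)) k1.1, ?_⟩⟩
  rw [k1.2 p hp, k3.2 ((h3 q hq rfl).2 trivial)]

lemma bc_ne_root (h : Core s t (insert r U) U r) {A : E → ZMod 5} (hA : Cyc s t U r A)
    {π : E → K} (hπ : Valid s t r π) {p q : E} (hp : cr s t {r} p) (hq : ¬ cr s t {r} q) :
    Forced s t r A π (NeF s t r p q) := by
  obtain ⟨i, φ₀, h1, h2, h3, -⟩ := bc_presc h hA hπ (hπ.1 p hp) (A q) (A q) (fun _ => False)
  refine ⟨π p, i, q, q, φ₀, hπ.1 p hp, h1, h2, fun φ k1 _ k3 _ =>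
    ⟨φ, Phi.refl (ω := (π p, φ)) k1.1, ?_⟩⟩
  rw [k1.2 p hp]
  exact fun hc => (h3 q hq rfl).1 (k3.1 hc.symm)

lemma bc_eq_same (h : Core s t (insert r U) U r) {A : E → ZMod 5} (hA : Cyc s t U r A)
    {π : E → K} (hπ : Valid s t r π) {p q : E} (hp : ¬ cr s t {r} p) (hq : ¬ cr s t {r} q)
    (hpq : A q = A p) : Forced s t r A π (EqF s t r p q) := by
  have hy : ((1, 0) : K) ≠ 0 := by decide
  obtain ⟨i, φ₀, h1, h2, h3, -⟩ := bc_presc h hA hπ hy (A p) (A p) (fun _ => True)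
  refine ⟨(1, 0), i, p, q, φ₀, hy, h1, h2, fun φ k1 _ k3 k4 =>
    ⟨φ, Phi.refl (ω := ((1, 0), φ)) k1.1, ?_⟩⟩
  rw [k3.2 ((h3 p hp rfl).2 trivial), k4.2 ((h3 q hq hpq).2 trivial)]

lemma bc_ne_non (h : Core s t (insert r U) U r) {A : E → ZMod 5} (hA : Cyc s t U r A)
    {π : E → K} (hπ : Valid s t r π) {p q : E} (hp : ¬ cr s t {r} p) (hq : ¬ cr s t {r} q)
    (hpq : p ≠ q) : Forced s t r A π (NeF s t r p q) := by
  have hy : ((1, 0) : K) ≠ 0 := by decide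
  obtain ⟨i, φ₀, h1, h2, h3, h4⟩ := bc_presc h hA hπ hy (A p) (A q) (fun e => e = p)
  refine ⟨(1, 0), i, p, q, φ₀, hy, h1, h2, fun φ k1 _ k3 k4 =>
    ⟨φ, Phi.refl (ω := ((1, 0), φ)) k1.1, ?_⟩⟩
  rw [k3.2 ((h3 p hp rfl).2 rfl)]
  exact fun hc => h4 q hq rfl hpq.symm (k4.1 hc.symm)

theorem base_law (h : Core s t (insert r U) U r) : ∃ ν, CoreLaw s t (insert r U) U r ν := by
  obtain ⟨A, hA⟩ := cyclic h
  obtain ⟨ν, hs, hf⟩ := base_prob h hA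
  refine ⟨ν, fun π hπ ω hω => ?_, fun g g' π hπ _ => hf π hπ _ (bc_av h hA hπ g g'),
    fun p q => ?_, fun p q hpq => ?_, fun z hz hU hr => ?_⟩
  · obtain ⟨h1, h2, i, h3⟩ := hs π hπ ω hω
    refine ⟨h1, h2, fun X hr hX => ⟨fun hS => ?_, fun hU e he hm => ?_⟩⟩
    · obtain ⟨e, e1, e2, e3⟩ := hA i X hS
      exact (hX e e1).elim (h3 e e2 e3) e2
    · exfalso
      obtain ⟨a, b⟩ := h.ends e he
      rw [mem_insert] at a b
      rcases hm with hm | hm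
      · exact a.elim (fun a => hr (a ▸ hm)) fun a => hU _ a hm
      · exact b.elim (fun b => hr (b ▸ hm)) fun b => hU _ b hm
  · by_cases hpq : p = q
    · refine Or.inl fun π hπ _ => le_trans (by norm_num) ((ν π).one_le_pr fun ω hω => ?_)
      exact ⟨ω.2, Phi.refl (hs π hπ ω hω).2.1.1, by rw [hpq]⟩
    by_cases hp : cr s t {r} p <;> by_cases hq : cr s t {r} q
    · exact Or.inr (Or.inr (bc_pend ν hp hq hpq))
    · exact Or.inl fun π hπ _ => hf π hπ _ (bc_eq_root h hA hπ hp hq)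
    · exact Or.inl fun π hπ _ =>
        hf π hπ _ (bc_forced_mono (bc_eq_root h hA hπ hq hp) bc_eq_symm)
    · have key : ∀ a b : ZMod 5, b = a ∨ (b = a + 1 ∨ b = a + 2) ∨ (a = b + 1 ∨ a = b + 2) := by
        decide
      rcases key (A p) (A q) with k | k | k
      · exact Or.inl fun π hπ _ => hf π hπ _ (bc_eq_same h hA hπ hp hq k)
      · rcases forced_eq h hA hp hq k with k | ⟨g, g', k1, k2, k3, k4⟩
        · exact Or.inl fun π hπ _ => hf π hπ _ (k π hπ)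
        · exact Or.inr (Or.inl ⟨g, g', k1, k2, k3, fun π hπ hc => hf π hπ _ (k4 π hπ hc)⟩)
      · rcases forced_eq h hA hq hp k with k | ⟨g, g', k1, k2, k3, k4⟩
        · exact Or.inl fun π hπ _ => hf π hπ _ (bc_forced_mono (k π hπ) bc_eq_symm)
        · exact Or.inr (Or.inl ⟨g, g', k1, k2, k3, fun π hπ hc =>
            hf π hπ _ (bc_forced_mono (k4 π hπ hc) bc_eq_symm)⟩)
  · by_cases hp : cr s t {r} p <;> by_cases hq : cr s t {r} q
    · exact Or.inr (bc_pend ν hp hq hpq)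
    · exact Or.inl fun π hπ _ => hf π hπ _ (bc_ne_root h hA hπ hp hq)
    · exact Or.inl fun π hπ _ =>
        hf π hπ _ (bc_forced_mono (bc_ne_root h hA hπ hq hp) bc_ne_symm)
    · exact Or.inl fun π hπ _ => hf π hπ _ (bc_ne_non h hA hπ hp hq hpq)
  · exact absurd (mem_insert.1 hz) (fun hc => hc.elim hr hU)

end Pool.Agent.Lib.MP_a48b5a_co.U5
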