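import Mathlib

/-!
# Finite probability laws as expectation functionals
-/

set_option autoImplicit false

namespace Pool.Agent.Lib.MP_a48b5a_co.U5

open Finset

/-- A law: a linear expectation that is bounded above by a value on the support. -/
structure Law (Ω : Type) where
  ex : (Ω → ℝ) →ₗ[ℝ] ℝ
  supp : Ω → Prop
  attain : ∀ f, ∃ ω, supp ω ∧ ex f ≤ f ω

namespace Law

variable {Ω Ω' : Type}

open Classical in
/-- Probability of an event. -/
noncomputable def pr (μ : Law Ω) (A : Ω → Prop) : ℝ := μ.ex fun ω => if A ω then 1 else 0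

lemma ex_mono (μ : Law Ω) {f g : Ω → ℝ} (h : ∀ ω, μ.supp ω → f ω ≤ g ω) : μ.ex f ≤ μ.ex g := by
  obtain ⟨ω, h1, h2⟩ := μ.attain (f - g)
  have := h ω h1
  rw [map_sub] at h2
  simp only [Pi.sub_apply] at h2
  linarith

lemma ex_const (μ : Law Ω) (c : ℝ) : μ.ex (fun _ => c) = c := by
  obtain ⟨ω, -, h2⟩ := μ.attain (fun _ => c)
  obtain ⟨ω', -, h3⟩ := μ.attain (-fun _ => c)
  rw [map_neg] at h3
  simp only [Pi.neg_apply] at h3
  linarith

lemma exists_supp (μ : Law Ω) : ∃ ω, μ.supp ω := (μ.attain 0).imp fun _ h => h.1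

lemma pr_mono (μ : Law Ω) {A B : Ω → Prop} (h : ∀ ω, μ.supp ω → A ω → B ω) :
    μ.pr A ≤ μ.pr B := by
  refine μ.ex_mono fun ω hω => ?_
  by_cases hA : A ω
  · simp [hA, h ω hω hA]
  · simp only [hA, if_false]
    split_ifs <;> norm_num

lemma pr_nonneg (μ : Law Ω) (A : Ω → Prop) : 0 ≤ μ.pr A := by
  rw [← μ.ex_const 0]
  refine μ.ex_mono fun ω _ => ?_
  split_ifs <;> norm_num

lemma one_le_pr (μ : Law Ω) {A : Ω → Prop} (h : ∀ ω, μ.supp ω → A ω) : 1 ≤ μ.pr A := by
  rw [← μ.ex_const 1]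
  refine μ.ex_mono fun ω hω => ?_
  simp [h ω hω]

/-- Sample from `μ`, then from the kernel. -/
def bind (μ : Law Ω) (κ : Ω → Law Ω') : Law Ω' where
  ex :=
    { toFun := fun f => μ.ex fun ω => (κ ω).ex f
      map_add' := fun f g => by
        rw [← map_add]; congr 1; funext ω; simp
      map_smul' := fun c f => by
        rw [RingHom.id_apply, ← map_smul]; congr 1; funext ω; simp }
  supp ω' := ∃ ω, μ.supp ω ∧ (κ ω).supp ω'
  attain f := by
    obtain ⟨ω, h1, h2⟩ := μ.attain fun ω => (κ ω).ex f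
    obtain ⟨ω', h3, h4⟩ := (κ ω).attain f
    exact ⟨ω', ⟨ω, h1, h3⟩, h2.trans h4⟩

lemma bind_supp {μ : Law Ω} {κ : Ω → Law Ω'} {ω' : Ω'} :
    (μ.bind κ).supp ω' ↔ ∃ ω, μ.supp ω ∧ (κ ω).supp ω' := Iff.rfl

lemma pr_bind (μ : Law Ω) (κ : Ω → Law Ω') {C : Ω → Prop} {A : Ω' → Prop} {p q : ℝ}
    (hq : 0 ≤ q) (hp : p ≤ μ.pr C) (h : ∀ ω, μ.supp ω → C ω → q ≤ (κ ω).pr A) :
    p * q ≤ (μ.bind κ).pr A := by
  classical
  have h1 : q * μ.pr C ≤ (μ.bind κ).pr A := by
    have : q * μ.pr C = μ.ex (q • fun ω => if C ω then 1 else 0) := by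
      rw [map_smul, smul_eq_mul]; unfold pr; congr
    rw [this]
    refine μ.ex_mono fun ω hω => ?_
    by_cases hC : C ω
    · simpa [hC, pr] using h ω hω hC
    · simpa [hC, pr] using (κ ω).pr_nonneg A
  nlinarith

/-- Image law. -/
def map (μ : Law Ω) (g : Ω → Ω') : Law Ω' where
  ex :=
    { toFun := fun f => μ.ex fun ω => f (g ω)
      map_add' := fun f f' => by rw [← map_add]; rfl
      map_smul' := fun c f => by rw [RingHom.id_apply, ← map_smul]; rfl }
  supp ω' := ∃ ω, μ.supp ω ∧ g ω = ω'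
  attain f := by
    obtain ⟨ω, h1, h2⟩ := μ.attain fun ω => f (g ω)
    exact ⟨g ω, ⟨ω, h1, rfl⟩, h2⟩

lemma map_supp {μ : Law Ω} {g : Ω → Ω'} {ω' : Ω'} :
    (μ.map g).supp ω' ↔ ∃ ω, μ.supp ω ∧ g ω = ω' := Iff.rfl

lemma pr_map (μ : Law Ω) (g : Ω → Ω') (A : Ω' → Prop) :
    (μ.map g).pr A = μ.pr fun ω => A (g ω) := rfl

/-- The uniform law on a nonempty finite set. -/
noncomputable def unif' (S : Finset Ω) (h : S.Nonempty) : Law Ω where
  ex :=
    { toFun := fun f => (∑ x ∈ S, f x) / S.card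
      map_add' := fun f g => by simp [Finset.sum_add_distrib, add_div]
      map_smul' := fun c f => by simp [← Finset.mul_sum, mul_div_assoc] }
  supp x := x ∈ S
  attain f := by
    obtain ⟨x, hx, h2⟩ := S.exists_max_image f h
    refine ⟨x, hx, ?_⟩
    have hc : (0 : ℝ) < S.card := by exact_mod_cast h.card_pos
    show (∑ x ∈ S, f x) / S.card ≤ f x
    rw [div_le_iff₀ hc]
    have := Finset.sum_le_card_nsmul S f (f x) h2
    simpa [mul_comm] using this

open Classical in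
/-- The uniform law on `S` (a point mass if `S` is empty). -/
noncomputable def unif [Inhabited Ω] (S : Finset Ω) : Law Ω :=
  if h : S.Nonempty then unif' S h else unif' {default} (singleton_nonempty _)

lemma unif_supp [Inhabited Ω] {S : Finset Ω} (h : S.Nonempty) {x : Ω} :
    (unif S).supp x ↔ x ∈ S := by
  unfold unif; rw [dif_pos h]; rfl

open Classical in
lemma pr_unif [Inhabited Ω] {S : Finset Ω} (h : S.Nonempty) (A : Ω → Prop) :
    (unif S).pr A = ((S.filter A).card : ℝ) / S.card := by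
  unfold unif; rw [dif_pos h]
  show (∑ x ∈ S, if A x then (1 : ℝ) else 0) / S.card = _
  rw [Finset.card_filter]
  push_cast
  rfl

lemma pr_unif_point [Inhabited Ω] {S : Finset Ω} {x : Ω} (hx : x ∈ S) :
    1 / (S.card : ℝ) ≤ (unif S).pr fun y => y = x := by
  classical
  rw [pr_unif ⟨x, hx⟩]
  refine div_le_div_of_nonneg_right ?_ (Nat.cast_nonneg _)
  exact_mod_cast Finset.card_pos.2 ⟨x, by simp [hx]⟩

/-- On an affine set every attained value of an affine map has share at least `1 / |A|`. -/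
lemma pr_unif_affine [AddCommGroup Ω] [Inhabited Ω] {A : Type} [AddCommGroup A] [Fintype A]
    {S : Finset Ω} (hS : ∀ x ∈ S, ∀ y ∈ S, ∀ z ∈ S, x - y + z ∈ S) (L : Ω → A)
    (hL : ∀ x y z, L (x - y + z) = L x - L y + L z) {x₀ : Ω} (h₀ : x₀ ∈ S) :
    1 / (Fintype.card A : ℝ) ≤ (unif S).pr fun x => L x = L x₀ := by
  classical
  rw [pr_unif ⟨x₀, h₀⟩]
  have hc : (0 : ℝ) < S.card := by exact_mod_cast Finset.card_pos.2 ⟨x₀, h₀⟩
  have hA : (0 : ℝ) < Fintype.card A := by exact_mod_cast Fintype.card_pos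
  have key : S.card ≤ Fintype.card A * (S.filter fun x => L x = L x₀).card := by
    rw [Finset.card_eq_sum_card_fiberwise (f := L) (t := univ) (fun _ _ => by simp),
      ← Finset.card_univ, ← smul_eq_mul]
    refine Finset.sum_le_card_nsmul _ _ _ fun w _ => ?_
    rcases (S.filter fun x => L x = w).eq_empty_or_nonempty with h | ⟨x₁, h₁⟩
    · simp [h]
    rw [Finset.mem_filter] at h₁
    refine Finset.card_le_card_of_injOn (fun x => x - x₁ + x₀) (fun x hx => ?_) ?_
    · simp only [Finset.coe_filter, Set.mem_setOf_eq] at hx ⊢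
      refine ⟨hS _ hx.1 _ h₁.1 _ h₀, ?_⟩
      rw [hL, hx.2, h₁.2]; simp
    · intro a _ b _ hab
      simpa using hab
  rw [div_le_div_iff₀ hA hc, one_mul, mul_comm]
  convert (Nat.cast_le (α := ℝ)).2 key using 1
  push_cast
  congr

/-- Some point of the support satisfies at least the expected number of events. -/
lemma exists_count (μ : Law Ω) {ι : Type} (Z : Finset ι) (A : ι → Ω → Prop)
    [∀ ω, DecidablePred fun i => A i ω] :
    ∃ ω, μ.supp ω ∧ ∑ i ∈ Z, μ.pr (A i) ≤ ((Z.filter fun i => A i ω).card : ℝ) := by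
  classical
  obtain ⟨ω, h1, h2⟩ := μ.attain (∑ i ∈ Z, fun ω => if A i ω then (1 : ℝ) else 0)
  refine ⟨ω, h1, ?_⟩
  rw [map_sum] at h2
  refine le_of_eq_of_le ?_ (h2.trans (le_of_eq ?_))
  · refine Finset.sum_congr rfl fun i _ => ?_
    unfold pr; congr 1; funext ω; congr
  · rw [Finset.card_filter, Finset.sum_apply]
    push_cast
    refine Finset.sum_congr rfl fun i _ => ?_
    congr

end Law

end Pool.Agent.Lib.MP_a48b5a_co.U5
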