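import Pool.Agent.Lib.MP_a48b5a_co.TJoin
import Pool.Agent.Lib.MP_a48b5a_co.U5Law

/-!
# Multigraphs with dead loops, flows, merging of edges, and the invariants
-/

set_option autoImplicit false
set_option linter.unusedSectionVars false

namespace Pool.Agent.Lib.MP_a48b5a_co.U5

open Finset

/-- The Klein four-group. -/
abbrev K := ZMod 2 × ZMod 2

variable {V E : Type} [Fintype V] [DecidableEq V] [Fintype E] [DecidableEq E]

/-- Number of edges with exactly one end in `X`. -/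
def d (s t : E → V) (X : Finset V) : ℕ := (univ.filter (cr s t X)).card

/-- Sum of `φ` over the cut of `X`. -/
def cs {M : Type} [AddCommMonoid M] (s t : E → V) (φ : E → M) (X : Finset V) : M :=
  ∑ e, if cr s t X e then φ e else 0

/-- `X` separates `A`. -/
def Sep (A X : Finset V) : Prop := (∃ u ∈ A, u ∈ X) ∧ ∃ v ∈ A, v ∉ X

/-- A 4-edge-connected graph on the live vertices `W` (loops are dead edges). -/
structure G4 (s t : E → V) (W : Finset V) : Prop where
  ends : ∀ e, s e ≠ t e → s e ∈ W ∧ t e ∈ W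
  cut4 : ∀ X, Sep W X → 4 ≤ d s t X

/-- Nowhere-zero flow with values in the Klein four-group. -/
def IsFlow (s t : E → V) (φ : E → K) : Prop := (∀ e, φ e ≠ 0) ∧ ∀ X, cs s t φ X = 0

/-- A valid pattern on the edges at the root. -/
def Valid (s t : E → V) (r : V) (π : E → K) : Prop :=
  (∀ e, cr s t {r} e → π e ≠ 0) ∧ cs s t π {r} = 0

/-- `φ` is a flow extending the root pattern `π`. -/
def Ext (s t : E → V) (r : V) (π φ : E → K) : Prop :=
  IsFlow s t φ ∧ ∀ e, cr s t {r} e → φ e = π e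

/-- All edges at `z` have the same colour. -/
def Mono (s t : E → V) (z : V) (φ : E → K) : Prop :=
  ∀ e e', cr s t {z} e → cr s t {z} e' → φ e = φ e'

/-- Three edges at `z` have the same colour. -/
def Heavy (s t : E → V) (z : V) (φ : E → K) : Prop :=
  ∃ x : K, 3 ≤ (univ.filter fun e => cr s t {z} e ∧ φ e = x).card

instance (s t : E → V) (φ : E → K) : DecidablePred fun z => Mono s t z φ := fun z => by
  unfold Mono; infer_instance

instance (s t : E → V) (φ : E → K) : DecidablePred fun z => Heavy s t z φ := fun z => by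
  unfold Heavy; infer_instance

section Status

variable {Ω : Type}

/-- For all valid patterns satisfying `C` the event `A` has probability at least `p`. -/
def Cond (s t : E → V) (r : V) (μ : (E → K) → Law Ω) (C : (E → K) → Prop) (A : Ω → Prop)
    (p : ℝ) : Prop :=
  ∀ π, Valid s t r π → C π → p ≤ (μ π).pr A

/-- Unconditional bound. -/
def Un (s t : E → V) (r : V) (μ : (E → K) → Law Ω) (A : Ω → Prop) (p : ℝ) : Prop :=
  Cond s t r μ (fun _ => True) A p

/-- Bound when two fixed root edges have different colours. -/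
def Cne (s t : E → V) (r : V) (μ : (E → K) → Law Ω) (A : Ω → Prop) (p : ℝ) : Prop :=
  ∃ g g', cr s t {r} g ∧ cr s t {r} g' ∧ g ≠ g' ∧ Cond s t r μ (fun π => π g ≠ π g') A p

/-- Bound when two fixed root edges have the same colour. -/
def Ceq (s t : E → V) (r : V) (μ : (E → K) → Law Ω) (A : Ω → Prop) (p : ℝ) : Prop :=
  ∃ g g', cr s t {r} g ∧ cr s t {r} g' ∧ g ≠ g' ∧ Cond s t r μ (fun π => π g = π g') A p

end Status

/-- The rooted invariant. -/
structure InvLaw (s t : E → V) (W : Finset V) (r : V) (μ : (E → K) → Law (E → K)) : Prop where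
  ext : ∀ π, Valid s t r π → ∀ φ, (μ π).supp φ → Ext s t r π φ
  ne : ∀ z ∈ W, z ≠ r → d s t {z} = 4 → ∀ f f', cr s t {z} f → cr s t {z} f' → f ≠ f' →
    Un s t r μ (fun φ => φ f ≠ φ f') (1 / 240) ∨ Cne s t r μ (fun φ => φ f ≠ φ f') 1
  eq : ∀ z ∈ W, z ≠ r → d s t {z} = 4 → ∀ f f', cr s t {z} f → cr s t {z} f' → f ≠ f' →
    Un s t r μ (fun φ => φ f = φ f') (1 / 240 * (1 / 240)) ∨
      Cne s t r μ (fun φ => φ f = φ f') (1 / 240) ∨ Ceq s t r μ (fun φ => φ f = φ f') 1
  mono : ∀ z ∈ W, z ≠ r → d s t {z} = 4 →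
    Un s t r μ (Mono s t z) (1 / 240 * (1 / 240 * (1 / 960))) ∨
      Cne s t r μ (Mono s t z) (1 / 240 * (1 / 960)) ∨ Ceq s t r μ (Mono s t z) (1 / 960)

/-- The class of cores. -/
structure Core (s t : E → V) (W U : Finset V) (r : V) : Prop extends G4 s t W where
  rW : r ∈ W
  rU : r ∉ U
  UW : U ⊆ W
  Une : U.Nonempty
  cut5 : ∀ X, Sep U X → 5 ≤ d s t X
  d4 : ∀ z ∈ W, z ∉ U → d s t {z} = 4

/-- `ψ` is a flow with the same `y`-class and the same root values as `φ`, where `ω = (y, φ)`. -/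
def Phi (s t : E → V) (r : V) (ω : K × (E → K)) (ψ : E → K) : Prop :=
  IsFlow s t ψ ∧ (∀ e, ψ e = ω.1 ↔ ω.2 e = ω.1) ∧ ∀ e, cr s t {r} e → ψ e = ω.2 e

/-- Connectivity of the complement of the `y`-class. -/
def Conn (s t : E → V) (U : Finset V) (r : V) (ω : K × (E → K)) : Prop :=
  ∀ X : Finset V, r ∉ X → (∀ e, cr s t X e → ω.2 e = ω.1 ∨ cr s t {r} e) →
    ¬ Sep U X ∧ ((∀ u ∈ U, u ∉ X) → ∀ e, s e ≠ t e → (s e ∈ X ∨ t e ∈ X) → ω.2 e = ω.1)

/-- The colour `y` is absent at the root and on `g` and `h`. -/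
def Av (s t : E → V) (r : V) (g h : E) (ω : K × (E → K)) : Prop :=
  (∀ e, cr s t {r} e → ω.2 e ≠ ω.1) ∧ ω.2 g ≠ ω.1 ∧ ω.2 h ≠ ω.1

def EqF (s t : E → V) (r : V) (p q : E) (ω : K × (E → K)) : Prop :=
  ∃ ψ, Phi s t r ω ψ ∧ ψ p = ψ q

def NeF (s t : E → V) (r : V) (p q : E) (ω : K × (E → K)) : Prop :=
  ∃ ψ, Phi s t r ω ψ ∧ ψ p ≠ ψ q

def MoF (s t : E → V) (r : V) (z : V) (ω : K × (E → K)) : Prop :=
  ∃ ψ, Phi s t r ω ψ ∧ Mono s t z ψ

/-- The pair `p, q` still copies a pair of root edges. -/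
def Pend (s t : E → V) (r : V) (ν : (E → K) → Law (K × (E → K))) (p q : E) : Prop :=
  ∃ g g', cr s t {r} g ∧ cr s t {r} g' ∧ g ≠ g' ∧
    (∃ X : Finset V, ∀ φ : E → K, cs s t φ X = φ p + φ q + φ g + φ g') ∧
    ∀ π, Valid s t r π → ∀ ω, (ν π).supp ω → ω.2 p = ω.2 g ∧ ω.2 q = ω.2 g'

/-- The invariant for cores. -/
structure CoreLaw (s t : E → V) (W U : Finset V) (r : V)
    (ν : (E → K) → Law (K × (E → K))) : Prop where
  ext : ∀ π, Valid s t r π → ∀ ω, (ν π).supp ω → ω.1 ≠ 0 ∧ Ext s t r π ω.2 ∧ Conn s t U r ω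
  av : ∀ g h, Un s t r ν (Av s t r g h) (1 / 60)
  eq : ∀ p q, Un s t r ν (EqF s t r p q) (1 / 60) ∨ Cne s t r ν (EqF s t r p q) (1 / 60) ∨
    Pend s t r ν p q
  ne : ∀ p q, p ≠ q → Un s t r ν (NeF s t r p q) (1 / 60) ∨ Pend s t r ν p q
  mono : ∀ z ∈ W, z ∉ U → z ≠ r → Un s t r ν (MoF s t r z) (1 / 60) ∨
    Cne s t r ν (MoF s t r z) (1 / 60) ∨ Ceq s t r ν (MoF s t r z) (1 / 60)

/-- Any two cyclically consecutive classes of non-root edges connect `U`. -/
def Cyc (s t : E → V) (U : Finset V) (r : V) (A : E → ZMod 5) : Prop :=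
  ∀ (i : ZMod 5) (X : Finset V), Sep U X →
    ∃ e, cr s t X e ∧ ¬ cr s t {r} e ∧ (A e = i ∨ A e = i + 1)

/-- The colour `y` is not used on the window `i`. -/
def Win (s t : E → V) (r : V) (A : E → ZMod 5) (i : ZMod 5) (ω : K × (E → K)) : Prop :=
  ∀ e, ¬ cr s t {r} e → (A e = i ∨ A e = i + 1) → ω.2 e ≠ ω.1

/-- The event is forced by a colour, a window and an attained state of two edges. -/
def Forced (s t : E → V) (r : V) (A : E → ZMod 5) (π : E → K) (Ev : K × (E → K) → Prop) : Prop :=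
  ∃ (y : K) (i : ZMod 5) (c₁ c₂ : E) (φ₀ : E → K), y ≠ 0 ∧ Ext s t r π φ₀ ∧ Win s t r A i (y, φ₀) ∧
    ∀ φ, Ext s t r π φ → Win s t r A i (y, φ) → (φ c₁ = y ↔ φ₀ c₁ = y) →
      (φ c₂ = y ↔ φ₀ c₂ = y) → Ev (y, φ)

/-- Contraction of `X` to the vertex `x`. -/
def con (X : Finset V) (x v : V) : V := if v ∈ X then x else v

/-- The edge `f` joins `z` and `x`. -/
def Joins (s t : E → V) (f : E) (z x : V) : Prop := (s f = z ∧ t f = x) ∨ (s f = x ∧ t f = z)

/-- The edges `f = zx` and `f' = zx'` are merged into `f = xx'`; `f'` becomes a dead loop. -/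
structure Merge (s t s' t' : E → V) (z : V) (f f' : E) (x x' : V) : Prop where
  ne : f ≠ f'
  xz : x ≠ z
  xz' : x' ≠ z
  hf : Joins s t f z x
  hf' : Joins s t f' z x'
  sf : s' f = x
  tf : t' f = x'
  loop : s' f' = t' f'
  rest : ∀ e, e ≠ f → e ≠ f' → s' e = s e ∧ t' e = t e

/-- The representative of an edge after merging. -/
def rep (f f' e : E) : E := if e = f' then f else e

/-- Complete splitting of a vertex of degree four. -/
structure Split (s t s₁ t₁ s' t' : E → V) (z : V) (f₁ f₂ f₃ f₄ : E) (x₁ x₂ x₃ x₄ : V) : Prop where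
  m1 : Merge s t s₁ t₁ z f₁ f₂ x₁ x₂
  m2 : Merge s₁ t₁ s' t' z f₃ f₄ x₃ x₄
  n13 : f₁ ≠ f₃
  n14 : f₁ ≠ f₄
  n23 : f₂ ≠ f₃
  n24 : f₂ ≠ f₄
  all : ∀ e, cr s t {z} e → e = f₁ ∨ e = f₂ ∨ e = f₃ ∨ e = f₄

/-! ### Cuts -/

variable {s t s' t' : E → V}

lemma cr_single {v : V} {e : E} : cr s t {v} e ↔ s e ≠ t e ∧ (s e = v ∨ t e = v) := by
  unfold cr
  simp only [mem_singleton]
  constructor
  · intro h
    refine ⟨fun h1 => h (by rw [h1]), ?_⟩
    tauto
  · rintro ⟨h1, h2 | h2⟩ h3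
    · exact h1 (h2.trans (h3.1 h2).symm)
    · exact h1 ((h3.2 h2).trans h2.symm)

lemma ne_of_cr {X : Finset V} {e : E} (h : cr s t X e) : s e ≠ t e := fun h1 =>
  h (by rw [h1])

lemma d_compl (X : Finset V) : d s t Xᶜ = d s t X := by simp only [d, cr_compl]

lemma cs_compl {M : Type} [AddCommMonoid M] (φ : E → M) (X : Finset V) :
    cs s t φ Xᶜ = cs s t φ X := by simp only [cs, cr_compl]

lemma Sep.compl {A X : Finset V} (h : Sep A X) : Sep A Xᶜ := by
  obtain ⟨⟨u, h1, h2⟩, v, h3, h4⟩ := h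
  exact ⟨⟨v, h3, mem_compl.2 h4⟩, u, h1, fun h => mem_compl.1 h h2⟩

lemma cr_symmDiff (X Y : Finset V) (e : E) :
    cr s t (symmDiff X Y) e ↔ ¬ (cr s t X e ↔ cr s t Y e) := by
  unfold cr
  simp only [Finset.mem_symmDiff]
  tauto

lemma cs_congr {M : Type} [AddCommMonoid M] {φ ψ : E → M} {X : Finset V}
    (h : ∀ e, cr s t X e → φ e = ψ e) : cs s t φ X = cs s t ψ X := by
  refine Finset.sum_congr rfl fun e _ => ?_
  split_ifs with h1
  exacts [h e h1, rfl]

lemma cs_add {M : Type} [AddCommMonoid M] (φ ψ : E → M) (X : Finset V) :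
    cs s t (φ + ψ) X = cs s t φ X + cs s t ψ X := by
  unfold cs
  rw [← Finset.sum_add_distrib]
  refine Finset.sum_congr rfl fun e _ => ?_
  split_ifs <;> simp

lemma cs_eq_sum_filter {M : Type} [AddCommMonoid M] (φ : E → M) (X : Finset V) :
    cs s t φ X = ∑ e ∈ univ.filter (cr s t X), φ e := by
  rw [cs, Finset.sum_filter]

lemma cs_hom {M N : Type} [AddCommMonoid M] [AddCommMonoid N] (L : M →+ N) (φ : E → M)
    (X : Finset V) : cs s t (fun e => L (φ e)) X = L (cs s t φ X) := by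
  unfold cs
  rw [map_sum]
  refine Finset.sum_congr rfl fun e _ => ?_
  split_ifs <;> simp

lemma cs_single {M : Type} [AddCommMonoid M] (f : E) (a : M) (X : Finset V) :
    cs s t (fun e => if e = f then a else 0) X = if cr s t X f then a else 0 := by
  unfold cs
  rw [Finset.sum_eq_single f]
  · simp
  · intro b _ hb; simp [hb]
  · simp

/-- In characteristic two the sum over a cut is the sum of the sums at its vertices. -/
lemma cs_eq_sum {M : Type} [AddCommGroup M] (h2 : ∀ a : M, a + a = 0) (φ : E → M)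
    (X : Finset V) : cs s t φ X = ∑ v ∈ X, cs s t φ {v} := by
  unfold cs
  rw [Finset.sum_comm]
  refine Finset.sum_congr rfl fun e _ => ?_
  have h1 : ∀ v, (if cr s t {v} e then φ e else 0) =
      (if s e = v then φ e else 0) + (if t e = v then φ e else 0) := by
    intro v
    unfold cr
    simp only [mem_singleton]
    by_cases a : s e = v <;> by_cases b : t e = v <;> simp [a, b, h2]
  simp only [h1]
  rw [Finset.sum_add_distrib, Finset.sum_ite_eq, Finset.sum_ite_eq]
  unfold cr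
  by_cases a : s e ∈ X <;> by_cases b : t e ∈ X <;> simp [a, b, h2]

lemma K_add_self (a : K) : a + a = 0 := by revert a; decide

lemma Z2_add_self (a : ZMod 2) : a + a = 0 := by revert a; decide

lemma cs_zero_of_vertices {M : Type} [AddCommGroup M] (h2 : ∀ a : M, a + a = 0) {φ : E → M}
    (h : ∀ v, cs s t φ {v} = 0) (X : Finset V) : cs s t φ X = 0 := by
  rw [cs_eq_sum h2]
  exact Finset.sum_eq_zero fun v _ => h v

lemma cs_symmDiff {M : Type} [AddCommGroup M] (h2 : ∀ a : M, a + a = 0) (φ : E → M)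
    (X Y : Finset V) : cs s t φ (symmDiff X Y) = cs s t φ X + cs s t φ Y := by
  unfold cs
  rw [← Finset.sum_add_distrib]
  refine Finset.sum_congr rfl fun e _ => ?_
  simp only [cr_symmDiff]
  by_cases a : cr s t X e <;> by_cases b : cr s t Y e <;> simp [a, b, h2]

/-- Joins exist when no closed set has odd demand. -/
theorem exists_chain (D : E → Prop) (T : V → ZMod 2)
    (h : ∀ X : Finset V, (∀ e, cr s t X e → ¬ D e) → ∑ v ∈ X, T v = 0) :
    ∃ c : E → ZMod 2, (∀ e, ¬ D e → c e = 0) ∧ ∀ X, cs s t c X = ∑ v ∈ X, T v := by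
  classical
  obtain ⟨J, h1, h2, -⟩ := exists_join s t T (h univ fun e he => absurd he (by simp [cr]))
    (fun e => if D e then 1 else 0) (fun e => by split_ifs <;> norm_num)
    (fun X hX => by
      by_contra hc
      have : ∑ v ∈ X, T v = 0 := by
        refine h X fun e he hD => hc ?_
        refine le_trans ?_ (Finset.single_le_sum (f := fun e => if D e then (1 : ℝ) else 0)
          (fun e _ => by split_ifs <;> norm_num) (Finset.mem_filter.2 ⟨mem_univ e, he⟩))
        simp [hD]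
      rw [this] at hX
      exact absurd hX (by decide))
    (fun _ => 0) (fun _ => le_rfl)
  refine ⟨fun e => if e ∈ J then 1 else 0, fun e he => ?_, fun X => ?_⟩
  · have : e ∉ J := fun h => by simpa [he] using h1 e h
    simp [this]
  · rw [← Finset.sum_congr rfl fun v _ => h2 v, sum_bd, Finset.card_filter, Nat.cast_sum, cs]
    rw [← Finset.sum_subset (Finset.subset_univ J) (fun e _ he => by simp [he])]
    refine Finset.sum_congr rfl fun e he => ?_
    split_ifs <;> simp

/-- A path between two vertices that no closed set separates. -/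
theorem exists_path (D : E → Prop) (u v : V)
    (h : ∀ X : Finset V, u ∈ X → v ∉ X → ∃ e, cr s t X e ∧ D e) :
    ∃ c : E → ZMod 2, (∀ e, ¬ D e → c e = 0) ∧
      ∀ X, cs s t c X = (if u ∈ X then 1 else 0) + (if v ∈ X then 1 else 0) := by
  obtain ⟨c, h1, h2⟩ := exists_chain (s := s) (t := t) D
    (fun w => (if u = w then 1 else 0) + (if v = w then 1 else 0)) (fun X hX => by
      rw [Finset.sum_add_distrib, Finset.sum_ite_eq, Finset.sum_ite_eq]
      by_cases a : u ∈ X <;> by_cases b : v ∈ X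
      · simp [a, b, Z2_add_self]
      · obtain ⟨e, h1, h2⟩ := h X a b
        exact absurd h2 (hX e h1)
      · obtain ⟨e, h1, h2⟩ := h Xᶜ (mem_compl.2 a) (fun h => mem_compl.1 h b)
        exact absurd h2 (hX e ((cr_compl s t X e).1 h1))
      · simp [a, b])
  refine ⟨c, h1, fun X => ?_⟩
  rw [h2, Finset.sum_add_distrib, Finset.sum_ite_eq, Finset.sum_ite_eq]

/-- Flipping along a cycle off the `y`-class and off the root stays in `Phi`. -/
lemma Phi.flip {r : V} {ω : K × (E → K)} (hy : ω.1 ≠ 0) (hφ : IsFlow s t ω.2) {c : E → ZMod 2}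
    (hc : ∀ X, cs s t c X = 0) (h1 : ∀ e, ω.2 e = ω.1 ∨ cr s t {r} e → c e = 0) :
    Phi s t r ω (fun e => ω.2 e + c e • ω.1) := by
  have k1 : ∀ (a y : K) (c : ZMod 2), y ≠ 0 → a ≠ 0 → (a = y → c = 0) →
      a + c • y ≠ 0 ∧ (a + c • y = y ↔ a = y) := by decide
  refine ⟨⟨fun e => (k1 _ _ _ hy (hφ.1 e) fun h => h1 e (Or.inl h)).1, fun X => ?_⟩,
    fun e => (k1 _ _ _ hy (hφ.1 e) fun h => h1 e (Or.inl h)).2, fun e he => ?_⟩
  · have := cs_add (s := s) (t := t) ω.2 (fun e => c e • ω.1) X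
    rw [hφ.2, zero_add] at this
    refine this.trans ?_
    have h3 := cs_hom (s := s) (t := t) ((smulAddHom (ZMod 2) K).flip ω.1) c X
    rw [hc] at h3
    simpa using h3
  · simp [h1 e (Or.inr he)]

lemma Phi.refl {r : V} {ω : K × (E → K)} (hφ : IsFlow s t ω.2) : Phi s t r ω ω.2 :=
  ⟨hφ, fun _ => Iff.rfl, fun _ _ => rfl⟩

/-! ### Merging -/

section Merge

variable {z x x' : V} {f f' : E}

lemma Joins.cr_iff (h : Joins s t f z x) (X : Finset V) : cr s t X f ↔ ¬ (z ∈ X ↔ x ∈ X) := by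
  unfold cr
  rcases h with ⟨a, b⟩ | ⟨a, b⟩ <;> rw [a, b]
  tauto

lemma exists_joins (h : cr s t {z} f) : ∃ x, x ≠ z ∧ Joins s t f z x := by
  obtain ⟨h1, h2 | h2⟩ := cr_single.1 h
  · exact ⟨t f, fun h => h1 (h2.trans h.symm), Or.inl ⟨h2, rfl⟩⟩
  · exact ⟨s f, fun h => h1 (h.trans h2.symm), Or.inr ⟨rfl, h2⟩⟩

lemma exists_merge (hne : f ≠ f') (xz : x ≠ z) (xz' : x' ≠ z) (hf : Joins s t f z x)
    (hf' : Joins s t f' z x') : ∃ s' t', Merge s t s' t' z f f' x x' :=
  ⟨fun e => if e = f then x else if e = f' then z else s e,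
    fun e => if e = f then x' else if e = f' then z else t e,
    ⟨hne, xz, xz', hf, hf', by simp, by simp, by simp [hne.symm], fun e a b => by simp [a, b]⟩⟩

lemma Merge.cr_rest (m : Merge s t s' t' z f f' x x') (X : Finset V) {e : E} (a : e ≠ f)
    (b : e ≠ f') : cr s' t' X e ↔ cr s t X e := by
  unfold cr
  rw [(m.rest e a b).1, (m.rest e a b).2]

lemma Merge.cr_f (m : Merge s t s' t' z f f' x x') (X : Finset V) :
    cr s' t' X f ↔ ¬ (x ∈ X ↔ x' ∈ X) := by
  unfold cr
  rw [m.sf, m.tf]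

lemma Merge.not_cr_f' (m : Merge s t s' t' z f f' x x') (X : Finset V) : ¬ cr s' t' X f' := by
  unfold cr
  rw [m.loop]
  simp

@[simp] lemma rep_self (f f' : E) : rep f f' f' = f := by simp [rep]

lemma rep_of_ne {e : E} (h : e ≠ f') : rep f f' e = e := by simp [rep, h]

lemma sum_split_two {M : Type} [AddCommMonoid M] (hne : f ≠ f') (a : E → M) :
    ∑ e, a e = a f + a f' + ∑ e ∈ (univ.erase f).erase f', a e := by
  rw [← Finset.add_sum_erase _ _ (mem_univ f),
    ← Finset.add_sum_erase _ _ (mem_erase.2 ⟨hne.symm, mem_univ f'⟩), add_assoc]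

/-- Lifting along a merge keeps all cut sums. -/
lemma Merge.cs_rep {M : Type} [AddCommGroup M] (h2 : ∀ a : M, a + a = 0)
    (m : Merge s t s' t' z f f' x x') (φ : E → M) (X : Finset V) :
    cs s t (fun e => φ (rep f f' e)) X = cs s' t' φ X := by
  unfold cs
  rw [sum_split_two m.ne, sum_split_two m.ne]
  congr 1
  · simp only [m.hf.cr_iff, m.hf'.cr_iff, m.cr_f, m.not_cr_f', rep_self, rep_of_ne m.ne]
    by_cases a : z ∈ X <;> by_cases b : x ∈ X <;> by_cases c : x' ∈ X <;> simp [a, b, c, h2]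
  · refine Finset.sum_congr rfl fun e he => ?_
    simp only [mem_erase] at he
    simp only [m.cr_rest X he.2.1 he.1, rep_of_ne he.1]

lemma Merge.d_eq (m : Merge s t s' t' z f f' x x') {X : Finset V} (hz : z ∉ X) :
    d s' t' X + (if x ∈ X ∧ x' ∈ X then 2 else 0) = d s t X := by
  unfold d
  rw [Finset.card_filter, Finset.card_filter, sum_split_two m.ne, sum_split_two m.ne]
  have : ∑ e ∈ (univ.erase f).erase f', (if cr s' t' X e then 1 else 0) =
      ∑ e ∈ (univ.erase f).erase f', (if cr s t X e then 1 else 0) := by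
    refine Finset.sum_congr rfl fun e he => ?_
    simp only [mem_erase] at he
    simp only [m.cr_rest X he.2.1 he.1]
  rw [this]
  simp only [m.hf.cr_iff, m.hf'.cr_iff, m.cr_f, m.not_cr_f']
  by_cases b : x ∈ X <;> by_cases c : x' ∈ X <;> simp [hz, b, c] <;> omega

lemma Merge.isFlow (m : Merge s t s' t' z f f' x x') {φ : E → K} (h : IsFlow s' t' φ) :
    IsFlow s t fun e => φ (rep f f' e) :=
  ⟨fun _ => h.1 _, fun X => (m.cs_rep K_add_self φ X).trans (h.2 X)⟩

end Merge

/-! ### Cut inequalities -/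

/-- Adding a vertex to a set. -/
lemma d_insert {z : V} {X : Finset V} (hz : z ∉ X) :
    d s t (insert z X) + 2 * (univ.filter fun e => cr s t {z} e ∧ cr s t X e).card =
      d s t X + d s t {z} := by
  unfold d
  simp only [Finset.card_filter]
  rw [Finset.mul_sum, ← Finset.sum_add_distrib, ← Finset.sum_add_distrib]
  refine Finset.sum_congr rfl fun e _ => ?_
  unfold cr
  simp only [mem_insert, mem_singleton]
  by_cases a : s e = z <;> by_cases b : t e = z <;> by_cases c : s e ∈ X <;>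
    by_cases c' : t e ∈ X <;> simp_all

lemma two_cut (X Y : Finset V) :
    d s t (X \ Y) + d s t (Y \ X) +
      2 * (univ.filter fun e => cr s t (X ∩ Y) e ∧ cr s t (X ∪ Y) e).card ≤
      d s t X + d s t Y := by
  unfold d
  simp only [Finset.card_filter]
  rw [Finset.mul_sum, ← Finset.sum_add_distrib, ← Finset.sum_add_distrib,
    ← Finset.sum_add_distrib]
  refine Finset.sum_le_sum fun e _ => ?_
  unfold cr
  simp only [mem_sdiff, mem_inter, mem_union]
  by_cases a : s e ∈ X <;> by_cases b : t e ∈ X <;> by_cases c : s e ∈ Y <;>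
    by_cases c' : t e ∈ Y <;> simp [a, b, c, c']

lemma three_cut (X Y Z : Finset V) :
    d s t (X ∩ Y ∩ Z) + d s t (X \ (Y ∪ Z)) + d s t (Y \ (X ∪ Z)) + d s t (Z \ (X ∪ Y)) +
      2 * (univ.filter fun e => cr s t (X ∩ Y ∩ Z) e ∧ cr s t (X ∪ Y ∪ Z) e).card ≤
      d s t X + d s t Y + d s t Z := by
  unfold d
  simp only [Finset.card_filter]
  rw [Finset.mul_sum]
  simp only [← Finset.sum_add_distrib]
  refine Finset.sum_le_sum fun e _ => ?_
  unfold cr
  simp only [mem_sdiff, mem_inter, mem_union]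
  by_cases a : s e ∈ X <;> by_cases b : t e ∈ X <;> by_cases c : s e ∈ Y <;>
    by_cases c' : t e ∈ Y <;> by_cases g : s e ∈ Z <;> by_cases g' : t e ∈ Z <;>
    simp [a, b, c, c', g, g']

end Pool.Agent.Lib.MP_a48b5a_co.U5
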