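import Pool.Agent.Lib.MP_a48b5a_co.U5Basic

/-!
# Short joins from a flow with many heavy vertices
-/

set_option autoImplicit false
set_option linter.unusedSectionVars false

namespace Pool.Agent.Lib.MP_a48b5a_co.U5

open Finset

variable {V E : Type} [Fintype V] [DecidableEq V] [Fintype E] [DecidableEq E]
variable {s t : E → V} {W U : Finset V} {r : V}

lemma cnt_sum_deg (J : Finset E) : ∑ v, (J.filter (cr s t {v})).card ≤ 2 * J.card := by
  simp only [card_filter]
  rw [sum_comm, card_eq_sum_ones, mul_sum]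
  refine sum_le_sum fun e _ => ?_
  rw [← card_filter]
  refine (card_le_card (t := {s e, t e}) fun v hv => ?_).trans (by simpa using card_le_two)
  rcases (cr_single.1 (mem_filter.1 hv).2).2 with h | h <;> simp [h]

lemma cnt_bd_sdiff {A B : Finset E} (h : B ⊆ A) (v : V) :
    bd s t A v = bd s t (A \ B) v + bd s t B v := by
  rw [← bd_union s t sdiff_disjoint, sdiff_union_of_subset h]

lemma cnt_bd_symmDiff (A B : Finset E) (v : V) :
    bd s t (symmDiff A B) v = bd s t A v + bd s t B v := by
  have h1 := cnt_bd_sdiff (s := s) (t := t) (inter_subset_left (s₁ := A) (s₂ := B)) v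
  have h2 := cnt_bd_sdiff (s := s) (t := t) (inter_subset_right (s₁ := A) (s₂ := B)) v
  rw [sdiff_inter_self_left] at h1
  rw [sdiff_inter_self_right] at h2
  rw [symmDiff_def, sup_eq_union, bd_union s t disjoint_sdiff_sdiff, h1, h2]
  have : ∀ a b c : ZMod 2, a + b = a + c + (b + c) := by decide
  exact this _ _ _

/-- An edge set without a nonempty even subset has at most as many edges as vertices. -/
lemma cnt_forest {F : Finset E} (h : ∀ C ⊆ F, (∀ v, bd s t C v = 0) → C = ∅) :
    F.card ≤ (univ.filter fun v => (F.filter (cr s t {v})).card ≠ 0).card := by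
  have h1 : F.powerset.card ≤
      (univ.filter fun v => (F.filter (cr s t {v})).card ≠ 0).powerset.card := by
    refine card_le_card_of_injOn (fun A => univ.filter fun v => bd s t A v ≠ 0) ?_ ?_
    · intro A hA
      rw [mem_coe, mem_powerset] at hA ⊢
      intro v hv
      refine mem_filter.2 ⟨mem_univ _, fun h0 => (mem_filter.1 hv).2 ?_⟩
      have : (A.filter (cr s t {v})).card = 0 :=
        Nat.eq_zero_of_le_zero (h0 ▸ card_le_card (filter_subset_filter _ hA))
      rw [bd_eq_card, this, Nat.cast_zero]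
    · intro A hA B hB hAB
      rw [mem_coe, mem_powerset] at hA hB
      have h2 : symmDiff A B = ∅ := by
        refine h _ (fun e he => ?_) fun v => ?_
        · rcases mem_symmDiff.1 he with h3 | h3
          exacts [hA h3.1, hB h3.1]
        · have h3 := Finset.ext_iff.1 hAB v
          simp only [mem_filter, mem_univ, true_and] at h3
          have h4 : ∀ a b : ZMod 2, (a ≠ 0 ↔ b ≠ 0) → a + b = 0 := by decide
          rw [cnt_bd_symmDiff]
          exact h4 _ _ h3
      exact symmDiff_eq_bot.1 h2
  rw [card_powerset, card_powerset] at h1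
  exact (Nat.pow_le_pow_iff_right (by norm_num)).1 h1

/-- A short join inside a given join. -/
lemma cnt_short {P : Finset E} (hP : ∀ v, bd s t P v = bd s t univ v) :
    ∃ F ⊆ P, (∀ v, bd s t F v = bd s t univ v) ∧
      2 * F.card + (univ.filter fun v => 3 ≤ (P.filter (cr s t {v})).card).card ≤
        2 * P.card + (univ.filter fun v => Odd (d s t {v})).card := by
  obtain ⟨F, hF, hmin⟩ := exists_min_image
    (P.powerset.filter fun F => ∀ v, bd s t F v = bd s t univ v) card
    ⟨P, mem_filter.2 ⟨mem_powerset_self _, hP⟩⟩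
  obtain ⟨hFP, hFb⟩ := mem_filter.1 hF
  rw [mem_powerset] at hFP
  refine ⟨F, hFP, hFb, ?_⟩
  have h1 := cnt_forest (s := s) (t := t) (F := F) fun C hC h0 => by
    have h2 := hmin (F \ C) (mem_filter.2 ⟨mem_powerset.2 (sdiff_subset.trans hFP), fun v => by
      rw [← hFb v, cnt_bd_sdiff hC v, h0 v, add_zero]⟩)
    have h3 := card_sdiff_add_card_eq_card hC
    exact card_eq_zero.1 (by omega)
  have h2 := cnt_sum_deg (s := s) (t := t) P
  have h3 : (univ.filter fun v => 3 ≤ (P.filter (cr s t {v})).card).card +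
      2 * (univ.filter fun v => (F.filter (cr s t {v})).card ≠ 0).card ≤
      ∑ v, (P.filter (cr s t {v})).card + (univ.filter fun v => Odd (d s t {v})).card := by
    rw [card_filter, card_filter, card_filter (fun v => Odd (d s t {v})), mul_sum,
      ← sum_add_distrib, ← sum_add_distrib]
    refine sum_le_sum fun v _ => ?_
    have h4 : (F.filter (cr s t {v})).card ≤ (P.filter (cr s t {v})).card :=
      card_le_card (filter_subset_filter _ hFP)
    have h5 : (F.filter (cr s t {v})).card = 1 → Odd (d s t {v}) := fun h5 => by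
      have h6 := hFb v
      rw [bd_eq_card, bd_eq_card, h5, Nat.cast_one] at h6
      exact ZMod.natCast_eq_one_iff_odd.1 h6.symm
    split_ifs <;> first | omega | (have := mt h5 ‹_›; omega)
  omega

/-- Each colour class of a flow is a join. -/
lemma cnt_class {φ : E → K} (hφ : IsFlow s t φ) {x : K} (hx : x ≠ 0) (v : V) :
    bd s t (univ.filter fun e => φ e = x) v = bd s t univ v := by
  obtain ⟨L, hL⟩ : ∃ L : K →+ ZMod 2, ∀ y, y ≠ 0 → L y = (if y = x then 1 else 0) + 1 := by
    refine ⟨⟨⟨fun y => x.2 * y.1 + x.1 * y.2, by simp⟩, fun a b => by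
      simp only [Prod.fst_add, Prod.snd_add]; ring⟩, ?_⟩
    change ∀ y : K, y ≠ 0 → x.2 * y.1 + x.1 * y.2 = (if y = x then 1 else 0) + 1
    revert x
    decide
  have h1 := cs_hom (s := s) (t := t) L φ {v}
  rw [hφ.2, map_zero, cs_eq_sum_filter, sum_congr rfl fun e _ => hL _ (hφ.1 e), sum_add_distrib,
    sum_boole, sum_const, nsmul_eq_mul, mul_one] at h1
  rw [bd_eq_card, bd_eq_card, filter_comm]
  have h2 : ∀ a b : ZMod 2, a + b = 0 → a = b := by decide
  exact h2 _ _ h1

theorem joins_of_flow {φ : E → K} (hφ : IsFlow s t φ) :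
    ∃ P J : Finset E, Disjoint P J ∧ (∀ v, bd s t P v = bd s t univ v) ∧
      (∀ v, bd s t J v = bd s t univ v) ∧
      6 * P.card + (univ.filter fun z => Heavy s t z φ).card ≤
        2 * Fintype.card E + 3 * (univ.filter fun v => Odd (d s t {v})).card := by
  have hd : ∀ x y : K, x ≠ y → Disjoint (univ.filter fun e => φ e = x)
      (univ.filter fun e => φ e = y) := fun x y hxy =>
    disjoint_filter.2 fun e _ h1 h2 => hxy (h1.symm.trans h2)
  have ha : ((1, 0) : K) ≠ 0 := by decide
  have hb : ((0, 1) : K) ≠ 0 := by decide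
  have hc : ((1, 1) : K) ≠ 0 := by decide
  have hab : ((1, 0) : K) ≠ (0, 1) := by decide
  have hac : ((1, 0) : K) ≠ (1, 1) := by decide
  have hbc : ((0, 1) : K) ≠ (1, 1) := by decide
  obtain ⟨A, A1, A2, A3⟩ := cnt_short (cnt_class hφ ha)
  obtain ⟨B, B1, B2, B3⟩ := cnt_short (cnt_class hφ hb)
  obtain ⟨C, C1, C2, C3⟩ := cnt_short (cnt_class hφ hc)
  have h1 : (univ.filter fun e => φ e = (1, 0)).card + (univ.filter fun e => φ e = (0, 1)).card +
      (univ.filter fun e => φ e = (1, 1)).card ≤ Fintype.card E := by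
    rw [← card_union_of_disjoint (hd _ _ hab),
      ← card_union_of_disjoint (disjoint_union_left.2 ⟨hd _ _ hac, hd _ _ hbc⟩)]
    exact card_le_univ _
  have h2 : (univ.filter fun z => Heavy s t z φ).card ≤
      (univ.filter fun v => 3 ≤
        ((univ.filter fun e => φ e = (1, 0)).filter (cr s t {v})).card).card +
      (univ.filter fun v => 3 ≤
        ((univ.filter fun e => φ e = (0, 1)).filter (cr s t {v})).card).card +
      (univ.filter fun v => 3 ≤
        ((univ.filter fun e => φ e = (1, 1)).filter (cr s t {v})).card).card := by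
    refine le_trans ?_ (Nat.add_le_add_right (card_union_le _ _) _)
    refine le_trans (card_le_card fun z hz => ?_) (card_union_le _ _)
    obtain ⟨x, hx⟩ := (mem_filter.1 hz).2
    have h3 : 3 ≤ ((univ.filter fun e => φ e = x).filter (cr s t {z})).card := by
      rw [filter_comm, filter_filter]
      exact hx
    have h4 : x ≠ 0 := by
      obtain ⟨e, he⟩ := card_pos.1 (lt_of_lt_of_le (by norm_num) hx)
      rw [← (mem_filter.1 he).2.2]
      exact hφ.1 e
    have h5 : ∀ y : K, y ≠ 0 → y = (1, 0) ∨ y = (0, 1) ∨ y = (1, 1) := by decide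
    simp only [mem_union, mem_filter, mem_univ, true_and]
    rcases h5 x h4 with rfl | rfl | rfl
    exacts [Or.inl (Or.inl h3), Or.inl (Or.inr h3), Or.inr h3]
  by_cases k1 : A.card ≤ B.card ∧ A.card ≤ C.card
  · exact ⟨A, _, (hd _ _ hab).mono_left A1, A2, cnt_class hφ hb, by omega⟩
  by_cases k2 : B.card ≤ C.card
  · exact ⟨B, _, (hd _ _ hbc).mono_left B1, B2, cnt_class hφ hc, by omega⟩
  · exact ⟨C, _, (hd _ _ hac.symm).mono_left C1, C2, cnt_class hφ ha, by omega⟩

end Pool.Agent.Lib.MP_a48b5a_co.U5
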