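import Pool.Agent.Lib.MP_a48b5a_co.U5Top
import Pool.Agent.Lib.MP_a48b5a_co.U5Count
import Pool.Agent.Lib.MP_a48b5a_co.H82Deg

/-!
# The uniform gap
-/

set_option autoImplicit false
set_option linter.unusedSectionVars false

namespace Pool.Agent.Lib.MP_a48b5a_co.U5

open Finset

variable {V E : Type} [Fintype V] [DecidableEq V] [Fintype E] [DecidableEq E]
variable {s t : E → V} {W U : Finset V} {r : V}

lemma fin_handshake (hl : ∀ e, s e ≠ t e) : ∑ v, d s t {v} = 2 * Fintype.card E := by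
  have h := H82.sum_dc (F := univ) (s := s) (t := t) univ
  rw [H82.dc_univ, add_zero, H82.inn,
    filter_true_of_mem fun e _ => ⟨hl e, mem_univ _, mem_univ _⟩, card_univ] at h
  exact h

theorem uniform_gap (hl : ∀ e, s e ≠ t e)
    (h4 : ∀ X : Finset V, X.Nonempty → X ≠ univ → 4 ≤ (univ.filter (cr s t X)).card) :
    ∃ P J : Finset E, Disjoint P J ∧ (∀ v, bd s t P v = bd s t univ v) ∧
      (∀ v, bd s t J v = bd s t univ v) ∧
      30000000000 * P.card + 3 * Fintype.card E ≤ 10000000000 * Fintype.card E := by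
  by_cases hu : ∃ u ∈ (univ : Finset V), Odd (d s t {u})
  swap
  · have h0 : ∀ v, bd s t ∅ v = bd s t univ v := fun v => by
      rw [bd_eq_card, bd_eq_card, filter_empty, card_empty, Nat.cast_zero, eq_comm,
        ZMod.natCast_eq_zero_iff_even]
      exact Nat.not_odd_iff_even.1 fun h => hu ⟨v, mem_univ _, h⟩
    exact ⟨∅, ∅, disjoint_empty_left _, h0, h0, by rw [card_empty]; omega⟩
  have hG : G4 s t univ := ⟨fun e _ => ⟨mem_univ _, mem_univ _⟩, fun X hX => by
    obtain ⟨⟨u, -, h1⟩, v, -, h2⟩ := hX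
    exact h4 X ⟨u, h1⟩ fun h => h2 (h ▸ mem_univ v)⟩
  have hdeg : ∀ v, 4 ≤ d s t {v} := by
    intro v
    obtain ⟨u, -, h1⟩ := hu
    obtain ⟨e, -⟩ := card_pos.1 h1.pos
    refine h4 {v} (singleton_nonempty v) fun h => hl e ?_
    have h2 : ∀ w, w = v := fun w => mem_singleton.1 (h ▸ mem_univ w)
    rw [h2 (s e), h2 (t e)]
  obtain ⟨P, J, p1, p2, p3, p4⟩ := H82.deg_bound hl h4
  change 12 * P.card + ∑ v, (if d s t {v} = 5 then 1 else d s t {v} - 6) ≤ _ at p4
  have hT : (univ.filter fun v => Odd (d s t {v})).card ≤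
      ∑ v, (if d s t {v} = 5 then 1 else d s t {v} - 6) := by
    rw [card_filter]
    refine sum_le_sum fun v _ => ?_
    have := hdeg v
    simp only [Nat.odd_iff]
    split_ifs <;> omega
  have hT1 : 1 ≤ (univ.filter fun v => Odd (d s t {v})).card := by
    obtain ⟨u, h1, h2⟩ := hu
    exact card_pos.2 ⟨u, mem_filter.2 ⟨h1, h2⟩⟩
  have hm : 2 * Fintype.card E ≤
      6 * (univ.filter fun v => d s t {v} = 4 ∨ d s t {v} = 6).card +
        7 * ∑ v, (if d s t {v} = 5 then 1 else d s t {v} - 6) := by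
    rw [← fin_handshake hl, card_filter, mul_sum, mul_sum, ← sum_add_distrib]
    refine sum_le_sum fun v _ => ?_
    have := hdeg v
    split_ifs <;> omega
  by_cases hS : 12 * Fintype.card E ≤
      10000000000 * ∑ v, (if d s t {v} = 5 then 1 else d s t {v} - 6)
  · exact ⟨P, J, p1, p2, p3, by omega⟩
  obtain ⟨φ, hφ, hz⟩ := main_heavy hG hu
    (subset_univ (univ.filter fun v => d s t {v} = 4 ∨ d s t {v} = 6))
    (fun z hz => (mem_filter.1 hz).2) (card_pos.1 (by omega))
  obtain ⟨P', J', q1, q2, q3, q4⟩ := joins_of_flow hφ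
  have hh : ((univ.filter fun v => d s t {v} = 4 ∨ d s t {v} = 6).filter
      fun z => Heavy s t z φ).card ≤ (univ.filter fun z => Heavy s t z φ).card :=
    card_le_card (filter_subset_filter _ (subset_univ _))
  exact ⟨P', J', q1, q2, q3, by omega⟩

end Pool.Agent.Lib.MP_a48b5a_co.U5
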