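import Pool.Agent.Lib.MP_a48b5a_co.U5Basic

/-!
# From the core law to the rooted invariant, and gluing
-/

set_option autoImplicit false
set_option linter.unusedSectionVars false

namespace Pool.Agent.Lib.MP_a48b5a_co.U5

open Finset

variable {V E : Type} [Fintype V] [DecidableEq V] [Fintype E] [DecidableEq E]
variable {s t : E → V} {W U : Finset V} {r : V}

/-! ### Weakening the constants -/

lemma iv_cond_le {Ω : Type} {μ : (E → K) → Law Ω} {C : (E → K) → Prop} {A : Ω → Prop} {p q : ℝ}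
    (h : Cond s t r μ C A p) (hq : q ≤ p) : Cond s t r μ C A q :=
  fun π h1 h2 => hq.trans (h π h1 h2)

lemma iv_un_le {Ω : Type} {μ : (E → K) → Law Ω} {A : Ω → Prop} {p q : ℝ}
    (h : Un s t r μ A p) (hq : q ≤ p) : Un s t r μ A q := iv_cond_le h hq

lemma iv_cne_le {Ω : Type} {μ : (E → K) → Law Ω} {A : Ω → Prop} {p q : ℝ}
    (h : Cne s t r μ A p) (hq : q ≤ p) : Cne s t r μ A q := by
  obtain ⟨g, g', h1, h2, h3, h4⟩ := h
  exact ⟨g, g', h1, h2, h3, iv_cond_le h4 hq⟩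

lemma iv_ceq_le {Ω : Type} {μ : (E → K) → Law Ω} {A : Ω → Prop} {p q : ℝ}
    (h : Ceq s t r μ A p) (hq : q ≤ p) : Ceq s t r μ A q := by
  obtain ⟨g, g', h1, h2, h3, h4⟩ := h
  exact ⟨g, g', h1, h2, h3, iv_cond_le h4 hq⟩

/-! ### The final law of a core -/

open Classical in
/-- The flows in `Phi`. -/
noncomputable def ivS (s t : E → V) (r : V) (ω : K × (E → K)) : Finset (E → K) :=
  univ.filter (Phi s t r ω)

lemma iv_mem {ω : K × (E → K)} {ψ : E → K} : ψ ∈ ivS s t r ω ↔ Phi s t r ω ψ := by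
  simp [ivS]

set_option synthInstance.maxSize 1024 in
lemma iv_k1 : ∀ w a b c : K, w ≠ 0 → a ≠ 0 → b ≠ 0 → c ≠ 0 → (a = w ↔ b = w) → (b = w ↔ c = w) →
    a - b + c ≠ 0 ∧ (a - b + c = w ↔ a = w) := by decide

lemma iv_closed {ω : K × (E → K)} (hy : ω.1 ≠ 0) :
    ∀ a ∈ ivS s t r ω, ∀ b ∈ ivS s t r ω, ∀ c ∈ ivS s t r ω, a - b + c ∈ ivS s t r ω := by
  intro a ha b hb c hc
  rw [iv_mem] at ha hb hc ⊢
  have k2 : ∀ a b : K, a - b = a + b := by decide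
  have k := fun e => iv_k1 ω.1 (a e) (b e) (c e) hy (ha.1.1 e) (hb.1.1 e) (hc.1.1 e)
    ((ha.2.1 e).trans (hb.2.1 e).symm) ((hb.2.1 e).trans (hc.2.1 e).symm)
  refine ⟨⟨fun e => (k e).1, fun X => ?_⟩, fun e => (k e).2.trans (ha.2.1 e), fun e he => ?_⟩
  · have : a - b = a + b := funext fun e => k2 _ _
    rw [this, cs_add, cs_add, ha.1.2, hb.1.2, hc.1.2, add_zero, add_zero]
  · show a e - b e + c e = ω.2 e
    rw [ha.2.2 e he, hb.2.2 e he, hc.2.2 e he, sub_add_cancel]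

lemma iv_pair {ω : K × (E → K)} (hy : ω.1 ≠ 0) (p q : E) {ψ : E → K} (hψ : Phi s t r ω ψ) :
    (1 / 4 : ℝ) ≤ (Law.unif (ivS s t r ω)).pr fun φ => φ p + φ q = ψ p + ψ q := by
  have h := Law.pr_unif_affine (iv_closed (s := s) (t := t) (r := r) hy)
    (fun φ : E → K => φ p + φ q) (fun a b c => by
      simp only [Pi.add_apply, Pi.sub_apply]; abel) (iv_mem.2 hψ)
  have hc : (Fintype.card K : ℝ) = 4 := by
    rw [show Fintype.card K = 4 by decide]; norm_num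
  rwa [hc] at h

lemma iv_ne {ω : K × (E → K)} (hy : ω.1 ≠ 0) {p q : E} (h : NeF s t r p q ω) :
    (1 / 4 : ℝ) ≤ (Law.unif (ivS s t r ω)).pr fun φ => φ p ≠ φ q := by
  obtain ⟨ψ, h1, h2⟩ := h
  have k : ∀ a b c d : K, a + b = c + d → c ≠ d → a ≠ b := by decide
  exact (iv_pair hy p q h1).trans (Law.pr_mono _ fun φ _ hφ => k _ _ _ _ hφ h2)

lemma iv_eq {ω : K × (E → K)} (hy : ω.1 ≠ 0) {p q : E} (h : EqF s t r p q ω) :
    (1 / 4 : ℝ) ≤ (Law.unif (ivS s t r ω)).pr fun φ => φ p = φ q := by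
  obtain ⟨ψ, h1, h2⟩ := h
  have k : ∀ a b c d : K, a + b = c + d → c = d → a = b := by decide
  exact (iv_pair hy p q h1).trans (Law.pr_mono _ fun φ _ hφ => k _ _ _ _ hφ h2)

lemma iv_mono {ω : K × (E → K)} (hy : ω.1 ≠ 0) {z : V} (h4 : d s t {z} = 4)
    (h : MoF s t r z ω) : (1 / 16 : ℝ) ≤ (Law.unif (ivS s t r ω)).pr (Mono s t z) := by
  obtain ⟨ψ, h1, h2⟩ := h
  obtain ⟨f₁, f₂, f₃, f₄, n12, n13, n14, n23, n24, n34, hF⟩ := Finset.card_eq_four.1 h4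
  have hm : ∀ e, cr s t {z} e ↔ e = f₁ ∨ e = f₂ ∨ e = f₃ ∨ e = f₄ := fun e => by
    have : e ∈ univ.filter (cr s t {z}) ↔ e ∈ ({f₁, f₂, f₃, f₄} : Finset E) := by rw [hF]
    simpa using this
  have h := Law.pr_unif_affine (iv_closed (s := s) (t := t) (r := r) hy)
    (fun φ : E → K => (φ f₁ + φ f₂, φ f₁ + φ f₃)) (fun a b c => by
      simp only [Pi.add_apply, Pi.sub_apply, Prod.mk_sub_mk, Prod.mk_add_mk, Prod.mk.injEq]
      constructor <;> abel) (iv_mem.2 h1)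
  have hc : (Fintype.card (K × K) : ℝ) = 16 := by
    rw [show Fintype.card (K × K) = 16 by decide]; norm_num
  rw [hc] at h
  refine h.trans (Law.pr_mono _ fun φ hφ hL => ?_)
  rw [Law.unif_supp ⟨ψ, iv_mem.2 h1⟩, iv_mem] at hφ
  have e2 : ψ f₁ = ψ f₂ := h2 _ _ ((hm _).2 (by simp)) ((hm _).2 (by simp))
  have e3 : ψ f₁ = ψ f₃ := h2 _ _ ((hm _).2 (by simp)) ((hm _).2 (by simp))
  rw [← e2, ← e3, K_add_self, Prod.mk.injEq] at hL
  have hs := hφ.1.2 {z}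
  rw [cs_eq_sum_filter, hF, Finset.sum_insert (by simp [n12, n13, n14]),
    Finset.sum_insert (by simp [n23, n24]), Finset.sum_pair n34] at hs
  have k : ∀ a b : K, a + b = 0 → b = a := by decide
  have k' : ∀ a b : K, a + (a + (a + b)) = 0 → b = a := by decide
  have a2 := k _ _ hL.1
  have a3 := k _ _ hL.2
  have a4 := k' _ _ (by rwa [a2, a3] at hs)
  have all : ∀ e, cr s t {z} e → φ e = φ f₁ := fun e he => by
    rcases (hm e).1 he with rfl | rfl | rfl | rfl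
    exacts [rfl, a2, a3, a4]
  exact fun e e' he he' => (all e he).trans (all e' he').symm

/-- The final law. -/
noncomputable def ivLaw (s t : E → V) (r : V) (ν : (E → K) → Law (K × (E → K))) (π : E → K) :
    Law (E → K) :=
  (ν π).bind fun ω => Law.unif (ivS s t r ω)

section Core

variable {ν : (E → K) → Law (K × (E → K))}

lemma iv_ext (L : CoreLaw s t W U r ν) (π : E → K) (hπ : Valid s t r π) (φ : E → K)
    (h : (ivLaw s t r ν π).supp φ) : Ext s t r π φ := by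
  obtain ⟨ω, h1, h2⟩ := Law.bind_supp.1 h
  obtain ⟨-, h3, -⟩ := L.ext π hπ ω h1
  rw [Law.unif_supp ⟨ω.2, iv_mem.2 (Phi.refl h3.1)⟩, iv_mem] at h2
  exact ⟨h2.1, fun e he => (h2.2.2 e he).trans (h3.2 e he)⟩

lemma iv_cond (L : CoreLaw s t W U r ν) {C : (E → K) → Prop} {B : K × (E → K) → Prop}
    {A : (E → K) → Prop} {p q : ℝ} (hq : 0 ≤ q) (h : Cond s t r ν C B p)
    (hB : ∀ ω : K × (E → K), ω.1 ≠ 0 → B ω → q ≤ (Law.unif (ivS s t r ω)).pr A) :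
    Cond s t r (ivLaw s t r ν) C A (p * q) := fun π h1 h2 =>
  Law.pr_bind _ _ hq (h π h1 h2) fun ω hω => hB ω (L.ext π h1 ω hω).1

lemma iv_pend (L : CoreLaw s t W U r ν) {p q : E} (h : Pend s t r ν p q) :
    ∃ g g', cr s t {r} g ∧ cr s t {r} g' ∧ g ≠ g' ∧ ∀ π, Valid s t r π → ∀ φ,
      (ivLaw s t r ν π).supp φ → φ p + φ q + π g + π g' = 0 := by
  obtain ⟨g, g', h1, h2, h3, ⟨X, hX⟩, -⟩ := h
  refine ⟨g, g', h1, h2, h3, fun π hπ φ hφ => ?_⟩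
  have h4 := iv_ext L π hπ φ hφ
  rw [← h4.2 g h1, ← h4.2 g' h2, ← hX, h4.1.2]

end Core

theorem inv_of_core (hU : ∀ u ∈ U, d s t {u} ≠ 4) {ν : (E → K) → Law (K × (E → K))}
    (L : CoreLaw s t W U r ν) : ∃ μ, InvLaw s t W r μ := by
  refine ⟨ivLaw s t r ν, iv_ext L, fun z _ _ _ f f' _ _ hf => ?_,
    fun z _ _ _ f f' _ _ _ => ?_, fun z hz hr h4 => ?_⟩
  · rcases L.ne f f' hf with h | h
    · exact Or.inl (iv_cond_le (iv_cond L (by norm_num) h fun ω hy => iv_ne hy) (by norm_num))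
    · obtain ⟨g, g', h1, h2, h3, h5⟩ := iv_pend L h
      have k : ∀ a b c d : K, a + b + c + d = 0 → c ≠ d → a ≠ b := by decide
      exact Or.inr ⟨g, g', h1, h2, h3, fun π hπ hC =>
        Law.one_le_pr _ fun φ hφ => k _ _ _ _ (h5 π hπ φ hφ) hC⟩
  · rcases L.eq f f' with h | ⟨g, g', h1, h2, h3, h⟩ | h
    · exact Or.inl (iv_cond_le (iv_cond L (by norm_num) h fun ω hy => iv_eq hy) (by norm_num))
    · exact Or.inr (Or.inl ⟨g, g', h1, h2, h3,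
        iv_cond_le (iv_cond L (by norm_num) h fun ω hy => iv_eq hy) (by norm_num)⟩)
    · obtain ⟨g, g', h1, h2, h3, h5⟩ := iv_pend L h
      have k : ∀ a b c d : K, a + b + c + d = 0 → c = d → a = b := by decide
      exact Or.inr (Or.inr ⟨g, g', h1, h2, h3, fun π hπ hC =>
        Law.one_le_pr _ fun φ hφ => k _ _ _ _ (h5 π hπ φ hφ) hC⟩)
  · rcases L.mono z hz (fun h => hU z h h4) hr with h | ⟨g, g', h1, h2, h3, h⟩ |
      ⟨g, g', h1, h2, h3, h⟩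
    · exact Or.inl (iv_cond_le (iv_cond L (by norm_num) h fun ω hy => iv_mono hy h4)
        (by norm_num))
    · exact Or.inr (Or.inl ⟨g, g', h1, h2, h3,
        iv_cond_le (iv_cond L (by norm_num) h fun ω hy => iv_mono hy h4) (by norm_num)⟩)
    · exact Or.inr (Or.inr ⟨g, g', h1, h2, h3,
        iv_cond_le (iv_cond L (by norm_num) h fun ω hy => iv_mono hy h4) (by norm_num)⟩)

/-! ### Gluing -/

lemma iv_cr_out {Y : Finset V} {y z : V} (hy : y ∈ Y) (hz : z ∉ Y) (e : E) :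
    cr (con Y y ∘ s) (con Y y ∘ t) {z} e ↔ cr s t {z} e := by
  have k : ∀ v, con Y y v = z ↔ v = z := fun v => by
    unfold con
    split_ifs with h
    · exact ⟨fun a => absurd (a ▸ hy) hz, fun a => absurd (a ▸ h) hz⟩
    · rfl
  unfold cr
  simp only [mem_singleton, Function.comp_apply, k]

lemma iv_cr_in {Y : Finset V} {y : V} (hy : y ∈ Y) (e : E) :
    cr (con Y y ∘ s) (con Y y ∘ t) {y} e ↔ cr s t Y e := by
  have k : ∀ v, con Y y v = y ↔ v ∈ Y := fun v => by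
    unfold con
    split_ifs with h
    · simp [h]
    · exact ⟨fun a => absurd (a ▸ hy) h, fun a => absurd a h⟩
  unfold cr
  simp only [mem_singleton, Function.comp_apply, k]

lemma iv_cs_of_cr {s' t' : E → V} {X Y : Finset V} (h : ∀ e, cr s' t' Y e ↔ cr s t X e)
    (φ : E → K) : cs s' t' φ Y = cs s t φ X := by
  simp only [cs, h]

lemma iv_d_of_cr {s' t' : E → V} {X Y : Finset V} (h : ∀ e, cr s' t' Y e ↔ cr s t X e) :
    d s' t' Y = d s t X := by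
  unfold d
  congr 1
  ext e
  simp [h]

/-- The glued colouring. -/
def ivGlue (s t : E → V) (X : Finset V) (φ₁ φ₂ : E → K) (e : E) : K :=
  if s e ∈ X ∨ t e ∈ X then φ₂ e else φ₁ e

/-- The glued law. -/
def ivGl (s t : E → V) (X : Finset V) (μ₁ μ₂ : (E → K) → Law (E → K)) (π : E → K) :
    Law (E → K) :=
  (μ₁ π).bind fun φ₁ => (μ₂ φ₁).map (ivGlue s t X φ₁)

section Glue

variable {X : Finset V} {x : V} {μ₁ μ₂ : (E → K) → Law (E → K)}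

lemma iv_cr_root (hr : r ∉ X) (e : E) :
    cr (con Xᶜ r ∘ s) (con Xᶜ r ∘ t) {r} e ↔ cr s t X e :=
  (iv_cr_in (mem_compl.2 hr) e).trans (cr_compl s t X e)

lemma iv_cr_child (hr : r ∉ X) {z : V} (hz : z ∈ X) (e : E) :
    cr (con Xᶜ r ∘ s) (con Xᶜ r ∘ t) {z} e ↔ cr s t {z} e :=
  iv_cr_out (mem_compl.2 hr) (fun h => mem_compl.1 h hz) e

lemma iv_glue_in {z : V} (hz : z ∈ X) {e : E} (he : cr s t {z} e) (φ₁ φ₂ : E → K) :
    ivGlue s t X φ₁ φ₂ e = φ₂ e := by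
  unfold ivGlue
  rw [if_pos]
  rcases (cr_single.1 he).2 with h | h
  exacts [Or.inl (h ▸ hz), Or.inr (h ▸ hz)]

lemma iv_glue_out (hr : r ∉ X) {z : V} (hz : z ∉ X) {e : E} (he : cr s t {z} e)
    {φ₁ φ₂ : E → K} (h : Ext (con Xᶜ r ∘ s) (con Xᶜ r ∘ t) r φ₁ φ₂) :
    ivGlue s t X φ₁ φ₂ e = φ₁ e := by
  unfold ivGlue
  split_ifs with h1
  · refine h.2 e ((iv_cr_root hr e).2 fun h2 => hz ?_)
    have h3 : s e ∈ X ∧ t e ∈ X := by tauto
    rcases (cr_single.1 he).2 with a | a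
    exacts [a ▸ h3.1, a ▸ h3.2]
  · rfl

lemma iv_valid₁ (hx : x ∈ X) (hr : r ∉ X) {π : E → K} (h : Valid s t r π) :
    Valid (con X x ∘ s) (con X x ∘ t) r π :=
  ⟨fun e he => h.1 e ((iv_cr_out hx hr e).1 he),
    (iv_cs_of_cr (iv_cr_out hx hr) π).trans h.2⟩

lemma iv_valid₂ (hx : x ∈ X) (hr : r ∉ X) {φ : E → K}
    (h : IsFlow (con X x ∘ s) (con X x ∘ t) φ) : Valid (con Xᶜ r ∘ s) (con Xᶜ r ∘ t) r φ :=
  ⟨fun e _ => h.1 e, (iv_cs_of_cr (iv_cr_root hr) φ).trans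
    ((iv_cs_of_cr (iv_cr_in hx) φ).symm.trans (h.2 _))⟩

lemma iv_glue_ext (hx : x ∈ X) (hr : r ∉ X) {π φ₁ φ₂ : E → K}
    (h₁ : Ext (con X x ∘ s) (con X x ∘ t) r π φ₁)
    (h₂ : Ext (con Xᶜ r ∘ s) (con Xᶜ r ∘ t) r φ₁ φ₂) : Ext s t r π (ivGlue s t X φ₁ φ₂) := by
  refine ⟨⟨fun e => ?_, cs_zero_of_vertices K_add_self fun v => ?_⟩, fun e he => ?_⟩
  · unfold ivGlue
    split_ifs
    exacts [h₂.1.1 e, h₁.1.1 e]
  · by_cases hv : v ∈ X
    · rw [cs_congr fun e he => iv_glue_in hv he φ₁ φ₂, ← iv_cs_of_cr (iv_cr_child hr hv)]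
      exact h₂.1.2 _
    · rw [cs_congr fun e he => iv_glue_out hr hv he h₂, ← iv_cs_of_cr (iv_cr_out hx hv)]
      exact h₁.1.2 _
  · rw [iv_glue_out hr hr he h₂]
    exact h₁.2 e ((iv_cr_out hx hr e).2 he)

/-- Under the condition `C` on the parent flow the glued flow satisfies `A` with probability
at least `q`. -/
def IvStep (s t : E → V) (X : Finset V) (r : V) (μ₂ : (E → K) → Law (E → K))
    (C A : (E → K) → Prop) (q : ℝ) : Prop :=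
  ∀ φ₁, Valid (con Xᶜ r ∘ s) (con Xᶜ r ∘ t) r φ₁ → C φ₁ →
    q ≤ (μ₂ φ₁).pr fun φ₂ => A (ivGlue s t X φ₁ φ₂)

variable {W₁ W₂ : Finset V}

/-- The composition lemma. -/
lemma iv_comp (hx : x ∈ X) (hr : r ∉ X) (L₁ : InvLaw (con X x ∘ s) (con X x ∘ t) W₁ r μ₁)
    {C' C A : (E → K) → Prop} {p q : ℝ} (hq : 0 ≤ q)
    (h₁ : Cond (con X x ∘ s) (con X x ∘ t) r μ₁ C' C p) (h₂ : IvStep s t X r μ₂ C A q) :
    Cond s t r (ivGl s t X μ₁ μ₂) C' A (p * q) := fun π hπ hC =>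
  Law.pr_bind _ _ hq (h₁ π (iv_valid₁ hx hr hπ) hC) fun φ₁ h1 h2 =>
    h₂ φ₁ (iv_valid₂ hx hr (L₁.ext π (iv_valid₁ hx hr hπ) φ₁ h1).1) h2

lemma iv_comp_un (hx : x ∈ X) (hr : r ∉ X) (L₁ : InvLaw (con X x ∘ s) (con X x ∘ t) W₁ r μ₁)
    {C A : (E → K) → Prop} {p q : ℝ} (hq : 0 ≤ q)
    (h₁ : Un (con X x ∘ s) (con X x ∘ t) r μ₁ C p) (h₂ : IvStep s t X r μ₂ C A q) :
    Un s t r (ivGl s t X μ₁ μ₂) A (p * q) := iv_comp hx hr L₁ hq h₁ h₂

lemma iv_comp_ne (hx : x ∈ X) (hr : r ∉ X) (L₁ : InvLaw (con X x ∘ s) (con X x ∘ t) W₁ r μ₁)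
    {C A : (E → K) → Prop} {p q : ℝ} (hq : 0 ≤ q)
    (h₁ : Cne (con X x ∘ s) (con X x ∘ t) r μ₁ C p) (h₂ : IvStep s t X r μ₂ C A q) :
    Cne s t r (ivGl s t X μ₁ μ₂) A (p * q) := by
  obtain ⟨g, g', a, b, c, h⟩ := h₁
  exact ⟨g, g', (iv_cr_out hx hr g).1 a, (iv_cr_out hx hr g').1 b, c, iv_comp hx hr L₁ hq h h₂⟩

lemma iv_comp_eq (hx : x ∈ X) (hr : r ∉ X) (L₁ : InvLaw (con X x ∘ s) (con X x ∘ t) W₁ r μ₁)
    {C A : (E → K) → Prop} {p q : ℝ} (hq : 0 ≤ q)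
    (h₁ : Ceq (con X x ∘ s) (con X x ∘ t) r μ₁ C p) (h₂ : IvStep s t X r μ₂ C A q) :
    Ceq s t r (ivGl s t X μ₁ μ₂) A (p * q) := by
  obtain ⟨g, g', a, b, c, h⟩ := h₁
  exact ⟨g, g', (iv_cr_out hx hr g).1 a, (iv_cr_out hx hr g').1 b, c, iv_comp hx hr L₁ hq h h₂⟩

/-- The event `A` only depends on the colours at `z`. -/
def IvLoc (s t : E → V) (z : V) (A : (E → K) → Prop) : Prop :=
  ∀ φ ψ, (∀ e, cr s t {z} e → φ e = ψ e) → A ψ → A φ

lemma iv_step_out (hr : r ∉ X) (L₂ : InvLaw (con Xᶜ r ∘ s) (con Xᶜ r ∘ t) W₂ r μ₂) {z : V}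
    (hz : z ∉ X) {A : (E → K) → Prop} (hA : IvLoc s t z A) : IvStep s t X r μ₂ A A 1 :=
  fun φ₁ h1 h2 => Law.one_le_pr _ fun φ₂ h3 =>
    hA _ _ (fun _ he => iv_glue_out hr hz he (L₂.ext φ₁ h1 φ₂ h3)) h2

lemma iv_step_in {z : V} (hz : z ∈ X) {C A : (E → K) → Prop} (hA : IvLoc s t z A) {q : ℝ}
    (h : Cond (con Xᶜ r ∘ s) (con Xᶜ r ∘ t) r μ₂ C A q) : IvStep s t X r μ₂ C A q :=
  fun φ₁ h1 h2 => (h φ₁ h1 h2).trans (Law.pr_mono _ fun φ₂ _ h3 =>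
    hA _ _ (fun _ he => iv_glue_in hz he φ₁ φ₂) h3)

lemma iv_un_true {s t : E → V} (μ : (E → K) → Law (E → K)) : Un s t r μ (fun _ => True) 1 :=
  fun _ _ _ => Law.one_le_pr _ fun _ _ => trivial

/-- Two-way status of an event. -/
def IvTwo (s t : E → V) (r : V) (μ : (E → K) → Law (E → K)) (A : (E → K) → Prop) (c : ℝ) : Prop :=
  Un s t r μ A (1 / 240 * c) ∨ Cne s t r μ A c

/-- Three-way status of an event. -/
def IvThree (s t : E → V) (r : V) (μ : (E → K) → Law (E → K)) (A : (E → K) → Prop) (c : ℝ) :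
    Prop :=
  Un s t r μ A (1 / 240 * (1 / 240 * c)) ∨ Cne s t r μ A (1 / 240 * c) ∨ Ceq s t r μ A c

lemma iv_two_out (hx : x ∈ X) (hr : r ∉ X) (L₁ : InvLaw (con X x ∘ s) (con X x ∘ t) W₁ r μ₁)
    (L₂ : InvLaw (con Xᶜ r ∘ s) (con Xᶜ r ∘ t) W₂ r μ₂) {z : V} (hz : z ∉ X)
    {A : (E → K) → Prop} (hA : IvLoc s t z A) {c : ℝ}
    (h : IvTwo (con X x ∘ s) (con X x ∘ t) r μ₁ A c) : IvTwo s t r (ivGl s t X μ₁ μ₂) A c := by
  have k := iv_step_out hr L₂ hz hA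
  rcases h with h | h
  · exact Or.inl (iv_un_le (iv_comp_un hx hr L₁ zero_le_one h k) (mul_one _).ge)
  · exact Or.inr (iv_cne_le (iv_comp_ne hx hr L₁ zero_le_one h k) (mul_one _).ge)

lemma iv_three_out (hx : x ∈ X) (hr : r ∉ X) (L₁ : InvLaw (con X x ∘ s) (con X x ∘ t) W₁ r μ₁)
    (L₂ : InvLaw (con Xᶜ r ∘ s) (con Xᶜ r ∘ t) W₂ r μ₂) {z : V} (hz : z ∉ X)
    {A : (E → K) → Prop} (hA : IvLoc s t z A) {c : ℝ}
    (h : IvThree (con X x ∘ s) (con X x ∘ t) r μ₁ A c) :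
    IvThree s t r (ivGl s t X μ₁ μ₂) A c := by
  have k := iv_step_out hr L₂ hz hA
  rcases h with h | h | h
  · exact Or.inl (iv_un_le (iv_comp_un hx hr L₁ zero_le_one h k) (mul_one _).ge)
  · exact Or.inr (Or.inl (iv_cne_le (iv_comp_ne hx hr L₁ zero_le_one h k) (mul_one _).ge))
  · exact Or.inr (Or.inr (iv_ceq_le (iv_comp_eq hx hr L₁ zero_le_one h k) (mul_one _).ge))

/-- A child bound conditional on two cut edges being different. -/
lemma iv_ne_in (hx : x ∈ X) (hr : r ∉ X) (h4 : d s t X = 4) (hW : x ∈ W₁)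
    (L₁ : InvLaw (con X x ∘ s) (con X x ∘ t) W₁ r μ₁) {z : V} (hz : z ∈ X)
    {A : (E → K) → Prop} (hA : IvLoc s t z A) {c : ℝ} (hc : 0 ≤ c)
    (h : Cne (con Xᶜ r ∘ s) (con Xᶜ r ∘ t) r μ₂ A c) : IvTwo s t r (ivGl s t X μ₁ μ₂) A c := by
  obtain ⟨g, g', a, b, n, h⟩ := h
  have k := iv_step_in hz hA h
  rcases L₁.ne x hW (fun h => hr (h ▸ hx)) ((iv_d_of_cr (iv_cr_in hx)).trans h4) g g'
    ((iv_cr_in hx g).2 ((iv_cr_root hr g).1 a)) ((iv_cr_in hx g').2 ((iv_cr_root hr g').1 b)) n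
    with h1 | h1
  · exact Or.inl (iv_comp_un hx hr L₁ hc h1 k)
  · exact Or.inr (iv_cne_le (iv_comp_ne hx hr L₁ hc h1 k) (one_mul _).ge)

/-- A child bound conditional on two cut edges being equal. -/
lemma iv_eq_in (hx : x ∈ X) (hr : r ∉ X) (h4 : d s t X = 4) (hW : x ∈ W₁)
    (L₁ : InvLaw (con X x ∘ s) (con X x ∘ t) W₁ r μ₁) {z : V} (hz : z ∈ X)
    {A : (E → K) → Prop} (hA : IvLoc s t z A) {c : ℝ} (hc : 0 ≤ c)
    (h : Ceq (con Xᶜ r ∘ s) (con Xᶜ r ∘ t) r μ₂ A c) : IvThree s t r (ivGl s t X μ₁ μ₂) A c := by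
  obtain ⟨g, g', a, b, n, h⟩ := h
  have k := iv_step_in hz hA h
  rcases L₁.eq x hW (fun h => hr (h ▸ hx)) ((iv_d_of_cr (iv_cr_in hx)).trans h4) g g'
    ((iv_cr_in hx g).2 ((iv_cr_root hr g).1 a)) ((iv_cr_in hx g').2 ((iv_cr_root hr g').1 b)) n
    with h1 | h1 | h1
  · exact Or.inl (iv_un_le (iv_comp_un hx hr L₁ hc h1 k) (mul_assoc _ _ _).ge)
  · exact Or.inr (Or.inl (iv_comp_ne hx hr L₁ hc h1 k))
  · exact Or.inr (Or.inr (iv_ceq_le (iv_comp_eq hx hr L₁ hc h1 k) (one_mul _).ge))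

lemma iv_un_in (hx : x ∈ X) (hr : r ∉ X) (L₁ : InvLaw (con X x ∘ s) (con X x ∘ t) W₁ r μ₁)
    {z : V} (hz : z ∈ X) {A : (E → K) → Prop} (hA : IvLoc s t z A) {c : ℝ} (hc : 0 ≤ c)
    (h : Un (con Xᶜ r ∘ s) (con Xᶜ r ∘ t) r μ₂ A c) : Un s t r (ivGl s t X μ₁ μ₂) A c :=
  iv_un_le (iv_comp_un hx hr L₁ hc (iv_un_true μ₁) (iv_step_in hz hA h)) (one_mul _).ge

lemma iv_two_in (hx : x ∈ X) (hr : r ∉ X) (h4 : d s t X = 4) (hW : x ∈ W₁)
    (L₁ : InvLaw (con X x ∘ s) (con X x ∘ t) W₁ r μ₁) {z : V} (hz : z ∈ X)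
    {A : (E → K) → Prop} (hA : IvLoc s t z A) {c : ℝ} (hc : 0 ≤ c)
    (h : IvTwo (con Xᶜ r ∘ s) (con Xᶜ r ∘ t) r μ₂ A c) : IvTwo s t r (ivGl s t X μ₁ μ₂) A c := by
  rcases h with h | h
  · exact Or.inl (iv_un_in hx hr L₁ hz hA (by positivity) h)
  · exact iv_ne_in hx hr h4 hW L₁ hz hA hc h

lemma iv_three_in (hx : x ∈ X) (hr : r ∉ X) (h4 : d s t X = 4) (hW : x ∈ W₁)
    (L₁ : InvLaw (con X x ∘ s) (con X x ∘ t) W₁ r μ₁) {z : V} (hz : z ∈ X)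
    {A : (E → K) → Prop} (hA : IvLoc s t z A) {c : ℝ} (hc : 0 ≤ c)
    (h : IvThree (con Xᶜ r ∘ s) (con Xᶜ r ∘ t) r μ₂ A c) :
    IvThree s t r (ivGl s t X μ₁ μ₂) A c := by
  rcases h with h | h | h
  · exact Or.inl (iv_un_in hx hr L₁ hz hA (by positivity) h)
  · rcases iv_ne_in hx hr h4 hW L₁ hz hA (by positivity) h with h1 | h1
    exacts [Or.inl h1, Or.inr (Or.inl h1)]
  · exact iv_eq_in hx hr h4 hW L₁ hz hA hc h

end Glue

theorem glue_law {X : Finset V} {x : V} (hx : x ∈ X) (hr : r ∉ X) (h4 : d s t X = 4)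
    {μ₁ μ₂ : (E → K) → Law (E → K)}
    (L₁ : InvLaw (con X x ∘ s) (con X x ∘ t) (insert x (W \ X)) r μ₁)
    (L₂ : InvLaw (con Xᶜ r ∘ s) (con Xᶜ r ∘ t) (insert r (W ∩ X)) r μ₂) :
    ∃ μ, InvLaw s t W r μ := by
  have hW : x ∈ insert x (W \ X) := mem_insert_self _ _
  have m1 : ∀ z ∈ W, z ∉ X → z ∈ insert x (W \ X) := fun z a b =>
    mem_insert_of_mem (mem_sdiff.2 ⟨a, b⟩)
  have m2 : ∀ z ∈ W, z ∈ X → z ∈ insert r (W ∩ X) := fun z a b =>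
    mem_insert_of_mem (mem_inter.2 ⟨a, b⟩)
  refine ⟨ivGl s t X μ₁ μ₂, fun π hπ φ hφ => ?_, fun z hz hzr hd f f' hf hf' n => ?_,
    fun z hz hzr hd f f' hf hf' n => ?_, fun z hz hzr hd => ?_⟩
  · obtain ⟨φ₁, h1, φ₂, h2, rfl⟩ := hφ
    have e1 := L₁.ext π (iv_valid₁ hx hr hπ) φ₁ h1
    exact iv_glue_ext hx hr e1 (L₂.ext φ₁ (iv_valid₂ hx hr e1.1) φ₂ h2)
  · have hA : IvLoc s t z fun φ => φ f ≠ φ f' := fun φ ψ h1 h2 => by
      show φ f ≠ φ f'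
      rwa [h1 f hf, h1 f' hf']
    have key : IvTwo s t r (ivGl s t X μ₁ μ₂) (fun φ => φ f ≠ φ f') 1 := by
      by_cases hX : z ∈ X
      · refine iv_two_in hx hr h4 hW L₁ hX hA zero_le_one ?_
        unfold IvTwo
        rw [mul_one]
        exact L₂.ne z (m2 z hz hX) hzr ((iv_d_of_cr (iv_cr_child hr hX)).trans hd) f f'
          ((iv_cr_child hr hX f).2 hf) ((iv_cr_child hr hX f').2 hf') n
      · refine iv_two_out hx hr L₁ L₂ hX hA ?_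
        unfold IvTwo
        rw [mul_one]
        exact L₁.ne z (m1 z hz hX) hzr ((iv_d_of_cr (iv_cr_out hx hX)).trans hd) f f'
          ((iv_cr_out hx hX f).2 hf) ((iv_cr_out hx hX f').2 hf') n
    unfold IvTwo at key
    rwa [mul_one] at key
  · have hA : IvLoc s t z fun φ => φ f = φ f' := fun φ ψ h1 h2 => by
      show φ f = φ f'
      rwa [h1 f hf, h1 f' hf']
    have key : IvThree s t r (ivGl s t X μ₁ μ₂) (fun φ => φ f = φ f') 1 := by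
      by_cases hX : z ∈ X
      · refine iv_three_in hx hr h4 hW L₁ hX hA zero_le_one ?_
        unfold IvThree
        rw [mul_one]
        exact L₂.eq z (m2 z hz hX) hzr ((iv_d_of_cr (iv_cr_child hr hX)).trans hd) f f'
          ((iv_cr_child hr hX f).2 hf) ((iv_cr_child hr hX f').2 hf') n
      · refine iv_three_out hx hr L₁ L₂ hX hA ?_
        unfold IvThree
        rw [mul_one]
        exact L₁.eq z (m1 z hz hX) hzr ((iv_d_of_cr (iv_cr_out hx hX)).trans hd) f f'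
          ((iv_cr_out hx hX f).2 hf) ((iv_cr_out hx hX f').2 hf') n
    unfold IvThree at key
    rwa [mul_one] at key
  · have hA : IvLoc s t z (Mono s t z) := fun φ ψ h1 h2 e e' he he' => by
      rw [h1 e he, h1 e' he']
      exact h2 e e' he he'
    by_cases hX : z ∈ X
    · have hm : Mono (con Xᶜ r ∘ s) (con Xᶜ r ∘ t) z = Mono s t z := by
        funext φ
        simp only [Mono, iv_cr_child hr hX]
      refine iv_three_in hx hr h4 hW L₁ hX hA (by norm_num) ?_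
      rw [← hm]
      exact L₂.mono z (m2 z hz hX) hzr ((iv_d_of_cr (iv_cr_child hr hX)).trans hd)
    · have hm : Mono (con X x ∘ s) (con X x ∘ t) z = Mono s t z := by
        funext φ
        simp only [Mono, iv_cr_out hx hX]
      refine iv_three_out hx hr L₁ L₂ hX hA ?_
      rw [← hm]
      exact L₁.mono z (m1 z hz hX) hzr ((iv_d_of_cr (iv_cr_out hx hX)).trans hd)

end Pool.Agent.Lib.MP_a48b5a_co.U5
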