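import Pool.Agent.Lib.MP_a48b5a_co.U5Basic

/-!
# Lifting the law along a splitting
-/

set_option autoImplicit false
set_option linter.unusedSectionVars false

namespace Pool.Agent.Lib.MP_a48b5a_co.U5

open Finset

variable {V E : Type} [Fintype V] [DecidableEq V] [Fintype E] [DecidableEq E]
variable {s t : E → V} {W U : Finset V} {r : V}

/-- The facts about a splitting that the lifting uses. -/
structure SF (s t s' t' : E → V) (U : Finset V) (r z : V) (f₁ f₂ f₃ f₄ : E) (x₁ x₂ x₃ x₄ : V)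
    (ρ : E → E) : Prop where
  j1 : Joins s t f₁ z x₁
  j2 : Joins s t f₂ z x₂
  j3 : Joins s t f₃ z x₃
  j4 : Joins s t f₄ z x₄
  z1 : x₁ ≠ z
  z2 : x₂ ≠ z
  z3 : x₃ ≠ z
  z4 : x₄ ≠ z
  n12 : f₁ ≠ f₂
  n13 : f₁ ≠ f₃
  n14 : f₁ ≠ f₄
  n23 : f₂ ≠ f₃
  n24 : f₂ ≠ f₄
  n34 : f₃ ≠ f₄
  all : ∀ e, cr s t {z} e → e = f₁ ∨ e = f₂ ∨ e = f₃ ∨ e = f₄
  s1 : s' f₁ = x₁
  t1 : t' f₁ = x₂
  s3 : s' f₃ = x₃
  t3 : t' f₃ = x₄
  l2 : s' f₂ = t' f₂
  l4 : s' f₄ = t' f₄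
  rest : ∀ e, e ≠ f₁ → e ≠ f₂ → e ≠ f₃ → e ≠ f₄ → s' e = s e ∧ t' e = t e
  ρ2 : ρ f₂ = f₁
  ρ4 : ρ f₄ = f₃
  ρo : ∀ e, e ≠ f₂ → e ≠ f₄ → ρ e = e
  csK : ∀ (φ : E → K) (X : Finset V), cs s t (fun e => φ (ρ e)) X = cs s' t' φ X
  csZ : ∀ (φ : E → ZMod 2) (X : Finset V), cs s t (fun e => φ (ρ e)) X = cs s' t' φ X
  zU : z ∉ U
  zr : z ≠ r
  r2 : x₂ ≠ r
  r4 : x₄ ≠ r
  u12 : x₁ = x₂ → x₁ ∈ U
  u34 : x₃ = x₄ → x₃ ∈ U
  Une : U.Nonempty
  rU : r ∉ U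

variable {s₁ t₁ s' t' : E → V} {z : V} {f₁ f₂ f₃ f₄ : E} {x₁ x₂ x₃ x₄ : V} {ρ : E → E}

lemma Joins.mem {f : E} {x : V} (h : Joins s t f z x) (hx : x ≠ z) (g : G4 s t W) : x ∈ W := by
  rcases h with ⟨a, b⟩ | ⟨a, b⟩
  · exact b ▸ (g.ends f (by rw [a, b]; exact hx.symm)).2
  · exact a ▸ (g.ends f (by rw [a, b]; exact hx)).1

lemma sf_of_split (h : Core s t W U r) (hU : z ∉ U) (hr : z ≠ r)
    (sp : Split s t s₁ t₁ s' t' z f₁ f₂ f₃ f₄ x₁ x₂ x₃ x₄) (n2 : ¬ cr s t {r} f₂)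
    (n4 : ¬ cr s t {r} f₄) (h' : Core s' t' (W.erase z) U r) :
    SF s t s' t' U r z f₁ f₂ f₃ f₄ x₁ x₂ x₃ x₄ fun e => rep f₃ f₄ (rep f₁ f₂ e) := by
  have a3 := sp.m1.rest f₃ sp.n13.symm sp.n23.symm
  have a4 := sp.m1.rest f₄ sp.n14.symm sp.n24.symm
  have b1 := sp.m2.rest f₁ sp.n13 sp.n14
  have b2 := sp.m2.rest f₂ sp.n23 sp.n24
  have j3 : Joins s t f₃ z x₃ := by
    have := sp.m2.hf
    unfold Joins at this ⊢
    rwa [a3.1, a3.2] at this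
  have j4 : Joins s t f₄ z x₄ := by
    have := sp.m2.hf'
    unfold Joins at this ⊢
    rwa [a4.1, a4.2] at this
  have r2 : x₂ ≠ r := fun e => n2 (by rw [sp.m1.hf'.cr_iff]; simp [hr, e])
  have r4 : x₄ ≠ r := fun e => n4 (by rw [j4.cr_iff]; simp [hr, e])
  have key : ∀ x ∈ W, x ≠ z → x ∉ U → ¬ (x₁ = x ∧ x₂ = x) ∧ ¬ (x₃ = x ∧ x₄ = x) := by
    intro x hx hxz hxU
    have hz : z ∉ ({x} : Finset V) := by simpa using hxz.symm
    have e1 := sp.m1.d_eq hz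
    have e2 := sp.m2.d_eq hz
    have e3 := h.d4 x hx hxU
    have e4 := h'.d4 x (mem_erase.2 ⟨hxz, hx⟩) hxU
    simp only [mem_singleton] at e1 e2
    constructor <;> intro hc <;> simp [hc.1, hc.2] at e1 e2 <;> omega
  refine ⟨sp.m1.hf, sp.m1.hf', j3, j4, sp.m1.xz, sp.m1.xz', sp.m2.xz, sp.m2.xz', sp.m1.ne,
    sp.n13, sp.n14, sp.n23, sp.n24, sp.m2.ne, sp.all, b1.1.trans sp.m1.sf, b1.2.trans sp.m1.tf,
    sp.m2.sf, sp.m2.tf, by rw [b2.1, b2.2, sp.m1.loop], sp.m2.loop, fun e c1 c2 c3 c4 => ?_,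
    by simp [rep_of_ne sp.n14], by simp [rep_of_ne sp.n24.symm],
    fun e c2 c4 => by rw [rep_of_ne c2, rep_of_ne c4], fun φ X => ?_, fun φ X => ?_, hU, hr, r2, r4,
    fun e => ?_, fun e => ?_, h.Une, h.rU⟩
  · exact ⟨(sp.m2.rest e c3 c4).1.trans (sp.m1.rest e c1 c2).1,
      (sp.m2.rest e c3 c4).2.trans (sp.m1.rest e c1 c2).2⟩
  · exact (sp.m1.cs_rep K_add_self (fun e => φ (rep f₃ f₄ e)) X).trans
      (sp.m2.cs_rep K_add_self φ X)
  · exact (sp.m1.cs_rep Z2_add_self (fun e => φ (rep f₃ f₄ e)) X).trans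
      (sp.m2.cs_rep Z2_add_self φ X)
  · by_contra hc
    exact (key x₁ (sp.m1.hf.mem sp.m1.xz h.toG4) sp.m1.xz hc).1 ⟨rfl, e.symm⟩
  · by_contra hc
    exact (key x₃ (j3.mem sp.m2.xz h.toG4) sp.m2.xz hc).2 ⟨rfl, e.symm⟩

lemma lg1 (z a b P R : Prop) : (¬ (z ↔ a) → P ∨ R) → (¬ (z ↔ b) → P) → ¬ (a ↔ b) → P ∨ R := by
  by_cases z <;> by_cases a <;> by_cases b <;> simp_all

lemma lg2 (z a b P : Prop) : (¬ (z ↔ b) → P) → z ∨ a ∨ b → ¬ (a ∨ b) → P := by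
  by_cases z <;> by_cases a <;> by_cases b <;> simp_all

lemma toggle (a b y : K) (cp cq : ZMod 2) (hy : y ≠ 0) (ha : a ≠ 0) (hb : b ≠ 0) (hay : a ≠ y)
    (hby : b ≠ y) (h : cp + cq = 1) :
    (a = b → a + cp • y ≠ b + cq • y) ∧ (a ≠ b → a + cp • y = b + cq • y) := by
  have k1 : ∀ (a y : K) (cp cq : ZMod 2), y ≠ 0 → cp + cq = 1 → a + cp • y ≠ a + cq • y := by
    decide
  have k2 : ∀ a b y : K, y ≠ 0 → a ≠ 0 → b ≠ 0 → a ≠ y → b ≠ y → a ≠ b → a = b + y := by decide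
  have k3 : ∀ (b y : K) (cp cq : ZMod 2), cp + cq = 1 → b + y + cp • y = b + cq • y := by decide
  refine ⟨fun e => e ▸ k1 _ _ _ _ hy h, fun e => ?_⟩
  rw [k2 a b y hy ha hb hay hby e]
  exact k3 _ _ _ _ h

namespace SF

variable (F : SF s t s' t' U r z f₁ f₂ f₃ f₄ x₁ x₂ x₃ x₄ ρ)
include F

lemma ρ1 : ρ f₁ = f₁ := F.ρo _ F.n12 F.n14

lemma ρ3 : ρ f₃ = f₃ := F.ρo _ F.n23.symm F.n34

lemma cr1 (X : Finset V) : cr s' t' X f₁ ↔ ¬ (x₁ ∈ X ↔ x₂ ∈ X) := by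
  unfold cr; rw [F.s1, F.t1]

lemma cr3 (X : Finset V) : cr s' t' X f₃ ↔ ¬ (x₃ ∈ X ↔ x₄ ∈ X) := by
  unfold cr; rw [F.s3, F.t3]

lemma cr2 (X : Finset V) : ¬ cr s' t' X f₂ := by
  unfold cr; rw [F.l2]; simp

lemma cr4 (X : Finset V) : ¬ cr s' t' X f₄ := by
  unfold cr; rw [F.l4]; simp

lemma cro (X : Finset V) {e : E} (c1 : e ≠ f₁) (c2 : e ≠ f₂) (c3 : e ≠ f₃) (c4 : e ≠ f₄) :
    cr s' t' X e ↔ cr s t X e := by
  unfold cr; rw [(F.rest e c1 c2 c3 c4).1, (F.rest e c1 c2 c3 c4).2]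

lemma nr2 : ¬ cr s t {r} f₂ := by rw [F.j2.cr_iff]; simp [F.zr, F.r2]

lemma nr4 : ¬ cr s t {r} f₄ := by rw [F.j4.cr_iff]; simp [F.zr, F.r4]

lemma root (e : E) : cr s' t' {r} e ↔ cr s t {r} e := by
  by_cases c1 : e = f₁
  · rw [c1, F.cr1, F.j1.cr_iff]; simp [F.zr, F.r2]
  by_cases c2 : e = f₂
  · rw [c2]; simp [F.cr2, F.nr2]
  by_cases c3 : e = f₃
  · rw [c3, F.cr3, F.j3.cr_iff]; simp [F.zr, F.r4]
  by_cases c4 : e = f₄
  · rw [c4]; simp [F.cr4, F.nr4]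
  exact F.cro _ c1 c2 c3 c4

lemma ρroot {e : E} (h : cr s t {r} e) : ρ e = e :=
  F.ρo e (fun c => F.nr2 (c ▸ h)) (fun c => F.nr4 (c ▸ h))

lemma valid {π : E → K} (h : Valid s t r π) : Valid s' t' r π :=
  ⟨fun e he => h.1 e ((F.root e).1 he), by
    rw [← h.2]; unfold cs; simp only [F.root]⟩

lemma flow {φ : E → K} (h : IsFlow s' t' φ) : IsFlow s t fun e => φ (ρ e) :=
  ⟨fun _ => h.1 _, fun X => (F.csK φ X).trans (h.2 X)⟩

lemma ext {π φ : E → K} (h : Ext s' t' r π φ) : Ext s t r π fun e => φ (ρ e) :=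
  ⟨F.flow h.1, fun e he => by
    show φ (ρ e) = π e
    rw [F.ρroot he]; exact h.2 e ((F.root e).2 he)⟩

lemma phi {ω : K × (E → K)} {ψ : E → K} (h : Phi s' t' r ω ψ) :
    Phi s t r (ω.1, fun e => ω.2 (ρ e)) fun e => ψ (ρ e) :=
  ⟨F.flow h.1, fun e => h.2.1 (ρ e), fun e he => by
    show ψ (ρ e) = ω.2 (ρ e)
    rw [F.ρroot he]; exact h.2.2 e ((F.root e).2 he)⟩

lemma not_z {e : E} (hl : s e ≠ t e) (c1 : e ≠ f₁) (c2 : e ≠ f₂) (c3 : e ≠ f₃) (c4 : e ≠ f₄) :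
    s e ≠ z ∧ t e ≠ z := by
  have : ¬ cr s t {z} e := fun h => by
    rcases F.all e h with h | h | h | h <;> contradiction
  rw [cr_single] at this
  tauto

lemma conn {ω : K × (E → K)} (h : Conn s' t' U r ω) :
    Conn s t U r (ω.1, fun e => ω.2 (ρ e)) := by
  intro X hr hX
  have k1 := hX f₁
  have k2 := hX f₂
  have k3 := hX f₃
  have k4 := hX f₄
  simp only [F.ρ1, F.ρ2, F.ρ3, F.ρ4, F.j1.cr_iff X, F.j2.cr_iff X, F.j3.cr_iff X,
    F.j4.cr_iff X, F.nr2, F.nr4, or_false] at k1 k2 k3 k4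
  obtain ⟨h1, h2⟩ := h (X.erase z) (fun c => hr (mem_of_mem_erase c)) (fun e he => by
    rw [F.root]
    by_cases c1 : e = f₁
    · subst c1
      rw [F.cr1] at he
      simp only [mem_erase, ne_eq, F.z1, F.z2, not_false_eq_true, true_and] at he
      exact lg1 _ _ _ _ _ k1 k2 he
    by_cases c2 : e = f₂
    · exact absurd (c2 ▸ he) (F.cr2 _)
    by_cases c3 : e = f₃
    · subst c3
      rw [F.cr3] at he
      simp only [mem_erase, ne_eq, F.z3, F.z4, not_false_eq_true, true_and] at he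
      exact lg1 _ _ _ _ _ k3 k4 he
    by_cases c4 : e = f₄
    · exact absurd (c4 ▸ he) (F.cr4 _)
    rw [F.cro _ c1 c2 c3 c4] at he
    have hz := F.not_z (ne_of_cr he) c1 c2 c3 c4
    have := hX e (by
      unfold cr at he ⊢
      simpa [hz.1, hz.2] using he)
    simpa only [F.ρo e c2 c4] using this)
  refine ⟨fun ⟨⟨u, a1, a2⟩, v, a3, a4⟩ => h1 ⟨⟨u, a1, mem_erase.2 ⟨fun c => F.zU (c ▸ a1), a2⟩⟩,
    v, a3, fun c => a4 (mem_of_mem_erase c)⟩, fun hU e hl he => ?_⟩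
  have h3 := h2 fun u hu c => hU u hu (mem_of_mem_erase c)
  have g1 : z ∈ X ∨ x₁ ∈ X ∨ x₂ ∈ X → ω.2 f₁ = ω.1 := by
    intro c
    by_cases c' : x₁ ∈ X ∨ x₂ ∈ X
    · refine h3 f₁ ?_ ?_
      · rw [F.s1, F.t1]
        intro e
        exact hU x₁ (F.u12 e) (by rw [← e] at c'; exact c'.elim id id)
      · rw [F.s1, F.t1]
        simpa [F.z1, F.z2] using c'
    · exact lg2 _ _ _ _ k2 c c'
  have g3 : z ∈ X ∨ x₃ ∈ X ∨ x₄ ∈ X → ω.2 f₃ = ω.1 := by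
    intro c
    by_cases c' : x₃ ∈ X ∨ x₄ ∈ X
    · refine h3 f₃ ?_ ?_
      · rw [F.s3, F.t3]
        intro e
        exact hU x₃ (F.u34 e) (by rw [← e] at c'; exact c'.elim id id)
      · rw [F.s3, F.t3]
        simpa [F.z3, F.z4] using c'
    · exact lg2 _ _ _ _ k4 c c'
  show ω.2 (ρ e) = ω.1
  by_cases c1 : e = f₁
  · rw [c1, F.ρ1]
    refine g1 ?_
    rcases F.j1 with ⟨a, b⟩ | ⟨a, b⟩ <;> rw [c1, a, b] at he <;> rcases he with he | he <;>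
      simp only [he, true_or, or_true]
  by_cases c2 : e = f₂
  · rw [c2, F.ρ2]
    refine g1 ?_
    rcases F.j2 with ⟨a, b⟩ | ⟨a, b⟩ <;> rw [c2, a, b] at he <;> rcases he with he | he <;>
      simp only [he, true_or, or_true]
  by_cases c3 : e = f₃
  · rw [c3, F.ρ3]
    refine g3 ?_
    rcases F.j3 with ⟨a, b⟩ | ⟨a, b⟩ <;> rw [c3, a, b] at he <;> rcases he with he | he <;>
      simp only [he, true_or, or_true]
  by_cases c4 : e = f₄
  · rw [c4, F.ρ4]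
    refine g3 ?_
    rcases F.j4 with ⟨a, b⟩ | ⟨a, b⟩ <;> rw [c4, a, b] at he <;> rcases he with he | he <;>
      simp only [he, true_or, or_true]
  have hz := F.not_z hl c1 c2 c3 c4
  have hr := F.rest e c1 c2 c3 c4
  rw [F.ρo e c2 c4]
  refine h3 e (by rwa [hr.1, hr.2]) ?_
  rw [hr.1, hr.2]
  simpa [hz.1, hz.2] using he

/-- A cycle off the `y`-class that uses exactly one edge of each merged pair. -/
lemma cycle {ω : K × (E → K)} (h : Conn s' t' U r ω) (h1 : ω.2 f₁ ≠ ω.1) (h3 : ω.2 f₃ ≠ ω.1) :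
    ∃ c : E → ZMod 2, (∀ X, cs s t c X = 0) ∧
      (∀ e, ω.2 (ρ e) = ω.1 ∨ cr s t {r} e → c e = 0) ∧ c f₁ + c f₂ = 1 ∧ c f₃ + c f₄ = 1 := by
  obtain ⟨c, a1, a2⟩ := exists_path (s := s') (t := t')
    (fun e => ¬ (ω.2 e = ω.1 ∨ cr s' t' {r} e)) x₂ x₄ (fun X b1 b2 => by
      by_contra hc
      push Not at hc
      have hY : ∀ Y : Finset V, (∀ e, cr s' t' Y e → ω.2 e = ω.1 ∨ cr s' t' {r} e) →
          ∀ e, cr s' t' (Y.erase r) e → ω.2 e = ω.1 ∨ cr s' t' {r} e := by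
        intro Y hY e he
        by_cases c : cr s' t' Y e
        · exact hY e c
        · right
          unfold cr at he c ⊢
          simp only [mem_erase, mem_singleton] at he ⊢
          tauto
      have hX : ∀ e, cr s' t' X e → ω.2 e = ω.1 ∨ cr s' t' {r} e := fun e he => by
        have := hc e he
        tauto
      obtain ⟨k1, k2⟩ := h _ (notMem_erase r X) (hY X hX)
      obtain ⟨k3, k4⟩ := h _ (notMem_erase r Xᶜ)
        (hY Xᶜ fun e he => hX e ((cr_compl _ _ _ _).1 he))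
      by_cases c : ∀ u ∈ U, u ∉ X.erase r
      · refine h1 (k2 c f₁ ?_ ?_)
        · rw [F.s1, F.t1]
          intro e
          exact c x₁ (F.u12 e) (by rw [e]; exact mem_erase.2 ⟨F.r2, b1⟩)
        · rw [F.t1]
          exact Or.inr (mem_erase.2 ⟨F.r2, b1⟩)
      · have c' : ∀ u ∈ U, u ∉ Xᶜ.erase r := by
          intro u hu hu'
          push Not at c
          exact k1 ⟨c, u, hu, fun e => mem_compl.1 (mem_of_mem_erase hu') (mem_of_mem_erase e)⟩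
        refine h3 (k4 c' f₃ ?_ ?_)
        · rw [F.s3, F.t3]
          intro e
          exact c' x₃ (F.u34 e) (by rw [e]; exact mem_erase.2 ⟨F.r4, mem_compl.2 b2⟩)
        · rw [F.t3]
          exact Or.inr (mem_erase.2 ⟨F.r4, mem_compl.2 b2⟩))
  refine ⟨(fun e => c (ρ e)) + (fun e => if e = f₂ then 1 else 0) +
    fun e => if e = f₄ then 1 else 0, fun X => ?_, fun e he => ?_, ?_, ?_⟩
  · rw [cs_add, cs_add, F.csZ, a2, cs_single, cs_single]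
    simp only [F.j2.cr_iff, F.j4.cr_iff]
    by_cases a : z ∈ X <;> by_cases b : x₂ ∈ X <;> by_cases b' : x₄ ∈ X <;> simp [a, b, b'] <;>
      decide
  · have c2 : e ≠ f₂ := by
      rintro rfl
      rw [F.ρ2] at he
      exact he.elim h1 F.nr2
    have c4 : e ≠ f₄ := by
      rintro rfl
      rw [F.ρ4] at he
      exact he.elim h3 F.nr4
    rw [F.ρo e c2 c4, ← F.root] at he
    simp [c2, c4, F.ρo e c2 c4, a1 e (not_not.2 he)]
  · simp only [Pi.add_apply, F.ρ1, F.ρ2, F.n12, F.n14, F.n24, if_true, if_false]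
    generalize c f₁ = a
    revert a; decide
  · simp only [Pi.add_apply, F.ρ3, F.ρ4, F.n23.symm, F.n34, F.n24.symm, if_true, if_false]
    generalize c f₃ = a
    revert a; decide

lemma cs_z (φ : E → K) : cs s t φ {z} = φ f₁ + φ f₂ + φ f₃ + φ f₄ := by
  have : univ.filter (cr s t {z}) = {f₁, f₂, f₃, f₄} := by
    ext e
    simp only [mem_filter, mem_univ, true_and, mem_insert, mem_singleton]
    refine ⟨F.all e, ?_⟩
    rintro (rfl | rfl | rfl | rfl)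
    · rw [F.j1.cr_iff]; simp [F.z1]
    · rw [F.j2.cr_iff]; simp [F.z2]
    · rw [F.j3.cr_iff]; simp [F.z3]
    · rw [F.j4.cr_iff]; simp [F.z4]
  rw [cs_eq_sum_filter, this, sum_insert (by simp [F.n12, F.n13, F.n14]),
    sum_insert (by simp [F.n23, F.n24]), sum_insert (by simp [F.n34]), sum_singleton]
  abel

/-- The defect of the cut identity after lifting. -/
lemma defect {p q g g' : E} (hg : cr s t {r} g) (hg' : cr s t {r} g') {X : Finset V}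
    (hX : ∀ φ : E → K, cs s' t' φ X = φ (ρ p) + φ (ρ q) + φ g + φ g') :
    ∃ v w : ZMod 2, ∀ φ : E → K,
      cs s t φ X = φ p + φ q + φ g + φ g' + v • (φ f₁ + φ f₂) + w • (φ f₃ + φ f₄) := by
  have g2 : g ≠ f₂ := fun c => F.nr2 (c ▸ hg)
  have g4 : g ≠ f₄ := fun c => F.nr4 (c ▸ hg)
  have g2' : g' ≠ f₂ := fun c => F.nr2 (c ▸ hg')
  have g4' : g' ≠ f₄ := fun c => F.nr4 (c ▸ hg')
  refine ⟨(if cr s t X f₂ then 1 else 0) + (if p = f₂ then 1 else 0) + (if q = f₂ then 1 else 0),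
    (if cr s t X f₄ then 1 else 0) + (if p = f₄ then 1 else 0) + (if q = f₄ then 1 else 0),
    fun φ => ?_⟩
  have e0 : ∀ e, φ (ρ e) = φ e + (if e = f₂ then φ f₁ + φ f₂ else 0) +
      (if e = f₄ then φ f₃ + φ f₄ else 0) := by
    intro e
    have k : ∀ a b : K, a = b + (a + b) := by decide
    by_cases c2 : e = f₂
    · rw [c2, F.ρ2]; simpa [F.n24] using k _ _
    by_cases c4 : e = f₄
    · rw [c4, F.ρ4]; simpa [F.n24.symm] using k _ _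
    simp [F.ρo e c2 c4, c2, c4]
  have e1 : cs s' t' φ X = cs s t φ X + (if cr s t X f₂ then φ f₁ + φ f₂ else 0) +
      (if cr s t X f₄ then φ f₃ + φ f₄ else 0) := by
    rw [← F.csK, ← cs_single, ← cs_single, ← cs_add, ← cs_add]
    exact cs_congr fun e _ => e0 e
  rw [hX, e0 p, e0 q] at e1
  have k0 : ∀ (P : Prop) [Decidable P] (a : K), (if P then a else 0) =
      (if P then (1 : ZMod 2) else 0) • a := by
    intro P _ a
    split_ifs <;> simp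
  simp only [k0 _ (φ f₁ + φ f₂), k0 _ (φ f₃ + φ f₄)] at e1
  generalize φ f₁ + φ f₂ = a at e1 ⊢
  generalize φ f₃ + φ f₄ = b at e1 ⊢
  simp only [add_smul]
  have k2 : ∀ (c A B u : K), u = c + A + B → c = u + A + B := by decide
  rw [k2 _ _ _ _ e1]
  abel

end SF

section Laws

variable {ν' : (E → K) → Law (K × (E → K))}

/-- The lifted family of laws. -/
def liftLaw (ρ : E → E) (ν' : (E → K) → Law (K × (E → K))) (π : E → K) : Law (K × (E → K)) :=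
  (ν' π).map fun ω => (ω.1, fun e => ω.2 (ρ e))

variable (F : SF s t s' t' U r z f₁ f₂ f₃ f₄ x₁ x₂ x₃ x₄ ρ)
include F

lemma SF.cond {C : (E → K) → Prop} {A' A : K × (E → K) → Prop} {p : ℝ}
    (h : Cond s' t' r ν' C A' p)
    (hA : ∀ π, Valid s' t' r π → C π → ∀ ω, (ν' π).supp ω → A' ω →
      A (ω.1, fun e => ω.2 (ρ e))) :
    Cond s t r (liftLaw ρ ν') C A p := fun π hπ hC =>
  (h π (F.valid hπ) hC).trans ((ν' π).pr_mono (hA π (F.valid hπ) hC))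

lemma SF.un {A' A : K × (E → K) → Prop} {p : ℝ} (h : Un s' t' r ν' A' p)
    (hA : ∀ ω, A' ω → A (ω.1, fun e => ω.2 (ρ e))) : Un s t r (liftLaw ρ ν') A p :=
  F.cond h fun _ _ _ ω _ => hA ω

lemma SF.cne {A' A : K × (E → K) → Prop} {p : ℝ} (h : Cne s' t' r ν' A' p)
    (hA : ∀ ω, A' ω → A (ω.1, fun e => ω.2 (ρ e))) : Cne s t r (liftLaw ρ ν') A p := by
  obtain ⟨g, g', a, b, c, h⟩ := h
  exact ⟨g, g', (F.root g).1 a, (F.root g').1 b, c, F.cond h fun _ _ _ ω _ => hA ω⟩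

lemma SF.ceq {A' A : K × (E → K) → Prop} {p : ℝ} (h : Ceq s' t' r ν' A' p)
    (hA : ∀ ω, A' ω → A (ω.1, fun e => ω.2 (ρ e))) : Ceq s t r (liftLaw ρ ν') A p := by
  obtain ⟨g, g', a, b, c, h⟩ := h
  exact ⟨g, g', (F.root g).1 a, (F.root g').1 b, c, F.cond h fun _ _ _ ω _ => hA ω⟩

variable {W' : Finset V} (L : CoreLaw s' t' W' U r ν')
include L

lemma SF.pend {p q : E} (h : Pend s' t' r ν' (ρ p) (ρ q)) :
    Pend s t r (liftLaw ρ ν') p q ∨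
      (Un s t r (liftLaw ρ ν') (EqF s t r p q) (1 / 60) ∧
        Un s t r (liftLaw ρ ν') (NeF s t r p q) (1 / 60)) := by
  obtain ⟨g, g', a, b, c, ⟨X, hX⟩, h⟩ := h
  rw [F.root] at a b
  obtain ⟨v, w, hD⟩ := F.defect a b hX
  have hs : ∀ π, Valid s t r π → ∀ ω, (liftLaw ρ ν' π).supp ω →
      ω.2 p = ω.2 g ∧ ω.2 q = ω.2 g' := by
    rintro π hπ _ ⟨ω, h1, rfl⟩
    simpa only [F.ρroot a, F.ρroot b] using h π (F.valid hπ) ω h1
  by_cases hvw : v = w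
  · left
    subst hvw
    have : ∀ v : ZMod 2, v = 0 ∨ v = 1 := by decide
    rcases this v with rfl | rfl
    · exact ⟨g, g', a, b, c, ⟨X, fun φ => by simpa using hD φ⟩, hs⟩
    · refine ⟨g, g', a, b, c, ⟨symmDiff X {z}, fun φ => ?_⟩, hs⟩
      rw [cs_symmDiff K_add_self, hD, F.cs_z]
      have k : ∀ u a b c d : K, u + (a + b) + (c + d) + (a + b + c + d) = u := by decide
      simpa using k _ _ _ _ _
  · right
    have key : ∀ π, Valid s' t' r π → ∀ ω, (ν' π).supp ω → Av s' t' r f₁ f₃ ω →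
        EqF s t r p q (ω.1, fun e => ω.2 (ρ e)) ∧ NeF s t r p q (ω.1, fun e => ω.2 (ρ e)) := by
      intro π hπ ω h1 h2
      obtain ⟨y0, e1, e2⟩ := L.ext π hπ ω h1
      obtain ⟨cc, k1, k2, k3, k4⟩ := F.cycle e2 h2.2.1 h2.2.2
      have fl := F.flow e1.1
      have P1 : Phi s t r (ω.1, fun e => ω.2 (ρ e)) _ := Phi.refl fl
      have P2 := Phi.flip (r := r) (ω := (ω.1, fun e => ω.2 (ρ e))) y0 fl k1 k2
      have e3 := hD fun e => cc e • ω.1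
      have e4 : cs s t (fun e => cc e • ω.1) X = 0 := by
        have h3 := cs_hom (s := s) (t := t) ((smulAddHom (ZMod 2) K).flip ω.1) cc X
        rw [k1] at h3
        simpa using h3
      rw [e4] at e3
      simp only [k2 g (Or.inr a), k2 g' (Or.inr b), ← add_smul, k3, k4, smul_smul] at e3
      obtain ⟨m1, m2⟩ := h π hπ ω h1
      have m3 : ω.2 (ρ p) ≠ ω.1 := m1 ▸ h2.1 g ((F.root g).2 a)
      have m4 : ω.2 (ρ q) ≠ ω.1 := m2 ▸ h2.1 g' ((F.root g').2 b)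
      have k : ∀ (y : K) (cp cq v w : ZMod 2), y ≠ 0 → v ≠ w →
          0 = (cp + cq + 0 + 0 + v * 1 + w * 1) • y → cp + cq = 1 := by decide
      obtain ⟨n1, n2⟩ := toggle _ _ _ _ _ y0 (e1.1.1 (ρ p)) (e1.1.1 (ρ q)) m3 m4
        (k _ _ _ _ _ y0 hvw e3)
      by_cases hab : ω.2 (ρ p) = ω.2 (ρ q)
      · exact ⟨⟨_, P1, hab⟩, ⟨_, P2, n1 hab⟩⟩
      · exact ⟨⟨_, P2, n2 hab⟩, ⟨_, P1, hab⟩⟩
    exact ⟨F.cond (L.av f₁ f₃) fun π hπ _ ω h1 h2 => (key π hπ ω h1 h2).1,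
      F.cond (L.av f₁ f₃) fun π hπ _ ω h1 h2 => (key π hπ ω h1 h2).2⟩

lemma SF.ne_pair {p q : E} (hpq : p ≠ q) (h : ρ p = ρ q) :
    Un s t r (liftLaw ρ ν') (NeF s t r p q) (1 / 60) := by
  refine F.cond (L.av f₁ f₃) fun π hπ _ ω h1 h2 => ?_
  obtain ⟨y0, e1, e2⟩ := L.ext π hπ ω h1
  obtain ⟨cc, k1, k2, k3, k4⟩ := F.cycle e2 h2.2.1 h2.2.2
  refine ⟨_, Phi.flip (ω := (ω.1, fun e => ω.2 (ρ e))) y0 (F.flow e1.1) k1 k2, ?_⟩
  have k5 : cc p + cc q = 1 := by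
    by_cases p2 : p = f₂
    · subst p2
      by_cases q4 : q = f₄
      · rw [q4, F.ρ2, F.ρ4] at h; exact absurd h F.n13
      · rw [F.ρ2, F.ρo q hpq.symm q4] at h
        rw [← h, add_comm, k3]
    by_cases p4 : p = f₄
    · subst p4
      by_cases q2 : q = f₂
      · rw [q2, F.ρ2, F.ρ4] at h; exact absurd h.symm F.n13
      · rw [F.ρ4, F.ρo q q2 hpq.symm] at h
        rw [← h, add_comm, k4]
    rw [F.ρo p p2 p4] at h
    by_cases q2 : q = f₂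
    · rw [q2, F.ρ2] at h; rw [h, q2, k3]
    by_cases q4 : q = f₄
    · rw [q4, F.ρ4] at h; rw [h, q4, k4]
    rw [F.ρo q q2 q4] at h
    exact absurd h hpq
  have k : ∀ (a y : K) (cp cq : ZMod 2), y ≠ 0 → cp + cq = 1 → a + cp • y ≠ a + cq • y := by
    decide
  show ω.2 (ρ p) + cc p • ω.1 ≠ ω.2 (ρ q) + cc q • ω.1
  rw [h]
  exact k _ _ _ _ y0 k5

omit L in
lemma SF.mono_z {ψ : E → K} (h : ψ f₁ = ψ f₃) : Mono s t z fun e => ψ (ρ e) := by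
  have : ∀ e, cr s t {z} e → ψ (ρ e) = ψ f₁ := by
    intro e he
    rcases F.all e he with rfl | rfl | rfl | rfl
    · rw [F.ρ1]
    · rw [F.ρ2]
    · rw [F.ρ3, h]
    · rw [F.ρ4, h]
  intro e e' he he'
  exact (this e he).trans (this e' he').symm

omit L in
lemma SF.mono_other {v : V} (hz : v ≠ z) (hU : v ∉ U) {ψ : E → K} (h : Mono s' t' v ψ) :
    Mono s t v fun e => ψ (ρ e) := by
  have : ∀ e, cr s t {v} e → cr s' t' {v} (ρ e) := by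
    intro e he
    have a12 : ¬ (x₁ = v ∧ x₂ = v) := fun c => hU (c.1 ▸ F.u12 (c.1.trans c.2.symm))
    have a34 : ¬ (x₃ = v ∧ x₄ = v) := fun c => hU (c.1 ▸ F.u34 (c.1.trans c.2.symm))
    by_cases c1 : e = f₁
    · rw [c1, F.j1.cr_iff] at he
      rw [c1, F.ρ1, F.cr1]
      simp only [mem_singleton, hz.symm] at he ⊢
      tauto
    by_cases c2 : e = f₂
    · rw [c2, F.j2.cr_iff] at he
      rw [c2, F.ρ2, F.cr1]
      simp only [mem_singleton, hz.symm] at he ⊢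
      tauto
    by_cases c3 : e = f₃
    · rw [c3, F.j3.cr_iff] at he
      rw [c3, F.ρ3, F.cr3]
      simp only [mem_singleton, hz.symm] at he ⊢
      tauto
    by_cases c4 : e = f₄
    · rw [c4, F.j4.cr_iff] at he
      rw [c4, F.ρ4, F.cr3]
      simp only [mem_singleton, hz.symm] at he ⊢
      tauto
    rw [F.ρo e c2 c4, F.cro _ c1 c2 c3 c4]
    exact he
  intro e e' he he'
  exact h _ _ (this e he) (this e' he')

end Laws

theorem lift_law (h : Core s t W U r) {z : V} (hz : z ∈ W) (hU : z ∉ U) (hr : z ≠ r)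
    {s₁ t₁ s' t' : E → V} {f₁ f₂ f₃ f₄ : E} {x₁ x₂ x₃ x₄ : V}
    (sp : Split s t s₁ t₁ s' t' z f₁ f₂ f₃ f₄ x₁ x₂ x₃ x₄) (n2 : ¬ cr s t {r} f₂)
    (n4 : ¬ cr s t {r} f₄) (h' : Core s' t' (W.erase z) U r)
    {ν' : (E → K) → Law (K × (E → K))} (L : CoreLaw s' t' (W.erase z) U r ν') :
    ∃ ν, CoreLaw s t W U r ν := by
  have F := sf_of_split h hU hr sp n2 n4 h'
  generalize (fun e => rep f₃ f₄ (rep f₁ f₂ e)) = ρ at F
  refine ⟨liftLaw ρ ν', ?_, fun g k => ?_, fun p q => ?_, fun p q hpq => ?_, fun v hv a b => ?_⟩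
  · rintro π hπ _ ⟨ω, h1, rfl⟩
    obtain ⟨y0, e1, e2⟩ := L.ext π (F.valid hπ) ω h1
    exact ⟨y0, F.ext e1, F.conn e2⟩
  · refine F.un (L.av (ρ g) (ρ k)) fun ω hω => ⟨fun e he => ?_, hω.2⟩
    show ω.2 (ρ e) ≠ ω.1
    rw [F.ρroot he]
    exact hω.1 e ((F.root e).2 he)
  · have k : ∀ ω, EqF s' t' r (ρ p) (ρ q) ω → EqF s t r p q (ω.1, fun e => ω.2 (ρ e)) :=
      fun ω ⟨ψ, a, b⟩ => ⟨_, F.phi a, b⟩
    rcases L.eq (ρ p) (ρ q) with c | c | c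
    · exact Or.inl (F.un c k)
    · exact Or.inr (Or.inl (F.cne c k))
    · exact (F.pend L c).elim (fun c => Or.inr (Or.inr c)) fun c => Or.inl c.1
  · by_cases e : ρ p = ρ q
    · exact Or.inl (F.ne_pair L hpq e)
    rcases L.ne (ρ p) (ρ q) e with c | c
    · exact Or.inl (F.un c fun ω ⟨ψ, a, b⟩ => ⟨_, F.phi a, b⟩)
    · exact (F.pend L c).elim Or.inr fun c => Or.inl c.2
  · by_cases e : v = z
    · subst e
      have k : ∀ ω, EqF s' t' r f₁ f₃ ω → MoF s t r v (ω.1, fun e => ω.2 (ρ e)) :=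
        fun ω ⟨ψ, a, b⟩ => ⟨_, F.phi a, F.mono_z b⟩
      rcases L.eq f₁ f₃ with c | c | ⟨g, g', c1, c2, c3, -, c4⟩
      · exact Or.inl (F.un c k)
      · exact Or.inr (Or.inl (F.cne c k))
      · refine Or.inr (Or.inr ⟨g, g', (F.root g).1 c1, (F.root g').1 c2, c3, fun π hπ hC => ?_⟩)
        refine le_trans (by norm_num) (Law.one_le_pr _ ?_)
        rintro _ ⟨ω, h1, rfl⟩
        obtain ⟨-, e1, -⟩ := L.ext π (F.valid hπ) ω h1
        obtain ⟨m1, m2⟩ := c4 π (F.valid hπ) ω h1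
        refine k ω ⟨_, Phi.refl e1.1, ?_⟩
        rw [m1, m2, e1.2 g c1, e1.2 g' c2, hC]
    · have k : ∀ ω, MoF s' t' r v ω → MoF s t r v (ω.1, fun e => ω.2 (ρ e)) :=
        fun ω ⟨ψ, c, c'⟩ => ⟨_, F.phi c, F.mono_other e a c'⟩
      rcases L.mono v (mem_erase.2 ⟨e, hv⟩) a b with c | c | c
      · exact Or.inl (F.un c k)
      · exact Or.inr (Or.inl (F.cne c k))
      · exact Or.inr (Or.inr (F.ceq c k))

end Pool.Agent.Lib.MP_a48b5a_co.U5
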