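import Pool.Agent.Lib.MP_a48b5a_co.U5Basic

/-!
# Splitting off a vertex of degree four
-/

set_option autoImplicit false
set_option linter.unusedSectionVars false

namespace Pool.Agent.Lib.MP_a48b5a_co.U5

open Finset

variable {V E : Type} [Fintype V] [DecidableEq V] [Fintype E] [DecidableEq E]
variable {s t : E → V} {W U : Finset V} {r : V}

/-- The four edges at a vertex of degree four. -/
structure SpStar (s t : E → V) (z : V) (f₁ f₂ f₃ f₄ : E) (x₁ x₂ x₃ x₄ : V) : Prop where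
  j1 : Joins s t f₁ z x₁
  j2 : Joins s t f₂ z x₂
  j3 : Joins s t f₃ z x₃
  j4 : Joins s t f₄ z x₄
  z1 : x₁ ≠ z
  z2 : x₂ ≠ z
  z3 : x₃ ≠ z
  z4 : x₄ ≠ z
  n12 : f₁ ≠ f₂
  n13 : f₁ ≠ f₃
  n14 : f₁ ≠ f₄
  n23 : f₂ ≠ f₃
  n24 : f₂ ≠ f₄
  n34 : f₃ ≠ f₄
  all : ∀ e, cr s t {z} e → e = f₁ ∨ e = f₂ ∨ e = f₃ ∨ e = f₄

/-- The pairing `12|34` keeps all the cut bounds. -/
def SpGood (s t : E → V) (W U : Finset V) (z x₁ x₂ x₃ x₄ : V) : Prop :=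
  ∀ Y : Finset V, z ∉ Y →
    (Sep (W.erase z) Y → 4 + (if x₁ ∈ Y ∧ x₂ ∈ Y then 2 else 0) +
      (if x₃ ∈ Y ∧ x₄ ∈ Y then 2 else 0) ≤ d s t Y) ∧
    (Sep U Y → 5 + (if x₁ ∈ Y ∧ x₂ ∈ Y then 2 else 0) +
      (if x₃ ∈ Y ∧ x₄ ∈ Y then 2 else 0) ≤ d s t Y)

/-- The pairing `12|34` is blocked by a small cut with trace `12`. -/
def SpBlk (s t : E → V) (U : Finset V) (z x₁ x₂ x₃ x₄ : V) : Prop :=
  ∃ Y : Finset V, z ∉ Y ∧ x₁ ∈ Y ∧ x₂ ∈ Y ∧ x₃ ∉ Y ∧ x₄ ∉ Y ∧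
    (d s t Y ≤ 5 ∨ (Sep U Y ∧ d s t Y ≤ 6))

section Star

variable {z x₁ x₂ x₃ x₄ : V} {f₁ f₂ f₃ f₄ : E}

lemma SpStar.swap12 (S : SpStar s t z f₁ f₂ f₃ f₄ x₁ x₂ x₃ x₄) :
    SpStar s t z f₂ f₁ f₃ f₄ x₂ x₁ x₃ x₄ :=
  ⟨S.j2, S.j1, S.j3, S.j4, S.z2, S.z1, S.z3, S.z4, S.n12.symm, S.n23, S.n24, S.n13, S.n14, S.n34,
    fun e he => by have := S.all e he; tauto⟩

lemma SpStar.swap34 (S : SpStar s t z f₁ f₂ f₃ f₄ x₁ x₂ x₃ x₄) :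
    SpStar s t z f₁ f₂ f₄ f₃ x₁ x₂ x₄ x₃ :=
  ⟨S.j1, S.j2, S.j4, S.j3, S.z1, S.z2, S.z4, S.z3, S.n12, S.n14, S.n13, S.n24, S.n23, S.n34.symm,
    fun e he => by have := S.all e he; tauto⟩

lemma SpStar.swap23 (S : SpStar s t z f₁ f₂ f₃ f₄ x₁ x₂ x₃ x₄) :
    SpStar s t z f₁ f₃ f₂ f₄ x₁ x₃ x₂ x₄ :=
  ⟨S.j1, S.j3, S.j2, S.j4, S.z1, S.z3, S.z2, S.z4, S.n13, S.n12, S.n14, S.n23.symm, S.n34, S.n24,
    fun e he => by have := S.all e he; tauto⟩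

lemma SpGood.swap12 (G : SpGood s t W U z x₁ x₂ x₃ x₄) : SpGood s t W U z x₂ x₁ x₃ x₄ := by
  intro Y hY
  simpa only [and_comm (a := x₂ ∈ Y)] using G Y hY

lemma SpGood.swap34 (G : SpGood s t W U z x₁ x₂ x₃ x₄) : SpGood s t W U z x₁ x₂ x₄ x₃ := by
  intro Y hY
  simpa only [and_comm (a := x₄ ∈ Y)] using G Y hY

lemma sp_cr_of_joins {f : E} {x : V} (j : Joins s t f z x) (hx : x ≠ z) : cr s t {z} f := by
  rw [j.cr_iff]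
  simp [hx]

lemma sp_mem_of_joins (g : G4 s t W) {f : E} {x : V} (j : Joins s t f z x) (hx : x ≠ z) :
    x ∈ W := by
  have h1 := g.ends f (ne_of_cr (sp_cr_of_joins j hx))
  rcases j with ⟨-, b⟩ | ⟨a, -⟩
  · exact b ▸ h1.2
  · exact a ▸ h1.1

lemma sp_exists_star (h4 : d s t {z} = 4) :
    ∃ (f₁ f₂ f₃ f₄ : E) (x₁ x₂ x₃ x₄ : V), SpStar s t z f₁ f₂ f₃ f₄ x₁ x₂ x₃ x₄ := by
  obtain ⟨f₁, f₂, f₃, f₄, a, b, c, a', b', c', hs⟩ := Finset.card_eq_four.1 h4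
  have hm : ∀ e, cr s t {z} e ↔ e = f₁ ∨ e = f₂ ∨ e = f₃ ∨ e = f₄ := by
    intro e
    have : e ∈ univ.filter (cr s t {z}) ↔ e ∈ ({f₁, f₂, f₃, f₄} : Finset E) := by rw [hs]
    simpa using this
  obtain ⟨x₁, z1, j1⟩ := exists_joins ((hm f₁).2 (by simp))
  obtain ⟨x₂, z2, j2⟩ := exists_joins ((hm f₂).2 (by simp))
  obtain ⟨x₃, z3, j3⟩ := exists_joins ((hm f₃).2 (by simp))
  obtain ⟨x₄, z4, j4⟩ := exists_joins ((hm f₄).2 (by simp))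
  exact ⟨f₁, f₂, f₃, f₄, x₁, x₂, x₃, x₄, j1, j2, j3, j4, z1, z2, z3, z4, a, b, c, a', b', c',
    fun e he => (hm e).1 he⟩

lemma SpStar.ins (S : SpStar s t z f₁ f₂ f₃ f₄ x₁ x₂ x₃ x₄) (h4 : d s t {z} = 4) {X : Finset V}
    (hz : z ∉ X) :
    d s t (insert z X) + 2 * ((if x₁ ∈ X then 1 else 0) + (if x₂ ∈ X then 1 else 0) +
      (if x₃ ∈ X then 1 else 0) + (if x₄ ∈ X then 1 else 0)) = d s t X + 4 := by
  rw [← h4, ← d_insert hz]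
  congr 2
  have : (univ.filter fun e => cr s t {z} e ∧ cr s t X e) =
      ({f₁, f₂, f₃, f₄} : Finset E).filter (cr s t X) := by
    ext e
    simp only [mem_filter, mem_univ, true_and, mem_insert, mem_singleton]
    refine and_congr_left fun _ => ⟨S.all e, ?_⟩
    rintro (rfl | rfl | rfl | rfl)
    exacts [sp_cr_of_joins S.j1 S.z1, sp_cr_of_joins S.j2 S.z2, sp_cr_of_joins S.j3 S.z3,
      sp_cr_of_joins S.j4 S.z4]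
  rw [this, Finset.card_filter, Finset.sum_insert (by simp [S.n12, S.n13, S.n14]),
    Finset.sum_insert (by simp [S.n23, S.n24]), Finset.sum_insert (by simp [S.n34]),
    Finset.sum_singleton]
  simp only [S.j1.cr_iff, S.j2.cr_iff, S.j3.cr_iff, S.j4.cr_iff, hz, false_iff, not_not]
  ring

lemma sp_sep_mono {A B X : Finset V} (h : Sep A X) (hAB : A ⊆ B) : Sep B X := by
  obtain ⟨⟨u, h1, h2⟩, v, h3, h4⟩ := h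
  exact ⟨⟨u, hAB h1, h2⟩, v, hAB h3, h4⟩

lemma sp_sep_insert {A X : Finset V} (h : Sep A X) (hz : z ∉ A) : Sep A (insert z X) := by
  obtain ⟨⟨u, h1, h2⟩, v, h3, h4⟩ := h
  refine ⟨⟨u, h1, mem_insert_of_mem h2⟩, v, h3, fun h5 => ?_⟩
  rcases mem_insert.1 h5 with rfl | h5
  exacts [hz h3, h4 h5]

/-- A pairing that is not blocked keeps the cut bounds. -/
lemma sp_good_of_not_blk (h : Core s t W U r) (hz : z ∈ W) (hU : z ∉ U)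
    (S : SpStar s t z f₁ f₂ f₃ f₄ x₁ x₂ x₃ x₄) (hb : ¬ SpBlk s t U z x₁ x₂ x₃ x₄) :
    SpGood s t W U z x₁ x₂ x₃ x₄ := by
  intro Y hY
  have hi := S.ins (h.d4 z hz hU) hY
  have hc := d_compl (s := s) (t := t) (insert z Y)
  have b1 : x₁ ∈ Y → x₂ ∈ Y → x₃ ∉ Y → x₄ ∉ Y → 6 ≤ d s t Y ∧ (Sep U Y → 7 ≤ d s t Y) := by
    intro a b c e
    refine ⟨?_, fun hs => ?_⟩
    · by_contra h1
      exact hb ⟨Y, hY, a, b, c, e, Or.inl (by omega)⟩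
    · by_contra h1
      exact hb ⟨Y, hY, a, b, c, e, Or.inr ⟨hs, by omega⟩⟩
  have b2 : x₁ ∉ Y → x₂ ∉ Y → x₃ ∈ Y → x₄ ∈ Y → 6 ≤ d s t Y ∧ (Sep U Y → 7 ≤ d s t Y) := by
    intro a b c e
    simp only [a, b, c, e, if_true, if_false] at hi
    have k0 : z ∉ (insert z Y)ᶜ := by simp
    have k1 : x₁ ∈ (insert z Y)ᶜ := by simp [a, S.z1]
    have k2 : x₂ ∈ (insert z Y)ᶜ := by simp [b, S.z2]
    have k3 : x₃ ∉ (insert z Y)ᶜ := by simp [c]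
    have k4 : x₄ ∉ (insert z Y)ᶜ := by simp [e]
    refine ⟨?_, fun hs => ?_⟩
    · by_contra h1
      exact hb ⟨_, k0, k1, k2, k3, k4, Or.inl (by omega)⟩
    · by_contra h1
      exact hb ⟨_, k0, k1, k2, k3, k4, Or.inr ⟨(sp_sep_insert hs hU).compl, by omega⟩⟩
  refine ⟨fun hs => ?_, fun hs => ?_⟩
  · have c1 := h.cut4 Y (sp_sep_mono hs (erase_subset _ _))
    have c2 := h.cut4 _ (sp_sep_mono (sp_sep_insert hs (notMem_erase z W)) (erase_subset _ _))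
    by_cases a : x₁ ∈ Y <;> by_cases b : x₂ ∈ Y <;> by_cases c : x₃ ∈ Y <;>
      by_cases e : x₄ ∈ Y <;>
      simp only [a, b, c, e, if_true, if_false, and_self, and_true, and_false,
        not_true, not_false_iff, forall_const, IsEmpty.forall_iff]
        at hi b1 b2 ⊢ <;> omega
  · have c1 := h.cut5 Y hs
    have c2 := h.cut5 _ (sp_sep_insert hs hU)
    by_cases a : x₁ ∈ Y <;> by_cases b : x₂ ∈ Y <;> by_cases c : x₃ ∈ Y <;>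
      by_cases e : x₄ ∈ Y <;>
      simp only [a, b, c, e, hs, if_true, if_false, and_self, and_true, and_false,
        not_true, not_false_iff, forall_const, IsEmpty.forall_iff]
        at hi b1 b2 ⊢ <;> omega

/-- The three pairings are not all blocked. -/
lemma sp_not_three (h : Core s t W U r) (hz : z ∈ W) (hU : z ∉ U)
    (S : SpStar s t z f₁ f₂ f₃ f₄ x₁ x₂ x₃ x₄) (B2 : SpBlk s t U z x₁ x₂ x₃ x₄)
    (B3 : SpBlk s t U z x₁ x₃ x₂ x₄) (B4 : SpBlk s t U z x₁ x₄ x₂ x₃) : False := by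
  obtain ⟨X, X0, X1, X2, X3, X4, hX⟩ := B2
  obtain ⟨Y, Y0, Y1, Y3, Y2, Y4, hY⟩ := B3
  obtain ⟨Z, Z0, Z1, Z4, Z2, Z3, hZ⟩ := B4
  have w1 := sp_mem_of_joins h.toG4 S.j1 S.z1
  have w2 := sp_mem_of_joins h.toG4 S.j2 S.z2
  have w3 := sp_mem_of_joins h.toG4 S.j3 S.z3
  have w4 := sp_mem_of_joins h.toG4 S.j4 S.z4
  have o := three_cut (s := s) (t := t) X Y Z
  have p : 0 < (univ.filter fun e => cr s t (X ∩ Y ∩ Z) e ∧ cr s t (X ∪ Y ∪ Z) e).card :=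
    Finset.card_pos.2 ⟨f₁, by simp [S.j1.cr_iff, X0, Y0, Z0, X1, Y1, Z1]⟩
  have a1 : 4 ≤ d s t (X ∩ Y ∩ Z) :=
    h.cut4 _ ⟨⟨x₁, w1, by simp [X1, Y1, Z1]⟩, z, hz, by simp [X0]⟩
  have a2 : 4 ≤ d s t (X \ (Y ∪ Z)) :=
    h.cut4 _ ⟨⟨x₂, w2, by simp [X2, Y2, Z2]⟩, z, hz, by simp [X0]⟩
  have a3 : 4 ≤ d s t (Y \ (X ∪ Z)) :=
    h.cut4 _ ⟨⟨x₃, w3, by simp [X3, Y3, Z3]⟩, z, hz, by simp [Y0]⟩
  have a4 : 4 ≤ d s t (Z \ (X ∪ Y)) :=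
    h.cut4 _ ⟨⟨x₄, w4, by simp [X4, Y4, Z4]⟩, z, hz, by simp [Z0]⟩
  have dX : d s t X ≤ 6 := by omega
  have dY : d s t Y ≤ 6 := by omega
  have dZ : d s t Z ≤ 6 := by omega
  have sX : Sep U X := by
    rcases hX with h1 | h1
    · omega
    · exact h1.1
  have sY : Sep U Y := by
    rcases hY with h1 | h1
    · omega
    · exact h1.1
  have sZ : Sep U Z := by
    rcases hZ with h1 | h1
    · omega
    · exact h1.1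
  obtain ⟨⟨u₁, m1, i1⟩, v₁, n1, k1⟩ := sX
  obtain ⟨⟨u₂, m2, i2⟩, v₂, n2, k2⟩ := sY
  obtain ⟨⟨u₃, m3, i3⟩, v₃, n3, k3⟩ := sZ
  -- the odd regions miss `U`
  have q1 : ∀ u ∈ U, u ∉ X ∩ Y ∩ Z := fun u hu h1 => by
    have := h.cut5 _ ⟨⟨u, hu, h1⟩, v₁, n1, by simp [k1]⟩
    omega
  have q2 : ∀ u ∈ U, u ∉ X \ (Y ∪ Z) := fun u hu h1 => by
    have := h.cut5 _ ⟨⟨u, hu, h1⟩, v₁, n1, by simp [k1]⟩
    omega
  have q3 : ∀ u ∈ U, u ∉ Y \ (X ∪ Z) := fun u hu h1 => by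
    have := h.cut5 _ ⟨⟨u, hu, h1⟩, v₂, n2, by simp [k2]⟩
    omega
  have q4 : ∀ u ∈ U, u ∉ Z \ (X ∪ Y) := fun u hu h1 => by
    have := h.cut5 _ ⟨⟨u, hu, h1⟩, v₃, n3, by simp [k3]⟩
    omega
  -- the even regions
  have o' := three_cut (s := s) (t := t) Xᶜ Yᶜ Zᶜ
  rw [d_compl, d_compl, d_compl] at o'
  have p' : 0 < (univ.filter fun e => cr s t (Xᶜ ∩ Yᶜ ∩ Zᶜ) e ∧ cr s t (Xᶜ ∪ Yᶜ ∪ Zᶜ) e).card :=
    Finset.card_pos.2 ⟨f₁, by simp [S.j1.cr_iff, X0, Y0, Z0, X1, Y1, Z1]⟩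
  have hi := S.ins (h.d4 z hz hU) (notMem_erase z (Xᶜ ∩ Yᶜ ∩ Zᶜ))
  rw [Finset.insert_erase (by simp [X0, Y0, Z0]), if_neg (by simp [X1]), if_neg (by simp [X2]),
    if_neg (by simp [Y3]), if_neg (by simp [Z4])] at hi
  have r0 : ∀ u ∈ U, u ∉ X → u ∉ Y → u ∉ Z → 5 ≤ d s t ((Xᶜ ∩ Yᶜ ∩ Zᶜ).erase z) :=
    fun u hu a b c => h.cut5 _ ⟨⟨u, hu, by
      have : u ≠ z := fun e => hU (e ▸ hu)
      simp [a, b, c, this]⟩, u₁, m1, by simp [i1]⟩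
  have r1 : ∀ u ∈ U, u ∉ X → u ∈ Y → u ∈ Z → 5 ≤ d s t (Xᶜ \ (Yᶜ ∪ Zᶜ)) :=
    fun u hu a b c => h.cut5 _ ⟨⟨u, hu, by simp [a, b, c]⟩, u₁, m1, by simp [i1]⟩
  have r2 : ∀ u ∈ U, u ∈ X → u ∉ Y → u ∈ Z → 5 ≤ d s t (Yᶜ \ (Xᶜ ∪ Zᶜ)) :=
    fun u hu a b c => h.cut5 _ ⟨⟨u, hu, by simp [a, b, c]⟩, u₂, m2, by simp [i2]⟩
  have r3 : ∀ u ∈ U, u ∈ X → u ∈ Y → u ∉ Z → 5 ≤ d s t (Zᶜ \ (Xᶜ ∪ Yᶜ)) :=
    fun u hu a b c => h.cut5 _ ⟨⟨u, hu, by simp [a, b, c]⟩, u₃, m3, by simp [i3]⟩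
  have cl : ∀ u ∈ U, (u ∉ X ∧ u ∉ Y ∧ u ∉ Z ∧ 5 ≤ d s t ((Xᶜ ∩ Yᶜ ∩ Zᶜ).erase z)) ∨
      (u ∉ X ∧ u ∈ Y ∧ u ∈ Z ∧ 5 ≤ d s t (Xᶜ \ (Yᶜ ∪ Zᶜ))) ∨
      (u ∈ X ∧ u ∉ Y ∧ u ∈ Z ∧ 5 ≤ d s t (Yᶜ \ (Xᶜ ∪ Zᶜ))) ∨
      (u ∈ X ∧ u ∈ Y ∧ u ∉ Z ∧ 5 ≤ d s t (Zᶜ \ (Xᶜ ∪ Yᶜ))) := by
    intro u hu
    by_cases a : u ∈ X <;> by_cases b : u ∈ Y <;> by_cases c : u ∈ Z
    · exact absurd (by simp [a, b, c]) (q1 u hu)
    · exact Or.inr (Or.inr (Or.inr ⟨a, b, c, r3 u hu a b c⟩))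
    · exact Or.inr (Or.inr (Or.inl ⟨a, b, c, r2 u hu a b c⟩))
    · exact absurd (by simp [a, b, c]) (q2 u hu)
    · exact Or.inr (Or.inl ⟨a, b, c, r1 u hu a b c⟩)
    · exact absurd (by simp [a, b, c]) (q3 u hu)
    · exact absurd (by simp [a, b, c]) (q4 u hu)
    · exact Or.inl ⟨a, b, c, r0 u hu a b c⟩
  have t1 : 5 ≤ d s t (Yᶜ \ (Xᶜ ∪ Zᶜ)) ∨ 5 ≤ d s t (Zᶜ \ (Xᶜ ∪ Yᶜ)) := by
    rcases cl u₁ m1 with a | a | a | a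
    exacts [absurd i1 a.1, absurd i1 a.1, Or.inl a.2.2.2, Or.inr a.2.2.2]
  have t2 : 5 ≤ d s t ((Xᶜ ∩ Yᶜ ∩ Zᶜ).erase z) ∨ 5 ≤ d s t (Xᶜ \ (Yᶜ ∪ Zᶜ)) := by
    rcases cl v₁ n1 with a | a | a | a
    exacts [Or.inl a.2.2.2, Or.inr a.2.2.2, absurd a.1 k1, absurd a.1 k1]
  have t3 : 5 ≤ d s t (Xᶜ \ (Yᶜ ∪ Zᶜ)) ∨ 5 ≤ d s t (Zᶜ \ (Xᶜ ∪ Yᶜ)) := by
    rcases cl u₂ m2 with a | a | a | a
    exacts [absurd i2 a.2.1, Or.inl a.2.2.2, absurd i2 a.2.1, Or.inr a.2.2.2]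
  have t4 : 5 ≤ d s t ((Xᶜ ∩ Yᶜ ∩ Zᶜ).erase z) ∨ 5 ≤ d s t (Yᶜ \ (Xᶜ ∪ Zᶜ)) := by
    rcases cl v₂ n2 with a | a | a | a
    exacts [Or.inl a.2.2.2, absurd a.2.1 k2, Or.inr a.2.2.2, absurd a.2.1 k2]
  have t5 : 5 ≤ d s t (Xᶜ \ (Yᶜ ∪ Zᶜ)) ∨ 5 ≤ d s t (Yᶜ \ (Xᶜ ∪ Zᶜ)) := by
    rcases cl u₃ m3 with a | a | a | a
    exacts [absurd i3 a.2.2.1, Or.inl a.2.2.2, Or.inr a.2.2.2, absurd i3 a.2.2.1]
  have t6 : 5 ≤ d s t ((Xᶜ ∩ Yᶜ ∩ Zᶜ).erase z) ∨ 5 ≤ d s t (Zᶜ \ (Xᶜ ∪ Yᶜ)) := by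
    rcases cl v₃ n3 with a | a | a | a
    exacts [Or.inl a.2.2.2, absurd a.2.2.1 k3, absurd a.2.2.1 k3, Or.inr a.2.2.2]
  omega

/-- A good pairing whose second and fourth ends are not the root gives the splitting. -/
lemma sp_split_of_good (h : Core s t W U r) (hU : z ∉ U) (hr : z ≠ r)
    (S : SpStar s t z f₁ f₂ f₃ f₄ x₁ x₂ x₃ x₄) (G : SpGood s t W U z x₁ x₂ x₃ x₄)
    (r2 : x₂ ≠ r) (r4 : x₄ ≠ r) :
    ∃ (s₁ t₁ s' t' : E → V) (f₁ f₂ f₃ f₄ : E) (x₁ x₂ x₃ x₄ : V),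
      Split s t s₁ t₁ s' t' z f₁ f₂ f₃ f₄ x₁ x₂ x₃ x₄ ∧ ¬ cr s t {r} f₂ ∧ ¬ cr s t {r} f₄ ∧
        Core s' t' (W.erase z) U r := by
  obtain ⟨s₁, t₁, m1⟩ := exists_merge S.n12 S.z1 S.z2 S.j1 S.j2
  have j3 : Joins s₁ t₁ f₃ z x₃ := by
    have := m1.rest f₃ S.n13.symm S.n23.symm
    unfold Joins
    rw [this.1, this.2]
    exact S.j3
  have j4 : Joins s₁ t₁ f₄ z x₄ := by
    have := m1.rest f₄ S.n14.symm S.n24.symm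
    unfold Joins
    rw [this.1, this.2]
    exact S.j4
  obtain ⟨s', t', m2⟩ := exists_merge S.n34 S.z3 S.z4 j3 j4
  have w1 := mem_erase.2 ⟨S.z1, sp_mem_of_joins h.toG4 S.j1 S.z1⟩
  have w2 := mem_erase.2 ⟨S.z2, sp_mem_of_joins h.toG4 S.j2 S.z2⟩
  have w3 := mem_erase.2 ⟨S.z3, sp_mem_of_joins h.toG4 S.j3 S.z3⟩
  have w4 := mem_erase.2 ⟨S.z4, sp_mem_of_joins h.toG4 S.j4 S.z4⟩
  have c4 : ∀ X, z ∉ X → Sep (W.erase z) X → 4 ≤ d s' t' X := fun X hX hs => by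
    have e1 := m1.d_eq hX
    have e2 := m2.d_eq hX
    have := (G X hX).1 hs
    omega
  have c5 : ∀ X, z ∉ X → Sep U X → 5 ≤ d s' t' X := fun X hX hs => by
    have e1 := m1.d_eq hX
    have e2 := m2.d_eq hX
    have := (G X hX).2 hs
    omega
  refine ⟨s₁, t₁, s', t', f₁, f₂, f₃, f₄, x₁, x₂, x₃, x₄,
    ⟨m1, m2, S.n13, S.n14, S.n23, S.n24, S.all⟩, by simp [S.j2.cr_iff, hr, r2],
    by simp [S.j4.cr_iff, hr, r4], ⟨fun e he => ?_, fun X hs => ?_⟩,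
    mem_erase.2 ⟨hr.symm, h.rW⟩, h.rU, fun u hu => mem_erase.2 ⟨fun e => hU (e ▸ hu), h.UW hu⟩,
    h.Une, fun X hs => ?_, fun v hv hvU => ?_⟩
  · by_cases a3 : e = f₃
    · rw [a3, m2.sf, m2.tf]
      exact ⟨w3, w4⟩
    by_cases a4 : e = f₄
    · exact absurd (a4 ▸ m2.loop) he
    obtain ⟨e1, e2⟩ := m2.rest e a3 a4
    rw [e1, e2] at he ⊢
    by_cases a1 : e = f₁
    · rw [a1, m1.sf, m1.tf]
      exact ⟨w1, w2⟩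
    by_cases a2 : e = f₂
    · exact absurd (a2 ▸ m1.loop) he
    obtain ⟨e3, e4⟩ := m1.rest e a1 a2
    rw [e3, e4] at he ⊢
    have hc : ¬ cr s t {z} e := fun hc => by
      have := S.all e hc
      tauto
    rw [cr_single] at hc
    exact ⟨mem_erase.2 ⟨fun a => hc ⟨he, Or.inl a⟩, (h.ends e he).1⟩,
      mem_erase.2 ⟨fun a => hc ⟨he, Or.inr a⟩, (h.ends e he).2⟩⟩
  · by_cases hX : z ∈ X
    · rw [← d_compl]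
      exact c4 _ (fun a => mem_compl.1 a hX) hs.compl
    · exact c4 X hX hs
  · by_cases hX : z ∈ X
    · rw [← d_compl]
      exact c5 _ (fun a => mem_compl.1 a hX) hs.compl
    · exact c5 X hX hs
  · have hX : z ∉ ({v} : Finset V) := fun a => (mem_erase.1 hv).1 (mem_singleton.1 a).symm
    obtain ⟨u, hu⟩ := h.Une
    have e0 := c4 {v} hX ⟨⟨v, hv, mem_singleton_self v⟩, u,
      mem_erase.2 ⟨fun e => hU (e ▸ hu), h.UW hu⟩, fun a => hvU (mem_singleton.1 a ▸ hu)⟩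
    have e1 := m1.d_eq hX
    have e2 := m2.d_eq hX
    have e3 := h.d4 v (mem_erase.1 hv).2 hvU
    omega

/-- A good pairing gives the splitting, after naming the edges. -/
lemma sp_split_of_good' (h : Core s t W U r) (hU : z ∉ U) (hr : z ≠ r)
    (S : SpStar s t z f₁ f₂ f₃ f₄ x₁ x₂ x₃ x₄) (G : SpGood s t W U z x₁ x₂ x₃ x₄) :
    ∃ (s₁ t₁ s' t' : E → V) (f₁ f₂ f₃ f₄ : E) (x₁ x₂ x₃ x₄ : V),
      Split s t s₁ t₁ s' t' z f₁ f₂ f₃ f₄ x₁ x₂ x₃ x₄ ∧ ¬ cr s t {r} f₂ ∧ ¬ cr s t {r} f₄ ∧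
        Core s' t' (W.erase z) U r := by
  obtain ⟨u, hu⟩ := h.Une
  have g := (G {r} (fun a => hr (mem_singleton.1 a))).1
    ⟨⟨r, mem_erase.2 ⟨hr.symm, h.rW⟩, mem_singleton_self r⟩, u,
      mem_erase.2 ⟨fun e => hU (e ▸ hu), h.UW hu⟩, fun a => h.rU (mem_singleton.1 a ▸ hu)⟩
  rw [h.d4 r h.rW h.rU] at g
  simp only [mem_singleton] at g
  have g1 : x₂ = r → x₁ ≠ r := fun a b => by
    rw [if_pos ⟨b, a⟩] at g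
    omega
  have g2 : x₄ = r → x₃ ≠ r := fun a b => by
    rw [if_pos (c := x₃ = r ∧ x₄ = r) ⟨b, a⟩] at g
    omega
  by_cases a : x₂ = r <;> by_cases b : x₄ = r
  · exact sp_split_of_good h hU hr S.swap12.swap34 G.swap12.swap34 (g1 a) (g2 b)
  · exact sp_split_of_good h hU hr S.swap12 G.swap12 (g1 a) b
  · exact sp_split_of_good h hU hr S.swap34 G.swap34 a (g2 b)
  · exact sp_split_of_good h hU hr S G a b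

end Star

theorem exists_split (h : Core s t W U r) {z : V} (hz : z ∈ W) (hU : z ∉ U) (hr : z ≠ r) :
    ∃ (s₁ t₁ s' t' : E → V) (f₁ f₂ f₃ f₄ : E) (x₁ x₂ x₃ x₄ : V),
      Split s t s₁ t₁ s' t' z f₁ f₂ f₃ f₄ x₁ x₂ x₃ x₄ ∧ ¬ cr s t {r} f₂ ∧ ¬ cr s t {r} f₄ ∧
        Core s' t' (W.erase z) U r := by
  obtain ⟨f₁, f₂, f₃, f₄, x₁, x₂, x₃, x₄, S⟩ := sp_exists_star (h.d4 z hz hU)
  by_cases B2 : SpBlk s t U z x₁ x₂ x₃ x₄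
  · by_cases B3 : SpBlk s t U z x₁ x₃ x₂ x₄
    · by_cases B4 : SpBlk s t U z x₁ x₄ x₂ x₃
      · exact (sp_not_three h hz hU S B2 B3 B4).elim
      · exact sp_split_of_good' h hU hr S.swap34.swap23
          (sp_good_of_not_blk h hz hU S.swap34.swap23 B4)
    · exact sp_split_of_good' h hU hr S.swap23 (sp_good_of_not_blk h hz hU S.swap23 B3)
  · exact sp_split_of_good' h hU hr S (sp_good_of_not_blk h hz hU S B2)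

end Pool.Agent.Lib.MP_a48b5a_co.U5
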