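import Pool.Agent.Lib.MP_a48b5a_co.U5BaseC
import Pool.Agent.Lib.MP_a48b5a_co.U5Split
import Pool.Agent.Lib.MP_a48b5a_co.U5Lift
import Pool.Agent.Lib.MP_a48b5a_co.U5Inv

/-!
# The two inductions
-/

set_option autoImplicit false
set_option linter.unusedSectionVars false

namespace Pool.Agent.Lib.MP_a48b5a_co.U5

open Finset

variable {V E : Type} [Fintype V] [DecidableEq V] [Fintype E] [DecidableEq E]
variable {s t : E → V} {W U : Finset V} {r : V}

theorem core_law (h : Core s t W U r) : ∃ ν, CoreLaw s t W U r ν := by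
  induction hn : W.card using Nat.strong_induction_on generalizing s t W with
  | _ n ih =>
    by_cases hz : ∃ z ∈ W, z ∉ U ∧ z ≠ r
    · obtain ⟨z, hz, hU, hr⟩ := hz
      obtain ⟨s₁, t₁, s', t', f₁, f₂, f₃, f₄, x₁, x₂, x₃, x₄, sp, n2, n4, h'⟩ :=
        exists_split h hz hU hr
      obtain ⟨ν', L⟩ := ih _ (hn ▸ card_erase_lt_of_mem hz) h' rfl
      exact lift_law h hz hU hr sp n2 n4 h' L
    · have hW : W = insert r U := by
        ext v
        rw [mem_insert]
        constructor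
        · intro hv
          by_contra hc
          rw [not_or] at hc
          exact hz ⟨v, hv, hc.2, hc.1⟩
        · rintro (rfl | hv)
          exacts [h.rW, h.UW hv]
      subst hW
      exact base_law h

lemma ind_d_con (X : Finset V) (x : V) (Y : Finset V) :
    d (con X x ∘ s) (con X x ∘ t) Y = d s t (univ.filter fun v => con X x v ∈ Y) := by
  unfold d
  congr 1
  ext e
  simp [cr]

lemma ind_d_con_of_notMem {X : Finset V} {x v : V} (hx : x ∈ X) (hv : v ∉ X) :
    d (con X x ∘ s) (con X x ∘ t) {v} = d s t {v} := by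
  rw [ind_d_con]
  congr 1
  ext w
  simp only [mem_filter, mem_univ, true_and, mem_singleton, con]
  split_ifs with hw
  · constructor
    · rintro rfl; exact absurd hx hv
    · rintro rfl; exact absurd hw hv
  · rfl

lemma ind_d_con_self {X : Finset V} {x : V} (hx : x ∈ X) :
    d (con X x ∘ s) (con X x ∘ t) {x} = d s t X := by
  rw [ind_d_con]
  congr 1
  ext w
  simp only [mem_filter, mem_univ, true_and, mem_singleton, con]
  split_ifs with hw
  · simp [hw]
  · constructor
    · rintro rfl; exact hx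
    · intro h; exact absurd h hw

lemma ind_G4_con (h : G4 s t W) {X : Finset V} {x : V} (hxW : x ∈ W) (hx : x ∈ X) :
    G4 (con X x ∘ s) (con X x ∘ t) (insert x (W \ X)) := by
  have hmem : ∀ v ∈ W, con X x v ∈ insert x (W \ X) := by
    intro v hv
    unfold con
    split_ifs with h1
    · exact mem_insert_self _ _
    · exact mem_insert_of_mem (mem_sdiff.2 ⟨hv, h1⟩)
  have hfix : ∀ v ∈ insert x (W \ X), v ∈ W ∧ con X x v = v := by
    intro v hv
    rcases mem_insert.1 hv with rfl | hv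
    · exact ⟨hxW, by simp [con]⟩
    · exact ⟨(mem_sdiff.1 hv).1, by simp [con, (mem_sdiff.1 hv).2]⟩
  refine ⟨fun e he => ?_, fun Y hY => ?_⟩
  · have hne : s e ≠ t e := fun h1 => he (by simp [h1])
    exact ⟨hmem _ (h.ends e hne).1, hmem _ (h.ends e hne).2⟩
  · rw [ind_d_con]
    obtain ⟨⟨u, hu, huY⟩, v, hv, hvY⟩ := hY
    refine h.cut4 _ ⟨⟨u, (hfix u hu).1, ?_⟩, v, (hfix v hv).1, ?_⟩
    · simp [(hfix u hu).2, huY]
    · simp [(hfix v hv).2, hvY]

lemma ind_d_inter (h : G4 s t W) (X : Finset V) : d s t (W ∩ X) = d s t X := by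
  unfold d
  congr 1
  ext e
  simp only [mem_filter, mem_univ, true_and]
  by_cases hne : s e = t e
  · simp [cr, hne]
  · simp [cr, (h.ends e hne).1, (h.ends e hne).2]

lemma ind_four_le (h : G4 s t W) {z u : V} (hz : z ∈ W) (hu : u ∈ W) (hne : u ≠ z) :
    4 ≤ d s t {z} :=
  h.cut4 _ ⟨⟨z, hz, mem_singleton_self z⟩, u, hu, fun h1 => hne (mem_singleton.1 h1)⟩

theorem inv_law (h : G4 s t W) (hr : r ∈ W) (h4 : d s t {r} = 4)
    (hu : ∃ u ∈ W, 5 ≤ d s t {u}) : ∃ μ, InvLaw s t W r μ := by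
  induction hn : W.card using Nat.strong_induction_on generalizing s t W with
  | _ n ih =>
    set U : Finset V := W.filter fun u => 5 ≤ d s t {u} with hUdef
    have hU : ∀ u, u ∈ U ↔ u ∈ W ∧ 5 ≤ d s t {u} := fun u => mem_filter
    by_cases h5 : ∀ X, Sep U X → 5 ≤ d s t X
    · obtain ⟨u, huW, hu5⟩ := hu
      have hc : Core s t W U r :=
        { toG4 := h
          rW := hr
          rU := fun h1 => by have := ((hU r).1 h1).2; omega
          UW := filter_subset _ _
          Une := ⟨u, (hU u).2 ⟨huW, hu5⟩⟩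
          cut5 := h5
          d4 := fun z hz hzU => by
            have h1 : ¬ 5 ≤ d s t {z} := fun h1 => hzU ((hU z).2 ⟨hz, h1⟩)
            have h2 := ind_four_le h hz huW (fun h2 => h1 (h2 ▸ hu5))
            omega }
      obtain ⟨ν, L⟩ := core_law hc
      exact inv_of_core (fun v hv => by have := ((hU v).1 hv).2; omega) L
    · have hX : ∃ X, Sep U X ∧ d s t X < 5 ∧ r ∉ X := by
        push Not at h5
        obtain ⟨X, h1, h2⟩ := h5
        by_cases hrX : r ∈ X
        · exact ⟨Xᶜ, h1.compl, by rwa [d_compl], fun h3 => mem_compl.1 h3 hrX⟩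
        · exact ⟨X, h1, h2, hrX⟩
      obtain ⟨X, ⟨⟨x, hxU, hx⟩, y, hyU, hy⟩, hlt, hrX⟩ := hX
      obtain ⟨hxW, hx5⟩ := (hU x).1 hxU
      obtain ⟨hyW, hy5⟩ := (hU y).1 hyU
      have hX4 : d s t X = 4 := by
        have := h.cut4 X ⟨⟨x, hxW, hx⟩, y, hyW, hy⟩
        omega
      have hsplit : (W \ X).card + (W ∩ X).card = W.card := card_sdiff_add_card_inter W X
      have hin : 1 < (W ∩ X).card := by
        by_contra hc
        have h1 : W ∩ X = {x} := by
          refine (eq_singleton_iff_unique_mem).2 ⟨mem_inter.2 ⟨hxW, hx⟩, fun v hv => ?_⟩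
          exact card_le_one.1 (not_lt.1 hc) v hv x (mem_inter.2 ⟨hxW, hx⟩)
        have h2 := ind_d_inter h X
        rw [h1] at h2
        omega
      have hout : 1 < (W \ X).card :=
        one_lt_card.2 ⟨r, mem_sdiff.2 ⟨hr, hrX⟩, y, mem_sdiff.2 ⟨hyW, hy⟩, fun h1 => by
          rw [← h1] at hy5; omega⟩
      have hrc : r ∈ Xᶜ := mem_compl.2 hrX
      have hxc : x ∉ Xᶜ := fun h1 => mem_compl.1 h1 hx
      have hWc : W \ Xᶜ = W ∩ X := by ext v; simp
      obtain ⟨μ₁, L₁⟩ := ih (insert x (W \ X)).card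
        (by have := card_insert_le x (W \ X); omega) (ind_G4_con h hxW hx)
        (mem_insert_of_mem (mem_sdiff.2 ⟨hr, hrX⟩))
        (by rw [ind_d_con_of_notMem hx hrX, h4])
        ⟨y, mem_insert_of_mem (mem_sdiff.2 ⟨hyW, hy⟩), by rwa [ind_d_con_of_notMem hx hy]⟩ rfl
      obtain ⟨μ₂, L₂⟩ := ih (insert r (W ∩ X)).card
        (by have := card_insert_le r (W ∩ X); omega) (hWc ▸ ind_G4_con h hr hrc)
        (mem_insert_self _ _)
        (by rw [ind_d_con_self hrc, d_compl, hX4])
        ⟨x, mem_insert_of_mem (mem_inter.2 ⟨hxW, hx⟩), by rwa [ind_d_con_of_notMem hrc hxc]⟩ rfl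
      exact glue_law hx hrX hX4 L₁ L₂

end Pool.Agent.Lib.MP_a48b5a_co.U5
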