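import Pool.Agent.Lib.MP_a48b5a_co.U5Basic

/-!
# Merging a pair of edges at a vertex of degree six
-/

set_option autoImplicit false
set_option linter.unusedSectionVars false

namespace Pool.Agent.Lib.MP_a48b5a_co.U5

open Finset

variable {V E : Type} [Fintype V] [DecidableEq V] [Fintype E] [DecidableEq E]
variable {s t : E → V} {W U : Finset V} {r : V}

/-- The other end of an edge at `z`. -/
def sixEnd (s t : E → V) (z : V) (e : E) : V := if s e = z then t e else s e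

/-- The edges at `z` that cross `X`. -/
def sixTr (s t : E → V) (z : V) (X : Finset V) : Finset E :=
  univ.filter fun e => cr s t {z} e ∧ cr s t X e

section

variable {z : V} {e : E} {X Y Z : Finset V}

lemma six_joins (he : cr s t {z} e) : sixEnd s t z e ≠ z ∧ Joins s t e z (sixEnd s t z e) := by
  obtain ⟨h1, h2 | h2⟩ := cr_single.1 he
  · have : sixEnd s t z e = t e := if_pos h2
    rw [this]
    exact ⟨fun h => h1 (h2.trans h.symm), Or.inl ⟨h2, rfl⟩⟩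
  · have h3 : s e ≠ z := fun h => h1 (h.trans h2.symm)
    have : sixEnd s t z e = s e := if_neg h3
    rw [this]
    exact ⟨h3, Or.inr ⟨rfl, h2⟩⟩

lemma six_mem (h : G4 s t W) (he : cr s t {z} e) : z ∈ W ∧ sixEnd s t z e ∈ W := by
  have h1 := h.ends e (ne_of_cr he)
  rcases (six_joins he).2 with ⟨a, b⟩ | ⟨a, b⟩
  · exact ⟨a ▸ h1.1, b ▸ h1.2⟩
  · exact ⟨b ▸ h1.2, a ▸ h1.1⟩

lemma six_cr (he : cr s t {z} e) (hz : z ∉ X) : cr s t X e ↔ sixEnd s t z e ∈ X := by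
  rw [(six_joins he).2.cr_iff]
  tauto

lemma six_mem_tr (hz : z ∉ X) :
    e ∈ sixTr s t z X ↔ cr s t {z} e ∧ sixEnd s t z e ∈ X := by
  unfold sixTr
  rw [mem_filter]
  constructor
  · rintro ⟨-, a, b⟩
    exact ⟨a, (six_cr a hz).1 b⟩
  · rintro ⟨a, b⟩
    exact ⟨mem_univ _, a, (six_cr a hz).2 b⟩

lemma six_four (h : G4 s t W) (he : cr s t {z} e) (hz : z ∉ X) (hx : sixEnd s t z e ∈ X) :
    4 ≤ d s t X :=
  h.cut4 X ⟨⟨_, (six_mem h he).2, hx⟩, z, (six_mem h he).1, hz⟩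

/-- An edge at `z` outside a small set of edges. -/
lemma six_out (h6 : d s t {z} = 6) {S : Finset E} (hS : S.card ≤ 5) :
    ∃ e, cr s t {z} e ∧ e ∉ S := by
  by_contra hc
  push Not at hc
  have : (univ.filter (cr s t {z})).card ≤ S.card :=
    card_le_card fun e he => hc e (mem_filter.1 he).2
  unfold d at h6
  omega

lemma six_tr_le (h : G4 s t W) (h6 : d s t {z} = 6) (hz : z ∉ X) (hX : d s t X ≤ 5) :
    (sixTr s t z X).card ≤ 3 := by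
  have h5 : (sixTr s t z X).card ≤ 5 := by
    refine le_trans (card_le_card fun e he => ?_) hX
    exact mem_filter.2 ⟨mem_univ _, (mem_filter.1 he).2.2⟩
  obtain ⟨e, he, heS⟩ := six_out h6 h5
  have h4 : 4 ≤ d s t (insert z X) := by
    refine h.cut4 _ ⟨⟨z, (six_mem h he).1, mem_insert_self _ _⟩, _, (six_mem h he).2, ?_⟩
    rw [mem_insert]
    rintro (a | a)
    · exact (six_joins he).1 a
    · exact heS ((six_mem_tr hz).2 ⟨he, a⟩)
  have := d_insert (s := s) (t := t) hz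
  unfold sixTr
  omega

lemma six_two (h : G4 s t W) (hzX : z ∉ X) (hzY : z ∉ Y) (hX : d s t X ≤ 5) (hY : d s t Y ≤ 5)
    (h1 : ¬ sixTr s t z X ⊆ sixTr s t z Y) (h2 : ¬ sixTr s t z Y ⊆ sixTr s t z X) {a b : E}
    (aX : a ∈ sixTr s t z X) (aY : a ∈ sixTr s t z Y) (bX : b ∈ sixTr s t z X)
    (bY : b ∈ sixTr s t z Y) : a = b := by
  obtain ⟨p, pX, pY⟩ := not_subset.1 h1
  obtain ⟨q, qY, qX⟩ := not_subset.1 h2
  rw [six_mem_tr hzX] at pX qX aX bX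
  rw [six_mem_tr hzY] at pY qY aY bY
  have k1 : 4 ≤ d s t (X \ Y) := six_four h pX.1 (fun hh => hzX (mem_sdiff.1 hh).1)
    (mem_sdiff.2 ⟨pX.2, fun hh => pY ⟨pX.1, hh⟩⟩)
  have k2 : 4 ≤ d s t (Y \ X) := six_four h qY.1 (fun hh => hzY (mem_sdiff.1 hh).1)
    (mem_sdiff.2 ⟨qY.2, fun hh => qX ⟨qY.1, hh⟩⟩)
  have k3 := two_cut (s := s) (t := t) X Y
  have k4 : (univ.filter fun e => cr s t (X ∩ Y) e ∧ cr s t (X ∪ Y) e).card ≤ 1 := by omega
  have z1 : z ∉ X ∩ Y := fun hh => hzX (mem_inter.1 hh).1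
  have z2 : z ∉ X ∪ Y := fun hh => (mem_union.1 hh).elim hzX hzY
  refine card_le_one.1 k4 a ?_ b ?_
  · exact mem_filter.2 ⟨mem_univ _, (six_cr aX.1 z1).2 (mem_inter.2 ⟨aX.2, aY.2⟩),
      (six_cr aX.1 z2).2 (mem_union_left _ aX.2)⟩
  · exact mem_filter.2 ⟨mem_univ _, (six_cr bX.1 z1).2 (mem_inter.2 ⟨bX.2, bY.2⟩),
      (six_cr bX.1 z2).2 (mem_union_left _ bX.2)⟩

lemma six_three (h : G4 s t W) (hzX : z ∉ X) (hzY : z ∉ Y) (hzZ : z ∉ Z) (hX : d s t X ≤ 5)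
    (hY : d s t Y ≤ 5) (hZ : d s t Z ≤ 5) {o a b c : E} (oX : o ∈ sixTr s t z X)
    (oY : o ∈ sixTr s t z Y) (oZ : o ∈ sixTr s t z Z) (aX : a ∈ sixTr s t z X)
    (aY : a ∉ sixTr s t z Y) (aZ : a ∉ sixTr s t z Z) (bX : b ∉ sixTr s t z X)
    (bY : b ∈ sixTr s t z Y) (bZ : b ∉ sixTr s t z Z) (cX : c ∉ sixTr s t z X)
    (cY : c ∉ sixTr s t z Y) (cZ : c ∈ sixTr s t z Z) : False := by
  rw [six_mem_tr hzX] at oX aX bX cX
  rw [six_mem_tr hzY] at oY aY bY cY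
  rw [six_mem_tr hzZ] at oZ aZ bZ cZ
  have z1 : z ∉ X ∩ Y ∩ Z := fun hh => hzZ (mem_inter.1 hh).2
  have z2 : z ∉ X ∪ Y ∪ Z := fun hh =>
    (mem_union.1 hh).elim (fun h' => (mem_union.1 h').elim hzX hzY) hzZ
  have o1 : sixEnd s t z o ∈ X ∩ Y ∩ Z := mem_inter.2 ⟨mem_inter.2 ⟨oX.2, oY.2⟩, oZ.2⟩
  have k0 : 4 ≤ d s t (X ∩ Y ∩ Z) := six_four h oX.1 z1 o1
  have k1 : 4 ≤ d s t (X \ (Y ∪ Z)) := six_four h aX.1 (fun hh => hzX (mem_sdiff.1 hh).1)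
    (mem_sdiff.2 ⟨aX.2, fun hh =>
      (mem_union.1 hh).elim (fun h' => aY ⟨aX.1, h'⟩) fun h' => aZ ⟨aX.1, h'⟩⟩)
  have k2 : 4 ≤ d s t (Y \ (X ∪ Z)) := six_four h bY.1 (fun hh => hzY (mem_sdiff.1 hh).1)
    (mem_sdiff.2 ⟨bY.2, fun hh =>
      (mem_union.1 hh).elim (fun h' => bX ⟨bY.1, h'⟩) fun h' => bZ ⟨bY.1, h'⟩⟩)
  have k3 : 4 ≤ d s t (Z \ (X ∪ Y)) := six_four h cZ.1 (fun hh => hzZ (mem_sdiff.1 hh).1)
    (mem_sdiff.2 ⟨cZ.2, fun hh =>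
      (mem_union.1 hh).elim (fun h' => cX ⟨cZ.1, h'⟩) fun h' => cY ⟨cZ.1, h'⟩⟩)
  have k4 : 0 < (univ.filter fun e => cr s t (X ∩ Y ∩ Z) e ∧ cr s t (X ∪ Y ∪ Z) e).card :=
    card_pos.2 ⟨o, mem_filter.2 ⟨mem_univ _, (six_cr oX.1 z1).2 o1,
      (six_cr oX.1 z2).2 (mem_union_right _ oZ.2)⟩⟩
  have k5 := three_cut (s := s) (t := t) X Y Z
  omega

/-- A merge keeps four-edge-connectivity unless a small cut contains both edges. -/
lemma six_g4 (h : G4 s t W) {s' t' : E → V} {f f' : E} (hf : cr s t {z} f) (hf' : cr s t {z} f')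
    (m : Merge s t s' t' z f f' (sixEnd s t z f) (sixEnd s t z f'))
    (hd : ∀ X : Finset V, z ∉ X → d s t X ≤ 5 → f ∈ sixTr s t z X → f' ∉ sixTr s t z X) :
    G4 s' t' W := by
  have key : ∀ X : Finset V, z ∉ X → Sep W X → 4 ≤ d s' t' X := by
    intro X hz hX
    have h1 := m.d_eq hz
    have h2 := h.cut4 X hX
    split_ifs at h1 with h3
    · by_contra hc
      exact hd X hz (by omega) ((six_mem_tr hz).2 ⟨hf, h3.1⟩) ((six_mem_tr hz).2 ⟨hf', h3.2⟩)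
    · omega
  refine ⟨fun e he => ?_, fun X hX => ?_⟩
  · by_cases a : e = f
    · subst a
      rw [m.sf, m.tf]
      exact ⟨(six_mem h hf).2, (six_mem h hf').2⟩
    by_cases b : e = f'
    · subst b
      exact absurd m.loop he
    rw [(m.rest e a b).1, (m.rest e a b).2] at he ⊢
    exact h.ends e he
  · by_cases hz : z ∈ X
    · rw [← d_compl]
      exact key _ (fun hh => mem_compl.1 hh hz) hX.compl
    · exact key X hz hX

end

theorem exists_merge6 (h : G4 s t W) {z : V} (h6 : d s t {z} = 6) :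
    ∃ (s' t' : E → V) (f f' : E) (x x' : V), Merge s t s' t' z f f' x x' ∧ G4 s' t' W := by
  by_contra hc
  obtain ⟨o, ho, -⟩ := six_out h6 (S := ∅) (by simp)
  have dang : ∀ j, cr s t {z} j → j ≠ o → ∃ X : Finset V, z ∉ X ∧ d s t X ≤ 5 ∧
      o ∈ sixTr s t z X ∧ j ∈ sixTr s t z X := by
    intro j hj hne
    by_contra hn
    obtain ⟨s', t', m⟩ := exists_merge hne.symm (six_joins ho).1 (six_joins hj).1
      (six_joins ho).2 (six_joins hj).2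
    exact hc ⟨s', t', o, j, _, _, m,
      six_g4 h ho hj m fun X a b c e => hn ⟨X, a, b, c, e⟩⟩
  have best : ∀ P : Finset V → Prop, (∃ X, P X) →
      ∃ X, P X ∧ ∀ Y, P Y → (sixTr s t z Y).card ≤ (sixTr s t z X).card := by
    classical
    intro P ⟨X₀, h₀⟩
    obtain ⟨X, hX, hm⟩ := (univ.filter P).exists_max_image (fun X => (sixTr s t z X).card)
      ⟨X₀, mem_filter.2 ⟨mem_univ _, h₀⟩⟩
    exact ⟨X, (mem_filter.1 hX).2, fun Y hY => hm Y (mem_filter.2 ⟨mem_univ _, hY⟩)⟩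
  have nsub : ∀ {A B : Finset E} {k : E}, B.card ≤ A.card → k ∈ B → k ∉ A → ¬ A ⊆ B := by
    intro A B k h1 h2 h3 h4
    exact h3 (eq_of_subset_of_card_le h4 h1 ▸ h2)
  obtain ⟨i, hi, hio⟩ := six_out h6 (S := {o}) (by simp)
  rw [mem_singleton] at hio
  obtain ⟨X₀, a1, a2, a3, a4⟩ := dang i hi hio
  obtain ⟨X, ⟨zX, dX, oX⟩, mX⟩ :=
    best (fun X => z ∉ X ∧ d s t X ≤ 5 ∧ o ∈ sixTr s t z X) ⟨X₀, a1, a2, a3⟩
  have cX := six_tr_le h h6 zX dX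
  obtain ⟨a, aX, hao⟩ : ∃ a ∈ sixTr s t z X, a ≠ o := by
    refine exists_mem_ne (lt_of_lt_of_le ?_ (mX X₀ ⟨a1, a2, a3⟩)) o
    exact one_lt_card.2 ⟨i, a4, o, a3, hio⟩
  obtain ⟨j, hj, jX⟩ := six_out h6 (S := sixTr s t z X) (by omega)
  have hjo : j ≠ o := fun e => jX (e ▸ oX)
  obtain ⟨Y, ⟨zY, dY, oY, jY⟩, mY⟩ :=
    best (fun X => z ∉ X ∧ d s t X ≤ 5 ∧ o ∈ sixTr s t z X ∧ j ∈ sixTr s t z X) (dang j hj hjo)
  have cY := six_tr_le h h6 zY dY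
  have cU : (sixTr s t z X ∪ sixTr s t z Y).card ≤ 5 := by
    have h1 := card_union_add_card_inter (sixTr s t z X) (sixTr s t z Y)
    have h2 : 0 < (sixTr s t z X ∩ sixTr s t z Y).card :=
      card_pos.2 ⟨o, mem_inter.2 ⟨oX, oY⟩⟩
    omega
  obtain ⟨k, hk, kU⟩ := six_out h6 cU
  have kX : k ∉ sixTr s t z X := fun e => kU (mem_union_left _ e)
  have kY : k ∉ sixTr s t z Y := fun e => kU (mem_union_right _ e)
  obtain ⟨Z, zZ, dZ, oZ, kZ⟩ := dang k hk fun e => kX (e ▸ oX)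
  have nXY : ¬ sixTr s t z X ⊆ sixTr s t z Y := nsub (mX Y ⟨zY, dY, oY⟩) jY jX
  have nXZ : ¬ sixTr s t z X ⊆ sixTr s t z Z := nsub (mX Z ⟨zZ, dZ, oZ⟩) kZ kX
  have nYZ : ¬ sixTr s t z Y ⊆ sixTr s t z Z := fun e =>
    nsub (mY Z ⟨zZ, dZ, oZ, e jY⟩) kZ kY e
  have aY : a ∉ sixTr s t z Y := fun e =>
    hao (six_two h zX zY dX dY nXY (fun e' => jX (e' jY)) aX e oX oY)
  have aZ : a ∉ sixTr s t z Z := fun e =>
    hao (six_two h zX zZ dX dZ nXZ (fun e' => kX (e' kZ)) aX e oX oZ)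
  have jZ : j ∉ sixTr s t z Z := fun e =>
    hjo (six_two h zY zZ dY dZ nYZ (fun e' => kY (e' kZ)) jY e oY oZ)
  exact six_three h zX zY zZ dX dY dZ oX oY oZ aX aY aZ jX jY jZ kX kY kZ

end Pool.Agent.Lib.MP_a48b5a_co.U5
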