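import Pool.Agent.Lib.MP_a48b5a_co.U5Ind
import Pool.Agent.Lib.MP_a48b5a_co.U5Six

/-!
# A flow with many heavy vertices
-/

set_option autoImplicit false
set_option linter.unusedSectionVars false

namespace Pool.Agent.Lib.MP_a48b5a_co.U5

open Finset

variable {V E : Type} [Fintype V] [DecidableEq V] [Fintype E] [DecidableEq E]
variable {s t : E → V} {W U : Finset V} {r : V}

/-- The four root patterns `aaaa`, `aabb`, `abab`, `abba`. -/
def topPat : Fin 4 → Fin 4 → K :=
  ![![(1, 0), (1, 0), (1, 0), (1, 0)], ![(1, 0), (1, 0), (0, 1), (0, 1)],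
    ![(1, 0), (0, 1), (1, 0), (0, 1)], ![(1, 0), (0, 1), (0, 1), (1, 0)]]

lemma topPat_ne : ∀ i j, topPat i j ≠ 0 := by decide

lemma topPat_sum : ∀ i, ∑ j, topPat i j = 0 := by decide

lemma topPat_zero : ∀ j k, topPat 0 j = topPat 0 k := by decide

lemma topPat_sep : ∀ j k, j ≠ k → ∃ i, topPat i j ≠ topPat i k := by decide

lemma top_patterns (h4 : d s t {r} = 4) :
    ∃ π : Fin 4 → E → K, (∀ i, Valid s t r (π i)) ∧ (∀ g g', π 0 g = π 0 g') ∧
      ∀ g g', cr s t {r} g → cr s t {r} g' → g ≠ g' → ∃ i, π i g ≠ π i g' := by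
  set R : Finset E := univ.filter (cr s t {r}) with hR
  have hmem : ∀ e, cr s t {r} e → e ∈ R := fun e he => mem_filter.2 ⟨mem_univ e, he⟩
  let ε : R ≃ Fin 4 := Finset.equivFinOfCardEq h4
  let κ : E → Fin 4 := fun e => if h : e ∈ R then ε ⟨e, h⟩ else 0
  refine ⟨fun i e => topPat i (κ e), fun i => ⟨fun e _ => topPat_ne _ _, ?_⟩,
    fun g g' => topPat_zero _ _, fun g g' hg hg' hne => topPat_sep _ _ fun h1 => hne ?_⟩
  · rw [cs_eq_sum_filter, ← hR, ← Finset.sum_coe_sort, ← topPat_sum i,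
      ← Equiv.sum_comp ε (fun j => topPat i j)]
    refine Finset.sum_congr rfl fun e _ => ?_
    simp only [κ, dif_pos e.2]
  · simp only [κ, dif_pos (hmem g hg), dif_pos (hmem g' hg')] at h1
    exact congrArg Subtype.val (ε.injective h1)

theorem top {μ : (E → K) → Law (E → K)} (L : InvLaw s t W r μ) (h4 : d s t {r} = 4)
    {Z : Finset V} (hZW : Z ⊆ W) (hZ : ∀ z ∈ Z, d s t {z} = 4) :
    ∃ φ, IsFlow s t φ ∧ Z.card ≤ 55296000 * (Z.filter fun z => Mono s t z φ).card + 1 := by
  obtain ⟨π, hv, h0, hsep⟩ := top_patterns h4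
  have key : ∀ z ∈ Z.erase r, (4 / 55296000 : ℝ) ≤ ∑ i, (μ (π i)).pr (Mono s t z) := by
    intro z hz
    obtain ⟨hzr, hzZ⟩ := mem_erase.1 hz
    have one : ∀ i, (μ (π i)).pr (Mono s t z) ≤ ∑ i, (μ (π i)).pr (Mono s t z) := fun i =>
      Finset.single_le_sum (f := fun i => (μ (π i)).pr (Mono s t z))
        (fun j _ => Law.pr_nonneg _ _) (mem_univ i)
    rcases L.mono z (hZW hzZ) hzr (hZ z hzZ) with h1 | ⟨g, g', hg, hg', hne, h1⟩ |
      ⟨g, g', -, -, -, h1⟩
    · have a0 := h1 _ (hv 0) trivial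
      have a1 := h1 _ (hv 1) trivial
      have a2 := h1 _ (hv 2) trivial
      have a3 := h1 _ (hv 3) trivial
      rw [Fin.sum_univ_four]
      linarith
    · obtain ⟨i, hi⟩ := hsep g g' hg hg' hne
      have a := h1 _ (hv i) hi
      have b := one i
      linarith
    · have a := h1 _ (hv 0) (h0 g g')
      have b := one 0
      linarith
  have hex : ∃ i, ((Z.erase r).card : ℝ) / 55296000 ≤
      ∑ z ∈ Z.erase r, (μ (π i)).pr (Mono s t z) := by
    by_contra hc
    push Not at hc
    have h1 := Finset.card_nsmul_le_sum _ _ _ key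
    rw [Finset.sum_comm, Fin.sum_univ_four, nsmul_eq_mul] at h1
    have := hc 0
    have := hc 1
    have := hc 2
    have := hc 3
    linarith
  obtain ⟨i, hi⟩ := hex
  obtain ⟨φ, h1, h2⟩ := (μ (π i)).exists_count (Z.erase r) fun z φ => Mono s t z φ
  refine ⟨φ, (L.ext _ (hv i) φ h1).1, ?_⟩
  have h3 : ((Z.erase r).filter fun z => Mono s t z φ).card ≤
      (Z.filter fun z => Mono s t z φ).card :=
    card_le_card (filter_subset_filter _ (erase_subset _ _))
  have h5 : (Z.erase r).card ≤ 55296000 * ((Z.erase r).filter fun z => Mono s t z φ).card := by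
    have h6 : ((Z.erase r).card : ℝ) ≤
        55296000 * (((Z.erase r).filter fun z => Mono s t z φ).card : ℝ) := by
      have := hi.trans h2
      linarith
    exact_mod_cast h6
  have h7 : Z.card ≤ (Z.erase r).card + 1 := by
    have := pred_card_le_card_erase (s := Z) (a := r)
    omega
  omega

lemma top_heavy_of_mono {z : V} {φ : E → K} (h4 : d s t {z} = 4) (h : Mono s t z φ) :
    Heavy s t z φ := by
  obtain ⟨e₀, h0⟩ : (univ.filter (cr s t {z})).Nonempty := card_pos.1 (by
    unfold d at h4; omega)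
  refine ⟨φ e₀, ?_⟩
  have : (univ.filter fun e => cr s t {z} e ∧ φ e = φ e₀) = univ.filter (cr s t {z}) := by
    ext e
    simp only [mem_filter, mem_univ, true_and, and_iff_left_iff_imp]
    exact fun he => h e e₀ he (mem_filter.1 h0).2
  rw [this]
  unfold d at h4
  omega

lemma top_heavy_lift {s' t' : E → V} {z x x' v : V} {f f' : E}
    (m : Merge s t s' t' z f f' x x') {φ : E → K} (h : Heavy s' t' v φ) :
    Heavy s t v fun e => φ (rep f f' e) := by
  obtain ⟨c, hc⟩ := h
  refine ⟨c, hc.trans (le_trans (card_le_card ?_) (card_image_le (f := rep f f')))⟩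
  intro e he
  obtain ⟨h1, h2⟩ := (mem_filter.1 he).2
  rw [mem_image]
  by_cases a : e = f
  · subst a
    rw [m.cr_f] at h1
    simp only [mem_singleton] at h1
    by_cases b : x = v
    · refine ⟨e, mem_filter.2 ⟨mem_univ _, ?_, (congrArg φ (rep_of_ne m.ne)).trans h2⟩, rep_of_ne m.ne⟩
      rw [m.hf.cr_iff]
      simp only [mem_singleton]
      exact fun h3 => m.xz (b.trans (h3.2 b).symm)
    · have b' : x' = v := by tauto
      refine ⟨f', mem_filter.2 ⟨mem_univ _, ?_, (congrArg φ (rep_self _ _)).trans h2⟩, rep_self _ _⟩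
      rw [m.hf'.cr_iff]
      simp only [mem_singleton]
      exact fun h3 => m.xz' (b'.trans (h3.2 b').symm)
  · have b : e ≠ f' := fun b => m.not_cr_f' _ (b ▸ h1)
    exact ⟨e, mem_filter.2 ⟨mem_univ _, (m.cr_rest _ a b).1 h1, (congrArg φ (rep_of_ne b)).trans h2⟩,
      rep_of_ne b⟩

lemma top_deg_merge {s' t' : E → V} {z x x' : V} {f f' : E}
    (m : Merge s t s' t' z f f' x x') (v : V) :
    (v ≠ z ∧ d s' t' {v} = d s t {v}) ∨ d s' t' {v} + 2 = d s t {v} := by
  by_cases hv : v = z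
  · subst hv
    have := m.d_eq (X := {v}ᶜ) (by simp)
    rw [d_compl, d_compl, if_pos ⟨by simpa using m.xz, by simpa using m.xz'⟩] at this
    exact Or.inr this
  · have := m.d_eq (X := {v}) (fun h => hv (mem_singleton.1 h).symm)
    split_ifs at this
    · exact Or.inr this
    · exact Or.inl ⟨hv, this⟩

theorem main_heavy (h : G4 s t W) (hu : ∃ u ∈ W, Odd (d s t {u})) {Z : Finset V} (hZW : Z ⊆ W)
    (hZ : ∀ z ∈ Z, d s t {z} = 4 ∨ d s t {z} = 6) (hne : Z.Nonempty) :
    ∃ φ, IsFlow s t φ ∧ Z.card ≤ 55296000 * (Z.filter fun z => Heavy s t z φ).card + 1 := by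
  induction hn : (Z.filter fun z => d s t {z} = 6).card using Nat.strong_induction_on
    generalizing s t with
  | _ n ih =>
    obtain ⟨u, huW, hu⟩ := hu
    by_cases h6 : ∃ z ∈ Z, d s t {z} = 6
    · obtain ⟨z, hz, hz6⟩ := h6
      obtain ⟨s', t', f, f', x, x', m, h'⟩ := exists_merge6 h hz6
      have hu' : Odd (d s' t' {u}) := by
        rw [Nat.odd_iff] at hu ⊢
        rcases top_deg_merge m u with h1 | h1 <;> omega
      have hZ' : ∀ v ∈ Z, d s' t' {v} = 4 ∨ d s' t' {v} = 6 := by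
        intro v hv
        have h1 := hZ v hv
        have h2 := ind_four_le h' (hZW hv) huW (fun h2 => by
          rw [h2, Nat.odd_iff] at hu; omega)
        rcases top_deg_merge m v with h3 | h3 <;> omega
      have hlt : (Z.filter fun v => d s' t' {v} = 6).card < n := by
        rw [← hn]
        refine lt_of_le_of_lt (card_le_card fun v hv => ?_)
          (card_erase_lt_of_mem (mem_filter.2 ⟨hz, hz6⟩))
        obtain ⟨hv1, hv2⟩ := mem_filter.1 hv
        have h1 := hZ v hv1
        rcases top_deg_merge m v with h3 | h3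
        · exact mem_erase.2 ⟨h3.1, mem_filter.2 ⟨hv1, h3.2 ▸ hv2⟩⟩
        · omega
      obtain ⟨φ, h1, h2⟩ := ih _ hlt h' ⟨u, huW, hu'⟩ hZ' rfl
      refine ⟨_, m.isFlow h1, h2.trans ?_⟩
      have : (Z.filter fun v => Heavy s' t' v φ).card ≤
          (Z.filter fun v => Heavy s t v fun e => φ (rep f f' e)).card :=
        card_le_card fun v hv =>
          mem_filter.2 ⟨(mem_filter.1 hv).1, top_heavy_lift m (mem_filter.1 hv).2⟩
      omega
    · have hZ4 : ∀ z ∈ Z, d s t {z} = 4 := fun z hz =>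
        (hZ z hz).resolve_right fun h1 => h6 ⟨z, hz, h1⟩
      obtain ⟨r, hr⟩ := hne
      have h4 := hZ4 r hr
      have hu5 : 5 ≤ d s t {u} := by
        rw [Nat.odd_iff] at hu
        have := ind_four_le h huW (hZW hr) (fun h2 => by rw [h2] at h4; omega)
        omega
      obtain ⟨μ, L⟩ := inv_law h (hZW hr) h4 ⟨u, huW, hu5⟩
      obtain ⟨φ, h1, h2⟩ := top L h4 hZW hZ4
      refine ⟨φ, h1, h2.trans ?_⟩
      have : (Z.filter fun v => Mono s t v φ).card ≤ (Z.filter fun v => Heavy s t v φ).card :=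
        card_le_card fun v hv => mem_filter.2 ⟨(mem_filter.1 hv).1,
          top_heavy_of_mono (hZ4 v (mem_filter.1 hv).1) (mem_filter.1 hv).2⟩
      omega

end Pool.Agent.Lib.MP_a48b5a_co.U5
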